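import Pool.Agent.T2h78.TW.Pr

/-!
# Primary primes of `ℤ[ω]`, `ω² = ω - 2` (after `Pool/Agent/Y699/E/Pd.lean`)

Primary elements: `x + y ω` with `x = 1 mod 4`, `y` even, prime to `√-7`.
-/

set_option autoImplicit false
set_option linter.all false

open Finset

namespace Pool.Agent.T2h16.KD

open Pool.Agent.Y698 Pool.Agent.Y698.SG Pool.Agent.Y279.SG
open Pool.Agent.W192.HK (sp)
open Pool.Agent.T2h78.TW (PO)

/-- the norm as a natural number -/
noncomputable def nrm (a : RR) : ℕ := (nR a).natAbs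

lemma nrm_cast (a : RR) : (nrm a : ℤ) = nR a := Int.natAbs_of_nonneg (nR_nonneg a)

lemma nrm_eq' (a : RR) : (nrm a : ℤ) = cX a ^ 2 + cX a * cY a + 2 * cY a ^ 2 := nrm_cast a

lemma nrm_mul (a b : RR) : nrm (a * b) = nrm a * nrm b := by
  unfold nrm
  rw [nR_mul, Int.natAbs_mul]

lemma nrm_zero_iff {a : RR} : nrm a = 0 ↔ a = 0 := by
  unfold nrm
  rw [Int.natAbs_eq_zero]
  exact nR_eq_zero

lemma nrm_ne {a : RR} (h : a ≠ 0) : nrm a ≠ 0 := fun h' => h (nrm_zero_iff.1 h')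

lemma nrm_pos' {x : RR} (h : x ≠ 0) : 0 < nrm x := Nat.pos_of_ne_zero (nrm_ne h)

lemma nR_one : nR 1 = 1 := by
  unfold nR
  rw [cXY_one.1, cXY_one.2]
  norm_num

lemma nrm_one : nrm 1 = 1 := by
  unfold nrm
  rw [nR_one]
  rfl

lemma dvd_nrm (q : RR) : q ∣ ((nrm q : ℕ) : RR) := by
  refine ⟨cj q, ?_⟩
  have h1 := mul_cj q
  rw [h1, ← nrm_cast]
  push_cast
  rfl

lemma nrm_one_iff {a : RR} : nrm a = 1 ↔ IsUnit a := by
  constructor
  · intro h
    refine unit_of_nR ?_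
    rw [← nrm_cast, h]
    rfl
  · intro h
    have h1 := isUnit_nR h
    have h2 := nrm_cast a
    rw [h1] at h2
    exact_mod_cast h2

/-- primary elements -/
structure prm (a : RR) : Prop where
  x4 : cX a % 4 = 1
  y2 : cY a % 2 = 0
  cop : IsCoprime fR a

lemma prm_one : prm 1 := ⟨by rw [cXY_one.1]; rfl, by rw [cXY_one.2]; rfl, isCoprime_one_right⟩

lemma prm_mul {a b : RR} (ha : prm a) (hb : prm b) : prm (a * b) := by
  obtain ⟨k, hk⟩ : ∃ k, cX a = 1 + 4 * k := ⟨(cX a - 1) / 4, by have := ha.x4; omega⟩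
  obtain ⟨m, hm⟩ : ∃ m, cY a = 2 * m := ⟨cY a / 2, by have := ha.y2; omega⟩
  obtain ⟨l, hl⟩ : ∃ k, cX b = 1 + 4 * k := ⟨(cX b - 1) / 4, by have := hb.x4; omega⟩
  obtain ⟨n, hn⟩ : ∃ m, cY b = 2 * m := ⟨cY b / 2, by have := hb.y2; omega⟩
  refine ⟨?_, ?_, ha.cop.mul_right hb.cop⟩
  · rw [(cXY_mul a b).1, hk, hm, hl, hn]
    have e : (1 + 4 * k) * (1 + 4 * l) - 2 * (2 * m) * (2 * n) =
        1 + 4 * (k + l + 4 * k * l - 2 * m * n) := by ring
    rw [e]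
    omega
  · rw [(cXY_mul a b).2, hk, hm, hl, hn]
    have e : (1 + 4 * k) * (2 * n) + 2 * m * (1 + 4 * l) + 2 * m * (2 * n) =
        2 * ((1 + 4 * k) * n + m * (1 + 4 * l) + 2 * m * n) := by ring
    rw [e]
    omega

lemma prm.nodd {a : RR} (h : prm a) : nR a % 2 = 1 := by
  obtain ⟨k, hk⟩ : ∃ k, cX a = 1 + 4 * k := ⟨(cX a - 1) / 4, by have := h.x4; omega⟩
  obtain ⟨m, hm⟩ : ∃ m, cY a = 2 * m := ⟨cY a / 2, by have := h.y2; omega⟩
  unfold nR
  rw [hk, hm]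
  have e : (1 + 4 * k) ^ 2 + (1 + 4 * k) * (2 * m) + 2 * (2 * m) ^ 2 =
      1 + 2 * (4 * k + 8 * k ^ 2 + m + 4 * k * m + 4 * m ^ 2) := by ring
  rw [e]
  omega

lemma odd_norm' {x : RR} (h : nR x % 2 = 1) : cX x % 2 = 1 ∧ cY x % 2 = 0 := by
  unfold nR at h
  rcases Int.even_or_odd' (cX x) with ⟨k, hk | hk⟩ <;>
    rcases Int.even_or_odd' (cY x) with ⟨m, hm | hm⟩ <;> rw [hk, hm] at h
  · exfalso
    have e : (2 * k) ^ 2 + 2 * k * (2 * m) + 2 * (2 * m) ^ 2 =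
        2 * (2 * k ^ 2 + 2 * k * m + 4 * m ^ 2) := by ring
    omega
  · exfalso
    have e : (2 * k) ^ 2 + 2 * k * (2 * m + 1) + 2 * (2 * m + 1) ^ 2 =
        2 * (2 * k ^ 2 + k * (2 * m + 1) + (2 * m + 1) ^ 2) := by ring
    omega
  · omega
  · exfalso
    have e : (2 * k + 1) ^ 2 + (2 * k + 1) * (2 * m + 1) + 2 * (2 * m + 1) ^ 2 =
        2 * (2 * k ^ 2 + 3 * k + 2 * k * m + m + 1 + (2 * m + 1) ^ 2) := by ring
    omega

/-- the class modulo four of an element of odd norm -/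
lemma odd_cases {b : RR} (h : nR b % 2 = 1) (hc : IsCoprime fR b) : prm b ∨ prm (-b) := by
  obtain ⟨h1, h2⟩ := odd_norm' h
  rcases (by omega : cX b % 4 = 1 ∨ cX b % 4 = 3) with h3 | h3
  · exact Or.inl ⟨h3, h2, hc⟩
  · refine Or.inr ⟨?_, ?_, hc.neg_right⟩
    · rw [(cXY_neg b).1]; omega
    · rw [(cXY_neg b).2]; omega

lemma prm_neg {a : RR} (h : prm a) : ¬ prm (-a) := by
  intro h'
  have h1 := h.x4
  have h2 := h'.x4
  rw [(cXY_neg a).1] at h2
  omega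

lemma prm_cancel {a b : RR} (ha : prm a) (h : prm (a * b)) : prm b := by
  have h1 : nR b % 2 = 1 := by
    have h2 := h.nodd
    rw [nR_mul] at h2
    rcases Int.emod_two_eq_zero_or_one (nR b) with h3 | h3
    · rw [Int.mul_emod, h3] at h2
      simp at h2
    · exact h3
  rcases odd_cases h1 h.cop.of_mul_right_right with h2 | h2
  · exact h2
  · exfalso
    have h3 := prm_mul ha h2
    rw [mul_neg] at h3
    exact prm_neg h h3

lemma prm_ne_zero {a : RR} (h : prm a) : a ≠ 0 := by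
  rintro rfl
  have h1 := h.x4
  rw [cXY_zero.1] at h1
  norm_num at h1

lemma eq_one_of_prm {u : RR} (h : prm u) (hu : IsUnit u) : u = 1 := by
  rcases isUnit_iff.1 hu with h1 | h1
  · exact h1
  · exfalso
    rw [h1] at h
    exact prm_neg prm_one h

lemma pq_ne {π : RR} (h : PO π) : π ≠ 0 := h.pr.ne_zero

lemma pq_prm {π : RR} (h : PO π) : prm π := ⟨h.x4, h.y2, h.cop⟩

lemma PO.of {π : RR} (h : Prime π) (h' : prm π) : PO π := ⟨h, h'.x4, h'.y2, h'.cop⟩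

lemma eq_of_dvd {π ρ : RR} (h : PO π) (h' : PO ρ) (hd : π ∣ ρ) : π = ρ := by
  obtain ⟨c, hc⟩ := hd
  have hcu : IsUnit c := by
    rcases h'.pr.irreducible.isUnit_or_isUnit hc with h1 | h1
    · exact absurd h1 h.pr.not_isUnit
    · exact h1
  have hcp : prm c := prm_cancel (pq_prm h) (by rw [← hc]; exact pq_prm h')
  rw [hc, eq_one_of_prm hcp hcu, mul_one]

lemma pq_cop {π ρ : RR} (h : PO π) (h' : PO ρ) (hne : π ≠ ρ) : IsCoprime π ρ :=
  (h.pr.irreducible.coprime_iff_not_dvd).2 fun hd => hne (eq_of_dvd h h' hd)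

/-- the element with given coordinates -/
noncomputable def el (a b : ℤ) : RR := (a : RR) + (b : RR) * aR

theorem cXY_el (a b : ℤ) : cX (el a b) = a ∧ cY (el a b) = b := by
  apply cXY_of
  unfold el
  push_cast
  rw [aR_coe]

lemma el_eta (a : RR) : el (cX a) (cY a) = a := RR_ext (cXY_el _ _).1 (cXY_el _ _).2

/-- finitely many elements of bounded norm -/
lemma fin_norm_le (N : ℕ) : {a : RR | nrm a ≤ N}.Finite := by
  have h : {a : RR | nrm a ≤ N} ⊆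
      (fun p : ℤ × ℤ => el p.1 p.2) '' ((Set.Icc (-(2 * N : ℤ)) (2 * N)) ×ˢ (Set.Icc (-(2 * N : ℤ)) (2 * N))) := by
    intro a ha
    refine ⟨(cX a, cY a), ?_, el_eta a⟩
    have h1 : nrm a ≤ N := ha
    have h2 := nrm_eq' a
    have h3 : cX a ^ 2 + cX a * cY a + 2 * cY a ^ 2 ≤ N := by rw [← h2]; exact_mod_cast h1
    have h4 : ∀ x : ℤ, x ^ 2 ≤ 2 * N → -(2 * N : ℤ) ≤ x ∧ x ≤ 2 * N := by
      intro x hx
      constructor
      · nlinarith [sq_nonneg (x + 1), sq_nonneg x]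
      · nlinarith [sq_nonneg (x - 1)]
    obtain ⟨h5, h6⟩ := h4 (cX a) (by nlinarith [sq_nonneg (4 * cY a + cX a), sq_nonneg (cX a)])
    obtain ⟨h7, h8⟩ := h4 (cY a) (by nlinarith [sq_nonneg (2 * cX a + cY a), sq_nonneg (cY a)])
    exact ⟨⟨h5, h6⟩, ⟨h7, h8⟩⟩
  exact (((Set.finite_Icc _ _).prod (Set.finite_Icc _ _)).image _).subset h

lemma norm_le_of_dvd {a n : RR} (hn : n ≠ 0) (h : a ∣ n) : nrm a ≤ nrm n := by
  obtain ⟨c, rfl⟩ := h
  have hc : c ≠ 0 := right_ne_zero_of_mul hn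
  rw [nrm_mul]
  exact Nat.le_mul_of_pos_right _ (nrm_pos' hc)

lemma fin_pd {n : RR} (hn : n ≠ 0) : {π : RR | PO π ∧ π ∣ n}.Finite :=
  (fin_norm_le (nrm n)).subset fun _ h => norm_le_of_dvd hn h.2

open Classical in
/-- the primary primes dividing `n` -/
noncomputable def PD (n : RR) : Finset RR := if h : n ≠ 0 then (fin_pd h).toFinset else ∅

lemma mem_PD {n π : RR} (hn : n ≠ 0) : π ∈ PD n ↔ PO π ∧ π ∣ n := by
  unfold PD
  rw [dif_pos hn, Set.Finite.mem_toFinset]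
  rfl

/-- primary and squarefree -/
structure PS (n : RR) : Prop where
  prm : prm n
  sqf : Squarefree n

lemma PS.ne {n : RR} (h : PS n) : n ≠ 0 := prm_ne_zero h.prm

lemma PS_one : PS (1 : RR) := ⟨prm_one, squarefree_one⟩

/-- every prime dividing a primary element is associated to a primary one -/
lemma exists_PP {ρ : RR} (hρ : Prime ρ) {n : RR} (hn : prm n) (h : ρ ∣ n) :
    ∃ π, PO π ∧ Associated π ρ := by
  obtain ⟨c, hc⟩ := h
  have h1 : nR ρ % 2 = 1 := by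
    have h2 := hn.nodd
    rw [hc, nR_mul] at h2
    rcases Int.emod_two_eq_zero_or_one (nR ρ) with h3 | h3
    · rw [Int.mul_emod, h3] at h2
      simp at h2
    · exact h3
  have h2 : IsCoprime fR ρ := by
    have := hn.cop
    rw [hc] at this
    exact this.of_mul_right_left
  rcases odd_cases h1 h2 with h3 | h3
  · exact ⟨ρ, PO.of hρ h3, Associated.refl _⟩
  · exact ⟨-ρ, PO.of hρ.neg h3, Associated.neg_left (Associated.refl _)⟩

lemma prm_prod {S : Finset RR} (hS : ∀ π ∈ S, prm π) : prm (∏ π ∈ S, π) :=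
  Finset.prod_induction _ prm (fun _ _ => prm_mul) prm_one hS

lemma PS.prod {n : RR} (h : PS n) : ∏ π ∈ PD n, π = n := by
  have hn := h.ne
  have h1 : (∏ π ∈ PD n, π) ∣ n := by
    refine Finset.prod_dvd_of_coprime ?_ ?_
    · intro π hπ ρ hρ hne
      exact pq_cop ((mem_PD hn).1 hπ).1 ((mem_PD hn).1 hρ).1 hne
    · intro π hπ
      exact ((mem_PD hn).1 hπ).2
  obtain ⟨u, hu⟩ := h1
  have hP : KD.prm (∏ π ∈ PD n, π) := prm_prod fun π hπ => pq_prm ((mem_PD hn).1 hπ).1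
  have hup : KD.prm u := prm_cancel hP (by rw [← hu]; exact h.prm)
  have huu : IsUnit u := by
    by_contra hnu
    obtain ⟨ρ, hρ, hρu⟩ := WfDvdMonoid.exists_irreducible_factor hnu (prm_ne_zero hup)
    have hρ' : Prime ρ := irreducible_iff_prime.1 hρ
    have h2 : ρ ∣ n := by rw [hu]; exact hρu.mul_left _
    obtain ⟨π, hπ, hass⟩ := exists_PP hρ' h.prm h2
    have h3 : π ∈ PD n := (mem_PD hn).2 ⟨hπ, hass.dvd.trans h2⟩
    have h4 : π * π ∣ n := by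
      rw [hu]
      exact mul_dvd_mul (Finset.dvd_prod_of_mem _ h3) (hass.dvd.trans hρu)
    exact hπ.pr.not_isUnit (h.sqf _ h4)
  rw [eq_one_of_prm hup huu, mul_one] at hu
  exact hu.symm

lemma PS.of_dvd {d D : RR} (h : PS D) (hd : KD.prm d) (hdD : d ∣ D) : PS d :=
  ⟨hd, h.sqf.squarefree_of_dvd hdD⟩

/-- products of sets of primary primes -/
lemma PS_prod {S : Finset RR} (hS : ∀ π ∈ S, PO π) : PS (∏ π ∈ S, π) ∧ PD (∏ π ∈ S, π) = S := by
  classical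
  set n := ∏ π ∈ S, π with hn
  have hP : prm n := prm_prod fun π hπ => pq_prm (hS π hπ)
  have hn0 : n ≠ 0 := prm_ne_zero hP
  have hmem : ∀ ρ : RR, Prime ρ → ρ ∣ n → ∃ π ∈ S, Associated ρ π := by
    intro ρ hρ h
    rw [hn] at h
    obtain ⟨π, hπ, h2⟩ := (hρ.dvd_finsetProd_iff _).1 h
    exact ⟨π, hπ, (hρ.irreducible).associated_of_dvd (hS π hπ).pr.irreducible h2⟩
  have hPD : PD n = S := by
    ext π
    rw [mem_PD hn0]
    constructor
    · rintro ⟨h1, h2⟩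
      obtain ⟨ρ, hρ, hass⟩ := hmem π h1.pr h2
      rw [eq_of_dvd h1 (hS ρ hρ) hass.dvd]
      exact hρ
    · intro h
      exact ⟨hS π h, Finset.dvd_prod_of_mem _ h⟩
  refine ⟨⟨hP, ?_⟩, hPD⟩
  intro x hx
  by_contra hnu
  have hx0 : x ≠ 0 := by
    rintro rfl
    rw [zero_mul, zero_dvd_iff] at hx
    exact hn0 hx
  obtain ⟨ρ, hρ, hρx⟩ := WfDvdMonoid.exists_irreducible_factor hnu hx0
  have hρ' : Prime ρ := irreducible_iff_prime.1 hρ
  have h1 : ρ * ρ ∣ n := (mul_dvd_mul hρx hρx).trans hx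
  obtain ⟨π, hπ, hass⟩ := hmem ρ hρ' ((dvd_mul_right _ _).trans h1)
  have h2 : π * π ∣ π * ∏ σ ∈ S.erase π, σ := by
    rw [Finset.mul_prod_erase S (fun σ => σ) hπ]
    exact (mul_dvd_mul hass.symm.dvd hass.symm.dvd).trans h1
  have h3 := (mul_dvd_mul_iff_left (hS π hπ).pr.ne_zero).1 h2
  obtain ⟨σ, hσ, h4⟩ := ((hS π hπ).pr.dvd_finsetProd_iff _).1 h3
  have h5 := eq_of_dvd (hS π hπ) (hS σ (Finset.mem_of_mem_erase hσ)) h4
  exact (Finset.mem_erase.1 hσ).1 h5.symm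

lemma PD_subset {d D : RR} (hD : D ≠ 0) (h : d ∣ D) : PD d ⊆ PD D := by
  intro π hπ
  have hd : d ≠ 0 := by
    rintro rfl
    exact hD (zero_dvd_iff.1 h)
  rw [mem_PD hd] at hπ
  exact (mem_PD hD).2 ⟨hπ.1, hπ.2.trans h⟩

lemma PD_one : PD (1 : RR) = ∅ := by
  rw [Finset.eq_empty_iff_forall_notMem]
  intro π hπ
  rw [mem_PD one_ne_zero] at hπ
  exact hπ.1.pr.not_isUnit (isUnit_of_dvd_one hπ.2)

lemma PD_mul {a b : RR} (ha : a ≠ 0) (hb : b ≠ 0) : PD (a * b) = PD a ∪ PD b := by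
  classical
  ext π
  rw [Finset.mem_union, mem_PD (mul_ne_zero ha hb), mem_PD ha, mem_PD hb]
  constructor
  · rintro ⟨h1, h2⟩
    rcases h1.pr.dvd_or_dvd h2 with h | h
    · exact Or.inl ⟨h1, h⟩
    · exact Or.inr ⟨h1, h⟩
  · rintro (⟨h1, h2⟩ | ⟨h1, h2⟩)
    · exact ⟨h1, h2.mul_right _⟩
    · exact ⟨h1, h2.mul_left _⟩

lemma PD_disj {a b : RR} (ha : a ≠ 0) (hb : b ≠ 0) (h : IsCoprime a b) : Disjoint (PD a) (PD b) := by
  rw [Finset.disjoint_left]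
  intro π h1 h2
  rw [mem_PD ha] at h1
  rw [mem_PD hb] at h2
  exact h1.1.pr.not_isUnit (h.isUnit_of_dvd' h1.2 h2.2)

lemma PD_prime {π : RR} (h : PO π) : PD π = {π} := by
  ext ρ
  rw [mem_PD (pq_ne h), Finset.mem_singleton]
  constructor
  · rintro ⟨h1, h2⟩
    exact eq_of_dvd h1 h h2
  · rintro rfl
    exact ⟨h, dvd_rfl⟩

lemma PS.mul_iff {a b : RR} (ha : KD.prm a) (hb : KD.prm b) : PS (a * b) ↔ PS a ∧ PS b ∧ IsCoprime a b := by
  constructor
  · intro h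
    refine ⟨h.of_dvd ha (dvd_mul_right _ _), h.of_dvd hb (dvd_mul_left _ _), ?_⟩
    exact (isRelPrime_iff_isCoprime.1 (squarefree_mul_iff.1 h.sqf).1)
  · rintro ⟨h1, h2, h3⟩
    exact ⟨prm_mul ha hb, squarefree_mul_iff.2 ⟨isRelPrime_iff_isCoprime.2 h3, h1.sqf, h2.sqf⟩⟩

end Pool.Agent.T2h16.KD
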