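import Pool.Agent.T3h64.KD.Fib

/-! Project KD: BAD (helper64). -/

set_option autoImplicit false
set_option linter.unusedVariables false

open scoped Classical

namespace Pool.Agent.T2h16.KD

open Finset Filter
open Pool.Agent.Y698 hiding zz
open Pool.Agent.Y698.SG
open Pool.Agent.T2h78.TW (PO te sl)
open Pool.Agent.Y703.CX (jj XX eL zz kk)
open Pool.Agent.Y703.CQ (sg S_MER)
open Pool.Agent.T3h64.KD
open Pool.Agent.Y699.E (sum_le_inj one_le_lg lg_pos lg_mono log_le_lg)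

namespace BADp

/-- the labels are degenerate with respect to a set -/
def Dg (W : Finset RR) (a b : ZMod 2) (T : Finset RR) : Prop :=
  ∀ π ∈ T, ∑ u ∈ W, cs π u + a * te π + b * cc π = 0

theorem notNd {S₀ T : Finset RR} (h : ¬ Nd S₀ T) : ∃ (W : Finset RR) (a b : ZMod 2), W ⊆ S₀ ∧
    (W.Nonempty ∨ a ≠ 0 ∨ b ≠ 0) ∧ Dg W a b T := by
  unfold Nd at h
  push Not at h
  obtain ⟨w, a, b, h1, h2⟩ := h
  refine ⟨S₀.filter fun u => w u ≠ 0, a, b, filter_subset _ _, ?_, ?_⟩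
  · rcases h1 with ⟨u, hu, hu0⟩ | h1
    · exact Or.inl ⟨u, mem_filter.2 ⟨hu, hu0⟩⟩
    · exact Or.inr h1
  · intro π hπ
    have h3 := h2 π hπ
    refine Eq.trans ?_ h3
    rw [sum_filter]
    congr 2
    refine sum_congr rfl fun u _ => ?_
    have key : ∀ a b : ZMod 2, (if a ≠ 0 then b else 0) = a * b := by decide
    exact key (w u) (cs π u)

theorem xw_norm (W : Finset RR) (a b : ZMod 2) (n : RR) : ‖xw W a b n‖ ≤ 1 := by
  unfold xw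
  rw [norm_mul, norm_mul, norm_sg, norm_sg, mul_one, mul_one, norm_prod]
  exact prod_le_one (fun _ _ => norm_nonneg _) fun u _ => chi_norm u n

theorem pair_count {C : ℝ} (hC : ∀ (W : Finset RR) (a b : ZMod 2), (∀ u ∈ W, PO u) →
      (W.Nonempty ∨ a ≠ 0 ∨ b ≠ 0) → ∀ T : ℕ,
      ∑ n ∈ SB T, mf (fun π => (1 + (xw W a b π).re) / 2) n ≤
        C * (L2 (∏ u ∈ W, nrm u)) ^ (1 / 2 : ℝ) * (T * (L2 T) ^ (-(1 / 2) : ℝ)))
    (hC1 : 1 ≤ C) (X z : ℕ) (S₀ : Finset RR) (hS₀ : ∀ u ∈ S₀, PO u ∧ nrm u ≤ z)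
    (W : Finset RR) (a b : ZMod 2) (hW : W ⊆ S₀) (hne : W.Nonempty ∨ a ≠ 0 ∨ b ≠ 0)
    (F : Finset (Finset RR)) (hF : ∀ S ∈ F, (S ∈ SS X ∧ sm z S = S₀) ∧ Dg W a b (la z S)) :
    (F.card : ℝ) ≤ C * L2 (pN S₀) * (((X / pN S₀ : ℕ) : ℝ) *
          (L2 (X / pN S₀)) ^ (-(1 / 4) : ℝ)) := by
  have hval : ∀ S ∈ F, ∀ π ∈ la z S, xw W a b π = 1 := by
    intro S hS π hπ
    obtain ⟨⟨h1, h2⟩, h3⟩ := hF S hS
    have hπq : PO π ∧ ¬ nrm π ≤ z := by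
      unfold la at hπ
      rw [mem_filter] at hπ
      unfold SS at h1
      rw [mem_filter] at h1
      exact ⟨h1.2.1.1 π hπ.1, hπ.2⟩
    have hchi : ∀ u ∈ S₀, chi u π = sg (cs π u) := by
      intro u hu
      have hne' : π ≠ u := by
        rintro rfl
        exact hπq.2 (hS₀ π hu).2
      have hnd : ¬ u ∣ π := fun hdv => hne' (eq_of_dvd (hS₀ u hu).1 hπq.1 hdv).symm
      rw [chi_of hnd]
      unfold cs
      rw [if_neg hne']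
    unfold xw
    rw [prod_congr rfl fun u hu => hchi u (hW hu), ← sg_sum, ← sg_add, ← sg_add, h3 π hπ, sg_zero]
  have h := fiber_le X z S₀ (fun u hu => (hS₀ u hu).1) F (fun S hS => (hF S hS).1)
    (fun π => (1 + (xw W a b π).re) / 2) (fun π => by
      have h1 := xw_norm W a b π
      have h2 := Complex.abs_re_le_norm (xw W a b π)
      have h3 := neg_abs_le (xw W a b π).re
      have : (0 : ℝ) ≤ 1 + (xw W a b π).re := by linarith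
      positivity) 1 (fun S hS => by
      refine le_of_eq (prod_eq_one fun π hπ => ?_).symm
      rw [hval S hS π hπ]
      norm_num)
  rw [mul_one] at h
  refine h.trans ((hC W a b (fun u hu => (hS₀ u (hW hu)).1) hne _).trans ?_)
  have hnn : ∏ u ∈ W, nrm u ≤ pN S₀ := by
    unfold pN
    refine prod_le_prod_of_subset_of_one_le' hW fun u hu _ => ?_
    exact nrm_pos' (pq_ne (hS₀ u hu).1)
  have h4 : (L2 (∏ u ∈ W, nrm u)) ^ (1 / 2 : ℝ) ≤ L2 (pN S₀) := by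
    calc (L2 (∏ u ∈ W, nrm u)) ^ (1 / 2 : ℝ) ≤ (L2 (∏ u ∈ W, nrm u)) ^ (1 : ℝ) :=
          Real.rpow_le_rpow_of_exponent_le (one_le_lg _) (by norm_num)
      _ = L2 (∏ u ∈ W, nrm u) := Real.rpow_one _
      _ ≤ L2 (pN S₀) := lg_mono hnn
  have h5 : (L2 (X / pN S₀)) ^ (-(1 / 2) : ℝ) ≤ (L2 (X / pN S₀)) ^ (-(1 / 4) : ℝ) :=
    Real.rpow_le_rpow_of_exponent_le (one_le_lg _) (by norm_num)
  have hTl : 0 ≤ (L2 (X / pN S₀)) ^ (-(1 / 2) : ℝ) :=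
    Real.rpow_nonneg (zero_le_one.trans (one_le_lg _)) _
  have hL : 0 ≤ L2 (pN S₀) := (lg_pos _).le
  gcongr

theorem bad_count {C : ℝ} (hC : ∀ (W : Finset RR) (a b : ZMod 2), (∀ u ∈ W, PO u) →
      (W.Nonempty ∨ a ≠ 0 ∨ b ≠ 0) → ∀ T : ℕ,
      ∑ n ∈ SB T, mf (fun π => (1 + (xw W a b π).re) / 2) n ≤
        C * (L2 (∏ u ∈ W, nrm u)) ^ (1 / 2 : ℝ) * (T * (L2 T) ^ (-(1 / 2) : ℝ)))
    (hC1 : 1 ≤ C) (X : ℕ) (S₀ : Finset RR) (hS₀ : ∀ u ∈ S₀, PO u ∧ nrm u ≤ zz X)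
    (G : Finset (Finset RR))
    (hG : ∀ S ∈ G, S ∈ SS X ∧ (S.card ≤ kk X ∧ ¬ Nd (sm (zz X) S) (la (zz X) S)) ∧
      sm (zz X) S = S₀) : (G.card : ℝ) ≤
        (4 * C) * 2 ^ S₀.card * L2 (pN S₀) * (((X / pN S₀ : ℕ) : ℝ) *
          (L2 (X / pN S₀)) ^ (-(1 / 4) : ℝ)) := by
  set P := (S₀.powerset ×ˢ ((univ : Finset (ZMod 2)) ×ˢ (univ : Finset (ZMod 2)))).filter
    fun p => p.1.Nonempty ∨ p.2.1 ≠ 0 ∨ p.2.2 ≠ 0 with hP
  have hsub : G ⊆ P.biUnion fun p => G.filter fun S => Dg p.1 p.2.1 p.2.2 (la (zz X) S) := by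
    intro S hS
    obtain ⟨h1, ⟨h2, h3⟩, h4⟩ := hG S hS
    rw [h4] at h3
    obtain ⟨W, a, b, hW, hne, hDg⟩ := notNd h3
    rw [mem_biUnion]
    refine ⟨(W, a, b), ?_, ?_⟩
    · rw [hP, mem_filter, mem_product, mem_powerset]
      exact ⟨⟨hW, mem_product.2 ⟨mem_univ _, mem_univ _⟩⟩, hne⟩
    · rw [mem_filter]
      exact ⟨hS, hDg⟩
  have h1 : (G.card : ℝ) ≤
      ∑ p ∈ P, ((G.filter fun S => Dg p.1 p.2.1 p.2.2 (la (zz X) S)).card : ℝ) := by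
    exact_mod_cast (card_le_card hsub).trans card_biUnion_le
  have h2 : ∀ p ∈ P, ((G.filter fun S => Dg p.1 p.2.1 p.2.2 (la (zz X) S)).card : ℝ) ≤
      C * L2 (pN S₀) * (((X / pN S₀ : ℕ) : ℝ) * (L2 (X / pN S₀)) ^ (-(1 / 4) : ℝ)) := by
    intro p hp
    rw [hP, mem_filter, mem_product, mem_powerset] at hp
    refine pair_count hC hC1 X (zz X) S₀ hS₀ p.1 p.2.1 p.2.2 hp.1.1 hp.2 _ ?_
    intro S hS
    rw [mem_filter] at hS
    have h := hG S hS.1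
    exact ⟨⟨h.1, h.2.2⟩, hS.2⟩
  have h3 : (P.card : ℝ) ≤ 4 * 2 ^ S₀.card := by
    have : P.card ≤ 4 * 2 ^ S₀.card := by
      refine (card_filter_le _ _).trans (le_of_eq ?_)
      rw [card_product, card_product, card_powerset, card_univ, ZMod.card]
      ring
    exact_mod_cast this
  have hTl : 0 ≤ ((X / pN S₀ : ℕ) : ℝ) * (L2 (X / pN S₀)) ^ (-(1 / 4) : ℝ) :=
    mul_nonneg (Nat.cast_nonneg _) (Real.rpow_nonneg (zero_le_one.trans (one_le_lg _)) _)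
  have hlg : 0 < L2 (pN S₀) := lg_pos (pN S₀)
  calc (G.card : ℝ) ≤ ∑ p ∈ P, C * L2 (pN S₀) * (((X / pN S₀ : ℕ) : ℝ) *
        (L2 (X / pN S₀)) ^ (-(1 / 4) : ℝ)) := h1.trans (sum_le_sum h2)
    _ = P.card * (C * L2 (pN S₀) * (((X / pN S₀ : ℕ) : ℝ) *
        (L2 (X / pN S₀)) ^ (-(1 / 4) : ℝ))) := by rw [sum_const, nsmul_eq_mul]
    _ ≤ (4 * 2 ^ S₀.card) * (C * L2 (pN S₀) * (((X / pN S₀ : ℕ) : ℝ) *
        (L2 (X / pN S₀)) ^ (-(1 / 4) : ℝ))) :=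
        mul_le_mul_of_nonneg_right h3 (by positivity)
    _ = _ := by ring

end BADp

open BADp

theorem t_BAD : S_BADT := by
  rintro ⟨C, hC1, hC⟩ hgen ε hε
  obtain ⟨X₀, hX₀⟩ := hgen 2 (4 * C) (by norm_num) (by positivity)
    (fun X S => ¬ Nd (sm (zz X) S) (la (zz X) S))
    (fun X S₀ hS₀ _ F hF => bad_count hC hC1 X S₀ hS₀ F hF) ε hε
  refine ⟨X₀, fun X hX => hX₀ X hX _ fun S hS => ?_⟩
  rw [mem_filter] at hS
  exact hS

end Pool.Agent.T2h16.KD
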