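import Pool.Agent.T2h16.KD.Stm

/-!
# Bilinear sums of quadratic symbols over `ℤ[ω]` (task BIL of project KD)

After `Pool/Agent/Y699/E/Box.lean` and `Pool/Agent/Y363/XK/Bil.lean`. The symmetry of the symbol is
replaced by the reciprocity law with the sign `sg (tes x * tes y)`, which is a combination of four
products of functions of `x` and functions of `y`.
-/

set_option autoImplicit false
set_option linter.all false

open scoped Classical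

namespace Pool.Agent.T2h16.KD

open Finset Filter
open Pool.Agent.Y698 hiding zz
open Pool.Agent.Y698.SG
open Pool.Agent.T2h78.TW (PO te sl)
open Pool.Agent.Y703.CQ (sg)
open scoped ComplexConjugate

namespace BLx

/-- bilinear form -/
noncomputable def Bil (α β : RR → ℂ) (M N : ℕ) : ℂ :=
  ∑ x ∈ SB M, ∑ y ∈ SB N, α x * β y * jac x y

/-- the mean square, with the constant `D` -/
def HM (D : ℝ) : Prop := ∀ γ : RR → ℂ, (∀ x, ‖γ x‖ ≤ 1) → ∀ M N : ℕ, 1 ≤ M →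
  M ^ 6 ≤ N → ∑ h ∈ PB N, ‖∑ x ∈ SB M, γ x * jac x h‖ ^ 2 ≤ D * (M * N)

lemma mem_DP {n d : RR} (hn : n ≠ 0) : d ∈ DP n ↔ prm d ∧ d ∣ n := by
  unfold DP
  rw [mem_filter, mem_PB]
  exact ⟨fun h => ⟨h.1.2, h.2⟩, fun h => ⟨⟨norm_le_of_dvd hn h.2, h.1⟩, h.2⟩⟩

lemma exists_phase (z : ℂ) : ∃ θ : ℂ, ‖θ‖ ≤ 1 ∧ θ * z = (‖z‖ : ℂ) := by
  by_cases h : z = 0
  · exact ⟨0, by simp, by simp [h]⟩
  · have h1 : ‖z‖ ≠ 0 := norm_ne_zero_iff.2 h
    refine ⟨conj z / ‖z‖, ?_, ?_⟩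
    · rw [norm_div, Complex.norm_conj, Complex.norm_real, norm_norm, div_self h1]
    · have h2 : ((‖z‖ : ℝ) : ℂ) ≠ 0 := by exact_mod_cast h1
      rw [div_mul_eq_mul_div, div_eq_iff h2, mul_comm (conj z), Complex.mul_conj,
        Complex.normSq_eq_norm_sq]
      push_cast
      ring

/-- the bound for the sixth power of the number of divisors -/
lemma div_six (hdv : S_DIV) : ∃ C : ℝ, 1 ≤ C ∧ ∀ (N : ℕ) (h : RR), 1 ≤ N → prm h → nrm h ≤ N ^ 6 →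
    ((DP h).card : ℝ) ^ 6 ≤ C * (N : ℝ) ^ (1 / 12 : ℝ) := by
  obtain ⟨C1, hC1, hdiv⟩ := hdv (1 / 432) (by norm_num)
  refine ⟨C1 ^ 6, one_le_pow₀ hC1, ?_⟩
  intro N h hN hh hhN
  have hNr : (0 : ℝ) ≤ N := Nat.cast_nonneg N
  have hn0 : (0 : ℝ) ≤ (nrm h : ℝ) := Nat.cast_nonneg _
  have h4 : ((DP h).card : ℝ) ^ 6 ≤ (C1 * (nrm h : ℝ) ^ (1 / 432 : ℝ)) ^ 6 := by
    have := hdiv h hh
    gcongr
  have e : ((nrm h : ℝ) ^ (1 / 432 : ℝ)) ^ 6 = (nrm h : ℝ) ^ (1 / 72 : ℝ) := by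
    rw [← Real.rpow_natCast, ← Real.rpow_mul hn0]
    norm_num
  have h6 : (nrm h : ℝ) ^ (1 / 72 : ℝ) ≤ (N : ℝ) ^ (1 / 12 : ℝ) := by
    have e : (N : ℝ) ^ (1 / 12 : ℝ) = ((N : ℝ) ^ 6) ^ (1 / 72 : ℝ) := by
      rw [← Real.rpow_natCast, ← Real.rpow_mul hNr]
      norm_num
    rw [e]
    apply Real.rpow_le_rpow hn0 _ (by norm_num)
    exact_mod_cast hhN
  rw [mul_pow, e] at h4
  refine h4.trans ?_
  gcongr

lemma SB_sub_PB (N : ℕ) : SB N ⊆ PB N := by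
  intro x hx
  rw [mem_SB] at hx
  exact mem_PB.2 ⟨hx.1, hx.2.prm⟩

/-- first case -/
lemma bil_long {D : ℝ} (hD : HM D) {α β : RR → ℂ} (hα : ∀ x, ‖α x‖ ≤ 1) (hβ : ∀ x, ‖β x‖ ≤ 1)
    {M N : ℕ} (hM : 1 ≤ M) (hMN : M ^ 6 ≤ N) : ‖Bil α β M N‖ ^ 2 ≤ 16 * D * (M * N ^ 2) := by
  have hN : 1 ≤ N := (Nat.one_le_pow _ _ hM).trans hMN
  have e1 : Bil α β M N = ∑ y ∈ SB N, β y * ∑ x ∈ SB M, α x * jac x y := by
    unfold Bil
    rw [sum_comm]
    refine sum_congr rfl fun y _ => ?_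
    rw [mul_sum]
    refine sum_congr rfl fun x _ => by ring
  have e2 : ‖Bil α β M N‖ ≤ ∑ y ∈ SB N, ‖β y‖ * ‖∑ x ∈ SB M, α x * jac x y‖ := by
    rw [e1]
    refine (norm_sum_le _ _).trans (le_of_eq ?_)
    exact sum_congr rfl fun y _ => norm_mul _ _
  have h1 := sum_mul_sq_le_sq_mul_sq (SB N) (fun y => ‖β y‖) (fun y => ‖∑ x ∈ SB M, α x * jac x y‖)
  refine (pow_le_pow_left₀ (norm_nonneg _) e2 2).trans (h1.trans ?_)
  have h2 : ∑ y ∈ SB N, ‖β y‖ ^ 2 ≤ 16 * N := by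
    have : ∀ y ∈ SB N, ‖β y‖ ^ 2 ≤ 1 := fun y _ => pow_le_one₀ (norm_nonneg _) (hβ y)
    refine (sum_le_sum this).trans ?_
    rw [sum_const, nsmul_eq_mul, mul_one]
    exact card_SB_le hN
  have h3 : ∑ y ∈ SB N, ‖∑ x ∈ SB M, α x * jac x y‖ ^ 2 ≤ D * (M * N) :=
    (sum_le_sum_of_subset_of_nonneg (SB_sub_PB N) (fun _ _ _ => sq_nonneg _)).trans
      (hD α hα M N hM hMN)
  have h4 : (0 : ℝ) ≤ ∑ y ∈ SB N, ‖∑ x ∈ SB M, α x * jac x y‖ ^ 2 :=
    sum_nonneg fun _ _ => sq_nonneg _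
  calc (∑ y ∈ SB N, ‖β y‖ ^ 2) * ∑ y ∈ SB N, ‖∑ x ∈ SB M, α x * jac x y‖ ^ 2
      ≤ (16 * N) * (D * (M * N)) := mul_le_mul h2 h3 h4 (by positivity)
    _ = 16 * D * (M * N ^ 2) := by ring

lemma jac_prod_fin {x : RR} (hx : x ≠ 0) (p : Fin 6 → RR) : jac x (∏ i, p i) = ∏ i, jac x (p i) :=
  jac_prod hx univ p

lemma nrm_prod {ι : Type*} (s : Finset ι) (p : ι → RR) : nrm (∏ i ∈ s, p i) = ∏ i ∈ s, nrm (p i) := by
  classical
  induction s using Finset.induction_on with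
  | empty => rw [prod_empty, prod_empty, nrm_one]
  | insert a s ha ih => rw [prod_insert ha, prod_insert ha, nrm_mul, ih]

/-- second case -/
lemma bil_short {D : ℝ} (hD1 : 1 ≤ D) (hD : HM D) (hdv : S_DIV) :
    ∃ C : ℝ, 1 ≤ C ∧ ∀ (α β : RR → ℂ), (∀ x, ‖α x‖ ≤ 1) → (∀ x, ‖β x‖ ≤ 1) →
    ∀ M N : ℕ, 1 ≤ M → M ≤ N →
    ‖Bil α β M N‖ ^ 12 ≤ C * ((M : ℝ) ^ 11 * (N : ℝ) ^ 12 * (N : ℝ) ^ (1 / 12 : ℝ)) := by
  obtain ⟨R, hR1, hR⟩ := div_six hdv
  refine ⟨16 ^ 16 * D * R, by nlinarith [mul_le_mul hD1 hR1 (by norm_num) (by linarith)], ?_⟩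
  intro α β hα hβ M N hM hMN
  have hN : 1 ≤ N := hM.trans hMN
  have hMr : (0 : ℝ) ≤ M := Nat.cast_nonneg M
  have hNr : (0 : ℝ) ≤ N := Nat.cast_nonneg N
  have hD0 : (0 : ℝ) ≤ D := by linarith
  set A : RR → ℂ := fun x => ∑ y ∈ SB N, β y * jac x y with hA
  have hS : ‖Bil α β M N‖ ≤ ∑ x ∈ SB M, ‖A x‖ := by
    have e1 : Bil α β M N = ∑ x ∈ SB M, α x * A x := by
      unfold Bil
      refine sum_congr rfl fun x _ => ?_
      rw [hA, mul_sum]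
      refine sum_congr rfl fun y _ => by ring
    rw [e1]
    refine (norm_sum_le _ _).trans (sum_le_sum fun x _ => ?_)
    rw [norm_mul]
    exact mul_le_of_le_one_left (norm_nonneg _) (hα x)
  set W : ℝ := ∑ x ∈ SB M, ‖A x‖ ^ 6 with hW
  have hW0 : 0 ≤ W := sum_nonneg fun x _ => by positivity
  have hS6 : ‖Bil α β M N‖ ^ 6 ≤ (16 * M) ^ 5 * W := by
    have h1 : ‖Bil α β M N‖ ^ 6 ≤ (∑ x ∈ SB M, ‖A x‖) ^ 6 := pow_le_pow_left₀ (norm_nonneg _) hS 6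
    have h3 : (∑ x ∈ SB M, ‖A x‖) ^ 6 ≤ ((SB M).card : ℝ) ^ 5 * ∑ x ∈ SB M, ‖A x‖ ^ 6 := by
      have hc := pow_sum_div_card_le_sum_pow (s := SB M) (f := fun x => ‖A x‖) (n := 5) (fun x _ => norm_nonneg _)
      by_cases hcard : (SB M).card = 0
      · rw [Finset.card_eq_zero] at hcard
        rw [hcard]
        simp
      · have hcp : (0 : ℝ) < ((SB M).card : ℝ) ^ 5 := by positivity
        rw [div_le_iff₀ hcp] at hc
        rw [mul_comm]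
        exact hc
    refine h1.trans (h3.trans ?_)
    have h5 := card_SB_le hM
    exact mul_le_mul_of_nonneg_right (pow_le_pow_left₀ (Nat.cast_nonneg _) h5 5) hW0
  -- expansion of the sixth power
  set P := Fintype.piFinset (fun _ : Fin 6 => SB N) with hP
  choose θ hθ1 hθ2 using fun x => exists_phase (A x ^ 6)
  set G : RR → ℂ := fun h => ∑ x ∈ SB M, θ x * jac x h with hG
  have hWexp : (W : ℂ) = ∑ p ∈ P, (∏ i, β (p i)) * G (∏ i, p i) := by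
    have h1 : ∀ x ∈ SB M, ((‖A x‖ ^ 6 : ℝ) : ℂ) = ∑ p ∈ P, (∏ i, β (p i)) * (θ x * jac x (∏ i, p i)) := by
      intro x hx
      have hx0 := (mem_SB.1 hx).2.ne
      have h2 : (A x) ^ 6 = ∏ _i : Fin 6, ∑ y ∈ SB N, β y * jac x y := by
        rw [prod_const, card_univ, Fintype.card_fin]
      rw [← norm_pow, ← hθ2 x, h2, prod_univ_sum, mul_sum]
      refine sum_congr rfl fun p _ => ?_
      rw [prod_mul_distrib, jac_prod_fin hx0]
      ring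
    rw [hW, Complex.ofReal_sum, sum_congr rfl h1, sum_comm]
    refine sum_congr rfl fun p _ => ?_
    rw [hG, mul_sum]
  have hPmem : ∀ p ∈ P, (∏ i, p i) ∈ PB (N ^ 6) := by
    intro p hp
    rw [hP, Fintype.mem_piFinset] at hp
    rw [mem_PB]
    constructor
    · rw [nrm_prod]
      refine (prod_le_prod' fun i _ => (mem_SB.1 (hp i)).1).trans ?_
      rw [prod_const, card_univ, Fintype.card_fin]
    · exact prod_induction _ prm (fun a b => prm_mul) prm_one fun i _ => (mem_SB.1 (hp i)).2.prm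
  have hcardP : (P.card : ℝ) ≤ (16 * N) ^ 6 := by
    rw [hP, Fintype.card_piFinset, prod_const, card_univ, Fintype.card_fin]
    push_cast
    have h5 := card_SB_le hN
    exact pow_le_pow_left₀ (Nat.cast_nonneg _) h5 6
  have hN6 : 1 ≤ N ^ 6 := Nat.one_le_pow _ _ hN
  have hmean := hD θ hθ1 M (N ^ 6) hM (Nat.pow_le_pow_left hMN 6)
  have hG2 : ∑ p ∈ P, ‖G (∏ i, p i)‖ ^ 2 ≤ R * (N : ℝ) ^ (1 / 12 : ℝ) * (D * (M * (N : ℝ) ^ 6)) := by
    classical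
    rw [← sum_fiberwise_of_maps_to hPmem]
    have h1 : ∀ h ∈ PB (N ^ 6), ∑ p ∈ P.filter (fun p => ∏ i, p i = h), ‖G (∏ i, p i)‖ ^ 2 ≤
        R * (N : ℝ) ^ (1 / 12 : ℝ) * ‖G h‖ ^ 2 := by
      intro h hh
      have hh0 : h ≠ 0 := prm_ne_zero (mem_PB.1 hh).2
      have h2 : ∑ p ∈ P.filter (fun p => ∏ i, p i = h), ‖G (∏ i, p i)‖ ^ 2 =
          ((P.filter (fun p => ∏ i, p i = h)).card : ℝ) * ‖G h‖ ^ 2 := by
        rw [← nsmul_eq_mul, ← sum_const]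
        refine sum_congr rfl fun p hp => ?_
        rw [(mem_filter.1 hp).2]
      rw [h2]
      have h3 : (P.filter (fun p => ∏ i, p i = h)).card ≤ (DP h).card ^ 6 := by
        have h4 : P.filter (fun p => ∏ i, p i = h) ⊆ Fintype.piFinset (fun _ : Fin 6 => DP h) := by
          intro p hp
          rw [Fintype.mem_piFinset]
          intro i
          have hp1 := (mem_filter.1 hp).1
          rw [hP, Fintype.mem_piFinset] at hp1
          rw [mem_DP hh0]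
          refine ⟨(mem_SB.1 (hp1 i)).2.prm, ?_⟩
          rw [← (mem_filter.1 hp).2]
          exact dvd_prod_of_mem _ (mem_univ i)
        refine (card_le_card h4).trans ?_
        rw [Fintype.card_piFinset, prod_const, card_univ, Fintype.card_fin]
      have h5 : ((P.filter (fun p => ∏ i, p i = h)).card : ℝ) ≤ R * (N : ℝ) ^ (1 / 12 : ℝ) := by
        refine le_trans ?_ (hR N h hN (mem_PB.1 hh).2 (mem_PB.1 hh).1)
        exact_mod_cast h3
      exact mul_le_mul_of_nonneg_right h5 (sq_nonneg _)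
    refine (sum_le_sum h1).trans ?_
    rw [← mul_sum]
    have h6 : ∑ h ∈ PB (N ^ 6), ‖G h‖ ^ 2 ≤ D * (M * (N : ℝ) ^ 6) := by
      refine hmean.trans (le_of_eq ?_)
      push_cast
      ring
    exact mul_le_mul_of_nonneg_left h6 (by positivity)
  have hW2 : W ^ 2 ≤ (16 * N) ^ 6 * (R * (N : ℝ) ^ (1 / 12 : ℝ) * (D * (M * (N : ℝ) ^ 6))) := by
    have h1 : W ≤ ∑ p ∈ P, ‖G (∏ i, p i)‖ := by
      have h0 : W ≤ ‖(W : ℂ)‖ := by
        rw [Complex.norm_real]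
        exact le_abs_self _
      refine h0.trans ?_
      rw [hWexp]
      refine (norm_sum_le _ _).trans (sum_le_sum fun p _ => ?_)
      rw [norm_mul]
      refine mul_le_of_le_one_left (norm_nonneg _) ?_
      rw [norm_prod]
      exact prod_le_one (fun i _ => norm_nonneg _) (fun i _ => hβ _)
    have h2 : W ^ 2 ≤ (∑ p ∈ P, ‖G (∏ i, p i)‖) ^ 2 := pow_le_pow_left₀ hW0 h1 2
    refine h2.trans ?_
    refine (sq_sum_le_card_mul_sum_sq).trans ?_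
    have h4 : (0 : ℝ) ≤ ∑ p ∈ P, ‖G (∏ i, p i)‖ ^ 2 := sum_nonneg fun _ _ => sq_nonneg _
    exact mul_le_mul hcardP hG2 h4 (by positivity)
  have h12 : ‖Bil α β M N‖ ^ 12 = (‖Bil α β M N‖ ^ 6) ^ 2 := by
    rw [← pow_mul]
  rw [h12]
  clear_value W G P A
  clear hWexp hG2 hPmem h12 hcardP
  generalize (N : ℝ) ^ (1 / 12 : ℝ) = r at hW2 ⊢
  have s1 : (‖Bil α β M N‖ ^ 6) ^ 2 ≤ ((16 * M) ^ 5 * W) ^ 2 :=
    pow_le_pow_left₀ (by positivity) hS6 2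
  have s2 : (16 * (M : ℝ)) ^ 10 * W ^ 2 ≤
      (16 * M) ^ 10 * ((16 * N) ^ 6 * (R * r * (D * (M * (N : ℝ) ^ 6)))) :=
    mul_le_mul_of_nonneg_left hW2 (by positivity)
  calc (‖Bil α β M N‖ ^ 6) ^ 2 ≤ ((16 * M) ^ 5 * W) ^ 2 := s1
    _ = (16 * M) ^ 10 * W ^ 2 := by ring
    _ ≤ (16 * M) ^ 10 * ((16 * N) ^ 6 * (R * r * (D * (M * (N : ℝ) ^ 6)))) := s2
    _ = 16 ^ 16 * D * R * ((M : ℝ) ^ 11 * (N : ℝ) ^ 12 * r) := by ring

/-- **bilinear estimate** -/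
theorem box1 {D : ℝ} (hD1 : 1 ≤ D) (hD : HM D) (hdv : S_DIV) :
    ∃ C : ℝ, 1 ≤ C ∧ ∀ (α β : RR → ℂ), (∀ x, ‖α x‖ ≤ 1) → (∀ x, ‖β x‖ ≤ 1) →
    ∀ M N : ℕ, 1 ≤ M → M ≤ N → ‖Bil α β M N‖ ≤ C * (M * N * (M : ℝ) ^ (-(1 / 24) : ℝ)) := by
  obtain ⟨C, hC1, hC⟩ := bil_short hD1 hD hdv
  refine ⟨C + 16 * D, by linarith, ?_⟩
  intro α β hα hβ M N hM hMN
  have hN : 1 ≤ N := hM.trans hMN
  have hMr : (1 : ℝ) ≤ M := by exact_mod_cast hM
  have hNr : (1 : ℝ) ≤ N := by exact_mod_cast hN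
  have hM0 : (0 : ℝ) < M := by linarith
  have hN0 : (0 : ℝ) < N := by linarith
  have hD0 : (0 : ℝ) ≤ D := by linarith
  set K : ℝ := C + 16 * D with hK
  have hK1 : 1 ≤ K := by rw [hK]; linarith
  set m : ℝ := (M : ℝ) ^ (-(1 / 24) : ℝ) with hm
  have hm0 : 0 < m := Real.rpow_pos_of_pos hM0 _
  have hm12 : m ^ 12 = (M : ℝ) ^ (-(1 / 2) : ℝ) := by
    rw [hm, ← Real.rpow_natCast, ← Real.rpow_mul hM0.le]
    norm_num
  by_cases h6 : M ^ 6 ≤ N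
  · have h1 := bil_long hD hα hβ hM h6
    have hm2 : (M : ℝ) ^ (-(1 / 2) : ℝ) ≤ m := by
      rw [hm]
      exact Real.rpow_le_rpow_of_exponent_le hMr (by norm_num)
    have h2 : ‖Bil α β M N‖ ≤ K * (M * N * (M : ℝ) ^ (-(1 / 2) : ℝ)) := by
      refine (pow_le_pow_iff_left₀ (norm_nonneg _) (by positivity) (two_ne_zero)).1 ?_
      have e2 : ((M : ℝ) ^ (-(1 / 2) : ℝ)) ^ 2 * M = 1 := by
        rw [← Real.rpow_natCast, ← Real.rpow_mul hM0.le]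
        have : (-(1 / 2) : ℝ) * ((2 : ℕ) : ℝ) = -1 := by norm_num
        rw [this, Real.rpow_neg_one]
        field_simp
      have e3 : (K * (M * N * (M : ℝ) ^ (-(1 / 2) : ℝ))) ^ 2 = K ^ 2 * (M * N ^ 2) := by
        have : (K * (M * N * (M : ℝ) ^ (-(1 / 2) : ℝ))) ^ 2 =
          K ^ 2 * (M * N ^ 2) * (((M : ℝ) ^ (-(1 / 2) : ℝ)) ^ 2 * M) := by ring
        rw [this, e2, mul_one]
      rw [e3]
      refine h1.trans ?_
      have h3 : 16 * D ≤ K ^ 2 := by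
        have : 16 * D ≤ K := by rw [hK]; linarith
        nlinarith
      gcongr
    refine h2.trans ?_
    gcongr
  · push Not at h6
    have h1 := hC α β hα hβ M N hM hMN
    have h2 : (N : ℝ) ^ (1 / 12 : ℝ) ≤ (M : ℝ) ^ (1 / 2 : ℝ) := by
      have e : (M : ℝ) ^ (1 / 2 : ℝ) = ((M : ℝ) ^ 6) ^ (1 / 12 : ℝ) := by
        rw [← Real.rpow_natCast, ← Real.rpow_mul hM0.le]
        norm_num
      rw [e]
      apply Real.rpow_le_rpow hN0.le _ (by norm_num)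
      exact_mod_cast h6.le
    have h3 : (M : ℝ) ^ 11 * (N : ℝ) ^ 12 * (M : ℝ) ^ (1 / 2 : ℝ) = (M * N * m) ^ 12 := by
      rw [mul_pow, mul_pow, hm12]
      have : (M : ℝ) ^ (1 / 2 : ℝ) = M * (M : ℝ) ^ (-(1 / 2) : ℝ) := by
        have e := Real.rpow_add hM0 1 (-(1 / 2))
        rw [Real.rpow_one] at e
        rw [← e]
        norm_num
      rw [this]
      ring
    have h4 : ‖Bil α β M N‖ ^ 12 ≤ (K * (M * N * m)) ^ 12 := by
      refine h1.trans ?_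
      rw [mul_pow K, ← h3]
      have h5 : C ≤ K ^ 12 := by
        have : C ≤ K := by rw [hK]; linarith
        exact this.trans (le_self_pow₀ hK1 (by norm_num))
      gcongr
    exact (pow_le_pow_iff_left₀ (norm_nonneg _) (by positivity) (by norm_num)).1 h4

/-! ### the reciprocity law -/

lemma chi_rec (hr : S_RCP) {π ρ : RR} (hπ : PO π) (hρ : PO ρ) :
    chi π ρ = sg (te π * te ρ) * chi ρ π := by
  by_cases h : π = ρ
  · subst h
    rw [chi_zero_iff.2 dvd_rfl, mul_zero]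
  · have h1 : ¬ π ∣ ρ := fun hd => h (eq_of_dvd hπ hρ hd)
    have h2 : ¬ ρ ∣ π := fun hd => h (eq_of_dvd hρ hπ hd).symm
    rw [chi_of h1, chi_of h2, ← sg_add, ← hr π ρ hπ hρ h]
    congr 1
    rw [add_assoc, CharTwo.add_self_eq_zero, add_zero]

lemma jac_dbl {x y : RR} (hx : PS x) (hy : PS y) :
    jac x y = ∏ π ∈ PD x, ∏ ρ ∈ PD y, chi π ρ := by
  have h1 : jac x y = jac x (∏ ρ ∈ PD y, ρ) := by rw [hy.prod]
  have h2 : ∏ ρ ∈ PD y, jac x ρ = ∏ ρ ∈ PD y, ∏ π ∈ PD x, chi π ρ := rfl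
  rw [h1, jac_prod hx.ne, h2, Finset.prod_comm]

lemma jac_rec (hr : S_RCP) {x y : RR} (hx : PS x) (hy : PS y) :
    jac x y = sg (tes x * tes y) * jac y x := by
  rw [jac_dbl hx hy, jac_dbl hy hx, prod_comm (s := PD y)]
  have h1 : sg (tes x * tes y) = ∏ π ∈ PD x, ∏ ρ ∈ PD y, sg (te π * te ρ) := by
    unfold tes
    rw [sum_mul_sum, sg_sum]
    exact prod_congr rfl fun π _ => sg_sum _ _
  rw [h1, ← prod_mul_distrib]
  refine prod_congr rfl fun π hπ => ?_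
  rw [← prod_mul_distrib]
  exact prod_congr rfl fun ρ hρ => chi_rec hr ((mem_PD hx.ne).1 hπ).1 ((mem_PD hy.ne).1 hρ).1

lemma bil_symm (hr : S_RCP) (α β : RR → ℂ) (M N : ℕ) : Bil α β M N =
    (Bil β α N M + Bil β (fun x => α x * sg (tes x)) N M + Bil (fun y => β y * sg (tes y)) α N M -
      Bil (fun y => β y * sg (tes y)) (fun x => α x * sg (tes x)) N M) / 2 := by
  unfold Bil
  rw [← sum_add_distrib, ← sum_add_distrib, ← sum_sub_distrib, sum_div, sum_comm]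
  refine sum_congr rfl fun y hy => ?_
  rw [← sum_add_distrib, ← sum_add_distrib, ← sum_sub_distrib, sum_div]
  refine sum_congr rfl fun x hx => ?_
  rw [jac_rec hr (mem_SB.1 hx).2 (mem_SB.1 hy).2, sg_mul]
  ring

/-- **bilinear estimate over boxes** -/
theorem box (hr : S_RCP) {D : ℝ} (hD1 : 1 ≤ D) (hD : HM D) (hdv : S_DIV) :
    ∃ C : ℝ, 1 ≤ C ∧ ∀ (α β : RR → ℂ), (∀ x, ‖α x‖ ≤ 1) → (∀ x, ‖β x‖ ≤ 1) →
    ∀ M N : ℕ, 1 ≤ M → 1 ≤ N →
      ‖Bil α β M N‖ ≤ C * (M * N * ((M : ℝ) ^ (-(1 / 24) : ℝ) + (N : ℝ) ^ (-(1 / 24) : ℝ))) := by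
  obtain ⟨C, hC1, hC⟩ := box1 hD1 hD hdv
  refine ⟨2 * C, by linarith, ?_⟩
  intro α β hα hβ M N hM hN
  have hMr : (1 : ℝ) ≤ M := by exact_mod_cast hM
  have hNr : (1 : ℝ) ≤ N := by exact_mod_cast hN
  have hC0 : (0 : ℝ) ≤ C := by linarith
  rcases le_total M N with h | h
  · refine (hC α β hα hβ M N hM h).trans ?_
    have h0 : (0 : ℝ) ≤ (N : ℝ) ^ (-(1 / 24) : ℝ) := by positivity
    have h0' : (0 : ℝ) ≤ (M : ℝ) ^ (-(1 / 24) : ℝ) := by positivity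
    have h1 : (M : ℝ) * N * (M : ℝ) ^ (-(1 / 24) : ℝ) ≤
        M * N * ((M : ℝ) ^ (-(1 / 24) : ℝ) + (N : ℝ) ^ (-(1 / 24) : ℝ)) := by
      apply mul_le_mul_of_nonneg_left _ (by positivity)
      linarith
    have h2 : (0 : ℝ) ≤ M * N * ((M : ℝ) ^ (-(1 / 24) : ℝ) + (N : ℝ) ^ (-(1 / 24) : ℝ)) := by
      positivity
    exact mul_le_mul (by linarith) h1 (by positivity) (by linarith)
  · have hα' : ∀ x, ‖(fun x => α x * sg (tes x)) x‖ ≤ 1 := fun x => by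
      show ‖α x * sg (tes x)‖ ≤ 1
      rw [norm_mul, norm_sg, mul_one]
      exact hα x
    have hβ' : ∀ x, ‖(fun x => β x * sg (tes x)) x‖ ≤ 1 := fun x => by
      show ‖β x * sg (tes x)‖ ≤ 1
      rw [norm_mul, norm_sg, mul_one]
      exact hβ x
    have b1 := hC β α hβ hα N M hN h
    have b2 := hC β _ hβ hα' N M hN h
    have b3 := hC _ α hβ' hα N M hN h
    have b4 := hC _ _ hβ' hα' N M hN h
    have h0 : (0 : ℝ) ≤ (N : ℝ) ^ (-(1 / 24) : ℝ) := by positivity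
    have h0' : (0 : ℝ) ≤ (M : ℝ) ^ (-(1 / 24) : ℝ) := by positivity
    have h1 : (N : ℝ) * M * (N : ℝ) ^ (-(1 / 24) : ℝ) ≤
        M * N * ((M : ℝ) ^ (-(1 / 24) : ℝ) + (N : ℝ) ^ (-(1 / 24) : ℝ)) := by
      rw [mul_comm (N : ℝ) M]
      apply mul_le_mul_of_nonneg_left _ (by positivity)
      linarith
    have h3 := mul_le_mul_of_nonneg_left h1 hC0
    rw [bil_symm hr]
    generalize Bil β α N M = u1 at *
    generalize Bil β (fun x => α x * sg (tes x)) N M = u2 at *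
    generalize Bil (fun y => β y * sg (tes y)) α N M = u3 at *
    generalize Bil (fun y => β y * sg (tes y)) (fun x => α x * sg (tes x)) N M = u4 at *
    have h5 : ‖(u1 + u2 + u3 - u4) / 2‖ ≤ (‖u1‖ + ‖u2‖ + ‖u3‖ + ‖u4‖) / 2 := by
      rw [norm_div]
      have e2 : ‖(2 : ℂ)‖ = 2 := by norm_num
      rw [e2]
      have := norm_sub_le (u1 + u2 + u3) u4
      have := norm_add_le (u1 + u2) u3
      have := norm_add_le u1 u2
      linarith
    refine h5.trans ?_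
    linarith

theorem core (hr : S_RCP) {D : ℝ} (hD1 : 1 ≤ D) (hD : HM D) (hdv : S_DIV) : S_BIL := by
  obtain ⟨C, hC1, hC⟩ := box hr hD1 hD hdv
  refine ⟨(2 * C) ^ 24, one_le_pow₀ (by linarith), ?_⟩
  intro P Q A B z c d hP hQ hdis hz hzA hzB hc hd
  have hps : ∀ π : RR, PO π → PS π := fun π h => ⟨pq_prm h, h.pr.irreducible.squarefree⟩
  have hPA : P ⊆ SB A := fun x hx => mem_SB.2 ⟨(hP x hx).2, hps x (hP x hx).1⟩
  have hQB : Q ⊆ SB B := fun x hx => mem_SB.2 ⟨(hQ x hx).2, hps x (hQ x hx).1⟩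
  have h1 := hC (fun y => if y ∈ Q then d y else 0) (fun x => if x ∈ P then c x else 0)
    (fun y => by
      show ‖if y ∈ Q then d y else 0‖ ≤ 1
      split_ifs
      · exact hd y
      · rw [norm_zero]; exact zero_le_one)
    (fun x => by
      show ‖if x ∈ P then c x else 0‖ ≤ 1
      split_ifs
      · exact hc x
      · rw [norm_zero]; exact zero_le_one) B A (hz.trans hzB) (hz.trans hzA)
  have e1 : Bil (fun y => if y ∈ Q then d y else 0) (fun x => if x ∈ P then c x else 0) B A =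
      ∑ π ∈ P, ∑ ρ ∈ Q, c π * d ρ * sg (cs π ρ) := by
    unfold Bil
    rw [sum_comm]
    refine (sum_subset hPA fun x _ hx => ?_).symm.trans (sum_congr rfl fun x hx => ?_)
    · refine sum_eq_zero fun y _ => ?_
      show (if y ∈ Q then d y else 0) * (if x ∈ P then c x else 0) * jac y x = 0
      rw [if_neg hx, mul_zero, zero_mul]
    · refine (sum_subset hQB fun y _ hy => ?_).symm.trans (sum_congr rfl fun y hy => ?_)
      · show (if y ∈ Q then d y else 0) * (if x ∈ P then c x else 0) * jac y x = 0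
        rw [if_neg hy, zero_mul, zero_mul]
      · show (if y ∈ Q then d y else 0) * (if x ∈ P then c x else 0) * jac y x = _
        have hne : x ≠ y := fun he => (Finset.disjoint_left.1 hdis) hx (he ▸ hy)
        have hnd : ¬ y ∣ x := fun hd' => hne (eq_of_dvd (hQ y hy).1 (hP x hx).1 hd').symm
        rw [if_pos hx, if_pos hy, jac_prime (hQ y hy).1, chi_of hnd]
        unfold cs
        rw [if_neg hne]
        ring
  rw [e1] at h1
  have hz0 : (0 : ℝ) < z := by exact_mod_cast hz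
  have hzA' : (z : ℝ) ≤ A := by exact_mod_cast hzA
  have hzB' : (z : ℝ) ≤ B := by exact_mod_cast hzB
  have hA0 : (0 : ℝ) < A := lt_of_lt_of_le hz0 hzA'
  have hB0 : (0 : ℝ) < B := lt_of_lt_of_le hz0 hzB'
  have h2 : (A : ℝ) ^ (-(1 / 24) : ℝ) ≤ (z : ℝ) ^ (-(1 / 24) : ℝ) :=
    Real.rpow_le_rpow_of_nonpos hz0 hzA' (by norm_num)
  have h3 : (B : ℝ) ^ (-(1 / 24) : ℝ) ≤ (z : ℝ) ^ (-(1 / 24) : ℝ) :=
    Real.rpow_le_rpow_of_nonpos hz0 hzB' (by norm_num)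
  set q : ℝ := (z : ℝ) ^ (-(1 / 24) : ℝ) with hq
  have hq24 : q ^ 24 * z = 1 := by
    rw [hq, ← Real.rpow_natCast, ← Real.rpow_mul hz0.le]
    norm_num
    rw [Real.rpow_neg_one]
    exact inv_mul_cancel₀ hz0.ne'
  have h4 : ‖∑ π ∈ P, ∑ ρ ∈ Q, c π * d ρ * sg (cs π ρ)‖ ≤ 2 * C * (A * B) * q := by
    refine h1.trans ?_
    have h5 : (B : ℝ) * A * ((B : ℝ) ^ (-(1 / 24) : ℝ) + (A : ℝ) ^ (-(1 / 24) : ℝ)) ≤
        B * A * (q + q) := by
      apply mul_le_mul_of_nonneg_left (add_le_add h3 h2) (by positivity)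
    have h6 := mul_le_mul_of_nonneg_left h5 (by linarith : (0 : ℝ) ≤ C)
    refine h6.trans (le_of_eq ?_)
    ring
  have h5 := pow_le_pow_left₀ (norm_nonneg _) h4 24
  calc ‖∑ π ∈ P, ∑ ρ ∈ Q, c π * d ρ * sg (cs π ρ)‖ ^ 24 * z ≤
      (2 * C * (A * B) * q) ^ 24 * z := mul_le_mul_of_nonneg_right h5 hz0.le
    _ = (2 * C) ^ 24 * ((A : ℝ) * B) ^ 24 * (q ^ 24 * z) := by ring
    _ = (2 * C) ^ 24 * ((A : ℝ) * B) ^ 24 := by rw [hq24, mul_one]

end BLx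

theorem t_BIL : S_BILT := by
  intro hr hj hdv
  obtain ⟨D, hD1, hD⟩ := hj
  exact BLx.core hr hD1 hD hdv

end Pool.Agent.T2h16.KD
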