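import Pool.Agent.T2h16.KD.Stm

/-!
# Task BOX of project KD: the count in a box
(after `Pool/Agent/Y688/XK/BOX.lean` and `Pool/Agent/T2h16/ND/BOX.lean`)
-/

set_option autoImplicit false
set_option linter.all false

open scoped Classical

namespace Pool.Agent.T2h16.KD

open Finset
open Pool.Agent.Y698 hiding zz
open Pool.Agent.Y698.SG
open Pool.Agent.T2h78.TW (PO te sl)
open Pool.Agent.Y703.CQ (sg)

namespace BOXx

section equiv
variable {T T' : Type} [Fintype T] [Fintype T']

theorem mv_equiv (e : T ≃ T') (c : T' → ZMod 2) (N : T' → T' → ZMod 2) (v : T' → ZMod 2) (i : T) :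
    MV c N v (e i) = MV (fun i => c (e i)) (fun i k => N (e i) (e k)) (fun i => v (e i)) i := by
  unfold MV
  rw [← Equiv.sum_comp e fun k => N (e i) k * (v k + v (e i))]

theorem gdA_equiv (e : T ≃ T') (c : T' → ZMod 2) (N : T' → T' → ZMod 2) :
    GdA c N ↔ GdA (fun i => c (e i)) (fun i k => N (e i) (e k)) := by
  unfold GdA
  constructor
  · intro h v hv i
    have h1 := h (fun i => v (e.symm i)) (fun i' => by
      obtain ⟨i, rfl⟩ := e.surjective i'
      rw [mv_equiv e]
      simpa using hv i) (e i)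
    rwa [Equiv.symm_apply_apply] at h1
  · intro h v hv i'
    obtain ⟨i, rfl⟩ := e.surjective i'
    exact h (fun i => v (e i)) (fun i => by rw [← mv_equiv e]; exact hv _) i

end equiv

/-- the type of the labels -/
abbrev Lb (S₀ : Finset RR) : Type := (S₀ → ZMod 2) × ZMod 2

/-- the label of a prime with respect to the small primes -/
noncomputable def lb (S₀ : Finset RR) (x : RR) : Lb S₀ := (fun u => cs x u, cc x)

/-- the good labels -/
def LN {ι : Type} (S₀ : Finset RR) (t : ι → ZMod 2) (β : ι → Lb S₀) : Prop :=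
  ∀ (w : S₀ → ZMod 2) (a b : ZMod 2), ((∃ u, w u ≠ 0) ∨ a ≠ 0 ∨ b ≠ 0) →
    ∃ i, ∑ u, w u * (β i).1 u + a * t i + b * (β i).2 ≠ 0

/-- extension by zero -/
noncomputable def ez0 {S₀ : Finset RR} (v : S₀ → ZMod 2) (n : RR) : ZMod 2 :=
  if h : n ∈ S₀ then v ⟨n, h⟩ else 0

theorem ez0_coe {S₀ : Finset RR} (v : S₀ → ZMod 2) (u : S₀) : ez0 v u = v u := by
  unfold ez0
  rw [dif_pos u.2]

section one
variable {ι : Type} [Fintype ι] {S₀ : Finset RR} {p : ι → RR} {t : ι → ZMod 2}

theorem nd_iff (hJ : ∀ i, te (p i) = t i) :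
    Nd S₀ (univ.image p) ↔ LN S₀ t (fun i => lb S₀ (p i)) := by
  unfold Nd LN
  constructor
  · intro h w a b hw
    obtain ⟨x, hx, hx2⟩ := h (ez0 w) a b (by
      rcases hw with ⟨u, hu⟩ | hw
      · exact Or.inl ⟨u, u.2, by rw [ez0_coe]; exact hu⟩
      · exact Or.inr hw)
    rw [Finset.mem_image] at hx
    obtain ⟨i, -, rfl⟩ := hx
    refine ⟨i, ?_⟩
    rw [← Finset.sum_coe_sort S₀] at hx2
    intro h0
    apply hx2
    rw [← h0, hJ i]
    congr 2
    refine Finset.sum_congr rfl fun u _ => ?_
    rw [ez0_coe]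
    rfl
  · intro h w a b hw
    obtain ⟨i, hi⟩ := h (fun u => w u) a b (by
      rcases hw with ⟨u, hu, hu2⟩ | hw
      · exact Or.inl ⟨⟨u, hu⟩, hu2⟩
      · exact Or.inr hw)
    refine ⟨p i, Finset.mem_image_of_mem _ (Finset.mem_univ _), ?_⟩
    rw [← Finset.sum_coe_sort S₀, hJ i]
    exact hi

/-- the prime with a given index -/
def vv (S₀ : Finset RR) (p : ι → RR) : S₀ ⊕ ι → RR := Sum.elim (fun u => (u : RR)) p

omit [Fintype ι] in
theorem vv_inj (hp : Function.Injective p) (hd : ∀ i, p i ∉ S₀) :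
    Function.Injective (vv S₀ p) := by
  rintro (a | a) (b | b) h
  · exact congrArg Sum.inl (Subtype.ext h)
  · have h' : (a : RR) = p b := h
    exact absurd (show p b ∈ S₀ by rw [← h']; exact a.2) (hd b)
  · have h' : p a = (b : RR) := h
    exact absurd (show p a ∈ S₀ by rw [h']; exact b.2) (hd a)
  · exact congrArg Sum.inr (hp h)

theorem vv_mem (i : S₀ ⊕ ι) : vv S₀ p i ∈ S₀ ∪ univ.image p := by
  rcases i with u | i
  · exact mem_union_left _ u.2
  · exact mem_union_right _ (mem_image_of_mem _ (mem_univ _))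

/-- the indices and the primes -/
noncomputable def veq (hp : Function.Injective p) (hd : ∀ i, p i ∉ S₀) :
    S₀ ⊕ ι ≃ (S₀ ∪ univ.image p : Finset RR) :=
  Equiv.ofBijective (fun i => ⟨vv S₀ p i, vv_mem i⟩) ⟨fun a b h =>
    vv_inj hp hd (congrArg Subtype.val h), by
      rintro ⟨x, hx⟩
      rw [mem_union, mem_image] at hx
      rcases hx with hx | ⟨i, -, rfl⟩
      · exact ⟨Sum.inl ⟨x, hx⟩, rfl⟩
      · exact ⟨Sum.inr i, rfl⟩⟩

theorem gd_sub (S : Finset RR) :
    Gd S ↔ GdA (fun i : S => cc i) (fun i k : S => cs i k) := by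
  unfold Gd GdA Sol MV
  constructor
  · intro h v hv i
    have h1 := h (ez0 v) (fun π hπ => by
      rw [← Finset.sum_coe_sort S (fun ρ => cs π ρ * (ez0 v ρ + ez0 v π))]
      have h2 := hv ⟨π, hπ⟩
      have e1 : ez0 v π = v ⟨π, hπ⟩ := ez0_coe v ⟨π, hπ⟩
      rw [e1]
      rw [← h2]
      congr 1
      exact Finset.sum_congr rfl fun u _ => by rw [ez0_coe]) i i.2
    rwa [ez0_coe] at h1
  · intro h v hv π hπ
    refine h (fun i => v i) (fun i => ?_) ⟨π, hπ⟩
    have h1 := hv i i.2
    rw [← Finset.sum_coe_sort S (fun ρ => cs i ρ * (v ρ + v i))] at h1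
    exact h1

theorem gd_iff (hp : Function.Injective p) (hd : ∀ i, p i ∉ S₀) :
    Gd (S₀ ∪ univ.image p) ↔ GdA (fun i => cc (vv S₀ p i))
      (fun i k => cs (vv S₀ p i) (vv S₀ p k)) := by
  rw [gd_sub, gdA_equiv (veq hp hd)]
  rfl

end one

theorem HB_sub {ι : Type} {C : ι → Finset RR} {X : ι → ℕ} {κ : ℝ}
    (h : HB C X κ) (P : ι → RR → Prop) [∀ i, DecidablePred (P i)] :
    HB (fun i => (C i).filter (P i)) X κ := by
  intro i l hil c d hc hd
  have h1 := h i l hil (fun x => if P i x then c x else 0) (fun y => if P l y then d y else 0)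
    (fun x => by
      show ‖if P i x then c x else 0‖ ≤ 1
      split_ifs
      · exact hc x
      · simp) (fun y => by
      show ‖if P l y then d y else 0‖ ≤ 1
      split_ifs
      · exact hd y
      · simp)
  refine (le_of_eq ?_).trans h1
  congr 1
  rw [Finset.sum_filter]
  refine Finset.sum_congr rfl fun x _ => ?_
  by_cases hx : P i x
  · rw [if_pos hx, Finset.sum_filter]
    refine Finset.sum_congr rfl fun y _ => ?_
    by_cases hy : P l y
    · rw [if_pos hy, if_pos hx, if_pos hy]
    · rw [if_neg hy, if_neg hy, mul_zero, zero_mul]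
  · rw [if_neg hx]
    symm
    refine Finset.sum_eq_zero fun y _ => ?_
    rw [if_neg hx, zero_mul, zero_mul]

theorem cs_self (x : RR) : cs x x = 0 := by
  unfold cs
  rw [if_pos rfl]

theorem cs_rec (hR : S_RCP) {x y : RR} (hx : PO x) (hy : PO y) (h : x ≠ y) :
    cs x y + cs y x = te x * te y := by
  unfold cs
  rw [if_neg h, if_neg (Ne.symm h), add_comm]
  exact hR x y hx hy h

end BOXx

open BOXx

/-- **The count in a box.** -/
theorem t_BOX : S_BOX := by
  intro hRC hEQ hLA ι _ _ t C X κ S₀ V hκ hCX hHB hS₀ hC hdis hsum hlt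
  set cn : ℝ := 8 * (1 / 2 : ℝ) ^ V with hcn
  set R : ℝ := 2 ^ (prs ι).card * (κ * ∏ j, (X j : ℝ)) with hR
  have hcc0 : 0 ≤ cn := by positivity
  have hR0 : 0 ≤ R := mul_nonneg (by positivity)
    (mul_nonneg hκ (Finset.prod_nonneg fun j _ => by positivity))
  -- facts on tuples
  have hinj : ∀ p ∈ Fintype.piFinset C, Function.Injective p := by
    intro p hp i j hij
    rw [Fintype.mem_piFinset] at hp
    by_contra hne
    have h1 := Finset.disjoint_left.1 (hdis i j hne) (hp i)
    rw [hij] at h1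
    exact h1 (hp j)
  have hJ : ∀ p ∈ Fintype.piFinset C, ∀ i, te (p i) = t i := by
    intro p hp i
    rw [Fintype.mem_piFinset] at hp
    exact (hC i _ (hp i)).2.2
  have hd : ∀ p ∈ Fintype.piFinset C, ∀ i, p i ∉ S₀ := by
    intro p hp i
    rw [Fintype.mem_piFinset] at hp
    exact (hC i _ (hp i)).2.1
  have hpr : ∀ p ∈ Fintype.piFinset C, ∀ i, PO (p i) := by
    intro p hp i
    rw [Fintype.mem_piFinset] at hp
    exact (hC i _ (hp i)).1
  -- the part with given labels
  have h1 : ∀ β : ι → Lb S₀, LN S₀ t β →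
      |(((Fintype.piFinset C).filter fun p => (fun i => lb S₀ (p i)) = β ∧
          Gd (S₀ ∪ univ.image p)).card : ℝ) -
        eta * (((Fintype.piFinset C).filter fun p => (fun i => lb S₀ (p i)) = β).card : ℝ)| ≤
      cn * (((Fintype.piFinset C).filter fun p => (fun i => lb S₀ (p i)) = β).card : ℝ) +
        R := by
    intro β hβ
    by_cases hemp : ((Fintype.piFinset C).filter fun p => (fun i => lb S₀ (p i)) = β) = ∅
    · have he2 : ((Fintype.piFinset C).filter fun p => (fun i => lb S₀ (p i)) = β ∧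
          Gd (S₀ ∪ univ.image p)) = ∅ := by
        rw [← Finset.filter_filter, hemp, Finset.filter_empty]
      rw [he2, hemp]
      simpa using hR0
    obtain ⟨p₀, hp₀⟩ := Finset.nonempty_iff_ne_empty.2 hemp
    rw [Finset.mem_filter] at hp₀
    obtain ⟨hp₀, hp₀β⟩ := hp₀
    set C' : ι → Finset RR := fun i => (C i).filter fun q => lb S₀ q = β i with hC'
    have hpi : (Fintype.piFinset C).filter (fun p => (fun i => lb S₀ (p i)) = β) =
        Fintype.piFinset C' := by
      ext p
      simp only [Finset.mem_filter, Fintype.mem_piFinset, hC']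
      constructor
      · rintro ⟨h2, h3⟩ i
        exact ⟨h2 i, congrFun h3 i⟩
      · intro h2
        exact ⟨fun i => (h2 i).1, funext fun i => (h2 i).2⟩
    -- the symbols of `p₀`
    set N0 : S₀ ⊕ ι → S₀ ⊕ ι → ZMod 2 := fun i k => cs (vv S₀ p₀ i) (vv S₀ p₀ k) with hN0
    set c0 : S₀ ⊕ ι → ZMod 2 := fun i => cc (vv S₀ p₀ i) with hc0
    set e0 : S₀ ⊕ ι → ZMod 2 := fun i => te (vv S₀ p₀ i) with he0
    have hvpr : ∀ i, PO (vv S₀ p₀ i) := by
      rintro (u | i)
      · exact hS₀ u u.2
      · exact hpr p₀ hp₀ i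
    have hvinj := vv_inj (hinj p₀ hp₀) (hd p₀ hp₀)
    have hSym : Sy e0 N0 := by
      refine ⟨fun i => cs_self _, fun i k hik => ?_, ?_⟩
      · exact cs_rec hRC (hvpr i) (hvpr k) fun h => hik (hvinj h)
      · rw [Fintype.sum_sum_type, ← hsum, ← Finset.sum_coe_sort S₀]
        congr 1
        exact Finset.sum_congr rfl fun i _ => hJ p₀ hp₀ i
    have hNd : NdA e0 c0 N0 := by
      have h2 := hβ
      rw [← hp₀β] at h2
      intro w a b hw
      obtain ⟨i, hi⟩ := h2 w a b hw
      refine ⟨i, ?_⟩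
      have h3 : e0 (Sum.inr i) = t i := hJ p₀ hp₀ i
      rw [h3]
      exact hi
    have hct : (univ.filter fun j : ι => e0 (Sum.inr j) = 1) = univ.filter fun i => t i = 1 := by
      refine Finset.filter_congr fun i _ => ?_
      have h3 : e0 (Sum.inr i) = t i := hJ p₀ hp₀ i
      rw [h3]
    have h2 := hLA S₀ ι e0 c0 N0 V hSym hNd (by
      rw [Fintype.card_coe, hct]
      exact hlt)
    set α0 : prs ι → ZMod 2 := fun e => cs (p₀ e.1.1) (p₀ e.1.2) with hα0
    set G : (prs ι → ZMod 2) → Prop := fun α =>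
      GdA c0 (fun i k => N0 i k + lift α i k) with hG
    set Q : (prs ι → ZMod 2) → Prop := fun α => G (α - α0) with hQ
    have hQG : (univ.filter fun α : prs ι → ZMod 2 => Q α).card =
        (univ.filter fun α : prs ι → ZMod 2 => G α).card := by
      refine Finset.card_bij' (fun α _ => α - α0) (fun α _ => α + α0) ?_ ?_ ?_ ?_
      · intro α hα
        rw [mem_filter] at hα ⊢
        exact ⟨mem_univ _, hα.2⟩
      · intro α hα
        rw [mem_filter] at hα ⊢
        refine ⟨mem_univ _, ?_⟩
        show G (α + α0 - α0)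
        rw [add_sub_cancel_right]
        exact hα.2
      · intro α _
        simp
      · intro α _
        simp
    have h3 := hEQ ι C' X κ hκ
      (fun i => (Finset.card_le_card (Finset.filter_subset _ _)).trans (hCX i))
      (HB_sub hHB fun i q => lb S₀ q = β i) Q
    have h4 : ((Fintype.piFinset C).filter fun p => (fun i => lb S₀ (p i)) = β ∧
        Gd (S₀ ∪ univ.image p)) = ((Fintype.piFinset C').filter fun p =>
          Q (fun e => cs (p e.1.1) (p e.1.2))) := by
      rw [← hpi, Finset.filter_filter]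
      refine Finset.filter_congr fun p hp => ?_
      refine and_congr_right fun hl => ?_
      rw [gd_iff (hinj p hp) (hd p hp)]
      rw [← hp₀β] at hl
      have hl' : ∀ i, lb S₀ (p i) = lb S₀ (p₀ i) := fun i => congrFun hl i
      have hcc : (fun i => cc (vv S₀ p i)) = c0 := by
        funext i
        rcases i with u | i
        · rfl
        · exact congrArg (fun z : Lb S₀ => z.2) (hl' i)
      have hx : ∀ (i : ι) (v : S₀), cs (p i) v = cs (p₀ i) v := fun i v =>
        congrFun (congrArg (fun z : Lb S₀ => z.1) (hl' i)) v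
      rw [hcc]
      have hNN : (fun i k => cs (vv S₀ p i) (vv S₀ p k)) = fun i k => N0 i k +
          lift ((fun e : prs ι => cs (p e.1.1) (p e.1.2)) - α0) i k := by
        funext i k
        rcases i with u | i <;> rcases k with v | k
        · show cs u v = cs u v + 0
          rw [add_zero]
        · show cs u (p k) = cs u (p₀ k) + 0
          rw [add_zero]
          have e1 := cs_rec hRC (hS₀ u u.2) (hpr p hp k) fun h => hd p hp k (h ▸ u.2)
          have e2 := cs_rec hRC (hS₀ u u.2) (hpr p₀ hp₀ k) fun h => hd p₀ hp₀ k (h ▸ u.2)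
          rw [hJ p hp] at e1
          rw [hJ p₀ hp₀] at e2
          rw [hx k u] at e1
          exact add_right_cancel (e1.trans e2.symm)
        · show cs (p i) v = cs (p₀ i) v + 0
          rw [add_zero]
          exact hx i v
        · show cs (p i) (p k) = cs (p₀ i) (p₀ k) + lift _ (Sum.inr i) (Sum.inr k)
          unfold lift
          rcases lt_trichotomy i k with hlt' | heq | hgt
          · have hm : (i, k) ∈ prs ι := mem_filter.2 ⟨mem_univ _, hlt'⟩
            simp only [dif_pos hm]
            show cs (p i) (p k) = cs (p₀ i) (p₀ k) + (cs (p i) (p k) - cs (p₀ i) (p₀ k))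
            ring
          · subst heq
            have hm : (i, i) ∉ prs ι := fun h => lt_irrefl _ (mem_filter.1 h).2
            simp only [dif_neg hm]
            rw [cs_self, cs_self, add_zero]
          · have hm1 : (i, k) ∉ prs ι := fun h => lt_asymm hgt (mem_filter.1 h).2
            have hm2 : (k, i) ∈ prs ι := mem_filter.2 ⟨mem_univ _, hgt⟩
            simp only [dif_neg hm1, dif_pos hm2]
            show cs (p i) (p k) = cs (p₀ i) (p₀ k) + (cs (p k) (p i) - cs (p₀ k) (p₀ i))
            have e1 := cs_rec hRC (hpr p hp i) (hpr p hp k) fun h => hgt.ne' (hinj p hp h)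
            have e2 := cs_rec hRC (hpr p₀ hp₀ i) (hpr p₀ hp₀ k) fun h => hgt.ne' (hinj p₀ hp₀ h)
            rw [hJ p hp, hJ p hp] at e1
            rw [hJ p₀ hp₀, hJ p₀ hp₀] at e2
            have e3 : cs (p i) (p k) = t i * t k + cs (p k) (p i) := by
              rw [← e1, add_assoc, CharTwo.add_self_eq_zero, add_zero]
            have e4 : cs (p₀ i) (p₀ k) = t i * t k + cs (p₀ k) (p₀ i) := by
              rw [← e2, add_assoc, CharTwo.add_self_eq_zero, add_zero]
            rw [e3, e4]
            ring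
      rw [hNN]
    have h5 : (((Fintype.piFinset C').card : ℕ) : ℝ) = ∏ j, ((C' j).card : ℝ) := by
      rw [Fintype.card_piFinset]
      push_cast
      rfl
    rw [h4, hpi, h5]
    rw [hQG] at h3
    have h2' : |((univ.filter fun α : prs ι → ZMod 2 => G α).card : ℝ) /
        2 ^ (prs ι).card - eta| ≤ cn := h2
    set n : ℝ := (((Fintype.piFinset C').filter fun p =>
          Q (fun e => cs (p e.1.1) (p e.1.2))).card : ℝ) with hn
    set q : ℝ := ((univ.filter fun α : prs ι → ZMod 2 => G α).card : ℝ) /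
        2 ^ (prs ι).card with hq
    set P : ℝ := ∏ j, ((C' j).card : ℝ) with hP
    have hP0 : 0 ≤ P := Finset.prod_nonneg fun j _ => by positivity
    have h6 : |n - eta * P| ≤ |n - q * P| + |q - eta| * P := by
      have h7 : n - eta * P = (n - q * P) + (q - eta) * P := by ring
      have h8 : |(q - eta) * P| = |q - eta| * P := by rw [abs_mul, abs_of_nonneg hP0]
      rw [h7, ← h8]
      exact abs_add_le _ _
    have h7 : |q - eta| * P ≤ cn * P := mul_le_mul_of_nonneg_right h2' hP0
    have h8 : |n - q * P| ≤ R := h3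
    linarith
  -- sum over the labels
  set LL := univ.filter (fun β : ι → Lb S₀ => LN S₀ t β) with hLL
  have hfib : ∀ T : (ι → RR) → Prop,
      (((Fintype.piFinset C).filter fun p => Nd S₀ (univ.image p) ∧ T p).card : ℝ) =
      ∑ β ∈ LL, (((Fintype.piFinset C).filter fun p =>
        (fun i => lb S₀ (p i)) = β ∧ T p).card : ℝ) := by
    intro T
    rw [Finset.card_eq_sum_card_fiberwise (f := fun (p : ι → RR) (i : ι) => lb S₀ (p i))
      (t := LL) (by
        intro p hp
        rw [Finset.mem_coe, Finset.mem_filter] at hp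
        rw [Finset.mem_coe, hLL, Finset.mem_filter]
        exact ⟨Finset.mem_univ _, (nd_iff (hJ p hp.1)).1 hp.2.1⟩)]
    push_cast
    refine Finset.sum_congr rfl fun β hβ => ?_
    rw [hLL, Finset.mem_filter] at hβ
    congr 2
    ext p
    simp only [Finset.mem_filter]
    constructor
    · rintro ⟨⟨h3, h4, h4'⟩, h5⟩
      exact ⟨h3, h5, h4'⟩
    · rintro ⟨h3, h4, h5⟩
      refine ⟨⟨h3, ?_, h5⟩, h4⟩
      rw [nd_iff (hJ p h3), h4]
      exact hβ.2
  have hf1 := hfib fun p => Gd (S₀ ∪ univ.image p)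
  have hf2 := hfib fun _ => True
  simp only [and_true] at hf2
  rw [hf1, hf2, Finset.mul_sum, ← Finset.sum_sub_distrib]
  refine (Finset.abs_sum_le_sum_abs _ _).trans ?_
  refine (Finset.sum_le_sum fun β hβ => h1 β (Finset.mem_filter.1 hβ).2).trans ?_
  rw [Finset.sum_add_distrib, ← Finset.mul_sum, Finset.sum_const, nsmul_eq_mul]
  have h5 : ((LL.card : ℕ) : ℝ) ≤ 2 ^ ((S₀.card + 1) * Fintype.card ι) := by
    have h6 : LL.card ≤ Fintype.card (ι → Lb S₀) := Finset.card_le_univ _
    rw [Fintype.card_fun, Fintype.card_prod, Fintype.card_fun, ZMod.card, Fintype.card_coe,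
      ← pow_succ, ← pow_mul] at h6
    exact_mod_cast h6
  have h6 := mul_le_mul_of_nonneg_right h5 hR0
  rw [pow_add, mul_assoc]
  linarith

end Pool.Agent.T2h16.KD
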