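import Pool.Agent.T2h16.KD.NS

/-!
# Task CHS: sums of a nontrivial character over the primary elements
-/

set_option autoImplicit false

open scoped Classical

namespace Pool.Agent.T2h16.KD

open Finset Filter
open Pool.Agent.Y698 hiding zz
open Pool.Agent.Y698.SG
open Pool.Agent.W192.HK (sp)
open Pool.Agent.T2h78.TW (PO te sl)
open Pool.Agent.Y703.CQ (sg)

namespace CHSH

lemma cXY_sub (a b : RR) : cX (a - b) = cX a - cX b ∧ cY (a - b) = cY a - cY b := by
  rw [sub_eq_add_neg]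
  obtain ⟨h1, h2⟩ := cXY_add a (-b)
  obtain ⟨h3, h4⟩ := cXY_neg b
  rw [h1, h2, h3, h4]
  exact ⟨rfl, rfl⟩

/-- elements which are congruent modulo `28` have congruent coordinates -/
lemma cong28 {a b : RR} (h : (28 : RR) ∣ a - b) :
    (∃ k, cX a = cX b + 28 * k) ∧ ∃ k, cY a = cY b + 28 * k := by
  obtain ⟨c, hc⟩ := h
  obtain ⟨h1, h2⟩ := cXY_sub a b
  have e : (28 : RR) = ((28 : ℤ) : RR) := by norm_num
  obtain ⟨h3, h4⟩ := cXY_mul ((28 : ℤ) : RR) c
  obtain ⟨h5, h6⟩ := cXY_int 28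
  rw [hc, e, h3, h5, h6] at h1
  rw [hc, e, h4, h5, h6] at h2
  exact ⟨⟨cX c, by linarith⟩, ⟨cY c, by linarith⟩⟩

lemma fR_dvd : fR ∣ (28 : RR) := ⟨-4 * fR, by linear_combination 4 * fR_sq⟩

lemma cop_fR {a b : RR} (h : fR ∣ a - b) (hb : IsCoprime fR b) : IsCoprime fR a := by
  obtain ⟨c, hc⟩ := h
  obtain ⟨x, y, hxy⟩ := hb
  exact ⟨x - y * c, y, by linear_combination hxy + y * hc⟩

lemma prm_cong {a b : RR} (h : (28 : RR) ∣ a - b) (hb : prm b) : prm a := by
  obtain ⟨⟨k, hk⟩, ⟨l, hl⟩⟩ := cong28 h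
  have h1 := hb.x4
  have h2 := hb.y2
  exact ⟨by omega, by omega, cop_fR (fR_dvd.trans h) hb.cop⟩

lemma te_cong {a b : RR} (h : (28 : RR) ∣ a - b) : te a = te b := by
  obtain ⟨-, ⟨l, hl⟩⟩ := cong28 h
  unfold te
  have : cY a % 4 = cY b % 4 := by omega
  rw [this]

lemma cc_cong {a b : RR} (h : fR ∣ a - b) : cc a = cc b := by
  unfold cc
  rw [e7_per (Ideal.mem_span_singleton.2 h)]

lemma e7_pm {a : RR} (h : IsCoprime fR a) : e7 a = 1 ∨ e7 a = -1 := by
  have h1 : a ∉ sp fR := by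
    intro h2
    have h3 : fR ∣ a := Ideal.mem_span_singleton.1 h2
    have h4 : IsUnit fR := h.isUnit_of_dvd' dvd_rfl h3
    have h5 := isUnit_nR h4
    unfold nR at h5
    rw [cXY_fR.1, cXY_fR.2] at h5
    norm_num at h5
  have := e7_sq h1
  exact mul_self_eq_one_iff.1 (by rw [← pow_two]; exact this)

lemma cc_mul {a b : RR} (ha : IsCoprime fR a) (hb : IsCoprime fR b) : cc (a * b) = cc a + cc b := by
  unfold cc
  rw [e7_mul, lg_mul (e7_pm ha) (e7_pm hb)]

lemma cop28 {c : RR} (h : prm c) : IsCoprime c 28 := by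
  have h1 : IsCoprime c 4 := by
    have h2 : IsCoprime (nR c) 4 := by
      have h3 := h.nodd
      have h5 : IsCoprime (nR c) 2 := ⟨1, -(nR c / 2), by omega⟩
      have h6 := h5.mul_right h5
      rwa [show (2 : ℤ) * 2 = 4 by norm_num] at h6
    obtain ⟨x, y, hxy⟩ := h2
    have h3 := dvd_nrm c
    have h4 : ((nrm c : ℕ) : RR) = ((nR c : ℤ) : RR) := by
      rw [← nrm_cast]; push_cast; rfl
    rw [h4] at h3
    obtain ⟨d, hd⟩ := h3
    refine ⟨(x : RR) * d, (y : RR), ?_⟩
    have h5 : ((x * nR c + y * 4 : ℤ) : RR) = 1 := by rw [hxy]; norm_num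
    push_cast at h5
    linear_combination h5 - (x : RR) * hd
  have e : (28 : RR) = 4 * (fR * -fR) := by linear_combination 4 * fR_sq
  rw [e]
  exact h1.mul_right (h.cop.symm.mul_right h.cop.symm.neg_right)

/-- the function which is summed -/
noncomputable def ff (W : Finset RR) (a b : ZMod 2) (n : RR) : ℂ := if prm n then xw W a b n else 0

lemma ff_norm (W : Finset RR) (a b : ZMod 2) (n : RR) : ‖ff W a b n‖ ≤ 1 := by
  unfold ff
  split_ifs with h
  · unfold xw
    rw [norm_mul, norm_mul, norm_sg, norm_sg, mul_one, mul_one, norm_prod]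
    exact prod_le_one (fun _ _ => norm_nonneg _) fun u _ => chi_norm u n
  · rw [norm_zero]; exact zero_le_one

lemma ff_per {W : Finset RR} (hW : ∀ u ∈ W, PO u) (a b : ZMod 2) {x y : RR}
    (h : 28 * ∏ u ∈ W, u ∣ x - y) : ff W a b x = ff W a b y := by
  have h1 : (28 : RR) ∣ x - y := (dvd_mul_right _ _).trans h
  have h2 : ∀ u ∈ W, u ∣ x - y := fun u hu =>
    ((dvd_prod_of_mem (fun u => u) hu).trans (dvd_mul_left _ _)).trans h
  have h3 : prm x ↔ prm y := ⟨fun h4 => prm_cong (by rw [← neg_sub]; exact (dvd_neg).2 h1) h4,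
    prm_cong h1⟩
  have h4 : xw W a b x = xw W a b y := by
    unfold xw
    rw [te_cong h1, cc_cong (fR_dvd.trans h1)]
    congr 2
    exact prod_congr rfl fun u hu => chi_per (hW u hu) (h2 u hu)
  unfold ff
  by_cases h5 : prm x
  · rw [if_pos h5, if_pos (h3.1 h5), h4]
  · rw [if_neg h5, if_neg (fun h6 => h5 (h3.2 h6))]

lemma ff_mul {W : Finset RR} (hW : ∀ u ∈ W, PO u) (a b : ZMod 2) {c : RR} (hc : prm c) (x : RR) :
    ff W a b (c * x) = xw W a b c * ff W a b x := by
  unfold ff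
  by_cases h5 : prm x
  · rw [if_pos h5, if_pos (prm_mul hc h5)]
    unfold xw
    rw [Nsl.te_mul hc h5, cc_mul hc.cop h5.cop, mul_add, mul_add, sg_add, sg_add,
      prod_congr rfl fun u hu => chi_mul (hW u hu) c x, prod_mul_distrib]
    ring
  · rw [if_neg h5, if_neg (fun h6 => h5 (prm_cancel hc h6)), mul_zero]

lemma exists_c {W : Finset RR} (hW : ∀ u ∈ W, PO u) {a b : ZMod 2}
    (h : W.Nonempty ∨ a ≠ 0 ∨ b ≠ 0) :
    ∃ c, prm c ∧ IsCoprime c (28 * ∏ u ∈ W, u) ∧ xw W a b c ≠ 1 := by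
  rcases W.eq_empty_or_nonempty with rfl | hne
  · rcases zmod2_cases a with rfl | rfl
    · rcases zmod2_cases b with rfl | rfl
      · rcases h with h | h | h
        · exact absurd h (by simp)
        · exact absurd rfl h
        · exact absurd rfl h
      · have e := cXY_el 5 0
        have hp : prm (el 5 0) := by
          refine ⟨by rw [e.1]; norm_num, by rw [e.2]; norm_num, ?_⟩
          refine ⟨2 * fR, 3, ?_⟩
          unfold el
          push_cast
          linear_combination 2 * fR_sq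
        refine ⟨el 5 0, hp, by rw [prod_empty, mul_one]; exact cop28 hp, ?_⟩
        have h7 : e7 (el 5 0) = -1 := by
          unfold e7
          rw [r7_apply, e.1, e.2]
          have : quadraticChar (ZMod 7) (((5 : ℤ) : ZMod 7) + ((0 : ℤ) : ZMod 7) * 4) = -1 := by
            decide
          rw [this]; norm_num
        unfold xw cc
        rw [prod_empty, h7, lg_neg_one, zero_mul, sg_zero, mul_one, mul_one, one_mul, sg_one]
        norm_num
    · have e := cXY_el 1 2
      have hp : prm (el 1 2) := by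
        refine ⟨by rw [e.1]; norm_num, by rw [e.2]; norm_num, ?_⟩
        refine ⟨fR - 4, 4, ?_⟩
        unfold el
        push_cast
        have : (2 : RR) * aR = fR + 1 := by unfold fR; ring
        linear_combination 4 * this + fR_sq
      refine ⟨el 1 2, hp, by rw [prod_empty, mul_one]; exact cop28 hp, ?_⟩
      have h7 : e7 (el 1 2) = 1 := by
        unfold e7
        rw [r7_apply, e.1, e.2]
        have : quadraticChar (ZMod 7) (((1 : ℤ) : ZMod 7) + ((2 : ℤ) : ZMod 7) * 4) = 1 := by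
          decide
        rw [this]; norm_num
      have h8 : te (el 1 2) = 1 := by
        unfold te
        rw [e.2, if_neg (by norm_num)]
      unfold xw cc
      rw [prod_empty, h7, lg_one, mul_zero, sg_zero, h8, mul_one, mul_one, one_mul, sg_one]
      norm_num
  · obtain ⟨π, hπ⟩ := hne
    obtain ⟨β, hβ, hβ'⟩ := exists_nonres (hW π hπ)
    have hcop : IsCoprime π (28 * ∏ u ∈ W.erase π, u) := by
      refine (cop28 (pq_prm (hW π hπ))).mul_right ?_
      rw [IsCoprime.prod_right_iff]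
      intro u hu
      exact pq_cop (hW π hπ) (hW u (mem_of_mem_erase hu)) (fun h => (mem_erase.1 hu).1 h.symm)
    obtain ⟨x, y, hxy⟩ := hcop
    obtain ⟨c, hc⟩ : ∃ c, c = 1 + x * π * 0 + (β - 1) * (y * (28 * ∏ u ∈ W.erase π, u)) := ⟨_, rfl⟩
    have h1 : π ∣ c - β := ⟨-(β - 1) * x, by rw [hc]; linear_combination (β - 1) * hxy⟩
    have h2 : 28 * ∏ u ∈ W.erase π, u ∣ c - 1 := ⟨(β - 1) * y, by rw [hc]; ring⟩
    have h3 : (28 : RR) ∣ c - 1 := (dvd_mul_right _ _).trans h2
    have h4 : ∀ u ∈ W.erase π, u ∣ c - 1 := fun u hu =>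
      ((dvd_prod_of_mem (fun u => u) hu).trans (dvd_mul_left _ _)).trans h2
    have hcp : prm c := prm_cong h3 prm_one
    refine ⟨c, hcp, ?_, ?_⟩
    · refine (cop28 hcp).mul_right ?_
      rw [IsCoprime.prod_right_iff]
      intro u hu
      by_cases huπ : u = π
      · rw [huπ, isCoprime_comm, (hW π hπ).pr.irreducible.coprime_iff_not_dvd]
        intro h5
        exact hβ (by have := dvd_sub h5 h1; rwa [sub_sub_cancel] at this)
      · obtain ⟨d, hd⟩ := h4 u (mem_erase.2 ⟨huπ, hu⟩)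
        exact ⟨1, -d, by linear_combination hd⟩
    · have h5 : xw W a b c = chi π β := by
        unfold xw
        rw [te_cong h3, cc_cong (fR_dvd.trans h3), Nsl.te_one]
        have h6 : cc 1 = 0 := by unfold cc; rw [e7_one, lg_one]
        rw [h6, mul_zero, mul_zero, sg_zero, mul_one, mul_one, ← mul_prod_erase W _ hπ,
          chi_per (hW π hπ) h1, prod_eq_one, mul_one]
        intro u hu
        rw [chi_per (hW u (mem_of_mem_erase hu)) (h4 u hu), chi_one (hW u (mem_of_mem_erase hu))]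
      rw [h5]
      exact hβ'

end CHSH

open CHSH in
theorem t_CHS : S_CHS := by
  refine ⟨9408, by norm_num, fun W a b hW h V hV => ?_⟩
  obtain ⟨c, hc, hcop, hz⟩ := exists_c hW h
  have hq : 28 * ∏ u ∈ W, u ≠ 0 := by
    refine mul_ne_zero (by norm_num) (prod_ne_zero_iff.2 fun u hu => pq_ne (hW u hu))
  have h1 := csum hq (f := ff W a b) (fun x y => ff_per hW a b) (ff_norm W a b) hcop hz
    (ff_mul hW a b hc) V
  have h2 : ∑ x ∈ ZB V, ff W a b x = ∑ n ∈ PB V, xw W a b n := by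
    unfold PB
    rw [sum_filter]
    rfl
  rw [h2] at h1
  have h3 : nrm (28 * ∏ u ∈ W, u) = 784 * ∏ u ∈ W, nrm u := by
    rw [nrm_mul, Nsl.nrm_prod]
    congr 1
    have h4 := nrm_eq' (28 : RR)
    have e : (28 : RR) = ((28 : ℤ) : RR) := by norm_num
    rw [e, (cXY_int 28).1, (cXY_int 28).2] at h4
    rw [e]
    norm_num at h4
    exact_mod_cast h4
  rw [h3] at h1
  have h4 : (1 : ℝ) ≤ Real.sqrt V := Real.one_le_sqrt.2 (by exact_mod_cast hV)
  have h5 : (0 : ℝ) ≤ ((∏ u ∈ W, nrm u : ℕ) : ℝ) := Nat.cast_nonneg _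
  refine h1.trans ?_
  rw [Nat.cast_mul]
  push_cast at h5 ⊢
  nlinarith

end Pool.Agent.T2h16.KD
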