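import Pool.Agent.T2h16.KD.CHEB

/-!
Project KD (owner helper16), part CNT: sets with many primes, sets near the boundary, sets with two
primes in a block (translation of `Pool/Agent/Y474/XK/CNT.lean`).
-/

set_option autoImplicit false
set_option linter.unusedVariables false

open scoped Classical

namespace Pool.Agent.T2h16.KD.CntA

open Finset
open Pool.Agent.Y698 hiding zz
open Pool.Agent.T2h78.TW (PO te sl)
open Pool.Agent.T2h16.KD
open Pool.Agent.Y703.CX (jj XX)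

/-- sets of primary primes -/
def Pr (S : Finset RR) : Prop := ∀ π ∈ S, PO π

theorem SS_pr {X : ℕ} {S : Finset RR} (hS : S ∈ SS X) : Pr S ∧ ∏ π ∈ S, nrm π ≤ X := by
  unfold SS at hS
  rw [mem_filter] at hS
  exact ⟨hS.2.1.1, hS.2.2⟩

theorem pr_pos {S : Finset RR} (hS : Pr S) : 0 < ∏ π ∈ S, nrm π :=
  prod_pos fun π hπ => nrm_pos' (pq_ne (hS π hπ))

theorem pr_inj {S T : Finset RR} (hS : Pr S) (hT : Pr T) (h : ∏ π ∈ S, π = ∏ π ∈ T, π) :
    S = T := by
  rw [← (PS_prod hS).2, ← (PS_prod hT).2, h]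

theorem nrm_pr (S : Finset RR) : nrm (∏ π ∈ S, π) = ∏ π ∈ S, nrm π := nrm_prod_ S _

theorem mem_QB_of {X : ℕ} {S : Finset RR} (hS : Pr S) (h : ∏ π ∈ S, nrm π ≤ X) {π : RR}
    (hπ : π ∈ S) : π ∈ QB X := by
  rw [mem_QB]
  exact ⟨(Nat.le_of_dvd (pr_pos hS) (dvd_prod_of_mem _ hπ)).trans h, hS π hπ⟩

theorem card_le_SB (F : Finset (Finset RR)) (M : ℕ)
    (h : ∀ S ∈ F, Pr S ∧ ∏ π ∈ S, nrm π ≤ M) : F.card ≤ (SB M).card := by
  apply card_le_card_of_injOn (fun S => ∏ π ∈ S, π)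
  · intro S hS
    obtain ⟨h1, h2⟩ := h S hS
    rw [mem_coe, mem_SB, nrm_pr]
    exact ⟨h2, (PS_prod h1).1⟩
  · intro S hS T hT hST
    exact pr_inj (h S hS).1 (h T hT).1 hST

theorem card_le_real (F : Finset (Finset RR)) {M : ℝ} (hM : 0 ≤ M)
    (h : ∀ S ∈ F, Pr S ∧ ((∏ π ∈ S, nrm π : ℕ) : ℝ) ≤ M) : (F.card : ℝ) ≤ 16 * M := by
  by_cases h1 : 1 ≤ ⌊M⌋₊
  · have h2 := card_le_SB F ⌊M⌋₊ fun S hS => ⟨(h S hS).1, Nat.le_floor (h S hS).2⟩
    have h3 := card_SB_le h1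
    have h4 : (F.card : ℝ) ≤ (SB ⌊M⌋₊).card := by exact_mod_cast h2
    have h5 := Nat.floor_le hM
    linarith
  · have h2 : F = ∅ := by
      rw [eq_empty_iff_forall_notMem]
      intro S hS
      have h3 := pr_pos (h S hS).1
      have h4 := Nat.le_floor (h S hS).2
      omega
    rw [h2, card_empty, Nat.cast_zero]
    positivity

theorem hsumSB (hs : S_HS) (M : ℕ) : ∑ x ∈ SB M, (1 : ℝ) / nrm x ≤ 32 * L2 M := by
  refine le_trans ?_ (hs.1 M)
  refine sum_le_sum_of_subset_of_nonneg ?_ fun _ _ _ => by positivity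
  intro x hx
  rw [mem_SB] at hx
  exact mem_PB.2 ⟨hx.1, hx.2.prm⟩

theorem sum_inv (hs : S_HS) (F : Finset (Finset RR)) (M : ℕ) (h : ∀ S ∈ F, Pr S ∧ ∏ π ∈ S, nrm π ≤ M) :
    ∑ S ∈ F, (1 : ℝ) / ((∏ π ∈ S, nrm π : ℕ) : ℝ) ≤ 32 * L2 M := by
  refine le_trans ?_ (hsumSB hs M)
  refine sum_le_inj (fun S => ∏ π ∈ S, π) ?_ ?_ ?_ ?_
  · intro S hS
    obtain ⟨h1, h2⟩ := h S hS
    rw [mem_SB, nrm_pr]
    exact ⟨h2, (PS_prod h1).1⟩
  · intro S hS T hT hST
    exact pr_inj (h S hS).1 (h T hT).1 hST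
  · intro S hS
    rw [nrm_pr]
  · intro x _
    positivity

lemma lg_le_log {T : ℕ} (hT : 2 ≤ T) : L2 T ≤ 3 * Real.log T := by
  have h1 : (Nat.log 2 T : ℝ) * Real.log 2 ≤ Real.log T := by
    have h2 : (2 : ℝ) ^ (Nat.log 2 T) ≤ T := by exact_mod_cast Nat.pow_log_le_self 2 (by omega)
    have h3 := Real.log_le_log (by positivity) h2
    rwa [Real.log_pow] at h3
  have h3 := Real.log_two_gt_d9
  have h4 : 1 ≤ Nat.log 2 T := Nat.log_pos (by norm_num) hT
  have h5 : (1 : ℝ) ≤ Nat.log 2 T := by exact_mod_cast h4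
  unfold L2 Pool.Agent.Y699.E.lg
  nlinarith

theorem lg_le {X : ℕ} (hX : 1 ≤ X) : L2 X ≤ 3 * (1 + Real.log X) := by
  rcases Nat.lt_or_ge X 2 with h | h
  · have h1 : X = 1 := by omega
    subst h1
    unfold L2 Pool.Agent.Y699.E.lg
    norm_num
  · have := lg_le_log h
    linarith

theorem sub_count {X : ℕ} {T : Finset RR} (hT : Pr T) :
    (((SS X).filter fun S => T ⊆ S).card : ℝ) ≤ 16 * (X * (1 / ((∏ π ∈ T, nrm π : ℕ) : ℝ))) := by
  have h4 : (0 : ℝ) < ((∏ π ∈ T, nrm π : ℕ) : ℝ) := by exact_mod_cast pr_pos hT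
  have h1 : (((SS X).filter fun S => T ⊆ S).image fun S => S \ T).card =
      ((SS X).filter fun S => T ⊆ S).card := by
    apply card_image_of_injOn
    intro S hS S' hS' hST
    rw [mem_coe, mem_filter] at hS hS'
    have hST' : S \ T = S' \ T := hST
    rw [← sdiff_union_of_subset hS.2, ← sdiff_union_of_subset hS'.2, hST']
  rw [← h1]
  apply card_le_real _ (by positivity)
  intro T' hT'
  rw [mem_image] at hT'
  obtain ⟨S, hS, rfl⟩ := hT'
  rw [mem_filter] at hS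
  obtain ⟨hP, hSX⟩ := SS_pr hS.1
  refine ⟨fun σ hσ => hP σ (mem_sdiff.1 hσ).1, ?_⟩
  rw [mul_one_div, le_div_iff₀ h4]
  have h2 : (∏ σ ∈ S \ T, nrm σ) * ∏ σ ∈ T, nrm σ = ∏ σ ∈ S, nrm σ := prod_sdiff hS.2
  have h3 := (Nat.cast_le (α := ℝ)).2 (h2.le.trans hSX)
  rwa [Nat.cast_mul] at h3

theorem sum_two_pow (hs : S_HS) (X : ℕ) : ∑ S ∈ SS X, (2 : ℝ) ^ S.card ≤ 16 * X * (32 * L2 X) := by
  set G : Finset (Finset RR) := (QB X).powerset.filter fun S => ∏ π ∈ S, nrm π ≤ X with hG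
  have hGpr : ∀ S ∈ G, Pr S := by
    intro S hS π hπ
    rw [hG, mem_filter, mem_powerset] at hS
    exact (mem_QB.1 (hS.1 hπ)).2
  have h1 : ∑ S ∈ SS X, (2 : ℝ) ^ S.card = ∑ S ∈ SS X, ∑ T ∈ S.powerset, (1 : ℝ) := by
    refine sum_congr rfl fun S _ => ?_
    rw [sum_const, card_powerset, nsmul_eq_mul, mul_one]
    push_cast
    rfl
  have h2 : ∑ S ∈ SS X, ∑ T ∈ S.powerset, (1 : ℝ) =
      ∑ T ∈ G, ∑ S ∈ (SS X).filter (fun S => T ⊆ S), (1 : ℝ) := by
    refine sum_comm' fun S T => ?_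
    rw [mem_powerset, mem_filter]
    constructor
    · rintro ⟨hS, hT⟩
      refine ⟨⟨hS, hT⟩, ?_⟩
      obtain ⟨hP, hSX⟩ := SS_pr hS
      rw [hG, mem_filter, mem_powerset]
      refine ⟨fun π hπ => mem_QB_of hP hSX (hT hπ), le_trans ?_ hSX⟩
      exact Nat.le_of_dvd (pr_pos hP) (prod_dvd_prod_of_subset _ _ _ hT)
    · rintro ⟨⟨hS, hT⟩, -⟩
      exact ⟨hS, hT⟩
  rw [h1, h2]
  have h3 : ∀ T ∈ G, ∑ S ∈ (SS X).filter (fun S => T ⊆ S), (1 : ℝ) ≤
      16 * (X * (1 / ((∏ π ∈ T, nrm π : ℕ) : ℝ))) := by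
    intro T hT
    rw [sum_const, nsmul_eq_mul, mul_one]
    exact sub_count (hGpr T hT)
  refine (sum_le_sum h3).trans ?_
  rw [← mul_sum, ← mul_sum, ← mul_assoc]
  refine mul_le_mul_of_nonneg_left ?_ (by positivity)
  exact sum_inv hs G X fun T hT => ⟨hGpr T hT, by rw [hG, mem_filter] at hT; exact hT.2⟩

theorem cast_ne {p : ℕ} (hp : p.Prime) : (p : RR) ≠ 0 := by
  intro h0
  have h1 := nrm_natCast p
  rw [h0] at h1
  have h2 : nrm (0 : RR) = 0 := nrm_zero_iff.2 rfl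
  rw [h2] at h1
  have := hp.pos
  nlinarith

theorem card_norm (s : Finset RR) (hs : Pr s) (n : ℕ) :
    (s.filter fun π => nrm π = n).card ≤ 2 := by
  by_cases hn : (s.filter fun π => nrm π = n) = ∅
  · rw [hn, card_empty]
    omega
  · obtain ⟨ρ, hρ⟩ := nonempty_iff_ne_empty.2 hn
    rw [mem_filter] at hρ
    obtain ⟨h1, -, -, -⟩ := pq_rat (hs ρ hρ.1)
    rw [hρ.2] at h1
    refine le_trans (card_le_card ?_) (card_PD_nat h1)
    intro π hπ
    rw [mem_filter] at hπ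
    obtain ⟨-, h4, -, -⟩ := pq_rat (hs π hπ.1)
    rw [hπ.2] at h4
    exact (mem_PD (cast_ne h1)).2 ⟨hs π hπ.1, h4⟩

theorem card_int (s : Finset RR) (hs : Pr s) (t : Finset ℕ) (h : ∀ π ∈ s, nrm π ∈ t) :
    s.card ≤ 2 * t.card :=
  card_le_mul_card_image_of_maps_to (f := nrm) h 2 (fun n _ => card_norm s hs n)

theorem sum_sq {X z : ℕ} (hz : 1 ≤ z) :
    ∑ π ∈ (QB X).filter (fun π => z < nrm π), (1 : ℝ) / (nrm π : ℝ) ^ 2 ≤ 2 / z := by
  have hz0 : (0 : ℝ) < z := by exact_mod_cast hz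
  rcases Nat.lt_or_ge X z with hXz | hzX
  · have h1 : (QB X).filter (fun π => z < nrm π) = ∅ := by
      rw [eq_empty_iff_forall_notMem]
      intro π hπ
      rw [mem_filter, mem_QB] at hπ
      have := hπ.1.1
      have := hπ.2
      omega
    rw [h1, sum_empty]
    positivity
  have hmaps : ∀ π ∈ (QB X).filter (fun π => z < nrm π), nrm π ∈ Ioc z X := by
    intro π hπ
    rw [mem_filter, mem_QB] at hπ
    exact mem_Ioc.2 ⟨hπ.2, hπ.1.1⟩
  have hpr : Pr ((QB X).filter (fun π => z < nrm π)) := by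
    intro π hπ
    rw [mem_filter, mem_QB] at hπ
    exact hπ.1.2
  rw [← sum_fiberwise_of_maps_to hmaps]
  have h1 : ∀ n ∈ Ioc z X, ∑ π ∈ ((QB X).filter (fun π => z < nrm π)).filter
      (fun π => nrm π = n), (1 : ℝ) / (nrm π : ℝ) ^ 2 ≤ 2 * ((n : ℝ) ^ 2)⁻¹ := by
    intro n hn
    have h2 : ∀ π ∈ ((QB X).filter (fun π => z < nrm π)).filter (fun π => nrm π = n),
        (1 : ℝ) / (nrm π : ℝ) ^ 2 ≤ ((n : ℝ) ^ 2)⁻¹ := by
      intro π hπ
      rw [mem_filter] at hπ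
      rw [hπ.2, one_div]
    refine (sum_le_sum h2).trans ?_
    rw [sum_const, nsmul_eq_mul]
    have h3 : ((((QB X).filter (fun π => z < nrm π)).filter (fun π => nrm π = n)).card : ℝ) ≤
        2 := by
      exact_mod_cast card_norm _ hpr n
    exact mul_le_mul_of_nonneg_right h3 (by positivity)
  refine (sum_le_sum h1).trans ?_
  rw [← mul_sum]
  have h2 := sum_Ioc_inv_sq_le_sub (α := ℝ) (k := z) (n := X) (by omega) hzX
  have h3 : (0 : ℝ) ≤ (X : ℝ)⁻¹ := by positivity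
  calc 2 * ∑ i ∈ Ioc z X, ((i : ℝ) ^ 2)⁻¹ ≤ 2 * (z : ℝ)⁻¹ := by linarith
    _ = 2 / z := by ring

theorem exp_jj_le {H : ℕ} (hH : 1 ≤ H) {n : ℕ} (hn : 1 ≤ n) :
    Real.exp ((jj H n : ℝ) / H) ≤ n := by
  have hH' : (0 : ℝ) < H := by exact_mod_cast hH
  have h0 : (1 : ℝ) ≤ n := by exact_mod_cast hn
  rw [← Real.le_log_iff_exp_le (by linarith), div_le_iff₀ hH', mul_comm]
  exact Nat.floor_le (mul_nonneg hH'.le (Real.log_nonneg h0))

theorem lt_exp_jj {H : ℕ} (hH : 1 ≤ H) {n : ℕ} (hn : 1 ≤ n) :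
    (n : ℝ) < Real.exp (((jj H n : ℝ) + 1) / H) := by
  have hH' : (0 : ℝ) < H := by exact_mod_cast hH
  have h0 : (1 : ℝ) ≤ n := by exact_mod_cast hn
  rw [← Real.log_lt_iff_lt_exp (by linarith), lt_div_iff₀ hH', mul_comm]
  exact Nat.lt_floor_add_one _

theorem XX_le' {H : ℕ} (hH : 1 ≤ H) {n : ℕ} (hn : 1 ≤ n) :
    (XX H (jj H n) : ℝ) ≤ n * Real.exp (1 / H) := by
  have h1 : (XX H (jj H n) : ℝ) ≤ Real.exp (((jj H n : ℝ) + 1) / H) :=
    Nat.floor_le (Real.exp_pos _).le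
  refine h1.trans ?_
  rw [add_div, Real.exp_add]
  exact mul_le_mul_of_nonneg_right (exp_jj_le hH hn) (Real.exp_pos _).le

theorem sm_mul_la (z : ℕ) (S : Finset RR) :
    (∏ π ∈ sm z S, nrm π) * ∏ π ∈ la z S, nrm π = ∏ π ∈ S, nrm π :=
  prod_filter_mul_prod_filter_not S (fun π => nrm π ≤ z) nrm

theorem one_le_nrm {π : RR} (h : PO π) : 1 ≤ nrm π := nrm_pos' (pq_ne h)

theorem near {X z H k : ℕ} (hH : 1 ≤ H) {S : Finset RR} (hS : S ∈ SS X) (hk : S.card ≤ k)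
    (h : X < (∏ π ∈ sm z S, nrm π) * ∏ π ∈ la z S, XX H (bl H π)) :
    (X : ℝ) * Real.exp (-((k : ℝ) / H)) < ((∏ π ∈ S, nrm π : ℕ) : ℝ) := by
  obtain ⟨hSO, hSX⟩ := SS_pr hS
  have hH' : (0 : ℝ) < H := by exact_mod_cast hH
  have h2 : (X : ℝ) < ((∏ π ∈ sm z S, nrm π : ℕ) : ℝ) *
      ∏ π ∈ la z S, (XX H (bl H π) : ℝ) := by
    exact_mod_cast h
  have h3 : ∏ π ∈ la z S, (XX H (bl H π) : ℝ) ≤
      ∏ π ∈ la z S, ((nrm π : ℝ) * Real.exp (1 / H)) := by
    apply prod_le_prod (fun p _ => Nat.cast_nonneg _)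
    intro π hπ
    exact XX_le' hH (one_le_nrm (hSO π (mem_filter.1 hπ).1))
  rw [prod_mul_distrib, prod_const, ← Real.exp_nat_mul] at h3
  have h5 : Real.exp ((la z S).card * (1 / H)) ≤ Real.exp (k / H) := by
    apply Real.exp_le_exp.2
    rw [mul_one_div]
    apply div_le_div_of_nonneg_right _ hH'.le
    exact_mod_cast (card_filter_le _ _).trans hk
  have h6 : (X : ℝ) < ((∏ π ∈ S, nrm π : ℕ) : ℝ) * Real.exp (k / H) := by
    calc (X : ℝ) < ((∏ π ∈ sm z S, nrm π : ℕ) : ℝ) * ∏ π ∈ la z S, (XX H (bl H π) : ℝ) := h2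
      _ ≤ ((∏ π ∈ sm z S, nrm π : ℕ) : ℝ) *
          ((∏ π ∈ la z S, (nrm π : ℝ)) * Real.exp (k / H)) := by
          refine mul_le_mul_of_nonneg_left (h3.trans ?_) (Nat.cast_nonneg _)
          exact mul_le_mul_of_nonneg_left h5 (prod_nonneg fun _ _ => Nat.cast_nonneg _)
      _ = ((∏ π ∈ S, nrm π : ℕ) : ℝ) * Real.exp (k / H) := by
          rw [← sm_mul_la z S]
          push_cast
          ring
  rw [Real.exp_neg, ← div_eq_mul_inv, div_lt_iff₀ (Real.exp_pos _)]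
  exact h6

/-- the primes that complete a set -/
noncomputable def PP (X : ℕ) (δ : ℝ) (n : ℕ) : Finset RR :=
  (QB X).filter fun π => (X : ℝ) * Real.exp (-δ) < (n : ℝ) * nrm π ∧ (n : ℝ) * nrm π ≤ X

theorem card_PP {X n : ℕ} {δ : ℝ} (hδ : 0 ≤ δ) (hn : 1 ≤ n) :
    ((PP X δ n).card : ℝ) ≤ 2 * (X * δ * (1 / n)) + 2 := by
  have hn' : (0 : ℝ) < n := by exact_mod_cast hn
  set b : ℝ := X / n with hb
  set a : ℝ := X * Real.exp (-δ) / n with ha
  have h1 : (PP X δ n).card ≤ 2 * (Ioc ⌊a⌋₊ ⌊b⌋₊).card := by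
    apply card_int
    · intro π hπ
      unfold PP at hπ
      rw [mem_filter, mem_QB] at hπ
      exact hπ.1.2
    · intro π hπ
      unfold PP at hπ
      rw [mem_filter] at hπ
      obtain ⟨-, h2, h3⟩ := hπ
      rw [mem_Ioc]
      constructor
      · rw [Nat.floor_lt (by positivity), ha, div_lt_iff₀ hn', mul_comm (nrm π : ℝ)]
        exact h2
      · apply Nat.le_floor
        rw [hb, le_div_iff₀ hn', mul_comm]
        exact h3
  rw [Nat.card_Ioc] at h1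
  have h2 : ((PP X δ n).card : ℝ) ≤ 2 * ((⌊b⌋₊ - ⌊a⌋₊ : ℕ) : ℝ) := by exact_mod_cast h1
  have h3 : ((⌊b⌋₊ - ⌊a⌋₊ : ℕ) : ℝ) ≤ X * δ * (1 / n) + 1 ∨ ((⌊b⌋₊ - ⌊a⌋₊ : ℕ) : ℝ) = 0 := by
    rcases Nat.lt_or_ge ⌊b⌋₊ ⌊a⌋₊ with h | h
    · right
      rw [Nat.sub_eq_zero_of_le h.le, Nat.cast_zero]
    · left
      rw [Nat.cast_sub h]
      have h4 := Nat.floor_le (show 0 ≤ b by positivity)
      have h5 := Nat.lt_floor_add_one a
      have h6 : -δ + 1 ≤ Real.exp (-δ) := Real.add_one_le_exp _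
      have h7 : b - a ≤ X * δ * (1 / n) := by
        have e : b - a = X * (1 - Real.exp (-δ)) * (1 / n) := by
          rw [hb, ha]
          ring
        rw [e]
        apply mul_le_mul_of_nonneg_right _ (by positivity)
        apply mul_le_mul_of_nonneg_left _ (Nat.cast_nonneg _)
        linarith
      linarith
  have h4 : 0 ≤ (X : ℝ) * δ * (1 / n) := by positivity
  rcases h3 with h | h <;> linarith

theorem cut_count (hs : S_HS) {X z H k : ℕ} (hX : 1 ≤ X) (hH : 1 ≤ H) (hk : 1 ≤ k) (hkH : k < H) :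
    (((SS X).filter fun S => S.card ≤ k ∧
    X < (∏ π ∈ sm z S, nrm π) * ∏ π ∈ la z S, XX H (bl H π)).card : ℝ) ≤
      2 * (X * ((k : ℝ) / H)) * (32 * L2 X) +
        2 * (16 * (3 * X * Real.exp (-(Real.log X) / k))) := by
  have hH' : (0 : ℝ) < H := by exact_mod_cast hH
  have hk' : (0 : ℝ) < k := by exact_mod_cast hk
  have hX' : (1 : ℝ) ≤ X := by exact_mod_cast hX
  have hX0 : (0 : ℝ) < X := by linarith
  set δ : ℝ := (k : ℝ) / H with hδ
  have hδ0 : 0 ≤ δ := by positivity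
  have hδ1 : δ ≤ 1 := by
    rw [hδ, div_le_one hH']
    exact_mod_cast hkH.le
  set Z : ℝ := 3 * X * Real.exp (-(Real.log X) / k) with hZ
  set F := (SS X).filter fun S => S.card ≤ k ∧
    X < (∏ π ∈ sm z S, nrm π) * ∏ π ∈ la z S, XX H (bl H π) with hF
  set G : Finset (Finset RR) := (QB X).powerset.filter fun S =>
    ∏ π ∈ S, nrm π ≤ X ∧ ((∏ π ∈ S, nrm π : ℕ) : ℝ) ≤ Z with hG
  have hGpr : ∀ S ∈ G, Pr S := by
    intro S hS π hπ
    rw [hG, mem_filter, mem_powerset] at hS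
    exact (mem_QB.1 (hS.1 hπ)).2
  have h1 : F ⊆ G.biUnion fun T => (PP X δ (∏ π ∈ T, nrm π)).image fun π => insert π T := by
    intro S hS
    rw [hF, mem_filter] at hS
    obtain ⟨hS1, hSk, hlt⟩ := hS
    obtain ⟨hP, hSX⟩ := SS_pr hS1
    have h2 := near hH hS1 hSk hlt
    have hne : S.Nonempty := by
      rw [nonempty_iff_ne_empty]
      rintro rfl
      simp [sm, la] at hlt
      omega
    obtain ⟨π, hπ, hmax⟩ := exists_max_image S nrm hne
    have h3 : nrm π * ∏ ρ ∈ S.erase π, nrm ρ = ∏ ρ ∈ S, nrm ρ := mul_prod_erase S nrm hπ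
    have hPe : Pr (S.erase π) := fun ρ hρ => hP ρ (mem_of_mem_erase hρ)
    have h4 : (0 : ℝ) < nrm π := by exact_mod_cast one_le_nrm (hP π hπ)
    have h5 : (0 : ℝ) < ((∏ ρ ∈ S.erase π, nrm ρ : ℕ) : ℝ) := by exact_mod_cast pr_pos hPe
    have h6 : (nrm π : ℝ) * ((∏ ρ ∈ S.erase π, nrm ρ : ℕ) : ℝ) =
        ((∏ ρ ∈ S, nrm ρ : ℕ) : ℝ) := by
      rw [← h3, Nat.cast_mul]
    have h7 : ∏ ρ ∈ S, nrm ρ ≤ (nrm π) ^ k := by
      refine (prod_le_pow_card S nrm (nrm π) hmax).trans ?_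
      exact Nat.pow_le_pow_right (one_le_nrm (hP π hπ)) hSk
    have h8 : Real.log X - 1 ≤ k * Real.log (nrm π) := by
      have e0 : ((∏ ρ ∈ S, nrm ρ : ℕ) : ℝ) ≤ (nrm π : ℝ) ^ k := by
        have := (Nat.cast_le (α := ℝ)).2 h7
        rw [Nat.cast_pow] at this
        exact this
      have e1 : Real.log (X * Real.exp (-δ)) ≤ Real.log ((nrm π : ℝ) ^ k) :=
        Real.log_le_log (by positivity) (h2.le.trans e0)
      rw [Real.log_mul (by positivity) (Real.exp_pos _).ne', Real.log_exp, Real.log_pow] at e1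
      linarith
    have hSX' : ((∏ ρ ∈ S, nrm ρ : ℕ) : ℝ) ≤ X := Nat.cast_le.2 hSX
    have h9 : Real.log ((∏ ρ ∈ S.erase π, nrm ρ : ℕ) : ℝ) ≤
        Real.log X + -(Real.log X) / k + 1 := by
      have e1 := Real.log_le_log (show (0 : ℝ) < (nrm π : ℝ) *
        ((∏ ρ ∈ S.erase π, nrm ρ : ℕ) : ℝ) from mul_pos h4 h5) (h6.le.trans hSX')
      rw [Real.log_mul h4.ne' h5.ne'] at e1
      have e2 : (Real.log X - 1) / k ≤ Real.log (nrm π) := by
        rw [div_le_iff₀ hk', mul_comm]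
        exact h8
      have e3 : (1 : ℝ) / k ≤ 1 := by
        rw [div_le_one hk']
        exact_mod_cast hk
      have e4 : (Real.log X - 1) / k = -(-(Real.log X) / k) - 1 / k := by ring
      rw [e4] at e2
      linarith
    have h10 : ((∏ ρ ∈ S.erase π, nrm ρ : ℕ) : ℝ) ≤ Z := by
      rw [Real.log_le_iff_le_exp h5, Real.exp_add, Real.exp_add, Real.exp_log hX0] at h9
      refine h9.trans ?_
      have := Real.exp_one_lt_d9
      have e0 : 0 < (X : ℝ) * Real.exp (-(Real.log X) / k) := by positivity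
      rw [hZ]
      nlinarith
    rw [mem_biUnion]
    refine ⟨S.erase π, ?_, ?_⟩
    · rw [hG, mem_filter, mem_powerset]
      refine ⟨fun ρ hρ => mem_QB_of hP hSX (mem_of_mem_erase hρ), ?_, h10⟩
      refine le_trans ?_ hSX
      rw [← h3]
      exact Nat.le_mul_of_pos_left _ (one_le_nrm (hP π hπ))
    · rw [mem_image]
      refine ⟨π, ?_, insert_erase hπ⟩
      unfold PP
      rw [mem_filter]
      refine ⟨mem_QB_of hP hSX hπ, ?_, ?_⟩
      · rw [mul_comm ((∏ ρ ∈ S.erase π, nrm ρ : ℕ) : ℝ), h6]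
        exact h2
      · rw [mul_comm ((∏ ρ ∈ S.erase π, nrm ρ : ℕ) : ℝ), h6]
        exact hSX'
  have h2 : (F.card : ℝ) ≤
      ∑ T ∈ G, (2 * (X * δ * (1 / ((∏ π ∈ T, nrm π : ℕ) : ℝ))) + 2) := by
    have h3 := (card_le_card h1).trans (card_biUnion_le.trans (sum_le_sum fun T _ => card_image_le))
    have h4 : (F.card : ℝ) ≤ ∑ T ∈ G, ((PP X δ (∏ π ∈ T, nrm π)).card : ℝ) := by
      have := (Nat.cast_le (α := ℝ)).2 h3
      rw [Nat.cast_sum] at this
      exact this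
    refine h4.trans (sum_le_sum fun T hT => ?_)
    exact card_PP hδ0 (pr_pos (hGpr T hT))
  refine h2.trans ?_
  rw [sum_add_distrib, sum_const, nsmul_eq_mul]
  have h3 : ∑ T ∈ G, 2 * (X * δ * (1 / ((∏ π ∈ T, nrm π : ℕ) : ℝ))) =
      2 * (X * δ) * ∑ T ∈ G, 1 / ((∏ π ∈ T, nrm π : ℕ) : ℝ) := by
    rw [mul_sum]
    exact sum_congr rfl fun T _ => by ring
  rw [h3]
  have h4 := sum_inv hs G X fun T hT => ⟨hGpr T hT, by rw [hG, mem_filter] at hT; exact hT.2.1⟩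
  have h5 := card_le_real G (M := Z) (by positivity) fun T hT =>
    ⟨hGpr T hT, by rw [hG, mem_filter] at hT; exact hT.2.2⟩
  have h6 : 0 ≤ 2 * (X * δ) := by positivity
  have h7 := mul_le_mul_of_nonneg_left h4 h6
  linarith

theorem pair_count {X : ℕ} {π ρ : RR} (hne : π ≠ ρ) (hπ : PO π) (hρ : PO ρ) :
    (((SS X).filter fun S => π ∈ S ∧ ρ ∈ S).card : ℝ) ≤
      16 * (X / ((nrm π : ℝ) * nrm ρ)) := by
  have h4 : (0 : ℝ) < nrm π := by exact_mod_cast one_le_nrm hπ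
  have h5 : (0 : ℝ) < nrm ρ := by exact_mod_cast one_le_nrm hρ
  have h1 : (((SS X).filter fun S => π ∈ S ∧ ρ ∈ S).image fun S => (S.erase π).erase ρ).card =
      ((SS X).filter fun S => π ∈ S ∧ ρ ∈ S).card := by
    apply card_image_of_injOn
    intro S hS T hT hST
    rw [mem_coe, mem_filter] at hS hT
    have e : ∀ U : Finset RR, π ∈ U → ρ ∈ U →
        insert π (insert ρ ((U.erase π).erase ρ)) = U := by
      intro U h1 h2
      rw [insert_erase (mem_erase.2 ⟨hne.symm, h2⟩), insert_erase h1]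
    have hST' : (S.erase π).erase ρ = (T.erase π).erase ρ := hST
    rw [← e S hS.2.1 hS.2.2, ← e T hT.2.1 hT.2.2, hST']
  rw [← h1]
  apply card_le_real _ (by positivity)
  intro T hT
  rw [mem_image] at hT
  obtain ⟨S, hS, rfl⟩ := hT
  rw [mem_filter] at hS
  obtain ⟨hP, hSX⟩ := SS_pr hS.1
  refine ⟨fun σ hσ => hP σ (mem_of_mem_erase (mem_of_mem_erase hσ)), ?_⟩
  rw [le_div_iff₀ (by positivity)]
  have h2 : nrm π * (nrm ρ * ∏ σ ∈ (S.erase π).erase ρ, nrm σ) = ∏ σ ∈ S, nrm σ := by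
    rw [mul_prod_erase (S.erase π) nrm (mem_erase.2 ⟨hne.symm, hS.2.2⟩),
      mul_prod_erase S nrm hS.2.1]
  have h3 := (Nat.cast_le (α := ℝ)).2 (h2.le.trans hSX)
  rw [Nat.cast_mul, Nat.cast_mul] at h3
  refine le_trans (le_of_eq ?_) h3
  ring

theorem coll_count (hs : S_HS) {X z H : ℕ} (hz : 1 ≤ z) (hH : 1 ≤ H) : (((SS X).filter fun S =>
    ¬ Set.InjOn (bl H) (la z S : Set RR)).card : ℝ) ≤
      64 * X / H * (32 * L2 X) + 32 * X * (2 / z) := by
  have hH1 : (1 : ℝ) ≤ H := by exact_mod_cast hH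
  have hH' : (0 : ℝ) < H := by linarith
  have hX' : (0 : ℝ) ≤ X := Nat.cast_nonneg _
  -- the pairs of norms in a block
  have h0 : ∀ p q : ℕ, 1 ≤ p → p ≤ q → jj H p = jj H q → q ∈ Icc p (p + 2 * p / H) := by
    intro p q hp hpq hj
    have h1 := exp_jj_le hH hp
    have h2 := lt_exp_jj hH (hp.trans hpq)
    rw [← hj, add_div, Real.exp_add] at h2
    have h3 : (q : ℝ) < p * Real.exp (1 / H) :=
      h2.trans_le (mul_le_mul_of_nonneg_right h1 (Real.exp_pos _).le)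
    have h5 : Real.exp (1 / H) ≤ 1 + 2 / H := by
      have h6 := Real.abs_exp_sub_one_le (x := 1 / H) (by
        rw [abs_of_pos (by positivity), div_le_one (by linarith)]
        exact hH1)
      rw [abs_of_pos (show (0 : ℝ) < 1 / H by positivity)] at h6
      have h7 := (le_abs_self _).trans h6
      have h8 : 2 * (1 / (H : ℝ)) = 2 / H := by ring
      linarith
    have hp0 : (0 : ℝ) ≤ p := Nat.cast_nonneg _
    have h6 : (q : ℝ) ≤ p + 2 * p / H := by
      have := mul_le_mul_of_nonneg_left h5 hp0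
      have e : (p : ℝ) * (1 + 2 / H) = p + 2 * p / H := by ring
      linarith
    rw [mem_Icc]
    refine ⟨hpq, ?_⟩
    have h7 : q - p ≤ 2 * p / H := by
      rw [Nat.le_div_iff_mul_le (by omega)]
      have h8 : ((q : ℝ) - p) * H ≤ 2 * p := by
        rw [← le_div_iff₀ hH']
        linarith
      have h9 : (((q - p) * H : ℕ) : ℝ) ≤ ((2 * p : ℕ) : ℝ) := by
        push_cast [Nat.cast_sub hpq]
        exact h8
      exact_mod_cast h9
    omega
  set A : Finset RR := (QB X).filter (fun π => z < nrm π) with hA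
  set B : RR → Finset RR := fun π => (QB X).filter fun ρ =>
    ρ ≠ π ∧ nrm ρ ∈ Icc (nrm π) (nrm π + 2 * nrm π / H) with hB
  have h1 : (SS X).filter (fun S => ¬ Set.InjOn (bl H) (la z S : Set RR)) ⊆
      A.biUnion fun π => (B π).biUnion fun ρ => (SS X).filter fun S => π ∈ S ∧ ρ ∈ S := by
    intro S hS
    rw [mem_filter] at hS
    obtain ⟨hS1, hS2⟩ := hS
    obtain ⟨hP, hSX⟩ := SS_pr hS1
    unfold Set.InjOn at hS2
    push Not at hS2
    obtain ⟨π, hπ, ρ, hρ, hj, hne⟩ := hS2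
    rw [mem_coe] at hπ hρ
    unfold la at hπ hρ
    rw [mem_filter] at hπ hρ
    have key : ∀ π ρ : RR, π ∈ S → ρ ∈ S → ρ ≠ π → z < nrm π → nrm π ≤ nrm ρ →
        jj H (nrm π) = jj H (nrm ρ) →
        S ∈ A.biUnion fun π => (B π).biUnion fun ρ => (SS X).filter fun S => π ∈ S ∧ ρ ∈ S := by
      intro π ρ hπ hρ hne hz hle hj
      rw [mem_biUnion]
      refine ⟨π, mem_filter.2 ⟨mem_QB_of hP hSX hπ, hz⟩, ?_⟩
      rw [mem_biUnion]
      exact ⟨ρ, mem_filter.2 ⟨mem_QB_of hP hSX hρ, hne,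
        h0 _ _ (one_le_nrm (hP π hπ)) hle hj⟩, mem_filter.2 ⟨hS1, hπ, hρ⟩⟩
    rcases le_total (nrm π) (nrm ρ) with h | h
    · exact key π ρ hπ.1 hρ.1 hne.symm (not_le.1 hπ.2) h hj
    · exact key ρ π hρ.1 hπ.1 hne (not_le.1 hρ.2) h hj.symm
  have h2 : (((SS X).filter fun S => ¬ Set.InjOn (bl H) (la z S : Set RR)).card : ℝ) ≤
      ∑ π ∈ A, ∑ ρ ∈ B π, (((SS X).filter fun S => π ∈ S ∧ ρ ∈ S).card : ℝ) := by
    have h3 := (card_le_card h1).trans (card_biUnion_le.trans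
      (sum_le_sum fun p _ => card_biUnion_le))
    exact_mod_cast h3
  refine h2.trans ?_
  have h3 : ∀ π ∈ A, ∑ ρ ∈ B π, (((SS X).filter fun S => π ∈ S ∧ ρ ∈ S).card : ℝ) ≤
      64 * X / H * (1 / nrm π) + 32 * X * (1 / (nrm π : ℝ) ^ 2) := by
    intro π hπ
    rw [hA, mem_filter, mem_QB] at hπ
    have hp0 : (0 : ℝ) < nrm π := by exact_mod_cast one_le_nrm hπ.1.2
    have h4 : ∀ ρ ∈ B π, (((SS X).filter fun S => π ∈ S ∧ ρ ∈ S).card : ℝ) ≤
        16 * X / (nrm π : ℝ) ^ 2 := by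
      intro ρ hρ
      have hρ' := mem_filter.1 hρ
      obtain ⟨h6, h7, h8⟩ := hρ'
      rw [mem_QB] at h6
      rw [mem_Icc] at h8
      refine (pair_count h7.symm hπ.1.2 h6.2).trans ?_
      have h5 : (nrm π : ℝ) ≤ nrm ρ := by exact_mod_cast h8.1
      calc 16 * (X / ((nrm π : ℝ) * nrm ρ)) ≤ 16 * (X / ((nrm π : ℝ) * nrm π)) := by gcongr
        _ = _ := by ring
    refine (sum_le_sum h4).trans ?_
    rw [sum_const, nsmul_eq_mul]
    have h5 : ((B π).card : ℝ) ≤ 2 * (2 * nrm π / H + 1) := by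
      have h6 : (B π).card ≤ 2 * (Icc (nrm π) (nrm π + 2 * nrm π / H)).card := by
        apply card_int
        · intro ρ hρ
          exact (mem_QB.1 (mem_filter.1 hρ).1).2
        · intro ρ hρ
          exact (mem_filter.1 hρ).2.2
      rw [Nat.card_Icc] at h6
      have h7 : nrm π + 2 * nrm π / H + 1 - nrm π = 2 * nrm π / H + 1 := by
        rw [Nat.add_assoc, Nat.add_sub_cancel_left]
      rw [h7] at h6
      have h8 : ((2 * nrm π / H : ℕ) : ℝ) ≤ 2 * nrm π / H := by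
        refine Nat.cast_div_le.trans (le_of_eq ?_)
        push_cast
        ring
      have h9 : ((B π).card : ℝ) ≤ 2 * (((2 * nrm π / H : ℕ) : ℝ) + 1) := by
        have := (Nat.cast_le (α := ℝ)).2 h6
        rw [Nat.cast_mul, Nat.cast_add, Nat.cast_one] at this
        exact_mod_cast this
      linarith
    calc ((B π).card : ℝ) * (16 * X / (nrm π : ℝ) ^ 2) ≤
          2 * (2 * nrm π / H + 1) * (16 * X / (nrm π : ℝ) ^ 2) :=
          mul_le_mul_of_nonneg_right h5 (by positivity)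
      _ = _ := by
          field_simp
          ring
  refine (sum_le_sum h3).trans ?_
  rw [sum_add_distrib, ← mul_sum, ← mul_sum]
  have h4 : ∑ π ∈ A, (1 : ℝ) / nrm π ≤ 32 * L2 X := by
    refine le_trans ?_ (hs.1 X)
    refine sum_le_sum_of_subset_of_nonneg ?_ fun _ _ _ => by positivity
    intro π hπ
    rw [hA, mem_filter, mem_QB] at hπ
    exact mem_PB.2 ⟨hπ.1.1, pq_prm hπ.1.2⟩
  have h5 := sum_sq (X := X) hz
  have h6 := mul_le_mul_of_nonneg_left h4 (show (0 : ℝ) ≤ 64 * X / H by positivity)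
  have h7 := mul_le_mul_of_nonneg_left h5 (show (0 : ℝ) ≤ 32 * X by positivity)
  linarith

end Pool.Agent.T2h16.KD.CntA

namespace Pool.Agent.T2h16.KD

open Finset
open Pool.Agent.Y698 hiding zz
open Pool.Agent.T2h78.TW (PO te sl)
open Pool.Agent.Y703.CX (jj XX)
open CntA

/-- Sets with many primes, sets near the boundary, sets with two primes in a block. -/
theorem t_CNT : S_CNT := by
  intro hs _
  have hL : ∀ X : ℕ, 1 ≤ X → (1 : ℝ) ≤ X ∧ 1 ≤ 1 + Real.log X := by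
    intro X hX
    have h1 : (1 : ℝ) ≤ X := by exact_mod_cast hX
    have := Real.log_nonneg h1
    exact ⟨h1, by linarith⟩
  have hall : ∀ X : ℕ, ∀ F ⊆ SS X, (F.card : ℝ) ≤ 16 * X := by
    intro X F hF
    exact card_le_real F (M := X) (Nat.cast_nonneg _) fun S hS =>
      ⟨(SS_pr (hF hS)).1, Nat.cast_le.2 (SS_pr (hF hS)).2⟩
  refine ⟨6144, ?_, ?_, ?_, ?_, ?_⟩
  · norm_num
  · intro X hX
    have h := hall X _ subset_rfl
    have := (hL X hX).1
    linarith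
  · intro X k hX
    obtain ⟨l1, l2⟩ := hL X hX
    have h1 : (((SS X).filter fun S => k < S.card).card : ℝ) * 2 ^ k ≤
        ∑ S ∈ SS X, (2 : ℝ) ^ S.card := by
      rw [← nsmul_eq_mul, ← sum_const]
      refine (sum_le_sum (g := fun S => (2 : ℝ) ^ S.card) fun S hS => ?_).trans
        (sum_le_sum_of_subset_of_nonneg (filter_subset _ _) fun _ _ _ => by positivity)
      rw [mem_filter] at hS
      exact pow_le_pow_right₀ (by norm_num) hS.2.le
    have h2 := sum_two_pow hs X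
    have h4 : 16 * (X : ℝ) * (32 * L2 X) ≤ 16 * X * (32 * (3 * (1 + Real.log X))) :=
      mul_le_mul_of_nonneg_left (by linarith [lg_le hX]) (by positivity)
    have e : 16 * (X : ℝ) * (32 * (3 * (1 + Real.log X))) =
        1536 * (X * (1 + Real.log X)) := by ring
    have h5 : 0 ≤ (X : ℝ) * (1 + Real.log X) := by positivity
    linarith
  · intro X z H k hX hH hk
    obtain ⟨l1, l2⟩ := hL X hX
    have hH' : (0 : ℝ) < H := by exact_mod_cast hH
    have p1 : 0 ≤ (X : ℝ) * (1 + Real.log X) * (k / H) := by positivity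
    have p2 : 0 ≤ (X : ℝ) * Real.exp (-(Real.log X) / k) := by positivity
    have e3 : 6144 * ((X : ℝ) * (1 + Real.log X)) * (k / H) +
        6144 * X * Real.exp (-(Real.log X) / k) =
        6144 * (X * (1 + Real.log X) * (k / H)) +
        6144 * (X * Real.exp (-(Real.log X) / k)) := by ring
    rw [e3]
    rcases Nat.lt_or_ge k H with h | h
    · refine (cut_count hs hX hH hk h).trans ?_
      have h4 : 2 * ((X : ℝ) * ((k : ℝ) / H)) * (32 * L2 X) ≤
          2 * (X * ((k : ℝ) / H)) * (32 * (3 * (1 + Real.log X))) :=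
        mul_le_mul_of_nonneg_left (by linarith [lg_le hX]) (by positivity)
      have e1 : 2 * ((X : ℝ) * ((k : ℝ) / H)) * (32 * (3 * (1 + Real.log X))) =
          192 * (X * (1 + Real.log X) * (k / H)) := by ring
      have e2 : 2 * (16 * (3 * (X : ℝ) * Real.exp (-(Real.log X) / k))) =
          96 * (X * Real.exp (-(Real.log X) / k)) := by ring
      linarith
    · have h1 := hall X _ (filter_subset (fun S => S.card ≤ k ∧
        X < (∏ π ∈ sm z S, nrm π) * ∏ π ∈ la z S, XX H (bl H π)) (SS X))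
      have h2 : (1 : ℝ) ≤ (k : ℝ) / H := by
        rw [le_div_iff₀ hH', one_mul]
        exact_mod_cast h
      have h3 : (X : ℝ) ≤ X * (1 + Real.log X) * (k / H) := by
        calc (X : ℝ) = X * 1 * 1 := by ring
          _ ≤ X * (1 + Real.log X) * (k / H) := by gcongr
      linarith
  · intro X z H hX hz hH
    obtain ⟨l1, l2⟩ := hL X hX
    have hH' : (0 : ℝ) < H := by exact_mod_cast hH
    have hz' : (0 : ℝ) < z := by exact_mod_cast hz
    refine (coll_count hs hz hH).trans ?_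
    have h4 : 64 * (X : ℝ) / H * (32 * L2 X) ≤
        64 * X / H * (32 * (3 * (1 + Real.log X))) :=
      mul_le_mul_of_nonneg_left (by linarith [lg_le hX]) (by positivity)
    have e1 : 64 * (X : ℝ) / H * (32 * (3 * (1 + Real.log X))) =
        6144 * (X * (1 + Real.log X)) / H := by ring
    have e2 : 32 * (X : ℝ) * (2 / z) = 64 * (X / z) := by ring
    have e3 : 6144 * (X : ℝ) / z = 6144 * (X / z) := by ring
    have p2 : 0 ≤ (X : ℝ) / z := by positivity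
    linarith

end Pool.Agent.T2h16.KD
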