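import Pool.Agent.T2h16.KD.Stm
import Pool.Agent.H510R2.Div

/-!
# Task DIV of project KD: primary divisors of elements of `ℤ[ω]`, `ω² = ω - 2`
(after `Pool/Agent/Y699/E/Div.lean`)
-/

set_option autoImplicit false
set_option linter.all false

open scoped Classical

open Finset

namespace Pool.Agent.T2h16.KD

open Pool.Agent.Y698 hiding zz
open Pool.Agent.Y698.SG
open Pool.Agent.T2h78.TW (PO te sl)

lemma mem_DP {n d : RR} (hn : n ≠ 0) : d ∈ DP n ↔ prm d ∧ d ∣ n := by
  unfold DP
  rw [mem_filter, mem_PB]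
  constructor
  · rintro ⟨⟨-, h1⟩, h2⟩
    exact ⟨h1, h2⟩
  · rintro ⟨h1, h2⟩
    exact ⟨⟨norm_le_of_dvd hn h2, h1⟩, h2⟩

lemma prm_pow {π : RR} (h : prm π) (j : ℕ) : prm (π ^ j) := by
  induction j with
  | zero => rw [pow_zero]; exact prm_one
  | succ j ih => rw [pow_succ]; exact prm_mul ih h

lemma sum_DP_mul {π m : RR} (hπ : PO π) (hm : prm m) (hd : ¬ π ∣ m) (k : ℕ) (h : RR → ℂ) :
    ∑ d ∈ DP (π ^ k * m), h d = ∑ j ∈ range (k + 1), ∑ d ∈ DP m, h (π ^ j * d) := by
  have hm0 := prm_ne_zero hm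
  have hn0 : π ^ k * m ≠ 0 := mul_ne_zero (pow_ne_zero _ (pq_ne hπ)) hm0
  rw [← sum_product']
  symm
  refine sum_bij (fun x _ => π ^ x.1 * x.2) ?_ ?_ ?_ ?_
  · rintro ⟨j, d⟩ hx
    rw [mem_product, mem_range, mem_DP hm0] at hx
    rw [mem_DP hn0]
    simp only at hx ⊢
    exact ⟨prm_mul (prm_pow (pq_prm hπ) j) hx.2.1, mul_dvd_mul (pow_dvd_pow _ (by omega)) hx.2.2⟩
  · rintro ⟨i, c⟩ hx ⟨j, d⟩ hy hxy
    rw [mem_product, mem_range, mem_DP hm0] at hx hy
    simp only at hx hy hxy
    have hc : ¬ π ∣ c := fun h => hd (h.trans hx.2.2)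
    have hd' : ¬ π ∣ d := fun h => hd (h.trans hy.2.2)
    have hij : ∀ {i j : ℕ} {c d : RR}, ¬ π ∣ d → π ^ i * c = π ^ j * d → i ≤ j := by
      intro i j c d h1 h2
      by_contra h3
      push Not at h3
      obtain ⟨t, ht⟩ := Nat.exists_eq_add_of_lt h3
      apply h1
      have h4 : π ^ j * (π * (π ^ t * c)) = π ^ j * d := by
        rw [← h2, ht]
        ring
      have h5 := mul_left_cancel₀ (pow_ne_zero _ (pq_ne hπ)) h4
      rw [← h5]
      exact dvd_mul_right _ _
    have h1 : i = j := le_antisymm (hij hd' hxy) (hij hc hxy.symm)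
    subst h1
    have h2 := mul_left_cancel₀ (pow_ne_zero _ (pq_ne hπ)) hxy
    rw [h2]
  · intro d hdn
    rw [mem_DP hn0] at hdn
    have hd0 := prm_ne_zero hdn.1
    obtain ⟨j, c, hc, hdc⟩ := WfDvdMonoid.max_power_factor hd0 hπ.pr.irreducible
    have hcp : prm c := prm_cancel (prm_pow (pq_prm hπ) j) (by rw [← hdc]; exact hdn.1)
    have hcop : IsCoprime c (π ^ k) := by
      refine IsCoprime.pow_right ?_
      rw [isCoprime_comm]
      exact (hπ.pr.irreducible.coprime_iff_not_dvd).2 hc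
    have h1 : c ∣ m := by
      refine hcop.dvd_of_dvd_mul_left ?_
      refine dvd_trans ?_ hdn.2
      rw [hdc]
      exact dvd_mul_left _ _
    have h2 : π ^ j ∣ π ^ k := by
      have h3 : IsCoprime (π ^ j) m := by
        refine IsCoprime.pow_left ?_
        exact (hπ.pr.irreducible.coprime_iff_not_dvd).2 hd
      refine h3.dvd_of_dvd_mul_right ?_
      refine dvd_trans ?_ hdn.2
      rw [hdc]
      exact dvd_mul_right _ _
    have h3 : j ≤ k := (pow_dvd_pow_iff (pq_ne hπ) hπ.pr.not_isUnit).1 h2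
    refine ⟨(j, c), ?_, hdc.symm⟩
    rw [mem_product, mem_range, mem_DP hm0]
    exact ⟨by simp only; omega, hcp, h1⟩
  · intro x _
    rfl


lemma DP_one : DP (1 : RR) = {1} := by
  ext d
  rw [mem_DP one_ne_zero, mem_singleton]
  constructor
  · rintro ⟨a1, a2⟩
    exact eq_one_of_prm a1 (isUnit_of_dvd_one a2)
  · rintro rfl
    exact ⟨prm_one, dvd_rfl⟩

lemma pq_nrm_two {π : RR} (h : PO π) : 2 ≤ nrm π := by
  have h1 := nrm_pos' (pq_ne h)
  have h2 : nrm π ≠ 1 := fun h3 => h.pr.not_isUnit (nrm_one_iff.1 h3)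
  omega

/-- induction over prime powers -/
theorem pp_induction {P : RR → Prop} (h1 : P 1)
    (h2 : ∀ (π m : RR) (k : ℕ), PO π → prm m → ¬ π ∣ m → 1 ≤ k → P m → P (π ^ k * m)) :
    ∀ n, prm n → P n := by
  have key : ∀ N : ℕ, ∀ n : RR, nrm n = N → prm n → P n := by
    intro N
    induction N using Nat.strong_induction_on with
    | _ N ih =>
      intro n hN hn
      have hn0 := prm_ne_zero hn
      by_cases hn1 : n = 1
      · rw [hn1]; exact h1
      · have hnu : ¬ IsUnit n := fun h => hn1 (eq_one_of_prm hn h)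
        obtain ⟨ρ, hρ, hρn⟩ := WfDvdMonoid.exists_irreducible_factor hnu hn0
        have hρ' := irreducible_iff_prime.1 hρ
        obtain ⟨π, hπ, hass⟩ := exists_PP hρ' hn hρn
        have hπn : π ∣ n := hass.dvd.trans hρn
        obtain ⟨k, m, hm, hnm⟩ := WfDvdMonoid.max_power_factor hn0 hπ.pr.irreducible
        have hk : 1 ≤ k := by
          by_contra h2
          have : k = 0 := by omega
          rw [this, pow_zero, one_mul] at hnm
          rw [hnm] at hπn
          exact hm hπn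
        have hmp : prm m := prm_cancel (prm_pow (pq_prm hπ) k) (by rw [← hnm]; exact hn)
        have hm0 := prm_ne_zero hmp
        have hlt : nrm m < N := by
          rw [← hN, hnm, nrm_mul]
          have h2 : 1 < nrm (π ^ k) := by
            have h3 : π ∣ π ^ k := dvd_pow_self π (by omega)
            have h4 : nrm π ≤ nrm (π ^ k) := norm_le_of_dvd (pow_ne_zero _ (pq_ne hπ)) h3
            have h5 := pq_nrm_two hπ
            omega
          have h3 := nrm_pos' hm0
          nlinarith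
        rw [hnm]
        exact h2 π m k hπ hmp hm hk (ih (nrm m) hlt m rfl hmp)
  intro n hn
  exact key _ n rfl hn

lemma PD_pow_mul {π m : RR} {k : ℕ} (hπ : PO π) (hm : prm m) (hk : 1 ≤ k) :
    PD (π ^ k * m) = insert π (PD m) := by
  have hm0 := prm_ne_zero hm
  ext ρ
  rw [mem_insert, mem_PD (mul_ne_zero (pow_ne_zero _ (pq_ne hπ)) hm0), mem_PD hm0]
  constructor
  · rintro ⟨a1, a2⟩
    rcases a1.pr.dvd_or_dvd a2 with a3 | a3
    · left
      exact eq_of_dvd a1 hπ (a1.pr.dvd_of_dvd_pow a3)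
    · right
      exact ⟨a1, a3⟩
  · rintro (rfl | ⟨a1, a2⟩)
    · exact ⟨hπ, (dvd_pow_self _ (by omega)).mul_right _⟩
    · exact ⟨a1, a2.mul_left _⟩

lemma notMem_PD {π m : RR} (hm : prm m) (hd : ¬ π ∣ m) : π ∉ PD m := by
  rw [mem_PD (prm_ne_zero hm)]
  exact fun h => hd h.2

lemma card_DP_mul {π m : RR} (hπ : PO π) (hm : prm m) (hd : ¬ π ∣ m) (k : ℕ) :
    (DP (π ^ k * m)).card = (k + 1) * (DP m).card := by
  have h := sum_DP_mul hπ hm hd k (fun _ => 1)
  simp only [sum_const, nsmul_eq_mul, mul_one, card_range] at h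
  exact_mod_cast h

/-- **the divisor bound** -/
theorem div_bound {ε : ℝ} (hε : 0 < ε) : ∃ C : ℝ, 1 ≤ C ∧ ∀ n : RR, prm n →
    ((DP n).card : ℝ) ≤ C * (nrm n : ℝ) ^ ε := by
  obtain ⟨C, hC1, hC⟩ := Pool.Agent.H510R2.prime_pow_aux ε hε
  obtain ⟨P, hP⟩ := exists_nat_ge ((2 : ℝ) ^ (1 / ε))
  have hC0 : (0 : ℝ) < C := by linarith
  have key : ∀ n : RR, prm n →
      ((DP n).card : ℝ) ≤ C ^ ((PD n).filter (fun π => nrm π < P)).card * (nrm n : ℝ) ^ ε := by
    refine pp_induction ?_ ?_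
    · rw [DP_one, PD_one, nrm_one]
      simp
    · intro π m k hπ hm hd hk ih
      rw [card_DP_mul hπ hm hd, PD_pow_mul hπ hm hk, nrm_mul]
      have hnm : nrm (π ^ k) = nrm π ^ k := by
        clear hk
        induction k with
        | zero => rw [pow_zero, pow_zero, nrm_one]
        | succ k ih => rw [pow_succ, pow_succ, nrm_mul, ih]
      rw [hnm]
      push_cast
      rw [Real.mul_rpow (by positivity) (Nat.cast_nonneg _)]
      have h2 := pq_nrm_two hπ
      have n0 : (0 : ℝ) ≤ (nrm m : ℝ) ^ ε := by positivity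
      have c0 : (0 : ℝ) ≤ ((DP m).card : ℝ) := Nat.cast_nonneg _
      rw [filter_insert]
      by_cases hs : nrm π < P
      · rw [if_pos hs, card_insert_of_notMem (by
          rw [mem_filter]; exact fun h => notMem_PD hm hd h.1), pow_succ]
        have h3 := hC (nrm π) h2 k
        calc ((k : ℝ) + 1) * (DP m).card ≤ (C * ((nrm π : ℝ) ^ k) ^ ε) *
              (C ^ ((PD m).filter (fun π => nrm π < P)).card * (nrm m : ℝ) ^ ε) := by
              exact mul_le_mul h3 ih c0 (by positivity)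
          _ = _ := by ring
      · rw [if_neg hs]
        have h3 : (k : ℝ) + 1 ≤ ((nrm π : ℝ) ^ k) ^ ε := by
          have h4 : (2 : ℝ) ^ (1 / ε) ≤ nrm π := by
            refine hP.trans ?_
            exact_mod_cast not_lt.1 hs
          have h5 : (2 : ℝ) ≤ (nrm π : ℝ) ^ ε := by
            calc (2 : ℝ) = ((2 : ℝ) ^ (1 / ε)) ^ ε := by
                  rw [← Real.rpow_mul (by norm_num)]
                  field_simp
                  rw [Real.rpow_one]
              _ ≤ _ := Real.rpow_le_rpow (by positivity) h4 hε.le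
          have h6 : ((nrm π : ℝ) ^ k) ^ ε = ((nrm π : ℝ) ^ ε) ^ k := by
            rw [← Real.rpow_natCast, ← Real.rpow_mul (Nat.cast_nonneg _), ← Real.rpow_natCast,
              ← Real.rpow_mul (Nat.cast_nonneg _), mul_comm]
          rw [h6]
          refine le_trans ?_ (pow_le_pow_left₀ (by norm_num) h5 k)
          have h7 : k + 1 ≤ 2 ^ k := Nat.lt_two_pow_self
          exact_mod_cast h7
        calc ((k : ℝ) + 1) * (DP m).card ≤ (((nrm π : ℝ) ^ k) ^ ε) *
              (C ^ ((PD m).filter (fun π => nrm π < P)).card * (nrm m : ℝ) ^ ε) := by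
              exact mul_le_mul h3 ih c0 (by positivity)
          _ = _ := by ring
  refine ⟨C ^ (ZB P).card, one_le_pow₀ hC1, ?_⟩
  intro n hn
  refine (key n hn).trans ?_
  apply mul_le_mul_of_nonneg_right _ (by positivity)
  apply pow_le_pow_right₀ hC1
  apply card_le_card
  intro π hπ
  rw [mem_filter] at hπ
  rw [mem_ZB]
  exact hπ.2.le

theorem t_DIV : S_DIV := fun _ hε => div_bound hε

end Pool.Agent.T2h16.KD
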