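import Mathlib

/-!
# Project KD (helper16): the abstract statements (linear algebra over `𝔽₂`, equidistribution)

This file needs only Mathlib. See `Stm.lean` for the project.
-/

set_option autoImplicit false
set_option linter.unusedVariables false

open scoped Classical

namespace Pool.Agent.T2h16.KD

open Finset Filter

/-- the limit `(1 - 1/2) (1 - 1/4) (1 - 1/8) ⋯` -/
noncomputable def eta : ℝ := ∏' i : ℕ, (1 - (1 / 2 : ℝ) ^ (i + 1))

/-- the pairs of indices -/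
noncomputable def prs (ι : Type) [Fintype ι] [LinearOrder ι] : Finset (ι × ι) :=
  univ.filter fun e => e.1 < e.2

/-! ### equidistribution -/

/-- the sign -/
noncomputable def sg2 (a : ZMod 2) : ℂ := if a = 0 then 1 else -1

/-- the bilinear hypothesis for a box -/
def HBg {R ι : Type} (cs : R → R → ZMod 2) (C : ι → Finset R) (X : ι → ℕ) (κ : ℝ) : Prop :=
  ∀ i l : ι, i ≠ l → ∀ c d : R → ℂ, (∀ π, ‖c π‖ ≤ 1) → (∀ ρ, ‖d ρ‖ ≤ 1) →
    ‖∑ x ∈ C i, ∑ y ∈ C l, c x * d y * sg2 (cs x y)‖ ≤ κ * (X i * X l)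

/-- TASK EQ: equidistribution of the symbols of a tuple (compare `Pool/Agent/Y710/XK/EQ.lean`) -/
def S_EQg : Prop := ∀ (R : Type) (cs : R → R → ZMod 2) (ι : Type) [Fintype ι] [LinearOrder ι]
  (C : ι → Finset R) (X : ι → ℕ) (κ : ℝ), 0 ≤ κ → (∀ i, (C i).card ≤ X i) → HBg cs C X κ →
  ∀ Q : (prs ι → ZMod 2) → Prop,
    |(((Fintype.piFinset C).filter fun p => Q fun e => cs (p e.1.1) (p e.1.2)).card : ℝ) -
      ((univ.filter Q).card : ℝ) / 2 ^ (prs ι).card * ∏ j, ((C j).card : ℝ)| ≤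
    2 ^ (prs ι).card * (κ * ∏ j, (X j : ℝ))

/-! ### linear algebra -/

/-- the symmetric function on `U ⊕ J` with given entries above the diagonal, which lives on `J` -/
noncomputable def lift {U J : Type} [Fintype J] [LinearOrder J] (α : prs J → ZMod 2) :
    U ⊕ J → U ⊕ J → ZMod 2
  | Sum.inr i, Sum.inr k => if h : (i, k) ∈ prs J then α ⟨(i, k), h⟩ else
      if h : (k, i) ∈ prs J then α ⟨(k, i), h⟩ else 0
  | _, _ => 0

/-- the matrix -/
def MV {T : Type} [Fintype T] (c : T → ZMod 2) (N : T → T → ZMod 2) (v : T → ZMod 2) (i : T) :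
    ZMod 2 := c i * v i + ∑ k, N i k * (v k + v i)

/-- the matrix is nonsingular -/
def GdA {T : Type} [Fintype T] (c : T → ZMod 2) (N : T → T → ZMod 2) : Prop :=
  ∀ v : T → ZMod 2, (∀ i, MV c N v i = 0) → ∀ i, v i = 0

/-- the hypotheses on the symbols -/
structure Sy {T : Type} [Fintype T] (e : T → ZMod 2) (N : T → T → ZMod 2) : Prop where
  zero : ∀ i, N i i = 0
  rec_ : ∀ i k, i ≠ k → N i k + N k i = e i * e k
  sum : ∑ i, e i = 0

/-- the labels of the large indices with respect to the small ones are not degenerate -/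
def NdA {U J : Type} [Fintype U] (e c : U ⊕ J → ZMod 2) (N : U ⊕ J → U ⊕ J → ZMod 2) : Prop :=
  ∀ (w : U → ZMod 2) (a b : ZMod 2), ((∃ u, w u ≠ 0) ∨ a ≠ 0 ∨ b ≠ 0) →
    ∃ k : J, ∑ u, w u * N (Sum.inr k) (Sum.inl u) + a * e (Sum.inr k) + b * c (Sum.inr k) ≠ 0

/-- the bilinear form -/
def BF {T : Type} [Fintype T] (c : T → ZMod 2) (N : T → T → ZMod 2) (x v : T → ZMod 2) : ZMod 2 :=
  ∑ i, x i * MV c N v i

/-- constant on `J` -/
def K0 {U J : Type} (v : U ⊕ J → ZMod 2) : Prop := ∃ a : ZMod 2, ∀ k : J, v (Sum.inr k) = a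

/-- orthogonal to the vectors which are constant on `J` -/
def InG {U J : Type} [Fintype U] [Fintype J] (c : U ⊕ J → ZMod 2) (N : U ⊕ J → U ⊕ J → ZMod 2)
    (v : U ⊕ J → ZMod 2) : Prop := ∀ x, K0 x → BF c N x v = 0

/-- independent modulo the vectors which are constant on `J` -/
def IndK {U J : Type} {k : ℕ} (v : Fin k → U ⊕ J → ZMod 2) : Prop :=
  ∀ l : Fin k → ZMod 2, K0 (fun i => ∑ j, l j * v j i) → ∀ j, l j = 0

/-- TASK LAC: the number of the completions which annihilate a given tuple -/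
def S_LAC : Prop := ∀ (U J : Type) [Fintype U] [Fintype J] [LinearOrder J] (c : U ⊕ J → ZMod 2)
  (N : U ⊕ J → U ⊕ J → ZMod 2) (k : ℕ) (v : Fin k → U ⊕ J → ZMod 2), IndK v →
  (univ.filter fun α : prs J → ZMod 2 =>
      ∀ j i, MV c (fun i k => N i k + lift α i k) (v j) i = 0).card *
    2 ^ (k * (Fintype.card J - 1)) =
  if (∀ j, InG c N (v j)) ∧ ∀ j l, j < l → BF c N (v j) (v l) + BF c N (v l) (v j) = 0 then
    2 ^ ((prs J).card + k * (k - 1) / 2) else 0

/-- TASK LAI: the number of the isotropic tuples -/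
def S_LAI : Prop := ∀ (G : Type) [AddCommGroup G] [Fintype G] (D : G → G → ZMod 2) (k : ℕ),
  (∀ x y z, D (x + y) z = D x z + D y z) → (∀ x y, D x y = D y x) →
  |((univ.filter fun v : Fin k → G => ∀ j l, j < l → D (v j) (v l) = 0).card : ℝ) *
      2 ^ (k * (k - 1) / 2) - (Fintype.card G : ℝ) ^ k| * (Fintype.card G : ℝ) ≤
    2 ^ (k * (k - 1) / 2) * (Fintype.card G : ℝ) ^ k *
      ((univ.filter fun x : G => ∀ y, D x y = 0).card : ℝ)

/-- TASK LAG: the space `G` and the radical of the alternating form on it -/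
def S_LAG : Prop := ∀ (U J : Type) [Fintype U] [Fintype J] (e c : U ⊕ J → ZMod 2)
  (N : U ⊕ J → U ⊕ J → ZMod 2), Sy e N → NdA e c N →
  (univ.filter fun v : U ⊕ J → ZMod 2 => InG c N v).card * 2 = 2 ^ Fintype.card J ∧
  (univ.filter fun v : U ⊕ J → ZMod 2 => InG c N v ∧
      ∀ w, InG c N w → BF c N v w + BF c N w v = 0).card *
    2 ^ (univ.filter fun j : J => e (Sum.inr j) = 1).card ≤
    2 ^ (Fintype.card J + 2 * Fintype.card U + 1)

/-- the number of the pairs of a completion and an independent `k`-tuple in its kernel -/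
noncomputable def Wk {U J : Type} [Fintype U] [Fintype J] [LinearOrder J] (c : U ⊕ J → ZMod 2)
    (N : U ⊕ J → U ⊕ J → ZMod 2) (k : ℕ) : ℕ :=
  (univ.filter fun q : (prs J → ZMod 2) × (Fin k → U ⊕ J → ZMod 2) =>
    LinearIndependent (ZMod 2) q.2 ∧
      ∀ j i, MV c (fun i k => N i k + lift q.1 i k) (q.2 j) i = 0).card

/-- all moments are nearly one -/
def S_LAM : Prop := ∀ (U J : Type) [Fintype U] [Fintype J] [LinearOrder J]
  (e c : U ⊕ J → ZMod 2) (N : U ⊕ J → U ⊕ J → ZMod 2) (k : ℕ), Sy e N → NdA e c N →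
  |(Wk c N k : ℝ) / 2 ^ (prs J).card - 1| *
      2 ^ (univ.filter fun j : J => e (Sum.inr j) = 1).card ≤
    2 ^ (k * (k + 1) / 2 + 2 * Fintype.card U + 3)

/-- TASK LAM -/
def S_LAMT : Prop := S_LAC → S_LAI → S_LAG → S_LAM

/-- `(2 - 1) (4 - 1) ⋯ (2 ^ k - 1)` -/
noncomputable def gk (k : ℕ) : ℝ := ∏ i ∈ range k, (2 ^ (i + 1) - 1 : ℝ)

/-- TASK LAB: the proportion of the nonsingular matrices from the moments -/
def S_LAB : Prop := ∀ (U J : Type) [Fintype U] [Fintype J] [LinearOrder J]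
  (c : U ⊕ J → ZMod 2) (N : U ⊕ J → U ⊕ J → ZMod 2) (K : ℕ),
  |((univ.filter fun α : prs J → ZMod 2 => GdA c (fun i k => N i k + lift α i k)).card : ℝ) -
      ∑ k ∈ range (K + 1), (-1 : ℝ) ^ k * Wk c N k / gk k| ≤ Wk c N (K + 1) / gk (K + 1)

/-- TASK ETA: Euler's identity -/
def S_ETA : Prop := (∀ K : ℕ, |eta - ∑ k ∈ range (K + 1), (-1 : ℝ) ^ k / gk k| ≤ 1 / gk (K + 1)) ∧
  (∀ n : ℕ, |∏ i ∈ range n, (1 - (1 / 2 : ℝ) ^ (i + 1)) - eta| ≤ (1 / 2 : ℝ) ^ n) ∧
  (∀ k : ℕ, (2 : ℝ) ^ (k * (k + 1) / 2) ≤ 4 * gk k) ∧ 0.2887 < eta ∧ eta < 0.2888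

/-- the probability that a random completion is good -/
def S_LA : Prop := ∀ (U J : Type) [Fintype U] [Fintype J] [LinearOrder J]
  (e c : U ⊕ J → ZMod 2) (N : U ⊕ J → U ⊕ J → ZMod 2) (V : ℕ), Sy e N → NdA e c N →
  2 * Fintype.card U + (V ^ 2 + 10) ≤ (univ.filter fun j : J => e (Sum.inr j) = 1).card →
  |((univ.filter fun α : prs J → ZMod 2 => GdA c (fun i k => N i k + lift α i k)).card : ℝ) /
      2 ^ (prs J).card - eta| ≤ 8 * (1 / 2 : ℝ) ^ V

/-- TASK LA -/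
def S_LAT : Prop := S_LAM → S_LAB → S_ETA → S_LA

end Pool.Agent.T2h16.KD
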