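import Mathlib
import Pool.Agent.T2h16.KD.StmA

/-!
# Task ETA: the infinite product `η` and Euler's identity
-/

set_option autoImplicit false
set_option linter.all false

open scoped Classical

namespace Pool.Agent.T2h16.KD.Et

open Finset Filter

theorem gk_pos (k : ℕ) : 0 < gk k := prod_pos fun i _ => by
  have : (1 : ℝ) < 2 ^ (i + 1) := one_lt_pow₀ (by norm_num) (by omega)
  linarith

theorem gk_succ (k : ℕ) : gk (k + 1) = gk k * ((2 : ℝ) ^ (k + 1) - 1) := prod_range_succ _ _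

theorem gk_zero : gk 0 = 1 := by simp [gk]

theorem gk_ge (k : ℕ) : (2 : ℝ) ^ k ≤ 2 * gk k := by
  induction k with
  | zero => rw [gk_zero]; norm_num
  | succ k ih =>
    rw [gk_succ]
    rcases Nat.eq_zero_or_pos k with h | h
    · subst h
      rw [gk_zero]
      norm_num
    · have h1 : (4 : ℝ) ≤ 2 ^ (k + 1) := by
        calc (4 : ℝ) = 2 ^ 2 := by norm_num
          _ ≤ 2 ^ (k + 1) := pow_le_pow_right₀ (by norm_num) (by omega)
      have h2 := gk_pos k
      have h3 : gk k * 3 ≤ gk k * ((2 : ℝ) ^ (k + 1) - 1) :=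
        mul_le_mul_of_nonneg_left (by linarith) h2.le
      rw [pow_succ (2 : ℝ) k]
      rw [pow_succ (2 : ℝ) k] at h3
      linarith

theorem gk_le_succ (k : ℕ) : gk k ≤ gk (k + 1) := by
  rw [gk_succ]
  have h1 : (2 : ℝ) ≤ 2 ^ (k + 1) := by
    calc (2 : ℝ) = 2 ^ 1 := by norm_num
      _ ≤ 2 ^ (k + 1) := pow_le_pow_right₀ (by norm_num) (by omega)
  nlinarith [gk_pos k]

theorem inv_gk_le (k : ℕ) : 1 / gk k ≤ 2 * (1 / 2 : ℝ) ^ k := by
  rw [div_le_iff₀ (gk_pos k)]
  have h := gk_ge k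
  have h1 : (0 : ℝ) < 2 ^ k := by positivity
  have h2 : (1 / 2 : ℝ) ^ k = 1 / 2 ^ k := by rw [div_pow, one_pow]
  rw [h2]
  rw [show 2 * (1 / (2 : ℝ) ^ k) * gk k = (2 * gk k) / 2 ^ k by ring]
  rw [le_div_iff₀ h1]
  linarith

/-- the terms of the series -/
noncomputable def gt (x : ℝ) (k : ℕ) : ℝ := (-1) ^ k * x ^ k / gk k

theorem gt_abs {x : ℝ} (hx : |x| ≤ 1) (k : ℕ) : |gt x k| ≤ 2 * (1 / 2 : ℝ) ^ k := by
  unfold gt
  rw [abs_div, abs_mul, abs_pow, abs_pow, abs_neg, abs_one, one_pow, one_mul,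
    abs_of_pos (gk_pos k)]
  refine le_trans ?_ (inv_gk_le k)
  have h1 : |x| ^ k ≤ 1 := pow_le_one₀ (abs_nonneg _) hx
  have := gk_pos k
  gcongr

theorem gt_summable {x : ℝ} (hx : |x| ≤ 1) : Summable (gt x) := by
  refine Summable.of_norm_bounded (g := fun k => 2 * (1 / 2 : ℝ) ^ k) ?_ fun k => ?_
  · exact (summable_geometric_of_lt_one (by norm_num) (by norm_num)).mul_left 2
  · rw [Real.norm_eq_abs]
    exact gt_abs hx k

theorem gt_succ (x : ℝ) (k : ℕ) : gt (2 * x) (k + 1) = gt x (k + 1) - x * gt x k := by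
  unfold gt
  have h1 := (gk_pos k).ne'
  have h2 := (gk_pos (k + 1)).ne'
  have h3 : (2 : ℝ) ^ (k + 1) - 1 ≠ 0 := by
    intro h
    rw [gk_succ, h, mul_zero] at h2
    exact h2 rfl
  rw [gk_succ]
  field_simp
  ring

/-- the sum of the series -/
noncomputable def Gs (x : ℝ) : ℝ := ∑' k, gt x k

theorem Gs_two {x : ℝ} (hx : |x| ≤ 1 / 2) : Gs (2 * x) = (1 - x) * Gs x := by
  have hx1 : |x| ≤ 1 := hx.trans (by norm_num)
  have hx2 : |2 * x| ≤ 1 := by
    rw [abs_mul, abs_two]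
    linarith
  have s1 := gt_summable hx1
  have s2 := gt_summable hx2
  unfold Gs
  rw [s2.tsum_eq_zero_add, tsum_congr fun k => gt_succ x k]
  rw [Summable.tsum_sub ((summable_nat_add_iff 1).2 s1) (s1.mul_left x), tsum_mul_left]
  have h := s1.tsum_eq_zero_add
  have h0 : gt (2 * x) 0 = gt x 0 := by simp [gt]
  rw [h0]
  linarith

theorem Gs_sub_one {x : ℝ} (hx : |x| ≤ 1) : |Gs x - 1| ≤ 2 * |x| := by
  have s1 := gt_summable hx
  unfold Gs
  rw [s1.tsum_eq_zero_add]
  have h0 : gt x 0 = 1 := by simp [gt, gk_zero]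
  rw [h0, add_sub_cancel_left]
  have hg : HasSum (fun k : ℕ => |x| * (1 / 2 : ℝ) ^ k) (|x| * 2) :=
    (hasSum_geometric_two).mul_left |x|
  rw [mul_comm, ← Real.norm_eq_abs (∑' b, gt x (b + 1))]
  refine tsum_of_norm_bounded hg fun k => ?_
  rw [Real.norm_eq_abs]
  have : gt x (k + 1) = x * ((-1) ^ (k + 1) * x ^ k / gk (k + 1)) := by
    unfold gt
    ring
  rw [this, abs_mul]
  refine mul_le_mul_of_nonneg_left ?_ (abs_nonneg _)
  rw [abs_div, abs_mul, abs_pow, abs_pow, abs_neg, abs_one, one_pow, one_mul,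
    abs_of_pos (gk_pos _)]
  have h1 : |x| ^ k ≤ 1 := pow_le_one₀ (abs_nonneg _) hx
  have h2 := gk_pos (k + 1)
  have h3 := inv_gk_le (k + 1)
  calc |x| ^ k / gk (k + 1) ≤ 1 / gk (k + 1) := by gcongr
    _ ≤ 2 * (1 / 2 : ℝ) ^ (k + 1) := h3
    _ = (1 / 2 : ℝ) ^ k := by ring

theorem Gs_prod (n : ℕ) : Gs 1 = (∏ i ∈ range n, (1 - (1 / 2 : ℝ) ^ (i + 1))) * Gs ((1 / 2) ^ n) := by
  induction n with
  | zero => simp
  | succ n ih =>
    rw [ih, prod_range_succ, mul_assoc, ← Gs_two]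
    · congr 2
      ring
    · rw [abs_of_nonneg (by positivity)]
      rw [pow_succ]
      have : (1 / 2 : ℝ) ^ n ≤ 1 := pow_le_one₀ (by norm_num) (by norm_num)
      linarith

theorem eta_tendsto : Tendsto (fun n : ℕ => ∏ i ∈ range n, (1 - (1 / 2 : ℝ) ^ (i + 1))) atTop
    (nhds eta) := by
  have h1 : Multipliable fun i : ℕ => 1 + (-(1 / 2 : ℝ) ^ (i + 1)) := by
    refine multipliable_one_add_of_summable ?_
    simp only [norm_neg, norm_pow]
    have := (summable_geometric_of_lt_one (r := (1 / 2 : ℝ)) (by norm_num) (by norm_num))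
    refine ((summable_nat_add_iff 1).2 this).congr fun i => ?_
    rw [Real.norm_of_nonneg (by norm_num)]
  have h2 := h1.hasProd.tendsto_prod_nat
  have h3 : (∏' i : ℕ, (1 + (-(1 / 2 : ℝ) ^ (i + 1)))) = eta := by
    unfold eta
    refine tprod_congr fun i => ?_
    rw [sub_eq_add_neg]
  rw [h3] at h2
  refine h2.congr fun n => prod_congr rfl fun i _ => ?_
  rw [sub_eq_add_neg]

theorem Gs_one : Gs 1 = eta := by
  have h1 : Tendsto (fun n : ℕ => Gs ((1 / 2) ^ n)) atTop (nhds 1) := by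
    have h2 : Tendsto (fun n : ℕ => (1 / 2 : ℝ) ^ n) atTop (nhds 0) :=
      tendsto_pow_atTop_nhds_zero_of_lt_one (by norm_num) (by norm_num)
    rw [tendsto_iff_norm_sub_tendsto_zero]
    have h3 : Tendsto (fun n : ℕ => 2 * (1 / 2 : ℝ) ^ n) atTop (nhds 0) := by
      simpa using h2.const_mul 2
    refine squeeze_zero (fun n => norm_nonneg _) (fun n => ?_) h3
    rw [Real.norm_eq_abs]
    refine (Gs_sub_one ?_).trans ?_
    · rw [abs_of_nonneg (by positivity)]
      exact pow_le_one₀ (by norm_num) (by norm_num)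
    · rw [abs_of_nonneg (by positivity)]
  have h4 := eta_tendsto.mul h1
  rw [mul_one] at h4
  have h5 : Tendsto (fun _ : ℕ => Gs 1) atTop (nhds eta) := h4.congr fun n => (Gs_prod n).symm
  exact tendsto_nhds_unique tendsto_const_nhds h5

theorem eta_sum : Tendsto (fun K : ℕ => ∑ k ∈ range K, (-1 : ℝ) ^ k * (1 / gk k)) atTop
    (nhds eta) := by
  have h := (gt_summable (x := 1) (by simp)).hasSum.tendsto_sum_nat
  have h1 : (∑' i, gt 1 i) = eta := Gs_one
  rw [h1] at h
  refine h.congr fun n => sum_congr rfl fun i _ => ?_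
  unfold gt
  rw [one_pow, mul_one, mul_one_div]

/-- the series is alternating -/
theorem eta_alt (K : ℕ) : |eta - ∑ k ∈ range (K + 1), (-1 : ℝ) ^ k / gk k| ≤ 1 / gk (K + 1) := by
  have hfa : Antitone fun k : ℕ => 1 / gk k := antitone_nat_of_succ_le fun k => by
    have := gk_pos k
    have := gk_le_succ k
    gcongr
  have e : ∀ n : ℕ, ∑ k ∈ range n, (-1 : ℝ) ^ k / gk k = ∑ k ∈ range n, (-1 : ℝ) ^ k * (1 / gk k) :=
    fun n => sum_congr rfl fun i _ => by rw [mul_one_div]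
  rw [e]
  have h1 := hfa.tendsto_le_alternating_series eta_sum
  have h2 := hfa.alternating_series_le_tendsto eta_sum
  have hp : 0 < 1 / gk (K + 1) := one_div_pos.2 (gk_pos _)
  rcases Nat.even_or_odd' (K + 1) with ⟨m, hm | hm⟩
  · have a1 := h1 m
    have a2 := h2 m
    rw [← hm] at a1 a2
    rw [sum_range_succ, hm, pow_mul, neg_one_sq, one_pow, one_mul, ← hm] at a1
    rw [abs_le]
    constructor <;> linarith
  · have a1 := h1 m
    have a2 := h2 (m + 1)
    rw [show 2 * (m + 1) = (K + 1) + 1 by omega, sum_range_succ] at a2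
    rw [← hm] at a1
    have e2 : (-1 : ℝ) ^ (K + 1) = -1 := by
      rw [hm, pow_succ, pow_mul, neg_one_sq, one_pow, one_mul]
    rw [e2] at a2
    rw [abs_le]
    constructor <;> linarith

end Pool.Agent.T2h16.KD.Et

namespace Pool.Agent.T2h16.KD

open Finset Filter Et

theorem t_ETA : S_ETA := by
  set P : ℕ → ℝ := fun n => ∏ i ∈ range n, (1 - (1 / 2 : ℝ) ^ (i + 1)) with hP
  have hlim : Tendsto P atTop (nhds eta) := eta_tendsto
  have hpow : ∀ i : ℕ, 0 < (1 / 2 : ℝ) ^ i ∧ (1 / 2 : ℝ) ^ i ≤ 1 := fun i =>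
    ⟨by positivity, pow_le_one₀ (by norm_num) (by norm_num)⟩
  have he : ∀ i : ℕ, (1 / 2 : ℝ) ^ (i + 1) = 1 / 2 * (1 / 2 : ℝ) ^ i := by
    intro i
    rw [pow_succ]
    ring
  have h0 : ∀ n, 0 ≤ P n ∧ P n ≤ 1 := by
    intro n
    refine ⟨Finset.prod_nonneg fun i _ => ?_, Finset.prod_le_one (fun i _ => ?_) fun i _ => ?_⟩
    · rw [he]; linarith [(hpow i).2]
    · rw [he]; linarith [(hpow i).2]
    · rw [he]; linarith [(hpow i).1]
  have hsucc : ∀ n, P (n + 1) = P n * (1 - 1 / 2 * (1 / 2 : ℝ) ^ n) := by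
    intro n; simp only [hP]; rw [Finset.prod_range_succ, he]
  have hanti : Antitone P := by
    apply antitone_nat_of_succ_le
    intro n
    rw [hsucc]
    nlinarith [(h0 n).1, (hpow n).1]
  have hmono : Monotone (fun n => P n - (1 / 2 : ℝ) ^ n) := by
    apply monotone_nat_of_le_succ
    intro n
    rw [hsucc, he]
    have h1 := (hpow n).1
    have h2 := (h0 n).2
    nlinarith [mul_nonneg h1.le (sub_nonneg.mpr h2)]
  have hlim2 : Tendsto (fun n => P n - (1 / 2 : ℝ) ^ n) atTop (nhds eta) := by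
    have h1 : Tendsto (fun n : ℕ => (1 / 2 : ℝ) ^ n) atTop (nhds 0) :=
      tendsto_pow_atTop_nhds_zero_of_lt_one (by norm_num) (by norm_num)
    have := hlim.sub h1
    simpa using this
  have hle : ∀ n, eta ≤ P n := fun n => hanti.le_of_tendsto hlim n
  have hge : ∀ n, P n - (1 / 2 : ℝ) ^ n ≤ eta := fun n => hmono.ge_of_tendsto hlim2 n
  have hlo : (0.2887 : ℝ) < eta := by
    refine lt_of_lt_of_le ?_ (hge 15)
    simp only [hP, Finset.prod_range_succ, Finset.prod_range_zero]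
    norm_num
  have hup : eta < (0.2888 : ℝ) := by
    refine (hle 15).trans_lt ?_
    simp only [hP, Finset.prod_range_succ, Finset.prod_range_zero]
    norm_num
  refine ⟨eta_alt, fun n => ?_, fun k => ?_, hlo, hup⟩
  · rw [abs_le]
    have := (hpow n).1
    constructor <;> linarith [hle n, hge n]
  · have hgk : ∀ k : ℕ, gk k = 2 ^ (k * (k + 1) / 2) * P k := by
      intro k
      induction k with
      | zero => simp [gk, hP]
      | succ k ih =>
        rw [gk_succ, ih, hsucc]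
        have e1 : (k + 1) * (k + 1 + 1) / 2 = k * (k + 1) / 2 + (k + 1) := by
          have : (k + 1) * (k + 1 + 1) = k * (k + 1) + (k + 1) * 2 := by ring
          rw [this, Nat.add_mul_div_right _ _ (by norm_num)]
        have e2 : (2 : ℝ) ^ (k + 1) * (1 - 1 / 2 * (1 / 2 : ℝ) ^ k) = 2 ^ (k + 1) - 1 := by
          have : (2 : ℝ) ^ k * (1 / 2 : ℝ) ^ k = 1 := by rw [← mul_pow]; norm_num
          rw [pow_succ]
          linear_combination (-1 : ℝ) * this
        rw [e1, pow_add (2 : ℝ) (k * (k + 1) / 2), ← e2]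
        ring
    rw [hgk]
    have h1 : (1 / 4 : ℝ) ≤ P k := by linarith [hle k]
    have h2 : (0 : ℝ) < 2 ^ (k * (k + 1) / 2) := by positivity
    nlinarith

end Pool.Agent.T2h16.KD
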