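import Pool.Agent.T3h64.KD.Fib

/-! Project KD: FEW (helper64). -/

set_option autoImplicit false
set_option linter.unusedVariables false

open scoped Classical

namespace Pool.Agent.T2h16.KD

open Finset Filter
open Pool.Agent.Y698 hiding zz
open Pool.Agent.Y698.SG
open Pool.Agent.T2h78.TW (PO te sl)
open Pool.Agent.Y703.CX (jj XX eL zz kk)
open Pool.Agent.Y703.CQ (sg S_MER)
open Pool.Agent.T3h64.KD
open Pool.Agent.Y699.E (sum_le_inj one_le_lg lg_pos lg_mono log_le_lg)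

namespace FEWp

/-- the weight -/
noncomputable def wt (π : RR) : ℝ := if te π = 1 then 1 / 2 else 1

theorem wt_nonneg (π : RR) : 0 ≤ wt π := by unfold wt; split_ifs <;> norm_num

theorem wt_le_one (π : RR) : wt π ≤ 1 := by unfold wt; split_ifs <;> norm_num

theorem eulerE (P : Finset RR) (w : RR → ℝ) (hw : ∀ p ∈ P, 0 ≤ w p) :
    ∑ S ∈ P.powerset, ∏ p ∈ S, w p ≤ Real.exp (∑ p ∈ P, w p) := by
  rw [← Finset.prod_one_add, Real.exp_sum]
  refine prod_le_prod (fun p hp => by have := hw p hp; linarith) fun p _ => ?_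
  have := Real.add_one_le_exp (w p)
  linarith

theorem sum_SB (T : ℕ) (g : RR → ℝ) (hg : ∀ π, 0 ≤ g π) :
    ∑ n ∈ SB T, mf g n / nrm n ≤ Real.exp (∑ π ∈ QB T, g π / nrm π) := by
  have h := eulerE (QB T) (fun π => g π / nrm π) fun π _ => div_nonneg (hg π) (Nat.cast_nonneg _)
  refine le_trans ?_ h
  refine sum_le_inj (fun n => T2h16.KD.PD n) ?_ ?_ ?_ ?_
  · intro n hn
    rw [mem_SB] at hn
    rw [mem_powerset]
    intro π hπ
    rw [mem_PD hn.2.ne] at hπ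
    rw [mem_QB]
    exact ⟨(norm_le_of_dvd hn.2.ne hπ.2).trans hn.1, hπ.1⟩
  · intro n hn m hm h
    rw [mem_SB] at hn hm
    rw [← hn.2.prod, ← hm.2.prod]
    exact congrArg (fun S : Finset RR => ∏ π ∈ S, π) h
  · intro n hn
    rw [mem_SB] at hn
    refine le_of_eq ?_
    unfold mf
    rw [prod_div_distrib]
    congr 1
    conv_lhs => rw [← hn.2.prod, nrm_prod]
    push_cast
    rfl
  · intro S _
    exact prod_nonneg fun π _ => div_nonneg (hg π) (Nat.cast_nonneg _)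

theorem wt_sum (T : ℕ) : ∑ π ∈ QB T, wt π / nrm π = ∑ π ∈ QB T, (1 : ℝ) / nrm π -
    1 / 2 * ∑ π ∈ (QB T).filter (fun π => te π = 1), (1 : ℝ) / nrm π := by
  rw [sum_filter, mul_sum, ← sum_sub_distrib]
  refine sum_congr rfl fun π _ => ?_
  unfold wt
  split_ifs <;> ring

theorem sum_wt (hHALL : S_HALL) (hMK : S_MK) : ∃ C : ℝ, 1 ≤ C ∧ ∀ T : ℕ,
    ∑ n ∈ SB T, mf wt n ≤ C * (T * (L2 T) ^ (-(1 / 4) : ℝ)) := by
  obtain ⟨C1, hC1, h1⟩ := hHALL
  obtain ⟨C2, hC2, h2⟩ := hMK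
  refine ⟨32 + C1 * Real.exp (3 / 2 * C2), ?_, fun T => ?_⟩
  · have : 0 ≤ C1 * Real.exp (3 / 2 * C2) := by positivity
    linarith
  have hpos : 0 ≤ C1 * Real.exp (3 / 2 * C2) := by positivity
  rcases Nat.lt_or_ge T 3 with hT | hT
  · rcases Nat.eq_zero_or_pos T with h0 | h0
    · subst h0
      have : SB 0 = ∅ := by
        refine eq_empty_of_forall_notMem fun n hn => ?_
        rw [mem_SB] at hn
        have h3 : nrm n = 0 := Nat.le_zero.1 hn.1
        exact hn.2.ne (nrm_zero_iff.1 h3)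
      rw [this, sum_empty]
      simp
    · have e1 : ∑ n ∈ SB T, mf wt n ≤ 16 * T := by
        calc ∑ n ∈ SB T, mf wt n ≤ ∑ n ∈ SB T, (1 : ℝ) := by
              refine sum_le_sum fun n _ => ?_
              exact prod_le_one (fun _ _ => wt_nonneg _) fun _ _ => wt_le_one _
          _ = (SB T).card := by rw [sum_const, nsmul_eq_mul, mul_one]
          _ ≤ 16 * T := card_SB_le h0
      have e2 : (1 / 2 : ℝ) ≤ (L2 T) ^ (-(1 / 4) : ℝ) := by
        have hL : L2 T ≤ 2 := by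
          have : L2 T ≤ L2 2 := lg_mono (by omega)
          refine this.trans ?_
          have : Nat.log 2 2 = 1 := by
            rw [Nat.log_eq_one_iff]; omega
          change ((Nat.log 2 2 : ℕ) : ℝ) + 1 ≤ 2
          rw [this]; norm_num
        calc (1 / 2 : ℝ) = (2 : ℝ) ^ (-1 : ℝ) := by rw [Real.rpow_neg_one]; norm_num
          _ ≤ (2 : ℝ) ^ (-(1 / 4) : ℝ) :=
              Real.rpow_le_rpow_of_exponent_le (by norm_num) (by norm_num)
          _ ≤ (L2 T) ^ (-(1 / 4) : ℝ) :=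
              Real.rpow_le_rpow_of_nonpos (lg_pos T) hL (by norm_num)
      have hT0 : (0 : ℝ) ≤ T := Nat.cast_nonneg _
      calc ∑ n ∈ SB T, mf wt n ≤ 16 * T := e1
        _ = 32 * (T * (1 / 2)) := by ring
        _ ≤ 32 * (T * (L2 T) ^ (-(1 / 4) : ℝ)) := by gcongr
        _ ≤ (32 + C1 * Real.exp (3 / 2 * C2)) * (T * (L2 T) ^ (-(1 / 4) : ℝ)) := by
            apply mul_le_mul_of_nonneg_right _ (by positivity)
            linarith
  · have hT1 : 1 ≤ T := by omega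
    have e1 := h1 wt wt_nonneg wt_le_one T hT1
    have e2 := sum_SB T wt wt_nonneg
    rw [wt_sum] at e2
    obtain ⟨m1, m2⟩ := h2 T hT
    rw [abs_le] at m1 m2
    have hlogT : 1 < Real.log T := by
      rw [Real.lt_log_iff_exp_lt (by positivity)]
      have := Real.exp_one_lt_d9
      have : (3 : ℝ) ≤ T := by exact_mod_cast hT
      linarith
    have hL0 : 0 < L2 T := lg_pos T
    have e3 : ∑ π ∈ QB T, (1 : ℝ) / nrm π -
        1 / 2 * ∑ π ∈ (QB T).filter (fun π => te π = 1), (1 : ℝ) / nrm π ≤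
        3 / 4 * Real.log (Real.log T) + 3 / 2 * C2 := by
      linarith [m1.2, m2.1]
    have e4 : ∑ n ∈ SB T, mf wt n / nrm n ≤ (L2 T) ^ (3 / 4 : ℝ) * Real.exp (3 / 2 * C2) := by
      refine e2.trans ((Real.exp_le_exp.2 e3).trans ?_)
      rw [Real.exp_add]
      apply mul_le_mul_of_nonneg_right _ (Real.exp_pos _).le
      have : Real.exp (3 / 4 * Real.log (Real.log T)) = (Real.log T) ^ (3 / 4 : ℝ) := by
        rw [Real.rpow_def_of_pos (by linarith), mul_comm]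
      rw [this]
      exact Real.rpow_le_rpow (by linarith) (log_le_lg hT1) (by norm_num)
    have e5 : (∑ n ∈ SB T, mf wt n) * L2 T ≤
        (C1 * Real.exp (3 / 2 * C2)) * (T * (L2 T) ^ (-(1 / 4) : ℝ)) * L2 T := by
      calc (∑ n ∈ SB T, mf wt n) * L2 T ≤ C1 * T * ∑ n ∈ SB T, mf wt n / nrm n := e1
        _ ≤ C1 * T * ((L2 T) ^ (3 / 4 : ℝ) * Real.exp (3 / 2 * C2)) :=
            mul_le_mul_of_nonneg_left e4 (by positivity)
        _ = (C1 * Real.exp (3 / 2 * C2)) * (T * (L2 T) ^ (-(1 / 4) : ℝ)) * L2 T := by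
            have : (L2 T) ^ (3 / 4 : ℝ) = (L2 T) ^ (-(1 / 4) : ℝ) * L2 T := by
              conv_rhs => rw [← Real.rpow_add_one hL0.ne']
              norm_num
            rw [this]; ring
    have e6 := le_of_mul_le_mul_right e5 hL0
    refine e6.trans ?_
    apply mul_le_mul_of_nonneg_right _ (by positivity)
    linarith

theorem few_count {C : ℝ} (hC1 : 1 ≤ C) (hC : ∀ T : ℕ,
    ∑ n ∈ SB T, mf wt n ≤ C * (T * (L2 T) ^ (-(1 / 4) : ℝ)))
    (V : ℕ) (X : ℕ) (S₀ : Finset RR) (hS₀ : ∀ u ∈ S₀, PO u ∧ nrm u ≤ zz X)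
    (F : Finset (Finset RR))
    (hF : ∀ S ∈ F, S ∈ SS X ∧ (S.card ≤ kk X ∧ nt (zz X) S ≤ 2 * (sm (zz X) S).card + V) ∧
      sm (zz X) S = S₀) : (F.card : ℝ) ≤
        (C * 2 ^ V) * 4 ^ S₀.card * L2 (pN S₀) * (((X / pN S₀ : ℕ) : ℝ) *
          (L2 (X / pN S₀)) ^ (-(1 / 4) : ℝ)) := by
  have h := fiber_le X (zz X) S₀ (fun u hu => (hS₀ u hu).1)
    F (fun S hS => ⟨(hF S hS).1, (hF S hS).2.2⟩) wt wt_nonneg
    ((1 / 2) ^ (2 * S₀.card + V)) (fun S hS => by
        replace hS := hF S hS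
        have e1 : ∏ π ∈ la (zz X) S, wt π = (1 / 2 : ℝ) ^ nt (zz X) S := by
          unfold wt nt
          rw [prod_ite, prod_const, prod_const_one, mul_one]
        rw [e1]
        refine pow_le_pow_of_le_one (by norm_num) (by norm_num) ?_
        have := hS.2.1.2
        rw [hS.2.2] at this
        exact this)
  have h2 := h.trans (hC (X / pN S₀))
  have hlg := one_le_lg (pN S₀)
  have h3 : (2 : ℝ) ^ (2 * S₀.card + V) * (1 / 2) ^ (2 * S₀.card + V) = 1 := by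
    rw [← mul_pow]
    norm_num
  set c := (F.card : ℝ) with hcdef
  have hTl : 0 ≤ ((X / pN S₀ : ℕ) : ℝ) * (L2 (X / pN S₀)) ^ (-(1 / 4) : ℝ) :=
    mul_nonneg (Nat.cast_nonneg _) (Real.rpow_nonneg (zero_le_one.trans (one_le_lg _)) _)
  calc c = (2 : ℝ) ^ (2 * S₀.card + V) * (c * (1 / 2) ^ (2 * S₀.card + V)) := by
        linear_combination (-c) * h3
    _ ≤ (2 : ℝ) ^ (2 * S₀.card + V) * (C * (((X / pN S₀ : ℕ) : ℝ) *
          (L2 (X / pN S₀)) ^ (-(1 / 4) : ℝ))) := mul_le_mul_of_nonneg_left h2 (by positivity)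
    _ = (C * 2 ^ V * 4 ^ S₀.card) * 1 * (((X / pN S₀ : ℕ) : ℝ) *
          (L2 (X / pN S₀)) ^ (-(1 / 4) : ℝ)) := by
        rw [pow_add, pow_mul]; norm_num; ring
    _ ≤ (C * 2 ^ V * 4 ^ S₀.card) * L2 (pN S₀) * (((X / pN S₀ : ℕ) : ℝ) *
          (L2 (X / pN S₀)) ^ (-(1 / 4) : ℝ)) := by gcongr

end FEWp

open FEWp

theorem t_FEW : S_FEWT := by
  intro hHALL hMK hgen V ε hε
  obtain ⟨C, hC1, hC⟩ := sum_wt hHALL hMK
  obtain ⟨X₀, hX₀⟩ := hgen 4 (C * 2 ^ V) (by norm_num) (by positivity)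
    (fun X S => nt (zz X) S ≤ 2 * (sm (zz X) S).card + V)
    (fun X S₀ hS₀ _ F hF => few_count hC1 hC V X S₀ hS₀ F hF) ε hε
  refine ⟨X₀, fun X hX => hX₀ X hX _ fun S hS => ?_⟩
  rw [mem_filter] at hS
  exact hS

end Pool.Agent.T2h16.KD
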