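import Pool.Agent.T2h16.KD.Stm

/-!
# Project KD (helper16), task HALG: the mean value for a character (helper31)
-/

set_option autoImplicit false
set_option linter.unusedVariables false

open scoped Classical

namespace Pool.Agent.T2h16.KD

namespace HG

open Finset Filter
open Pool.Agent.Y698 hiding zz
open Pool.Agent.Y698.SG
open Pool.Agent.W192.HK (sp)
open Pool.Agent.T2h78.TW (PO te sl)
open Pool.Agent.Y703.CQ (sg)

/-! ### the logarithm -/

lemma l2_eq (T : ℕ) : L2 T = (Nat.log 2 T : ℝ) + 1 := rfl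

lemma l2_one (T : ℕ) : 1 ≤ L2 T := by
  rw [l2_eq]
  have : (0 : ℝ) ≤ Nat.log 2 T := Nat.cast_nonneg _
  linarith

lemma l2_pos (T : ℕ) : 0 < L2 T := lt_of_lt_of_le one_pos (l2_one T)

lemma l2_mono {a b : ℕ} (h : a ≤ b) : L2 a ≤ L2 b := by
  rw [l2_eq, l2_eq]
  have : (Nat.log 2 a : ℝ) ≤ Nat.log 2 b := by exact_mod_cast Nat.log_mono_right h
  linarith

lemma log_le_l2 {n : ℕ} (hn : 1 ≤ n) : Real.log n ≤ L2 n := by
  have h1 : n < 2 ^ (Nat.log 2 n + 1) := Nat.lt_pow_succ_log_self (by norm_num) n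
  have h2 : (n : ℝ) ≤ 2 ^ (Nat.log 2 n + 1) := by exact_mod_cast h1.le
  have h3 := Real.log_le_log (by exact_mod_cast hn) h2
  rw [Real.log_pow] at h3
  rw [l2_eq]
  have h4 := Real.log_two_lt_d9
  have h5 : (0 : ℝ) ≤ Nat.log 2 n := Nat.cast_nonneg _
  push_cast at h3
  nlinarith

lemma l2_sq (T : ℕ) : L2 (T ^ 2) ≤ 2 * L2 T := by
  rcases Nat.eq_zero_or_pos T with h | h
  · subst h
    rw [l2_eq, l2_eq]
    simp
  rw [l2_eq, l2_eq]
  have h1 : Nat.log 2 (T ^ 2) < 2 * (Nat.log 2 T + 1) := by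
    apply Nat.log_lt_of_lt_pow (by positivity)
    have h2 := Nat.lt_pow_succ_log_self (b := 2) (by norm_num) T
    calc T ^ 2 < (2 ^ (Nat.log 2 T + 1)) ^ 2 := Nat.pow_lt_pow_left h2 (by norm_num)
      _ = 2 ^ (2 * (Nat.log 2 T + 1)) := by rw [← pow_mul]; ring_nf
  have h2 : (Nat.log 2 (T ^ 2) : ℝ) + 1 ≤ 2 * (Nat.log 2 T + 1) := by exact_mod_cast h1
  exact h2

/-! ### primary divisors -/

lemma mem_DP {n d : RR} (hn : n ≠ 0) : d ∈ DP n ↔ prm d ∧ d ∣ n := by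
  unfold DP
  rw [mem_filter, mem_PB]
  constructor
  · rintro ⟨⟨-, h1⟩, h2⟩
    exact ⟨h1, h2⟩
  · rintro ⟨h1, h2⟩
    exact ⟨⟨norm_le_of_dvd hn h2, h1⟩, h2⟩

lemma prm_pow {π : RR} (h : prm π) (j : ℕ) : prm (π ^ j) := by
  induction j with
  | zero => rw [pow_zero]; exact prm_one
  | succ j ih => rw [pow_succ]; exact prm_mul ih h

lemma sum_DP_mul {π m : RR} (hπ : PO π) (hm : prm m) (hd : ¬ π ∣ m) (k : ℕ) (h : RR → ℝ) :
    ∑ d ∈ DP (π ^ k * m), h d = ∑ j ∈ range (k + 1), ∑ d ∈ DP m, h (π ^ j * d) := by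
  classical
  have hm0 := prm_ne_zero hm
  have hn0 : π ^ k * m ≠ 0 := mul_ne_zero (pow_ne_zero _ (pq_ne hπ)) hm0
  rw [← sum_product']
  symm
  refine sum_bij (fun x _ => π ^ x.1 * x.2) ?_ ?_ ?_ ?_
  · rintro ⟨j, d⟩ hx
    rw [mem_product, mem_range, mem_DP hm0] at hx
    rw [mem_DP hn0]
    simp only at hx ⊢
    exact ⟨prm_mul (prm_pow (pq_prm hπ) j) hx.2.1, mul_dvd_mul (pow_dvd_pow _ (by omega)) hx.2.2⟩
  · rintro ⟨i, c⟩ hx ⟨j, d⟩ hy hxy
    rw [mem_product, mem_range, mem_DP hm0] at hx hy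
    simp only at hx hy hxy
    have hc : ¬ π ∣ c := fun h => hd (h.trans hx.2.2)
    have hd' : ¬ π ∣ d := fun h => hd (h.trans hy.2.2)
    have hij : ∀ {i j : ℕ} {c d : RR}, ¬ π ∣ d → π ^ i * c = π ^ j * d → i ≤ j := by
      intro i j c d h1 h2
      by_contra h3
      push Not at h3
      obtain ⟨t, ht⟩ := Nat.exists_eq_add_of_lt h3
      apply h1
      have h4 : π ^ j * (π * (π ^ t * c)) = π ^ j * d := by
        rw [← h2, ht]
        ring
      have h5 := mul_left_cancel₀ (pow_ne_zero _ (pq_ne hπ)) h4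
      rw [← h5]
      exact dvd_mul_right _ _
    have h1 : i = j := le_antisymm (hij hd' hxy) (hij hc hxy.symm)
    subst h1
    have h2 := mul_left_cancel₀ (pow_ne_zero _ (pq_ne hπ)) hxy
    rw [h2]
  · intro d hdn
    rw [mem_DP hn0] at hdn
    have hd0 := prm_ne_zero hdn.1
    obtain ⟨j, c, hc, hdc⟩ := WfDvdMonoid.max_power_factor hd0 hπ.pr.irreducible
    have hcp : prm c := prm_cancel (prm_pow (pq_prm hπ) j) (by rw [← hdc]; exact hdn.1)
    have hcop : IsCoprime c (π ^ k) := by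
      refine IsCoprime.pow_right ?_
      rw [isCoprime_comm]
      exact (hπ.pr.irreducible.coprime_iff_not_dvd).2 hc
    have h1 : c ∣ m := by
      refine hcop.dvd_of_dvd_mul_left ?_
      refine dvd_trans ?_ hdn.2
      rw [hdc]
      exact dvd_mul_left _ _
    have h2 : π ^ j ∣ π ^ k := by
      have h3 : IsCoprime (π ^ j) m := by
        refine IsCoprime.pow_left ?_
        exact (hπ.pr.irreducible.coprime_iff_not_dvd).2 hd
      refine h3.dvd_of_dvd_mul_right ?_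
      refine dvd_trans ?_ hdn.2
      rw [hdc]
      exact dvd_mul_right _ _
    have h3 : j ≤ k := (pow_dvd_pow_iff (pq_ne hπ) hπ.pr.not_isUnit).1 h2
    refine ⟨(j, c), ?_, hdc.symm⟩
    rw [mem_product, mem_range, mem_DP hm0]
    exact ⟨by simp only; omega, hcp, h1⟩
  · intro x _
    rfl

lemma DP_one : DP (1 : RR) = {1} := by
  ext d
  rw [mem_DP one_ne_zero, mem_singleton]
  constructor
  · rintro ⟨a1, a2⟩
    exact eq_one_of_prm a1 (isUnit_of_dvd_one a2)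
  · rintro rfl
    exact ⟨prm_one, dvd_rfl⟩

lemma pq_nrm_two {π : RR} (h : PO π) : 2 ≤ nrm π := by
  have h1 := nrm_pos' (pq_ne h)
  have h2 : nrm π ≠ 1 := fun h3 => h.pr.not_isUnit (nrm_one_iff.1 h3)
  omega

/-- induction over prime powers -/
theorem pp_induction {P : RR → Prop} (h1 : P 1)
    (h2 : ∀ (π m : RR) (k : ℕ), PO π → prm m → ¬ π ∣ m → 1 ≤ k → P m → P (π ^ k * m)) :
    ∀ n, prm n → P n := by
  have key : ∀ N : ℕ, ∀ n : RR, nrm n = N → prm n → P n := by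
    intro N
    induction N using Nat.strong_induction_on with
    | _ N ih =>
      intro n hN hn
      have hn0 := prm_ne_zero hn
      by_cases hn1 : n = 1
      · rw [hn1]; exact h1
      · have hnu : ¬ IsUnit n := fun h => hn1 (eq_one_of_prm hn h)
        obtain ⟨ρ, hρ, hρn⟩ := WfDvdMonoid.exists_irreducible_factor hnu hn0
        have hρ' := irreducible_iff_prime.1 hρ
        obtain ⟨π, hπ, hass⟩ := exists_PP hρ' hn hρn
        have hπn : π ∣ n := hass.dvd.trans hρn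
        obtain ⟨k, m, hm, hnm⟩ := WfDvdMonoid.max_power_factor hn0 hπ.pr.irreducible
        have hk : 1 ≤ k := by
          by_contra h2
          have : k = 0 := by omega
          rw [this, pow_zero, one_mul] at hnm
          rw [hnm] at hπn
          exact hm hπn
        have hmp : prm m := prm_cancel (prm_pow (pq_prm hπ) k) (by rw [← hnm]; exact hn)
        have hm0 := prm_ne_zero hmp
        have hlt : nrm m < N := by
          rw [← hN, hnm, nrm_mul]
          have h2 : 1 < nrm (π ^ k) := by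
            have h3 : π ∣ π ^ k := dvd_pow_self π (by omega)
            have h4 : nrm π ≤ nrm (π ^ k) := norm_le_of_dvd (pow_ne_zero _ (pq_ne hπ)) h3
            have h5 := pq_nrm_two hπ
            omega
          have h3 := nrm_pos' hm0
          nlinarith
        rw [hnm]
        exact h2 π m k hπ hmp hm hk (ih (nrm m) hlt m rfl hmp)
  intro n hn
  exact key _ n rfl hn

lemma PD_pow_mul {π m : RR} {k : ℕ} (hπ : PO π) (hm : prm m) (hk : 1 ≤ k) :
    PD (π ^ k * m) = insert π (PD m) := by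
  classical
  have hm0 := prm_ne_zero hm
  ext ρ
  rw [mem_insert, mem_PD (mul_ne_zero (pow_ne_zero _ (pq_ne hπ)) hm0), mem_PD hm0]
  constructor
  · rintro ⟨a1, a2⟩
    rcases a1.pr.dvd_or_dvd a2 with a3 | a3
    · left
      exact eq_of_dvd a1 hπ (a1.pr.dvd_of_dvd_pow a3)
    · right
      exact ⟨a1, a3⟩
  · rintro (rfl | ⟨a1, a2⟩)
    · exact ⟨hπ, (dvd_pow_self _ (by omega)).mul_right _⟩
    · exact ⟨a1, a2.mul_left _⟩

lemma notMem_PD {π m : RR} (hm : prm m) (hd : ¬ π ∣ m) : π ∉ PD m := by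
  rw [mem_PD (prm_ne_zero hm)]
  exact fun h => hd h.2

/-! ### multiplicative functions -/

lemma mf_nonneg {g : RR → ℝ} (h0 : ∀ π, 0 ≤ g π) (n : RR) : 0 ≤ mf g n := prod_nonneg fun _ _ => h0 _

lemma mf_mul_le {g : RR → ℝ} (h0 : ∀ π, 0 ≤ g π) (h1 : ∀ π, g π ≤ 1) {a b : RR} (ha : a ≠ 0) (hb : b ≠ 0) :
    mf g a * mf g b ≤ mf g (a * b) := by
  unfold mf
  rw [PD_mul ha hb, ← prod_union_inter]
  exact mul_le_of_le_one_right (prod_nonneg fun _ _ => h0 _)
    (prod_le_one (fun _ _ => h0 _) (fun _ _ => h1 _))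

/-- the square of the logarithmic mean -/
theorem hall2 {g : RR → ℝ} (h0 : ∀ π, 0 ≤ g π) (h1 : ∀ π, g π ≤ 1) (T : ℕ) :
    (∑ n ∈ SB T, mf g n / nrm n) ^ 2 ≤ ∑ n ∈ PB (T ^ 2), mf (fun π => 2 * g π) n / nrm n := by
  have e1 : (∑ n ∈ SB T, mf g n / nrm n) ^ 2 =
      ∑ x ∈ (SB T) ×ˢ (SB T), (mf g x.1 * mf g x.2) / nrm (x.1 * x.2) := by
    rw [sq, sum_mul_sum, ← sum_product']
    refine sum_congr rfl fun x _ => ?_
    rw [nrm_mul, div_mul_div_comm]
    push_cast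
    rfl
  have hmaps : ∀ x ∈ (SB T) ×ˢ (SB T), x.1 * x.2 ∈ PB (T ^ 2) := by
    intro x hx
    rw [mem_product, mem_SB, mem_SB] at hx
    rw [mem_PB, nrm_mul]
    refine ⟨?_, prm_mul hx.1.2.prm hx.2.2.prm⟩
    rw [sq]
    exact Nat.mul_le_mul hx.1.1 hx.2.1
  rw [e1, ← sum_fiberwise_of_maps_to hmaps]
  refine sum_le_sum fun n hn => ?_
  rw [mem_PB] at hn
  have hn0 := prm_ne_zero hn.2
  have h2 : ∀ x ∈ ((SB T) ×ˢ (SB T)).filter (fun x => x.1 * x.2 = n),
      (mf g x.1 * mf g x.2) / nrm (x.1 * x.2) ≤ mf g n / nrm n := by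
    intro x hx
    rw [mem_filter, mem_product, mem_SB, mem_SB] at hx
    have hxn := hx.2
    apply div_le_div₀ (mf_nonneg h0 _) _ (by exact_mod_cast nrm_pos' hn0) (by rw [hxn])
    rw [← hxn]
    exact mf_mul_le h0 h1 hx.1.1.2.ne hx.1.2.2.ne
  refine (sum_le_sum h2).trans ?_
  rw [sum_const, nsmul_eq_mul]
  have h3 : (((SB T) ×ˢ (SB T)).filter (fun x => x.1 * x.2 = n)).card ≤ 2 ^ (PD n).card := by
    rw [← card_powerset]
    refine card_le_card_of_injOn (fun x => PD x.2) ?_ ?_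
    · intro x hx
      rw [mem_coe, mem_filter, mem_product, mem_SB, mem_SB] at hx
      rw [mem_coe, mem_powerset]
      exact PD_subset hn0 (by rw [← hx.2]; exact dvd_mul_left _ _)
    · intro x hx y hy hxy
      rw [mem_coe, mem_filter, mem_product, mem_SB, mem_SB] at hx hy
      simp only at hxy
      have h4 : x.2 = y.2 := by
        rw [← hx.1.2.2.prod, ← hy.1.2.2.prod, hxy]
      have h5 : x.1 * x.2 = y.1 * x.2 := by
        rw [hx.2, h4, hy.2]
      exact Prod.ext (mul_right_cancel₀ hx.1.2.2.ne h5) h4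
  have h4 : mf (fun π => 2 * g π) n = 2 ^ (PD n).card * mf g n := by
    unfold mf
    rw [prod_mul_distrib, prod_const]
  rw [h4, mul_div_assoc]
  apply mul_le_mul_of_nonneg_right _ (div_nonneg (mf_nonneg h0 _) (Nat.cast_nonneg _))
  exact_mod_cast h3

/-- summing the convolution -/
theorem conv_sum (F : RR → RR → ℝ) (V : ℕ) :
    ∑ n ∈ PB V, ∑ d ∈ DP n, F n d = ∑ k ∈ PB V, ∑ d ∈ PB (V / nrm k), F (d * k) d := by
  have e1 : ∑ n ∈ PB V, ∑ d ∈ DP n, F n d = ∑ x ∈ (PB V).sigma (fun n => DP n), F x.1 x.2 := by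
    rw [sum_sigma]
  have e2 : ∑ k ∈ PB V, ∑ d ∈ PB (V / nrm k), F (d * k) d =
      ∑ x ∈ (PB V).sigma (fun k => PB (V / nrm k)), F (x.2 * x.1) x.2 := by
    rw [sum_sigma]
  rw [e1, e2]
  symm
  refine sum_bij (fun x _ => ⟨x.2 * x.1, x.2⟩) ?_ ?_ ?_ ?_
  · rintro ⟨k, d⟩ hx
    rw [mem_sigma, mem_PB, mem_PB] at hx
    simp only at hx ⊢
    have hk0 := prm_ne_zero hx.1.2
    have hd0 := prm_ne_zero hx.2.2
    rw [mem_sigma, mem_PB, mem_DP (mul_ne_zero hd0 hk0)]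
    refine ⟨⟨?_, prm_mul hx.2.2 hx.1.2⟩, hx.2.2, dvd_mul_right _ _⟩
    rw [nrm_mul]
    have := hx.2.1
    rwa [Nat.le_div_iff_mul_le (nrm_pos' hk0)] at this
  · rintro ⟨k, d⟩ hx ⟨k', d'⟩ hy hxy
    rw [mem_sigma, mem_PB, mem_PB] at hx hy
    simp only [Sigma.mk.injEq, heq_eq_eq] at hxy
    obtain ⟨h1, rfl⟩ := hxy
    have h2 := mul_left_cancel₀ (prm_ne_zero hx.2.2) h1
    rw [h2]
  · rintro ⟨n, d⟩ hx
    rw [mem_sigma, mem_PB] at hx
    simp only at hx
    have hn0 := prm_ne_zero hx.1.2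
    rw [mem_DP hn0] at hx
    obtain ⟨⟨h1, h2⟩, h3, k, rfl⟩ := hx
    have hk0 : k ≠ 0 := right_ne_zero_of_mul hn0
    have hkp : prm k := prm_cancel h3 h2
    have hd0 := prm_ne_zero h3
    refine ⟨⟨k, d⟩, ?_, rfl⟩
    rw [mem_sigma, mem_PB, mem_PB]
    simp only
    rw [nrm_mul] at h1
    refine ⟨⟨(Nat.le_mul_of_pos_left _ (nrm_pos' hd0)).trans h1, hkp⟩, ?_, h3⟩
    rw [Nat.le_div_iff_mul_le (nrm_pos' hk0)]
    exact h1
  · intro x _
    rfl

/-! ### real characters -/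

/-- real characters of the primary elements -/
structure CH (χ : RR → ℝ) : Prop where
  one : χ 1 = 1
  mul : ∀ a b, prm a → prm b → χ (a * b) = χ a * χ b
  val : ∀ a, χ a = 0 ∨ χ a = 1 ∨ χ a = -1

namespace CH

variable {χ : RR → ℝ}

lemma abs_le (h : CH χ) (a : RR) : |χ a| ≤ 1 := by
  rcases h.val a with h1 | h1 | h1 <;> rw [h1] <;> norm_num

lemma pow (h : CH χ) {a : RR} (ha : prm a) (j : ℕ) : χ (a ^ j) = χ a ^ j := by
  induction j with
  | zero => rw [pow_zero, pow_zero, h.one]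
  | succ j ih => rw [pow_succ, pow_succ, h.mul _ _ (prm_pow ha j) ha, ih]

end CH

/-- the convolution -/
noncomputable def cv (χ : RR → ℝ) (n : RR) : ℝ := ∑ d ∈ DP n, χ d

lemma cv_mul {χ : RR → ℝ} (h : CH χ) {π m : RR} (hπ : PO π) (hm : prm m) (hd : ¬ π ∣ m) (k : ℕ) :
    cv χ (π ^ k * m) = (∑ i ∈ range (k + 1), χ π ^ i) * cv χ m := by
  unfold cv
  rw [sum_DP_mul hπ hm hd, sum_mul]
  refine sum_congr rfl fun j _ => ?_
  rw [mul_sum]
  refine sum_congr rfl fun d hd' => ?_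
  rw [mem_DP (prm_ne_zero hm)] at hd'
  rw [h.mul _ _ (prm_pow (pq_prm hπ) j) hd'.1, h.pow (pq_prm hπ)]

/-- the value on prime powers -/
lemma coef_ge {x : ℝ} (hx : x = 0 ∨ x = 1 ∨ x = -1) {k : ℕ} (hk : 1 ≤ k) :
    1 + x ≤ ∑ i ∈ range (k + 1), x ^ i := by
  rcases hx with rfl | rfl | rfl
  · rw [sum_range_succ']
    simp
  · simp only [one_pow, sum_const, card_range, nsmul_eq_mul, mul_one]
    have : (1 : ℝ) ≤ k := by exact_mod_cast hk
    push_cast
    linarith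
  · rw [neg_one_geom_sum]
    split_ifs <;> norm_num

lemma val_nonneg {x : ℝ} (hx : x = 0 ∨ x = 1 ∨ x = -1) : 0 ≤ 1 + x := by
  rcases hx with rfl | rfl | rfl <;> norm_num

/-- comparison with the convolution -/
theorem conv_le {χ : RR → ℝ} (h : CH χ) : ∀ n : RR, prm n → mf (fun π => 1 + χ π) n ≤ cv χ n := by
  refine pp_induction ?_ ?_
  · unfold cv mf
    rw [DP_one, sum_singleton, h.one, PD_one, prod_empty]
  · intro π m k hπ hm hd hk ih
    have e : mf (fun π => 1 + χ π) (π ^ k * m) = (1 + χ π) * mf (fun π => 1 + χ π) m := by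
      unfold mf
      rw [PD_pow_mul hπ hm hk, prod_insert (notMem_PD hm hd)]
    rw [cv_mul h hπ hm hd, e]
    have h5 := val_nonneg (h.val π)
    have h4 := coef_ge (h.val π) hk
    exact mul_le_mul h4 ih (mf_nonneg (fun π => val_nonneg (h.val π)) m) (h5.trans h4)

/-- the sum of the convolution -/
theorem conv_bound (hHS : S_HS) {χ : RR → ℝ} (h : CH χ) {B : ℝ}
    (hB : ∀ Y : ℕ, |∑ d ∈ PB Y, χ d / nrm d| ≤ B) (V : ℕ) :
    ∑ n ∈ PB V, mf (fun π => 1 + χ π) n / nrm n ≤ (32 * L2 V) * B := by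
  have hB0 : 0 ≤ B := (abs_nonneg _).trans (hB 0)
  have e1 : ∑ n ∈ PB V, mf (fun π => 1 + χ π) n / nrm n ≤ ∑ n ∈ PB V, cv χ n / nrm n := by
    refine sum_le_sum fun n hn => ?_
    exact div_le_div_of_nonneg_right (conv_le h n (mem_PB.1 hn).2) (Nat.cast_nonneg _)
  refine e1.trans ?_
  have e3 : ∑ n ∈ PB V, cv χ n / nrm n = ∑ k ∈ PB V, (1 / (nrm k : ℝ)) *
      ∑ d ∈ PB (V / nrm k), χ d / nrm d := by
    have e4 := conv_sum (fun n d => χ d / (nrm n : ℝ)) V
    have e5 : ∑ n ∈ PB V, cv χ n / nrm n = ∑ n ∈ PB V, ∑ d ∈ DP n, χ d / (nrm n : ℝ) := by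
      refine sum_congr rfl fun n _ => ?_
      unfold cv
      rw [sum_div]
    rw [e5, e4]
    refine sum_congr rfl fun k _ => ?_
    rw [mul_sum]
    refine sum_congr rfl fun d _ => ?_
    rw [nrm_mul]
    push_cast
    rw [one_div_mul_eq_div, div_div]
  rw [e3]
  have e8 : ∀ k ∈ PB V, (1 / (nrm k : ℝ)) * ∑ d ∈ PB (V / nrm k), χ d / nrm d ≤ B * (1 / nrm k) := by
    intro k _
    rw [mul_comm B]
    apply mul_le_mul_of_nonneg_left ((le_abs_self _).trans (hB _)) (by positivity)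
  refine (sum_le_sum e8).trans ?_
  rw [← mul_sum, mul_comm]
  exact mul_le_mul_of_nonneg_right (hHS.1 V) hB0

/-! ### partial sums of the series at 1 -/

lemma chs_triv {χ : RR → ℝ} (h : CH χ) {v : ℕ} (hv : 1 ≤ v) : |∑ d ∈ PB v, χ d| ≤ 16 * v := by
  refine (abs_sum_le_sum_abs _ _).trans ((sum_le_sum fun d _ => h.abs_le _).trans ?_)
  rw [sum_const, nsmul_eq_mul, mul_one]
  exact card_PB_le hv

lemma inv_tel (n : ℕ) (hn : 1 ≤ n) : ∀ Y : ℕ, n ≤ Y →
    (1 : ℝ) / n = 1 / Y + ∑ v ∈ Ico n Y, (1 : ℝ) / (v * (v + 1)) := by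
  intro Y hY
  induction Y, hY using Nat.le_induction with
  | base => simp
  | succ Y hY ih =>
    rw [sum_Ico_succ_top hY, ih]
    have h1 : (0 : ℝ) < Y := by exact_mod_cast (by omega : 0 < Y)
    push_cast
    field_simp
    ring

lemma harm_le (Y : ℕ) (hY : 1 ≤ Y) : ∑ v ∈ Ico 1 Y, (1 : ℝ) / (v + 1) ≤ Real.log Y := by
  induction Y, hY using Nat.le_induction with
  | base => simp
  | succ Y hY ih =>
    rw [sum_Ico_succ_top hY]
    have h1 : (0 : ℝ) < Y := by exact_mod_cast (by omega : 0 < Y)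
    have h2 := Real.one_sub_inv_le_log_of_pos (show (0 : ℝ) < (Y + 1) / Y by positivity)
    rw [Real.log_div (by positivity) h1.ne', inv_div] at h2
    have h3 : 1 - (Y : ℝ) / (Y + 1) = 1 / (Y + 1) := by field_simp; ring
    push_cast
    linarith

lemma sqrt_tel (m : ℕ) (hm : 1 ≤ m) : ∀ Y : ℕ, m ≤ Y →
    ∑ v ∈ Ico m Y, Real.sqrt v / (v * (v + 1)) ≤ 2 * (1 / Real.sqrt m - 1 / Real.sqrt Y) := by
  intro Y hY
  induction Y, hY using Nat.le_induction with
  | base => simp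
  | succ Y hY ih =>
    rw [sum_Ico_succ_top hY]
    have h1 : (0 : ℝ) < Y := by exact_mod_cast (by omega : 0 < Y)
    have h2 : Real.sqrt Y / ((Y : ℝ) * (Y + 1)) ≤ 2 * (1 / Real.sqrt Y - 1 / Real.sqrt ((Y + 1 : ℕ) : ℝ)) := by
      push_cast
      set a := Real.sqrt (Y : ℝ) with ha
      set b := Real.sqrt ((Y : ℝ) + 1) with hb
      have a0 : 0 < a := Real.sqrt_pos.2 h1
      have b0 : 0 < b := Real.sqrt_pos.2 (by linarith)
      have a2 : a * a = Y := Real.mul_self_sqrt h1.le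
      have b2 : b * b = Y + 1 := Real.mul_self_sqrt (by linarith)
      have hab : a ≤ b := Real.sqrt_le_sqrt (by linarith)
      have e1 : a / ((Y : ℝ) * (Y + 1)) = 1 / (a * (b * b)) := by
        rw [← b2, ← a2]
        field_simp
      have e2 : 1 / a - 1 / b = 1 / (a * b * (a + b)) := by
        have : (b - a) * (b + a) = 1 := by nlinarith
        field_simp
        linarith
      rw [e1, e2, mul_one_div, div_le_div_iff₀ (by positivity) (by positivity)]
      have : a * b * (a + b) ≤ a * b * (2 * b) := by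
        apply mul_le_mul_of_nonneg_left _ (by positivity)
        linarith
      linarith
    linarith

/-- partial sums of the series at 1 -/
theorem chs_log {χ : RR → ℝ} (hch : CH χ) {C : ℝ} (hC : 1 ≤ C) {N : ℕ} (hN1 : 1 ≤ N)
    (hS : ∀ v : ℕ, 1 ≤ v → |∑ d ∈ PB v, χ d| ≤ C * N * Real.sqrt v) (Y : ℕ) :
    |∑ d ∈ PB Y, χ d / nrm d| ≤ (48 + 2 * C) * L2 N := by
  have hlg := l2_one N
  rcases Nat.eq_zero_or_pos Y with h0 | hY
  · have : PB Y = ∅ := by
      rw [eq_empty_iff_forall_notMem]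
      intro x hx
      rw [mem_PB] at hx
      have := nrm_pos' (prm_ne_zero hx.2)
      omega
    rw [this, sum_empty, abs_zero]
    positivity
  have hYr : (0 : ℝ) < Y := by exact_mod_cast hY
  -- summation by parts
  have e1 : ∑ d ∈ PB Y, χ d / nrm d = (∑ d ∈ PB Y, χ d) * (1 / Y : ℝ) +
      ∑ v ∈ Ico 1 Y, (∑ d ∈ PB v, χ d) * (1 / ((v : ℝ) * (v + 1))) := by
    have e2 : ∀ d ∈ PB Y, χ d / nrm d = χ d * (1 / Y : ℝ) +
        ∑ v ∈ Ico 1 Y, if nrm d ≤ v then χ d * (1 / ((v : ℝ) * (v + 1))) else 0 := by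
      intro d hd
      rw [mem_PB] at hd
      have hd1 := nrm_pos' (prm_ne_zero hd.2)
      have h2 := inv_tel (nrm d) hd1 Y hd.1
      have h3 : χ d / (nrm d : ℝ) = χ d * (1 / (nrm d : ℝ)) := by
        rw [mul_one_div]
      rw [h3, h2, mul_add]
      congr 1
      rw [mul_sum, ← sum_filter]
      refine sum_congr ?_ fun _ _ => rfl
      ext v
      rw [mem_filter, mem_Ico, mem_Ico]
      constructor
      · rintro ⟨a1, a2⟩; exact ⟨⟨by omega, a2⟩, a1⟩
      · rintro ⟨⟨-, a2⟩, a1⟩; exact ⟨a1, a2⟩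
    rw [sum_congr rfl e2, sum_add_distrib, ← sum_mul, sum_comm]
    congr 1
    refine sum_congr rfl fun v hv => ?_
    rw [mem_Ico] at hv
    rw [← sum_filter, ← sum_mul]
    congr 1
    refine sum_congr ?_ fun _ _ => rfl
    ext d
    rw [mem_filter, mem_PB, mem_PB]
    constructor
    · rintro ⟨⟨-, a2⟩, a1⟩; exact ⟨a1, a2⟩
    · rintro ⟨a1, a2⟩; exact ⟨⟨by omega, a2⟩, a1⟩
  rw [e1]
  refine (abs_add_le _ _).trans ?_
  have e3 : |(∑ d ∈ PB Y, χ d) * (1 / Y : ℝ)| ≤ 16 := by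
    rw [abs_mul, abs_of_pos (show (0 : ℝ) < 1 / Y by positivity), mul_one_div, div_le_iff₀ hYr]
    exact chs_triv hch hY
  have e4 : ∀ v ∈ Ico 1 Y, |(∑ d ∈ PB v, χ d) * (1 / ((v : ℝ) * (v + 1)))| ≤
      (if v < N ^ 2 then 16 * (1 / ((v : ℝ) + 1)) else 0) +
      (if N ^ 2 ≤ v then C * N * (Real.sqrt v / (v * (v + 1))) else 0) := by
    intro v hv
    rw [mem_Ico] at hv
    have v0 : (0 : ℝ) < v := by exact_mod_cast hv.1
    have hp : (0 : ℝ) < 1 / ((v : ℝ) * (v + 1)) := by positivity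
    rw [abs_mul, abs_of_pos hp]
    by_cases h : v < N ^ 2
    · rw [if_pos h, if_neg (by omega), add_zero]
      calc |∑ d ∈ PB v, χ d| * (1 / ((v : ℝ) * (v + 1))) ≤ (16 * v) * (1 / ((v : ℝ) * (v + 1))) :=
            mul_le_mul_of_nonneg_right (chs_triv hch hv.1) hp.le
        _ = 16 * (1 / ((v : ℝ) + 1)) := by field_simp
    · rw [if_neg h, if_pos (by omega), zero_add]
      calc |∑ d ∈ PB v, χ d| * (1 / ((v : ℝ) * (v + 1))) ≤
            (C * N * Real.sqrt v) * (1 / ((v : ℝ) * (v + 1))) :=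
            mul_le_mul_of_nonneg_right (hS v hv.1) hp.le
        _ = C * N * (Real.sqrt v / (v * (v + 1))) := by ring
  have e5 : |∑ v ∈ Ico 1 Y, (∑ d ∈ PB v, χ d) * (1 / ((v : ℝ) * (v + 1)))| ≤
      16 * (2 * L2 N) + 2 * C := by
    refine (abs_sum_le_sum_abs _ _).trans ((sum_le_sum e4).trans ?_)
    rw [sum_add_distrib]
    have hN2 : 1 ≤ N ^ 2 := Nat.one_le_pow _ _ hN1
    have a1 : ∑ v ∈ Ico 1 Y, (if v < N ^ 2 then 16 * (1 / ((v : ℝ) + 1)) else 0) ≤ 16 * (2 * L2 N) := by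
      rw [← sum_filter, ← mul_sum]
      have h2 : ∑ v ∈ (Ico 1 Y).filter (fun v => v < N ^ 2), (1 : ℝ) / ((v : ℝ) + 1) ≤
          ∑ v ∈ Ico 1 (N ^ 2), (1 : ℝ) / ((v : ℝ) + 1) := by
        refine sum_le_sum_of_subset_of_nonneg ?_ (fun _ _ _ => by positivity)
        intro v hv
        rw [mem_filter, mem_Ico] at hv
        rw [mem_Ico]
        exact ⟨hv.1.1, hv.2⟩
      have h3 := harm_le (N ^ 2) hN2
      have h4 : Real.log ((N ^ 2 : ℕ) : ℝ) = 2 * Real.log N := by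
        push_cast
        rw [Real.log_pow]
        push_cast
        ring
      rw [h4] at h3
      have h5 := log_le_l2 hN1
      linarith
    have a2 : ∑ v ∈ Ico 1 Y, (if N ^ 2 ≤ v then C * (N : ℝ) * (Real.sqrt v / (v * (v + 1))) else 0) ≤
        2 * C := by
      rw [← sum_filter, ← mul_sum]
      have h2 : ∑ v ∈ (Ico 1 Y).filter (fun v => N ^ 2 ≤ v), Real.sqrt v / ((v : ℝ) * (v + 1)) ≤
          ∑ v ∈ Ico (N ^ 2) (max Y (N ^ 2)), Real.sqrt v / ((v : ℝ) * (v + 1)) := by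
        refine sum_le_sum_of_subset_of_nonneg ?_ (fun _ _ _ => by positivity)
        intro v hv
        rw [mem_filter, mem_Ico] at hv
        rw [mem_Ico]
        exact ⟨hv.2, lt_of_lt_of_le hv.1.2 (le_max_left _ _)⟩
      have h3 := sqrt_tel (N ^ 2) hN2 (max Y (N ^ 2)) (le_max_right _ _)
      have h4 : Real.sqrt ((N ^ 2 : ℕ) : ℝ) = N := by
        push_cast
        exact Real.sqrt_sq (Nat.cast_nonneg _)
      rw [h4] at h3
      have h5 : (0 : ℝ) ≤ 1 / Real.sqrt ((max Y (N ^ 2) : ℕ) : ℝ) := by positivity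
      have Nr : (0 : ℝ) < N := by exact_mod_cast hN1
      calc C * (N : ℝ) * ∑ v ∈ (Ico 1 Y).filter (fun v => N ^ 2 ≤ v), Real.sqrt v / ((v : ℝ) * (v + 1))
          ≤ C * N * (2 * (1 / N)) := by
            apply mul_le_mul_of_nonneg_left _ (by positivity)
            linarith
        _ = 2 * C := by field_simp
    linarith
  nlinarith

/-! ### the characters which occur -/

lemma te_one : te 1 = 0 := by
  unfold te
  rw [cXY_one.2]
  simp

lemma te_half {a : RR} (h : prm a) : te a = ((cY a / 2 : ℤ) : ZMod 2) := by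
  obtain ⟨m, hm⟩ : ∃ m, cY a = 2 * m := ⟨cY a / 2, by have := h.y2; omega⟩
  unfold te
  rw [hm, Int.mul_ediv_cancel_left _ (by norm_num)]
  split_ifs with h1
  · symm
    rw [ZMod.intCast_zmod_eq_zero_iff_dvd]
    push_cast
    omega
  · have h2 : ((m : ℤ) : ZMod 2) ≠ 0 := by
      intro h3
      rw [ZMod.intCast_zmod_eq_zero_iff_dvd] at h3
      push_cast at h3
      omega
    rcases zmod2_cases ((m : ℤ) : ZMod 2) with h3 | h3
    · exact absurd h3 h2
    · exact h3.symm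

lemma te_mul' {a b : RR} (ha : prm a) (hb : prm b) : te (a * b) = te a + te b := by
  rw [te_half ha, te_half hb, te_half (prm_mul ha hb)]
  obtain ⟨k, hk⟩ : ∃ k, cX a = 1 + 4 * k := ⟨(cX a - 1) / 4, by have := ha.x4; omega⟩
  obtain ⟨m, hm⟩ : ∃ m, cY a = 2 * m := ⟨cY a / 2, by have := ha.y2; omega⟩
  obtain ⟨l, hl⟩ : ∃ k, cX b = 1 + 4 * k := ⟨(cX b - 1) / 4, by have := hb.x4; omega⟩
  obtain ⟨n, hn⟩ : ∃ m, cY b = 2 * m := ⟨cY b / 2, by have := hb.y2; omega⟩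
  rw [(cXY_mul a b).2, hk, hm, hl, hn]
  have e : (1 + 4 * k) * (2 * n) + 2 * m * (1 + 4 * l) + 2 * m * (2 * n) =
      2 * (m + n + 2 * (2 * k * n + 2 * m * l + m * n)) := by ring
  rw [e, Int.mul_ediv_cancel_left _ (by norm_num), Int.mul_ediv_cancel_left _ (by norm_num),
    Int.mul_ediv_cancel_left _ (by norm_num)]
  push_cast
  have h2 : (2 : ZMod 2) = 0 := by decide
  rw [h2]
  ring

lemma fR_nunit : ¬ IsUnit fR := by
  intro h
  have h1 := isUnit_nR h
  unfold nR at h1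
  rw [cXY_fR.1, cXY_fR.2] at h1
  norm_num at h1

lemma prm_nmem {a : RR} (h : prm a) : a ∉ sp fR := by
  intro h1
  have h2 : fR ∣ a := Ideal.mem_span_singleton.1 h1
  exact fR_nunit (h.cop.isUnit_of_dvd' dvd_rfl h2)

lemma e7_sgn {a : RR} (h : prm a) : e7 a = 1 ∨ e7 a = -1 := sq_eq_one_iff_of_ne_zero' h
where
  sq_eq_one_iff_of_ne_zero' {a : RR} (h : prm a) : e7 a = 1 ∨ e7 a = -1 := by
    have h1 := e7_sq (prm_nmem h)
    have h2 : (e7 a - 1) * (e7 a + 1) = 0 := by linear_combination h1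
    rcases mul_eq_zero.1 h2 with h3 | h3
    · left; linear_combination h3
    · right; linear_combination h3

lemma cc_mul' {a b : RR} (ha : prm a) (hb : prm b) : cc (a * b) = cc a + cc b := by
  unfold cc
  rw [e7_mul, Pool.Agent.Y698.SG.lg_mul (e7_sgn ha) (e7_sgn hb)]

lemma cc_one : cc 1 = 0 := by
  unfold cc
  rw [e7_one, Pool.Agent.Y698.SG.lg_one]

lemma chi_val (π x : RR) : chi π x = 0 ∨ chi π x = 1 ∨ chi π x = -1 := by
  unfold chi
  rcases sy_val π x with h | h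
  · exact Or.inl h.2
  · exact Or.inr h.2

lemma sg_val (a : ZMod 2) : sg a = 1 ∨ sg a = -1 := by
  rcases zmod2_cases a with rfl | rfl
  · exact Or.inl sg_zero
  · exact Or.inr sg_one

lemma mul_val {x y : ℂ} (hx : x = 0 ∨ x = 1 ∨ x = -1) (hy : y = 0 ∨ y = 1 ∨ y = -1) :
    x * y = 0 ∨ x * y = 1 ∨ x * y = -1 := by
  rcases hx with rfl | rfl | rfl
  · left; ring
  · rw [one_mul]; exact hy
  · rcases hy with rfl | rfl | rfl
    · left; ring
    · right; right; ring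
    · right; left; ring

lemma xw_val (W : Finset RR) (a b : ZMod 2) (n : RR) :
    xw W a b n = 0 ∨ xw W a b n = 1 ∨ xw W a b n = -1 := by
  unfold xw
  refine mul_val (mul_val ?_ (Or.inr (sg_val _))) (Or.inr (sg_val _))
  induction W using Finset.induction_on with
  | empty => right; left; rw [prod_empty]
  | insert u W hu ih => rw [prod_insert hu]; exact mul_val (chi_val _ _) ih

lemma xw_re (W : Finset RR) (a b : ZMod 2) (n : RR) : xw W a b n = (((xw W a b n).re : ℝ) : ℂ) := by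
  rcases xw_val W a b n with h | h | h <;> rw [h] <;> simp

lemma xw_one {W : Finset RR} (hW : ∀ u ∈ W, PO u) (a b : ZMod 2) : xw W a b 1 = 1 := by
  unfold xw
  rw [te_one, cc_one, mul_zero, mul_zero, sg_zero, prod_congr rfl (fun u hu => chi_one (hW u hu))]
  simp

lemma xw_mul {W : Finset RR} (hW : ∀ u ∈ W, PO u) (a b : ZMod 2) {m n : RR} (hm : prm m) (hn : prm n) :
    xw W a b (m * n) = xw W a b m * xw W a b n := by
  unfold xw
  rw [te_mul' hm hn, cc_mul' hm hn, mul_add, mul_add, sg_add, sg_add,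
    prod_congr rfl (fun u hu => chi_mul (hW u hu) m n), prod_mul_distrib]
  ring

lemma xw_ch {W : Finset RR} (hW : ∀ u ∈ W, PO u) (a b : ZMod 2) : CH (fun n => (xw W a b n).re) where
  one := by
    show (xw W a b 1).re = 1
    rw [xw_one hW]
    simp
  mul := by
    intro m n hm hn
    show (xw W a b (m * n)).re = (xw W a b m).re * (xw W a b n).re
    rw [xw_mul hW a b hm hn, xw_re W a b m, xw_re W a b n, ← Complex.ofReal_mul, Complex.ofReal_re,
      Complex.ofReal_re, Complex.ofReal_re]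
  val := by
    intro n
    show (xw W a b n).re = 0 ∨ (xw W a b n).re = 1 ∨ (xw W a b n).re = -1
    rcases xw_val W a b n with h | h | h
    · left; rw [h]; simp
    · right; left; rw [h]; simp
    · right; right; rw [h]; simp

lemma SB_empty : SB 0 = ∅ := by
  rw [eq_empty_iff_forall_notMem]
  intro x hx
  rw [mem_SB] at hx
  have := nrm_pos' hx.2.ne
  omega

end HG

open HG Finset in
theorem t_HALG : S_HALGT := by
  intro hCHS hHS hHALL
  obtain ⟨C, hC1, hC⟩ := hCHS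
  obtain ⟨K, hK1, hK⟩ := hHALL
  refine ⟨K * (8 * (48 + 2 * C)), by nlinarith, ?_⟩
  intro W a b hW hne T
  obtain ⟨N, hN⟩ : ∃ N : ℕ, N = ∏ u ∈ W, nrm u := ⟨_, rfl⟩
  have hN1 : 1 ≤ N := by
    rw [hN]
    exact Nat.one_le_iff_ne_zero.2 (prod_ne_zero_iff.2 fun u hu => nrm_ne (pq_ne (hW u hu)))
  rw [← hN]
  rcases Nat.eq_zero_or_pos T with h0 | hT
  · subst h0
    rw [SB_empty, sum_empty]
    simp
  obtain ⟨χ, hχ⟩ : ∃ χ : Pool.Agent.Y698.RR → ℝ, χ = fun n => (xw W a b n).re := ⟨_, rfl⟩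
  have hch : CH χ := by
    rw [hχ]
    exact xw_ch hW a b
  have hS : ∀ v : ℕ, 1 ≤ v → |∑ d ∈ PB v, χ d| ≤ C * N * Real.sqrt v := by
    intro v hv
    have h1 := hC W a b hW hne v hv
    rw [← hN] at h1
    have h2 : ∑ n ∈ PB v, xw W a b n = ((∑ d ∈ PB v, χ d : ℝ) : ℂ) := by
      rw [Complex.ofReal_sum, hχ]
      exact sum_congr rfl fun n _ => xw_re W a b n
    rw [h2, Complex.norm_real, Real.norm_eq_abs] at h1
    exact h1
  have hB := chs_log hch hC1 hN1 hS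
  obtain ⟨D, hD⟩ : ∃ D : ℝ, D = 48 + 2 * C := ⟨_, rfl⟩
  rw [← hD] at hB ⊢
  have hD1 : 1 ≤ D := by rw [hD]; linarith
  have hcb := conv_bound hHS hch hB (T ^ 2)
  obtain ⟨g, hg⟩ : ∃ g : Pool.Agent.Y698.RR → ℝ, g = fun π => (1 + (xw W a b π).re) / 2 := ⟨_, rfl⟩
  have hg0 : ∀ π, 0 ≤ g π := by
    intro π
    rw [hg]
    have h1 := val_nonneg (hch.val π)
    rw [hχ] at h1
    exact div_nonneg h1 (by norm_num)
  have hg1 : ∀ π, g π ≤ 1 := by
    intro π
    rw [hg]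
    have h1 := hch.abs_le π
    rw [hχ] at h1
    have h2 := (abs_le.1 h1).2
    show (1 + (xw W a b π).re) / 2 ≤ 1
    linarith
  have hsq := hall2 hg0 hg1 T
  have e2 : (fun π => 2 * g π) = fun π => 1 + χ π := by
    rw [hg, hχ]
    funext π
    ring
  rw [e2] at hsq
  have hk := hK g hg0 hg1 T hT
  rw [← hg]
  obtain ⟨S, hSd⟩ : ∃ S : ℝ, S = ∑ n ∈ SB T, mf g n := ⟨_, rfl⟩
  obtain ⟨S1, hS1d⟩ : ∃ S1 : ℝ, S1 = ∑ n ∈ SB T, mf g n / nrm n := ⟨_, rfl⟩
  rw [← hSd, ← hS1d] at hk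
  rw [← hS1d] at hsq
  rw [← hSd]
  have hlT := l2_pos T
  have hlN := l2_pos N
  have hT0 : (0 : ℝ) < T := by exact_mod_cast hT
  have hS10 : 0 ≤ S1 := by
    rw [hS1d]
    exact sum_nonneg fun n _ => div_nonneg (mf_nonneg hg0 n) (Nat.cast_nonneg _)
  have h4 : S1 ≤ 8 * D * ((L2 N) ^ (1 / 2 : ℝ) * (L2 T) ^ (1 / 2 : ℝ)) := by
    apply le_of_pow_le_pow_left₀ (n := 2) (by norm_num) (by positivity)
    refine (hsq.trans hcb).trans ?_
    have h5 : ((L2 N) ^ (1 / 2 : ℝ)) ^ 2 = L2 N := by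
      rw [← Real.rpow_natCast, ← Real.rpow_mul hlN.le]
      norm_num
    have h6 : ((L2 T) ^ (1 / 2 : ℝ)) ^ 2 = L2 T := by
      rw [← Real.rpow_natCast, ← Real.rpow_mul hlT.le]
      norm_num
    rw [mul_pow, mul_pow ((L2 N) ^ (1 / 2 : ℝ)), h5, h6]
    have h7 := l2_sq T
    have h8 : 0 ≤ L2 N * L2 T := by positivity
    calc 32 * L2 (T ^ 2) * (D * L2 N) ≤ 32 * (2 * L2 T) * (D * L2 N) := by
          apply mul_le_mul_of_nonneg_right _ (by positivity)
          linarith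
      _ = 64 * D * (L2 N * L2 T) := by ring
      _ ≤ (8 * D) ^ 2 * (L2 N * L2 T) := by
          apply mul_le_mul_of_nonneg_right _ h8
          nlinarith
  have h6 : (L2 T) ^ (-(1 / 2) : ℝ) * L2 T = (L2 T) ^ (1 / 2 : ℝ) := by
    have := Real.rpow_add hlT (-(1 / 2)) 1
    rw [Real.rpow_one] at this
    rw [← this]
    norm_num
  have h8 : S * L2 T ≤ (K * (8 * D) * (L2 N) ^ (1 / 2 : ℝ) * (T * (L2 T) ^ (-(1 / 2) : ℝ))) * L2 T := by
    refine hk.trans ?_
    have h9 : K * T * S1 ≤ K * T * (8 * D * ((L2 N) ^ (1 / 2 : ℝ) * (L2 T) ^ (1 / 2 : ℝ))) :=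
      mul_le_mul_of_nonneg_left h4 (by positivity)
    refine h9.trans (le_of_eq ?_)
    rw [← h6]
    ring
  exact le_of_mul_le_mul_right h8 hlT

end Pool.Agent.T2h16.KD
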