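import Pool.Agent.T2h16.KD.Stm

/-!
Project KD, task HALL (helper93): mean values of multiplicative functions over `ℤ[ω]`.
-/

set_option autoImplicit false
set_option linter.unusedVariables false

open scoped Classical

namespace Pool.Agent.T2h16.KD.Hl

open Finset Filter
open Pool.Agent.Y698 hiding zz
open Pool.Agent.Y698.SG
open Pool.Agent.T2h78.TW (PO te sl)

lemma sum_le_inj {α β : Type*} [DecidableEq β] {s : Finset α} {t : Finset β} {f : α → ℝ} {g : β → ℝ}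
    (i : α → β) (hi : ∀ a ∈ s, i a ∈ t) (inj : ∀ a ∈ s, ∀ b ∈ s, i a = i b → a = b)
    (hfg : ∀ a ∈ s, f a ≤ g (i a)) (hg : ∀ b ∈ t, 0 ≤ g b) : ∑ a ∈ s, f a ≤ ∑ b ∈ t, g b := by
  refine (sum_le_sum hfg).trans ?_
  rw [← sum_image (f := g) (g := i) (fun a ha b hb h => inj a ha b hb h)]
  refine sum_le_sum_of_subset_of_nonneg ?_ (fun b hb _ => hg b hb)
  intro b hb
  obtain ⟨a, ha, rfl⟩ := mem_image.1 hb
  exact hi a ha

lemma nrm_prod {ι : Type*} (s : Finset ι) (p : ι → RR) : nrm (∏ i ∈ s, p i) = ∏ i ∈ s, nrm (p i) := by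
  classical
  induction s using Finset.induction_on with
  | empty => rw [prod_empty, prod_empty, nrm_one]
  | insert a s ha ih => rw [prod_insert ha, prod_insert ha, nrm_mul, ih]

lemma log_nrm {n : RR} (h : PS n) : Real.log (nrm n) = ∑ π ∈ PD n, Real.log (nrm π) := by
  have h1 : (nrm n : ℝ) = ∏ π ∈ PD n, (nrm π : ℝ) := by
    have h2 : nrm n = ∏ π ∈ PD n, nrm π := by
      conv_lhs => rw [← h.prod]
      exact nrm_prod _ _
    rw [h2]
    push_cast
    rfl
  rw [h1, Real.log_prod]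
  intro π hπ
  have := nrm_ne (pq_ne ((mem_PD h.ne).1 hπ).1)
  exact_mod_cast this

lemma mf_nonneg {g : RR → ℝ} (h0 : ∀ π, 0 ≤ g π) (n : RR) : 0 ≤ mf g n := prod_nonneg fun _ _ => h0 _

lemma mf_le_one {g : RR → ℝ} (h0 : ∀ π, 0 ≤ g π) (h1 : ∀ π, g π ≤ 1) (n : RR) : mf g n ≤ 1 :=
  prod_le_one (fun _ _ => h0 _) (fun _ _ => h1 _)

/-- `f(n) log T` on average -/
theorem hall1 (hC : S_CHEB) {g : RR → ℝ} (h0 : ∀ π, 0 ≤ g π) (h1 : ∀ π, g π ≤ 1) {T : ℕ} (hT : 1 ≤ T) :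
    (∑ n ∈ SB T, mf g n) * Real.log T ≤ 7 * T * ∑ n ∈ SB T, mf g n / nrm n := by
  classical
  have T0 : (0 : ℝ) < T := by exact_mod_cast hT
  have e1 : (∑ n ∈ SB T, mf g n) * Real.log T ≤
      ∑ n ∈ SB T, mf g n * Real.log (nrm n) + ∑ n ∈ SB T, mf g n * (T / nrm n) := by
    rw [sum_mul, ← sum_add_distrib]
    refine sum_le_sum fun n hn => ?_
    rw [mem_SB] at hn
    have n0 : (0 : ℝ) < nrm n := by exact_mod_cast nrm_pos' hn.2.ne
    have h2 := Real.log_le_sub_one_of_pos (show (0 : ℝ) < T / nrm n by positivity)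
    rw [Real.log_div T0.ne' n0.ne'] at h2
    have h3 := mf_nonneg h0 n
    nlinarith
  have e2 : ∑ n ∈ SB T, mf g n * Real.log (nrm n) ≤ 6 * T * ∑ n ∈ SB T, mf g n / nrm n := by
    have e3 : ∑ n ∈ SB T, mf g n * Real.log (nrm n) =
        ∑ x ∈ (SB T).sigma (fun n => PD n), mf g x.1 * Real.log (nrm x.2) := by
      rw [sum_sigma]
      refine sum_congr rfl fun n hn => ?_
      rw [log_nrm (mem_SB.1 hn).2, mul_sum]
    have e4 : ∑ x ∈ (SB T).sigma (fun n => PD n), mf g x.1 * Real.log (nrm x.2) ≤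
        ∑ x ∈ (SB T).sigma (fun m => QB (T / nrm m)), mf g x.1 * Real.log (nrm x.2) := by
      have key : ∀ x ∈ (SB T).sigma (fun n => PD n),
          x.2 * (∏ ρ ∈ (PD x.1).erase x.2, ρ) = x.1 ∧ PS (∏ ρ ∈ (PD x.1).erase x.2, ρ) ∧
          PD (∏ ρ ∈ (PD x.1).erase x.2, ρ) = (PD x.1).erase x.2 ∧ PO x.2 := by
        rintro ⟨n, π⟩ hx
        rw [mem_sigma, mem_SB] at hx
        simp only at hx ⊢
        have h2 : ∀ ρ ∈ (PD n).erase π, PO ρ := fun ρ hρ => ((mem_PD hx.1.2.ne).1 (mem_of_mem_erase hρ)).1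
        refine ⟨?_, (PS_prod h2).1, (PS_prod h2).2, ((mem_PD hx.1.2.ne).1 hx.2).1⟩
        rw [mul_prod_erase (PD n) (fun ρ => ρ) hx.2]
        exact hx.1.2.prod
      refine sum_le_inj (fun x => ⟨∏ ρ ∈ (PD x.1).erase x.2, ρ, x.2⟩) ?_ ?_ ?_ ?_
      · intro x hx
        obtain ⟨k1, k2, -, k4⟩ := key x hx
        rw [mem_sigma, mem_SB] at hx
        rw [mem_sigma, mem_SB, mem_QB]
        simp only
        have h3 : nrm x.2 * nrm (∏ ρ ∈ (PD x.1).erase x.2, ρ) ≤ T := by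
          rw [← nrm_mul, k1]
          exact hx.1.1
        have h4 := nrm_pos' (pq_ne k4)
        have h5 := nrm_pos' k2.ne
        refine ⟨⟨?_, k2⟩, ?_, k4⟩
        · exact (Nat.le_mul_of_pos_left _ h4).trans h3
        · rw [Nat.le_div_iff_mul_le h5]
          exact h3
      · rintro ⟨a, π⟩ ha ⟨b, ρ⟩ hb hab
        obtain ⟨k1, -⟩ := key _ ha
        obtain ⟨l1, -⟩ := key _ hb
        simp only [Sigma.mk.injEq, heq_eq_eq] at hab k1 l1
        obtain ⟨h2, rfl⟩ := hab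
        rw [h2] at k1
        rw [k1] at l1
        rw [l1]
      · rintro ⟨n, π⟩ hx
        obtain ⟨k1, k2, k3, k4⟩ := key _ hx
        simp only at k1 k2 k3 k4 ⊢
        rw [mem_sigma] at hx
        apply mul_le_mul_of_nonneg_right _ (Real.log_natCast_nonneg _)
        unfold mf
        rw [k3, ← mul_prod_erase (PD n) g hx.2]
        exact mul_le_of_le_one_left (prod_nonneg fun _ _ => h0 _) (h1 _)
      · intro x _
        exact mul_nonneg (mf_nonneg h0 _) (Real.log_natCast_nonneg _)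
    rw [e3]
    refine e4.trans ?_
    rw [sum_sigma, mul_sum]
    refine sum_le_sum fun m hm => ?_
    show ∑ s ∈ QB (T / nrm m), mf g m * Real.log (nrm s) ≤ _
    rw [← mul_sum]
    have h2 := hC (T / nrm m)
    have h3 : ((T / nrm m : ℕ) : ℝ) ≤ (T : ℝ) / nrm m := Nat.cast_div_le
    calc mf g m * ∑ π ∈ QB (T / nrm m), Real.log (nrm π) ≤ mf g m * (6 * ((T : ℝ) / nrm m)) := by
          apply mul_le_mul_of_nonneg_left _ (mf_nonneg h0 _)
          linarith
      _ = 6 * T * (mf g m / nrm m) := by ring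
  have e3 : ∑ n ∈ SB T, mf g n * (T / nrm n) = T * ∑ n ∈ SB T, mf g n / nrm n := by
    rw [mul_sum]
    refine sum_congr rfl fun n _ => by ring
  rw [e3] at e1
  linarith



lemma lg_le_log {T : ℕ} (hT : 2 ≤ T) : L2 T ≤ 3 * Real.log T := by
  have h1 : (Nat.log 2 T : ℝ) * Real.log 2 ≤ Real.log T := by
    have h2 : (2 : ℝ) ^ (Nat.log 2 T) ≤ T := by exact_mod_cast Nat.pow_log_le_self 2 (by omega)
    have h3 := Real.log_le_log (by positivity) h2
    rwa [Real.log_pow] at h3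
  have h3 := Real.log_two_gt_d9
  have h4 : 1 ≤ Nat.log 2 T := Nat.log_pos (by norm_num) hT
  have h5 : (1 : ℝ) ≤ Nat.log 2 T := by exact_mod_cast h4
  unfold L2 Pool.Agent.Y699.E.lg
  nlinarith

end Pool.Agent.T2h16.KD.Hl

namespace Pool.Agent.T2h16.KD

open Finset Filter
open Pool.Agent.Y698 hiding zz
open Pool.Agent.Y698.SG
open Pool.Agent.T2h78.TW (PO te sl)

theorem t_HALL : S_HALLT := by
  intro hC
  refine ⟨21, by norm_num, fun g h0 h1 T hT => ?_⟩
  have hS1 : 0 ≤ ∑ n ∈ SB T, mf g n := sum_nonneg fun n _ => Hl.mf_nonneg h0 n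
  have T0 : (0 : ℝ) < T := by exact_mod_cast hT
  by_cases hT1 : T = 1
  · subst hT1
    have h2 : L2 1 = 1 := by
      unfold L2 Pool.Agent.Y699.E.lg
      simp
    rw [h2, mul_one, Nat.cast_one, mul_one]
    have h3 : ∑ n ∈ SB 1, mf g n = ∑ n ∈ SB 1, mf g n / nrm n := by
      refine sum_congr rfl fun n hn => ?_
      rw [mem_SB] at hn
      have h4 := nrm_pos' hn.2.ne
      have h5 : nrm n = 1 := by omega
      rw [h5, Nat.cast_one, div_one]
    rw [← h3]
    linarith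
  · have hT2 : 2 ≤ T := by omega
    have h2 := Hl.hall1 hC h0 h1 hT
    have h3 := Hl.lg_le_log hT2
    calc (∑ n ∈ SB T, mf g n) * L2 T ≤ (∑ n ∈ SB T, mf g n) * (3 * Real.log T) :=
          mul_le_mul_of_nonneg_left h3 hS1
      _ = 3 * ((∑ n ∈ SB T, mf g n) * Real.log T) := by ring
      _ ≤ 3 * (7 * T * ∑ n ∈ SB T, mf g n / nrm n) := by linarith
      _ = 21 * T * ∑ n ∈ SB T, mf g n / nrm n := by ring

end Pool.Agent.T2h16.KD
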