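import Pool.Agent.T2h16.KD.Stm

/-!
# Sums of quadratic symbols: the mean square (task JSUM of project KD)

After `Pool/Agent/Y699/E/Jsum.lean`; the modulus `3` is replaced by `28`.
-/

set_option autoImplicit false
set_option linter.all false

open scoped Classical

namespace Pool.Agent.T2h16.KD

open Finset Filter
open Pool.Agent.Y698 hiding zz
open Pool.Agent.Y698.SG
open Pool.Agent.T2h78.TW (PO te sl)
open Pool.Agent.Y703.CQ (sg)
open scoped ComplexConjugate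

namespace JSx

/-- the modulus -/
noncomputable def qq : RR := ((28 : ℤ) : RR)

lemma nrm_qq : nrm qq = 784 := by
  unfold nrm nR qq
  rw [(cXY_int 28).1, (cXY_int 28).2]
  norm_num

lemma qq_ne : qq ≠ 0 := by
  intro h
  have h1 := nrm_qq
  rw [nrm_zero_iff.2 h] at h1
  norm_num at h1

lemma fR_dvd_qq : fR ∣ qq := by
  refine ⟨-4 * fR, ?_⟩
  unfold qq
  have h := fR_sq
  push_cast
  linear_combination 4 * h

lemma cXY_qq_mul (c : RR) : cX (qq * c) = 28 * cX c ∧ cY (qq * c) = 28 * cY c := by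
  unfold qq
  refine ⟨?_, ?_⟩
  · rw [(cXY_mul _ _).1, (cXY_int 28).1, (cXY_int 28).2]; ring
  · rw [(cXY_mul _ _).2, (cXY_int 28).1, (cXY_int 28).2]; ring

/-- `prm` is periodic modulo `28` -/
lemma prm_per {a b : RR} (h : qq ∣ a - b) (ha : prm a) : prm b := by
  obtain ⟨c, hc⟩ := h
  have e : a = b + qq * c := by rw [← hc]; ring
  have h1 := ha.x4
  have h2 := ha.y2
  rw [e, (cXY_add _ _).1, (cXY_qq_mul c).1] at h1
  rw [e, (cXY_add _ _).2, (cXY_qq_mul c).2] at h2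
  refine ⟨by omega, by omega, ?_⟩
  have h3 := ha.cop
  obtain ⟨k, hk⟩ := fR_dvd_qq
  have e2 : a = b + fR * (k * c) := by rw [e, hk]; ring
  rw [e2] at h3
  exact (IsCoprime.add_mul_left_right_iff).1 h3

lemma prm_per_iff {a b : RR} (h : qq ∣ a - b) : prm a ↔ prm b := by
  refine ⟨prm_per h, prm_per ?_⟩
  have := (dvd_neg (α := RR)).2 h
  rwa [neg_sub] at this

lemma prm_cop_qq {a : RR} (h : prm a) : IsCoprime a qq := by
  have h1 : IsCoprime a 2 := (Pool.Agent.T2h78.TW.odd_of h.x4 h.y2).symm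
  have h2 : IsCoprime a fR := h.cop.symm
  have h3 : IsCoprime a (-(2 * 2 * (fR * fR))) :=
    IsCoprime.neg_right (IsCoprime.mul_right (IsCoprime.mul_right h1 h1) (IsCoprime.mul_right h2 h2))
  have e : qq = -(2 * 2 * (fR * fR)) := by
    unfold qq
    have h := fR_sq
    push_cast
    linear_combination (4 : RR) * h
  rw [e]
  exact h3

/-- prescribed symbols -/
lemma exists_twist {S : Finset RR} (hS : ∀ ρ ∈ S, PO ρ) {π : RR} (hπ : PO π) (hπS : π ∉ S) :
    ∃ c : RR, prm c ∧ chi π c ≠ 1 ∧ chi π c ≠ 0 ∧ (∀ ρ ∈ S, chi ρ c = 1) := by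
  set m : RR := qq * ∏ ρ ∈ S, ρ with hm
  have hcop : IsCoprime π m := by
    refine IsCoprime.mul_right ?_ ?_
    · exact prm_cop_qq (pq_prm hπ)
    · rw [IsCoprime.prod_right_iff]
      intro ρ hρ
      exact pq_cop hπ (hS ρ hρ) fun h => hπS (by rw [h]; exact hρ)
  obtain ⟨b, hb0, hb⟩ := exists_nonres hπ
  obtain ⟨x, y, hxy⟩ := hcop
  set a : RR := x * π + b * (y * m) with ha
  have ha1 : m ∣ a - 1 := ⟨b * y - y, by rw [ha]; linear_combination hxy⟩
  have ha2 : π ∣ a - b := ⟨x - b * x, by rw [ha]; linear_combination b * hxy⟩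
  refine ⟨a, ?_, ?_, ?_, ?_⟩
  · exact (prm_per_iff ((dvd_mul_right _ _).trans ha1)).2 prm_one
  · rw [chi_per hπ ha2]
    exact hb
  · rw [chi_per hπ ha2]
    intro h
    exact hb0 (chi_zero_iff.1 h)
  · intro ρ hρ
    have h1 : ρ ∣ a - 1 := (Finset.dvd_prod_of_mem _ hρ).trans ((dvd_mul_left _ _).trans ha1)
    rw [chi_per (hS ρ hρ) h1, chi_one (hS ρ hρ)]

/-- the product of two symbols, on primary elements -/
noncomputable def FF2 (x x' a : RR) : ℂ := if prm a then jac x a * conj (jac x' a) else 0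

lemma FF2_norm (x x' a : RR) : ‖FF2 x x' a‖ ≤ 1 := by
  unfold FF2
  split_ifs
  · rw [norm_mul, Complex.norm_conj]
    exact mul_le_one₀ (jac_norm _ _) (norm_nonneg _) (jac_norm _ _)
  · simp

lemma FF2_symm (x x' a : RR) : FF2 x x' a = conj (FF2 x' x a) := by
  unfold FF2
  split_ifs
  · rw [map_mul, Complex.conj_conj, mul_comm]
  · simp

lemma FF2_sum_aux {x x' : RR} (hx : PS x) (hx' : PS x') {π : RR} (h1 : π ∈ PD x) (h2 : π ∉ PD x')
    (V : ℕ) : ‖∑ a ∈ ZB V, FF2 x x' a‖ ≤ 2352 * (nrm x * nrm x') * (3 * Real.sqrt V + 1) := by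
  have hq : qq * (x * x') ≠ 0 := mul_ne_zero qq_ne (mul_ne_zero hx.ne hx'.ne)
  have hπ := ((mem_PD hx.ne).1 h1).1
  have hS : ∀ ρ ∈ (PD x).erase π ∪ PD x', PO ρ := by
    intro ρ hρ
    rw [mem_union] at hρ
    rcases hρ with h | h
    · exact ((mem_PD hx.ne).1 (mem_of_mem_erase h)).1
    · exact ((mem_PD hx'.ne).1 h).1
  obtain ⟨c, hc1, hc2, hc4, hc3⟩ := exists_twist hS hπ (by
    rw [mem_union, not_or]
    exact ⟨notMem_erase _ _, h2⟩)
  have hjx : jac x c = chi π c := by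
    unfold jac
    rw [← mul_prod_erase (PD x) _ h1, prod_eq_one, mul_one]
    intro ρ hρ
    exact hc3 ρ (mem_union_left _ hρ)
  have hjx' : jac x' c = 1 := prod_eq_one fun ρ hρ => hc3 ρ (mem_union_right _ hρ)
  have hcop : IsCoprime c (qq * (x * x')) := by
    refine IsCoprime.mul_right (prm_cop_qq hc1) (IsCoprime.mul_right
      (jac_cop hx (by rw [hjx]; exact hc4)).symm
      (jac_cop hx' (by rw [hjx']; exact one_ne_zero)).symm)
  have h3 := csum hq (f := FF2 x x') ?_ (FF2_norm x x') hcop hc2 ?_ V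
  · refine h3.trans (le_of_eq ?_)
    rw [nrm_mul, nrm_mul, nrm_qq]
    push_cast
    ring
  · intro a b hab
    unfold FF2
    have e1 : qq ∣ a - b := (dvd_mul_right _ _).trans hab
    have e2 : x ∣ a - b := ((dvd_mul_right _ _).trans (dvd_mul_left _ _)).trans hab
    have e3 : x' ∣ a - b := ((dvd_mul_left _ _).trans (dvd_mul_left _ _)).trans hab
    have e4 : prm a ↔ prm b := prm_per_iff e1
    rw [jac_per hx.ne e2, jac_per hx'.ne e3]
    by_cases h : prm a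
    · rw [if_pos h, if_pos (e4.1 h)]
    · rw [if_neg h, if_neg (fun hh => h (e4.2 hh))]
  · intro a
    unfold FF2
    have e4 : prm (c * a) ↔ prm a :=
      ⟨fun h => prm_cancel hc1 h, fun h => prm_mul hc1 h⟩
    by_cases h : prm a
    · rw [if_pos h, if_pos (e4.2 h), jac_mul_right hx.ne, jac_mul_right hx'.ne, hjx, hjx']
      rw [one_mul]
      ring
    · rw [if_neg h, if_neg (fun hh => h (e4.1 hh)), mul_zero]

theorem FF2_sum {x x' : RR} (hx : PS x) (hx' : PS x') (hne : x ≠ x') (V : ℕ) :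
    ‖∑ a ∈ ZB V, FF2 x x' a‖ ≤ 2352 * (nrm x * nrm x') * (3 * Real.sqrt V + 1) := by
  have h1 : PD x ≠ PD x' := by
    intro h
    apply hne
    rw [← hx.prod, ← hx'.prod, h]
  by_cases h2 : PD x ⊆ PD x'
  · have h3 : ¬ PD x' ⊆ PD x := fun h => h1 (Subset.antisymm h2 h)
    obtain ⟨π, hπ, hπ'⟩ := not_subset.1 h3
    have := FF2_sum_aux hx' hx hπ hπ' V
    simp_rw [FF2_symm x x']
    rw [← map_sum, Complex.norm_conj, mul_comm (nrm x : ℝ)]
    exact this
  · obtain ⟨π, hπ, hπ'⟩ := not_subset.1 h2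
    exact FF2_sum_aux hx hx' hπ hπ' V

/-- the mean square -/
theorem mean_sq {γ : RR → ℂ} (hγ : ∀ x, ‖γ x‖ ≤ 1) {M N : ℕ} (hM : 1 ≤ M) (hMN : M ^ 6 ≤ N) :
    ∑ h ∈ PB N, ‖∑ x ∈ SB M, γ x * jac x h‖ ^ 2 ≤ 2408704 * (M * N) := by
  have hN : 1 ≤ N := (Nat.one_le_pow _ _ hM).trans hMN
  have hMr : (1 : ℝ) ≤ M := by exact_mod_cast hM
  have hNr : (1 : ℝ) ≤ N := by exact_mod_cast hN
  have e1 : ((∑ h ∈ PB N, ‖∑ x ∈ SB M, γ x * jac x h‖ ^ 2 : ℝ) : ℂ) =
      ∑ x ∈ SB M, ∑ x' ∈ SB M, γ x * conj (γ x') * ∑ h ∈ ZB N, FF2 x x' h := by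
    have e2 : ∀ h ∈ PB N, ((‖∑ x ∈ SB M, γ x * jac x h‖ ^ 2 : ℝ) : ℂ) =
        ∑ x ∈ SB M, ∑ x' ∈ SB M, γ x * conj (γ x') * (jac x h * conj (jac x' h)) := by
      intro h _
      rw [← Complex.normSq_eq_norm_sq, ← Complex.mul_conj, map_sum, sum_mul_sum]
      refine sum_congr rfl fun x _ => sum_congr rfl fun x' _ => ?_
      rw [map_mul]
      ring
    rw [Complex.ofReal_sum, sum_congr rfl e2, sum_comm]
    refine sum_congr rfl fun x _ => ?_
    rw [sum_comm]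
    refine sum_congr rfl fun x' _ => ?_
    rw [← mul_sum]
    congr 1
    unfold PB FF2
    rw [sum_filter]
  have e0 : ∑ h ∈ PB N, ‖∑ x ∈ SB M, γ x * jac x h‖ ^ 2 ≤
      ‖∑ x ∈ SB M, ∑ x' ∈ SB M, γ x * conj (γ x') * ∑ h ∈ ZB N, FF2 x x' h‖ := by
    rw [← e1, Complex.norm_real]
    exact le_abs_self _
  refine e0.trans ?_
  have hs : Real.sqrt N ^ 2 = N := Real.sq_sqrt (Nat.cast_nonneg N)
  have hs1 : 1 ≤ Real.sqrt N := Real.one_le_sqrt.2 hNr
  have hM3 : (M : ℝ) ^ 3 ≤ Real.sqrt N := by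
    rw [Real.le_sqrt (by positivity) (by positivity)]
    have : (M : ℝ) ^ 6 ≤ N := by exact_mod_cast hMN
    have e : ((M : ℝ) ^ 3) ^ 2 = (M : ℝ) ^ 6 := by ring
    rw [e]
    exact this
  have hterm : ∀ x ∈ SB M, ∀ x' ∈ SB M, ‖γ x * conj (γ x') * ∑ h ∈ ZB N, FF2 x x' h‖ ≤
      (if x = x' then 16 * (N : ℝ) else 0) + 2352 * ((M : ℝ) * M) * (3 * Real.sqrt N + 1) := by
    intro x hx x' hx'
    have hg : ‖γ x * conj (γ x')‖ ≤ 1 := by
      rw [norm_mul, Complex.norm_conj]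
      exact mul_le_one₀ (hγ _) (norm_nonneg _) (hγ _)
    have h1 : ‖γ x * conj (γ x') * ∑ h ∈ ZB N, FF2 x x' h‖ ≤ ‖∑ h ∈ ZB N, FF2 x x' h‖ := by
      rw [norm_mul]
      exact mul_le_of_le_one_left (norm_nonneg _) hg
    refine h1.trans ?_
    have hpos : (0 : ℝ) ≤ 2352 * ((M : ℝ) * M) * (3 * Real.sqrt N + 1) := by positivity
    by_cases hxx : x = x'
    · rw [if_pos hxx]
      refine le_trans ?_ (le_add_of_nonneg_right hpos)
      refine (norm_sum_le _ _).trans ((sum_le_sum fun h _ => FF2_norm _ _ _).trans ?_)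
      rw [sum_const, nsmul_eq_mul, mul_one]
      exact card_ZB_le hN
    · rw [if_neg hxx, zero_add]
      refine (FF2_sum (mem_SB.1 hx).2 (mem_SB.1 hx').2 hxx N).trans ?_
      have a1 : (nrm x : ℝ) ≤ M := by exact_mod_cast (mem_SB.1 hx).1
      have a2 : (nrm x' : ℝ) ≤ M := by exact_mod_cast (mem_SB.1 hx').1
      have a3 : (nrm x : ℝ) * nrm x' ≤ M * M := mul_le_mul a1 a2 (Nat.cast_nonneg _) (by positivity)
      gcongr
  refine ((norm_sum_le _ _).trans (sum_le_sum fun x hx => (norm_sum_le _ _).trans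
    (sum_le_sum fun x' hx' => hterm x hx x' hx'))).trans ?_
  have hc := card_SB_le hM
  have e3 : ∑ x ∈ SB M, ∑ x' ∈ SB M, ((if x = x' then 16 * (N : ℝ) else 0) +
      2352 * ((M : ℝ) * M) * (3 * Real.sqrt N + 1)) =
      (SB M).card * (16 * N) + (SB M).card * ((SB M).card * (2352 * ((M : ℝ) * M) * (3 * Real.sqrt N + 1))) := by
    simp_rw [sum_add_distrib, sum_const, nsmul_eq_mul]
    congr 1
    rw [sum_congr rfl (fun x hx => by rw [sum_ite_eq, if_pos hx])]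
    rw [sum_const, nsmul_eq_mul]
  rw [e3]
  have hc0 : (0 : ℝ) ≤ (SB M).card := Nat.cast_nonneg _
  have h4 : ((SB M).card : ℝ) * (SB M).card ≤ (16 * M) * (16 * M) := mul_le_mul hc hc hc0 (by positivity)
  have h5 : (M : ℝ) ^ 3 * (3 * Real.sqrt N + 1) ≤ 4 * N := by
    calc (M : ℝ) ^ 3 * (3 * Real.sqrt N + 1) ≤ Real.sqrt N * (4 * Real.sqrt N) := by
          apply mul_le_mul hM3 _ (by positivity) (by positivity)
          linarith
      _ = 4 * N := by nlinarith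
  calc (SB M).card * (16 * (N : ℝ)) + (SB M).card * ((SB M).card * (2352 * ((M : ℝ) * M) * (3 * Real.sqrt N + 1)))
      ≤ (16 * M) * (16 * N) + (16 * M) * (16 * M) * (2352 * ((M : ℝ) * M) * (3 * Real.sqrt N + 1)) := by
        rw [← mul_assoc ((SB M).card : ℝ) ((SB M).card : ℝ)]
        gcongr
    _ = 256 * (M * N) + 602112 * (M * ((M : ℝ) ^ 3 * (3 * Real.sqrt N + 1))) := by ring
    _ ≤ 256 * (M * N) + 602112 * (M * (4 * N)) := by gcongr
    _ = 2408704 * (M * N) := by ring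

end JSx

theorem t_JSUM : S_JSUM :=
  ⟨2408704, by norm_num, fun _ hγ _ _ hM hMN => JSx.mean_sq hγ hM hMN⟩

end Pool.Agent.T2h16.KD
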