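import Pool.Agent.T2h16.KD.Stm

/-!
# KD-KEY: the sum over the boxes (after `Pool/Agent/Y696/XL/{Key,Key2,Key3}.lean`)

The label of a large prime `π` is `2 * bl H π + te π`.
-/

set_option autoImplicit false
set_option linter.unusedVariables false

open scoped Classical

namespace Pool.Agent.T2h16.KD.KY

open Finset
open Pool.Agent.Y698 hiding zz
open Pool.Agent.Y698.SG
open Pool.Agent.T2h78.TW (PO te sl)
open Pool.Agent.Y703.CX (jj XX)
open Pool.Agent.Y703.CQ (sg)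
open Pool.Agent.T2h16.KD

theorem le_XX {H p : ℕ} (hH : 1 ≤ H) (hp : 1 ≤ p) : p ≤ XX H (jj H p) := by
  unfold XX
  apply Nat.le_floor
  have hp0 : (0 : ℝ) < p := by exact_mod_cast hp
  have hH0 : (0 : ℝ) < H := by exact_mod_cast hH
  refine (Real.exp_log hp0).symm.le.trans (Real.exp_le_exp.2 ?_)
  rw [le_div_iff₀ hH0]
  have h1 := Nat.lt_floor_add_one ((H : ℝ) * Real.log p)
  unfold jj
  linarith

theorem fcc {α : Type} {s : Finset α} {p q : α → Prop} {i1 : DecidablePred p}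
    {i2 : DecidablePred q} (h : ∀ x ∈ s, (p x ↔ q x)) :
    (@Finset.filter α p i1 s).card = (@Finset.filter α q i2 s).card := by
  congr 1
  ext x
  rw [Finset.mem_filter, Finset.mem_filter]
  exact and_congr_right fun hx => h x hx

theorem card_sub {α : Type} (U : Finset α) (K : ℕ) :
    (U.powerset.filter fun J => J.card ≤ K).card ≤ (U.card + 1) ^ K := by
  induction K with
  | zero =>
    have : U.powerset.filter (fun J => J.card ≤ 0) ⊆ {∅} := by
      intro J hJ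
      rw [Finset.mem_filter, Nat.le_zero, Finset.card_eq_zero] at hJ
      rw [hJ.2]
      exact Finset.mem_singleton_self _
    exact Finset.card_le_card this
  | succ K ih =>
    set P := U.powerset.filter fun J => J.card ≤ K with hP
    have h1 : U.powerset.filter (fun J => J.card ≤ K + 1) ⊆
        P ∪ (U ×ˢ P).image fun t => insert t.1 t.2 := by
      intro J hJ
      rw [Finset.mem_filter, Finset.mem_powerset] at hJ
      rw [Finset.mem_union]
      rcases J.eq_empty_or_nonempty with h | ⟨x, hx⟩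
      · left
        rw [hP, Finset.mem_filter, Finset.mem_powerset, h]
        exact ⟨Finset.empty_subset _, by simp⟩
      · right
        rw [Finset.mem_image]
        refine ⟨(x, J.erase x), ?_, Finset.insert_erase hx⟩
        rw [Finset.mem_product, hP, Finset.mem_filter, Finset.mem_powerset]
        refine ⟨hJ.1 hx, (Finset.erase_subset _ _).trans hJ.1, ?_⟩
        rw [Finset.card_erase_of_mem hx]
        omega
    refine (Finset.card_le_card h1).trans ((Finset.card_union_le _ _).trans ?_)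
    have h2 : ((U ×ˢ P).image fun t => insert t.1 t.2).card ≤ U.card * P.card := by
      refine Finset.card_image_le.trans ?_
      rw [Finset.card_product]
    rw [pow_succ]
    nlinarith

theorem nrm_one_le {π : RR} (h : PO π) : 1 ≤ nrm π := nrm_pos' (pq_ne h)

theorem mem_SS {X : ℕ} {S : Finset RR} : S ∈ SS X ↔ Cl S ∧ ∏ π ∈ S, nrm π ≤ X := by
  unfold SS
  rw [Finset.mem_filter, Finset.mem_powerset]
  constructor
  · exact fun h => h.2
  · intro h
    refine ⟨fun p hp => ?_, h⟩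
    rw [mem_QB]
    have h1 : nrm p ≤ ∏ q ∈ S, nrm q :=
      Finset.single_le_prod' (f := fun q => nrm q) (fun q hq => nrm_one_le (h.1.1 q hq)) hp
    exact ⟨h1.trans h.2, h.1.1 p hp⟩

/-- the label of a large prime -/
noncomputable def ph (H : ℕ) (π : RR) : ℕ := 2 * bl H π + (te π).val

theorem ph_div (H : ℕ) (π : RR) : ph H π / 2 = bl H π := by
  have h : (te π).val < 2 := ZMod.val_lt _
  unfold ph; omega

theorem ph_cast (H : ℕ) (π : RR) : ((ph H π : ℕ) : ZMod 2) = te π := by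
  unfold ph
  have h2 : ((2 : ℕ) : ZMod 2) = 0 := by decide
  rw [Nat.cast_add, Nat.cast_mul, h2, zero_mul, zero_add]
  exact ZMod.natCast_zmod_val _

/-- the key of a set -/
noncomputable def ky (z H : ℕ) (S : Finset RR) : Finset RR × Finset ℕ :=
  (sm z S, (la z S).image (ph H))

/-- the primes of a block -/
noncomputable def CC (z H k : ℕ) : Finset RR :=
  (QB (XX H (k / 2))).filter fun π => z < nrm π ∧ ph H π = k

theorem mem_CC {z H : ℕ} (hH : 1 ≤ H) {k : ℕ} {π : RR} :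
    π ∈ CC z H k ↔ PO π ∧ z < nrm π ∧ ph H π = k := by
  unfold CC
  rw [Finset.mem_filter, mem_QB]
  constructor
  · exact fun h => ⟨h.1.2, h.2⟩
  · intro h
    refine ⟨⟨?_, h.1⟩, h.2⟩
    have := le_XX hH (nrm_one_le h.1)
    have h1 : jj H (nrm π) = k / 2 := by rw [← h.2.2, ph_div]; rfl
    rwa [h1] at this

/-- the conditions on a key -/
def Cd (X K V H : ℕ) (S₀ : Finset RR) (J : Finset ℕ) : Prop :=
  (∑ π ∈ S₀, te π + ∑ i ∈ J, (i : ZMod 2) = 0) ∧
  S₀.card + J.card ≤ K ∧ (∏ π ∈ S₀, nrm π) * ∏ i ∈ J, XX H (i / 2) ≤ X ∧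
  2 * S₀.card + (V ^ 2 + 10) ≤ (J.filter fun i => ((i : ℕ) : ZMod 2) = 1).card

theorem sm_union (z : ℕ) (S : Finset RR) : sm z S ∪ la z S = S := by
  unfold sm la
  exact Finset.filter_union_filter_not_eq _ _

theorem sm_disj (z : ℕ) (S : Finset RR) : Disjoint (sm z S) (la z S) := by
  unfold sm la
  exact Finset.disjoint_filter_filter_not _ _ _

theorem prod_split (z : ℕ) (S : Finset RR) (f : RR → ℕ) :
    ∏ p ∈ S, f p = (∏ p ∈ sm z S, f p) * ∏ p ∈ la z S, f p := by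
  conv_lhs => rw [← sm_union z S]
  exact Finset.prod_union (sm_disj z S)

theorem sum_split (z : ℕ) (S : Finset RR) (f : RR → ZMod 2) :
    ∑ p ∈ S, f p = (∑ p ∈ sm z S, f p) + ∑ p ∈ la z S, f p := by
  conv_lhs => rw [← sm_union z S]
  exact Finset.sum_union (sm_disj z S)

theorem ph_inj {H : ℕ} {L : Finset RR} (h : Set.InjOn (bl H) (L : Set RR)) :
    Set.InjOn (ph H) (L : Set RR) := fun a ha b hb hab => h ha hb (by
  rw [← ph_div, ← ph_div, hab])

theorem mem_RS {X z H K V : ℕ} (hH : 1 ≤ H) {S : Finset RR} :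
    S ∈ RS X z H K V ↔ (∀ p ∈ S, PO p) ∧ Set.InjOn (bl H) (la z S : Set RR) ∧
      Cd X K V H (ky z H S).1 (ky z H S).2 := by
  unfold RS
  rw [Finset.mem_filter, mem_SS]
  have hk1 : (ky z H S).1 = sm z S := rfl
  have hk2 : (ky z H S).2 = (la z S).image (ph H) := rfl
  rw [hk1, hk2]
  have key : Set.InjOn (bl H) (la z S : Set RR) →
      ((∑ p ∈ S, te p) =
        (∑ p ∈ sm z S, te p) + ∑ i ∈ (la z S).image (ph H), (i : ZMod 2)) ∧
      (S.card = (sm z S).card + ((la z S).image (ph H)).card) ∧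
      (∏ i ∈ (la z S).image (ph H), XX H (i / 2) = ∏ p ∈ la z S, XX H (bl H p)) ∧
      ((((la z S).image (ph H)).filter fun i => ((i : ℕ) : ZMod 2) = 1).card = nt z S) := by
    intro h
    have hi := ph_inj h
    refine ⟨?_, ?_, ?_, ?_⟩
    · rw [sum_split z S, Finset.sum_image (f := fun i : ℕ => (i : ZMod 2))
        (fun a ha b hb hab => hi ha hb hab)]
      congr 1
      exact Finset.sum_congr rfl fun p _ => (ph_cast H p).symm
    · rw [Finset.card_image_of_injOn hi, ← Finset.card_union_of_disjoint (sm_disj z S),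
        sm_union]
    · rw [Finset.prod_image (f := fun i : ℕ => XX H (i / 2))
        (fun a ha b hb hab => hi ha hb hab)]
      exact Finset.prod_congr rfl fun p _ => by rw [ph_div]
    · unfold nt
      rw [Finset.filter_image, Finset.card_image_of_injOn]
      · exact fcc fun p _ => by rw [ph_cast]
      · intro a ha b hb hab
        exact hi (Finset.mem_coe.2 (Finset.mem_filter.1 (Finset.mem_coe.1 ha)).1)
          (Finset.mem_coe.2 (Finset.mem_filter.1 (Finset.mem_coe.1 hb)).1) hab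
  unfold Cl Cd
  constructor
  · rintro ⟨⟨⟨h1, h2⟩, h5⟩, h6, h7, h8, h9⟩
    obtain ⟨k2, k3, k4, k5⟩ := key h6
    refine ⟨h1, h6, ?_, ?_, ?_, ?_⟩
    · rw [← k2]; exact h2
    · rw [← k3]; exact h7
    · rw [k4]; exact h8
    · rw [k5]; exact h9
  · rintro ⟨h1, h6, h2, h7, h8, h9⟩
    obtain ⟨k2, k3, k4, k5⟩ := key h6
    rw [← k2] at h2
    rw [← k3] at h7
    rw [k4] at h8
    rw [k5] at h9
    refine ⟨⟨⟨h1, h2⟩, ?_⟩, h6, h7, h8, h9⟩
    refine le_trans ?_ h8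
    rw [prod_split z S]
    apply Nat.mul_le_mul_left
    exact Finset.prod_le_prod' fun p hp =>
      le_XX hH (nrm_one_le (h1 p (Finset.mem_filter.1 hp).1))

section fill
variable {z H : ℕ} {S₀ : Finset RR} {J : Finset ℕ} {p : J → RR}

theorem sm_fill (hH : 1 ≤ H) (h₀ : ∀ q ∈ S₀, nrm q ≤ z) (hp : ∀ i : J, p i ∈ CC z H i) :
    sm z (S₀ ∪ univ.image p) = S₀ := by
  ext q
  unfold sm
  rw [Finset.mem_filter, Finset.mem_union, Finset.mem_image]
  constructor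
  · rintro ⟨h | ⟨i, -, rfl⟩, h2⟩
    · exact h
    · have := ((mem_CC hH).1 (hp i)).2.1
      omega
  · exact fun h => ⟨Or.inl h, h₀ q h⟩

theorem la_fill (hH : 1 ≤ H) (h₀ : ∀ q ∈ S₀, nrm q ≤ z) (hp : ∀ i : J, p i ∈ CC z H i) :
    la z (S₀ ∪ univ.image p) = univ.image p := by
  ext q
  unfold la
  rw [Finset.mem_filter, Finset.mem_union, Finset.mem_image]
  constructor
  · rintro ⟨h | h, h2⟩
    · exact absurd (h₀ q h) h2
    · exact h
  · rintro ⟨i, -, rfl⟩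
    have := ((mem_CC hH).1 (hp i)).2.1
    exact ⟨Or.inr ⟨i, Finset.mem_univ _, rfl⟩, by omega⟩

theorem ph_fill (hH : 1 ≤ H) (hp : ∀ i : J, p i ∈ CC z H i) :
    (univ.image p).image (ph H) = J := by
  ext k
  rw [Finset.mem_image]
  constructor
  · rintro ⟨q, hq, rfl⟩
    rw [Finset.mem_image] at hq
    obtain ⟨i, -, rfl⟩ := hq
    rw [((mem_CC hH).1 (hp i)).2.2]
    exact i.2
  · intro hk
    exact ⟨p ⟨k, hk⟩, Finset.mem_image_of_mem _ (Finset.mem_univ _),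
      ((mem_CC hH).1 (hp ⟨k, hk⟩)).2.2⟩

theorem ky_fill (hH : 1 ≤ H) (h₀ : ∀ q ∈ S₀, nrm q ≤ z) (hp : ∀ i : J, p i ∈ CC z H i) :
    ky z H (S₀ ∪ univ.image p) = (S₀, J) := by
  unfold ky
  rw [sm_fill hH h₀ hp, la_fill hH h₀ hp, ph_fill hH hp]

end fill

/-- the facts on the key of a regular set -/
theorem key_facts {X z H K V : ℕ} (hH : 1 ≤ H) {S₀ : Finset RR} {J : Finset ℕ}
    (hkey : (S₀, J) ∈ (RS X z H K V).image (ky z H)) :
    (∀ q ∈ S₀, PO q) ∧ (∀ q ∈ S₀, nrm q ≤ z) ∧ Set.InjOn (fun i : ℕ => i / 2) (J : Set ℕ) ∧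
      Cd X K V H S₀ J ∧ (∀ i ∈ J, z ≤ XX H (i / 2) ∧
        ∃ q : RR, PO q ∧ z < nrm q ∧ nrm q ≤ X ∧ ph H q = i) := by
  rw [Finset.mem_image] at hkey
  obtain ⟨W, hW, hWk⟩ := hkey
  have hWX : ∏ p ∈ W, nrm p ≤ X := by
    unfold RS at hW
    rw [Finset.mem_filter, mem_SS] at hW
    exact hW.1.2
  rw [mem_RS hH, hWk] at hW
  obtain ⟨h1, h2, h3⟩ := hW
  have hS₀ : sm z W = S₀ := congrArg Prod.fst hWk
  have hJ : (la z W).image (ph H) = J := congrArg Prod.snd hWk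
  refine ⟨?_, ?_, ?_, h3, ?_⟩
  · intro q hq
    rw [← hS₀] at hq
    exact h1 q (Finset.mem_filter.1 hq).1
  · intro q hq
    rw [← hS₀] at hq
    exact (Finset.mem_filter.1 hq).2
  · intro a ha b hb hab
    rw [Finset.mem_coe, ← hJ, Finset.mem_image] at ha hb
    obtain ⟨x, hx, rfl⟩ := ha
    obtain ⟨y, hy, rfl⟩ := hb
    simp only [ph_div] at hab
    have h4 : x = y := h2 (Finset.mem_coe.2 hx) (Finset.mem_coe.2 hy) hab
    rw [h4]
  · intro i hi
    rw [← hJ, Finset.mem_image] at hi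
    obtain ⟨q, hq, rfl⟩ := hi
    have hqW := (Finset.mem_filter.1 hq).1
    have hqz := (Finset.mem_filter.1 hq).2
    have hqp := h1 q hqW
    have hqX : nrm q ≤ X := (Finset.single_le_prod' (f := fun q => nrm q)
      (fun q hq => nrm_one_le (h1 q hq)) hqW).trans hWX
    refine ⟨?_, q, hqp, by omega, hqX, rfl⟩
    rw [ph_div]
    have h5 : nrm q ≤ XX H (bl H q) := le_XX hH (nrm_one_le hqp)
    omega

theorem key_bij {X z H K V : ℕ} (hH : 1 ≤ H) {S₀ : Finset RR} {J : Finset ℕ}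
    (hkey : (S₀, J) ∈ (RS X z H K V).image (ky z H)) (P : Finset RR → Prop) :
    ((Fintype.piFinset fun i : J => CC z H i).filter fun p => P (S₀ ∪ univ.image p)).card =
      ((RS X z H K V).filter fun S => ky z H S = (S₀, J) ∧ P S).card := by
  obtain ⟨h₀O, h₀, hJi, hCd, hJf⟩ := key_facts hH hkey
  apply Finset.card_bij (fun (p : J → RR) _ => S₀ ∪ univ.image p)
  · intro p hp
    rw [Finset.mem_filter, Fintype.mem_piFinset] at hp
    obtain ⟨hp, hP⟩ := hp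
    have hk := ky_fill hH h₀ hp
    rw [Finset.mem_filter]
    refine ⟨?_, hk, hP⟩
    rw [mem_RS hH, hk]
    refine ⟨?_, ?_, hCd⟩
    · intro q hq
      rw [Finset.mem_union, Finset.mem_image] at hq
      rcases hq with hq | ⟨i, -, rfl⟩
      · exact h₀O q hq
      · exact ((mem_CC hH).1 (hp i)).1
    · rw [la_fill hH h₀ hp]
      intro a ha b hb hab
      rw [Finset.mem_coe, Finset.mem_image] at ha hb
      obtain ⟨i, -, rfl⟩ := ha
      obtain ⟨j, -, rfl⟩ := hb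
      have h1 := ((mem_CC hH).1 (hp i)).2.2
      have h2 := ((mem_CC hH).1 (hp j)).2.2
      have h3 : i.1 / 2 = j.1 / 2 := by
        rw [← h1, ← h2, ph_div, ph_div]
        exact hab
      have h4 : i = j := Subtype.ext (hJi (Finset.mem_coe.2 i.2) (Finset.mem_coe.2 j.2) h3)
      rw [h4]
  · intro p hp p' hp' h
    rw [Finset.mem_filter, Fintype.mem_piFinset] at hp hp'
    have h1 := la_fill hH h₀ hp.1
    rw [h, la_fill hH h₀ hp'.1] at h1
    funext i
    have h2 : p i ∈ univ.image p' := by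
      rw [h1]
      exact Finset.mem_image_of_mem _ (Finset.mem_univ _)
    rw [Finset.mem_image] at h2
    obtain ⟨j, -, hj⟩ := h2
    have h3 := ((mem_CC hH).1 (hp.1 i)).2.2
    have h4 := ((mem_CC hH).1 (hp'.1 j)).2.2
    rw [hj, h3] at h4
    rw [← hj, Subtype.ext h4]
  · intro S hS
    rw [Finset.mem_filter] at hS
    obtain ⟨hSR, hSk, hSP⟩ := hS
    rw [mem_RS hH] at hSR
    obtain ⟨hSO, hSI, -⟩ := hSR
    have hk1 : sm z S = S₀ := congrArg Prod.fst hSk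
    have hk2 : (la z S).image (ph H) = J := congrArg Prod.snd hSk
    have hex : ∀ i : J, ∃ q ∈ la z S, ph H q = i := by
      rintro ⟨i, hi⟩
      rw [← hk2, Finset.mem_image] at hi
      exact hi
    choose p hp1 hp2 using hex
    have him : univ.image p = la z S := by
      ext q
      rw [Finset.mem_image]
      constructor
      · rintro ⟨i, -, rfl⟩
        exact hp1 i
      · intro hq
        have hjq : ph H q ∈ J := by
          rw [← hk2]
          exact Finset.mem_image_of_mem _ hq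
        exact ⟨⟨ph H q, hjq⟩, Finset.mem_univ _, ph_inj hSI (Finset.mem_coe.2 (hp1 _))
          (Finset.mem_coe.2 hq) (hp2 ⟨ph H q, hjq⟩)⟩
    have hSe : S₀ ∪ univ.image p = S := by rw [him, ← hk1, sm_union]
    refine ⟨p, ?_, hSe⟩
    rw [Finset.mem_filter, Fintype.mem_piFinset, hSe]
    refine ⟨fun i => (mem_CC hH).2 ⟨hSO _ (Finset.mem_filter.1 (hp1 i)).1,
      not_le.1 (Finset.mem_filter.1 (hp1 i)).2, hp2 i⟩, hSP⟩

theorem root_le24 {x y C κ : ℝ} {z : ℕ} (hx : 0 ≤ x) (hy : 0 ≤ y) (hκ : 0 ≤ κ) (hz : 1 ≤ z)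
    (h : x ^ 24 * z ≤ C * y ^ 24) (hκz : C ≤ κ ^ 24 * z) : x ≤ κ * y := by
  have hz0 : (0 : ℝ) < z := by exact_mod_cast hz
  have h1 : x ^ 24 * z ≤ (κ * y) ^ 24 * z := by
    calc x ^ 24 * z ≤ C * y ^ 24 := h
      _ ≤ (κ ^ 24 * z) * y ^ 24 := by gcongr
      _ = (κ * y) ^ 24 * z := by ring
  have h2 : x ^ 24 ≤ (κ * y) ^ 24 := le_of_mul_le_mul_right h1 hz0
  exact le_of_pow_le_pow_left₀ (by norm_num) (by positivity) h2

/-- the bilinear bound -/
def Bil (C₁ : ℝ) : Prop := ∀ (P Q : Finset RR) (A B z : ℕ) (c d : RR → ℂ),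
  (∀ π ∈ P, PO π ∧ nrm π ≤ A) → (∀ ρ ∈ Q, PO ρ ∧ nrm ρ ≤ B) → Disjoint P Q →
  1 ≤ z → z ≤ A → z ≤ B → (∀ π, ‖c π‖ ≤ 1) → (∀ ρ, ‖d ρ‖ ≤ 1) →
  ‖∑ π ∈ P, ∑ ρ ∈ Q, c π * d ρ * sg (cs π ρ)‖ ^ 24 * z ≤ C₁ * ((A : ℝ) * B) ^ 24

theorem hb_box {C₁ : ℝ} (hb1 : Bil C₁)
    {ι : Type} (D : ι → Finset RR) (X : ι → ℕ) {z : ℕ} {κ : ℝ}
    (hz : 1 ≤ z) (hκ : 0 ≤ κ) (h1 : C₁ ≤ κ ^ 24 * z)
    (hX : ∀ i, z ≤ X i) (hD : ∀ i, ∀ π ∈ D i, PO π ∧ nrm π ≤ X i)
    (hdis : ∀ i l, i ≠ l → Disjoint (D i) (D l)) :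
    HB D X κ := by
  intro i l hil c d hc hd
  have h := root_le24 (norm_nonneg _) (by positivity) hκ hz (hb1 (D i) (D l) (X i) (X l) z c d
    (hD i) (hD l) (hdis i l hil) hz (hX i) (hX l) hc hd) h1
  exact h

theorem card_QB_le {V : ℕ} (hV : 1 ≤ V) : (QB V).card ≤ 16 * V := by
  have h2 : (QB V).card ≤ (ZB V).card := Finset.card_le_card (Finset.filter_subset _ _)
  have h3 := card_ZB_le hV
  have h4 : ((QB V).card : ℝ) ≤ 16 * V := le_trans (by exact_mod_cast h2) h3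
  exact_mod_cast h4

/-- the statement for the boxes -/
def BX : Prop := ∀ (ι : Type) [Fintype ι] [LinearOrder ι] (t : ι → ZMod 2)
  (C : ι → Finset RR) (X : ι → ℕ) (κ : ℝ) (S₀ : Finset RR) (V : ℕ), 0 ≤ κ →
  (∀ i, (C i).card ≤ X i) → HB C X κ → (∀ u ∈ S₀, PO u) →
  (∀ i, ∀ π ∈ C i, PO π ∧ π ∉ S₀ ∧ te π = t i) →
  (∀ i l, i ≠ l → Disjoint (C i) (C l)) → ∑ u ∈ S₀, te u + ∑ i, t i = 0 →
  2 * S₀.card + (V ^ 2 + 10) ≤ (univ.filter fun i => t i = 1).card →
  |(((Fintype.piFinset C).filter fun p => Nd S₀ (univ.image p) ∧ Gd (S₀ ∪ univ.image p)).card : ℝ) -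
      eta * (((Fintype.piFinset C).filter fun p => Nd S₀ (univ.image p)).card : ℝ)| ≤
    8 * (1 / 2 : ℝ) ^ V * (((Fintype.piFinset C).filter fun p => Nd S₀ (univ.image p)).card : ℝ) +
    2 ^ ((S₀.card + 1) * Fintype.card ι + (prs ι).card) * (κ * ∏ j, (X j : ℝ))

/-- the statement for the boxes with the decidability of equality as a variable -/
theorem box_dec (hB : BX) (ι : Type) [Fintype ι]
    [inst : DecidableEq ι]
    (lo : LinearOrder ι) (t : ι → ZMod 2) (C : ι → Finset RR) (X : ι → ℕ) (κ : ℝ)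
    (S₀ : Finset RR) (V : ℕ) (h1 : 0 ≤ κ)
    (h2 : ∀ i, (C i).card ≤ X i) (h3 : HB C X κ) (h4 : ∀ u ∈ S₀, PO u)
    (h5 : ∀ i, ∀ π ∈ C i, PO π ∧ π ∉ S₀ ∧ te π = t i) (h6 : ∀ i l, i ≠ l → Disjoint (C i) (C l))
    (h7 : ∑ u ∈ S₀, te u + ∑ i, t i = 0)
    (h8 : 2 * S₀.card + (V ^ 2 + 10) ≤ (univ.filter fun i => t i = 1).card) :
    |(((Fintype.piFinset C).filter fun p => Nd S₀ (univ.image p) ∧
        Gd (S₀ ∪ univ.image p)).card : ℝ) -
      eta * (((Fintype.piFinset C).filter fun p => Nd S₀ (univ.image p)).card : ℝ)| ≤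
    8 * (1 / 2 : ℝ) ^ V *
      (((Fintype.piFinset C).filter fun p => Nd S₀ (univ.image p)).card : ℝ) +
    2 ^ ((S₀.card + 1) * Fintype.card ι + (prs ι).card) * (κ * ∏ j, (X j : ℝ)) := by
  have h := hB ι t C X κ S₀ V h1 h2 h3 h4 h5 h6 h7 h8
  have e : inst = fun a b => lo.toDecidableEq a b := Subsingleton.elim _ _
  subst e
  exact h

theorem prs_card (ι : Type) [Fintype ι] [LinearOrder ι] :
    (prs ι).card ≤ Fintype.card ι * Fintype.card ι := by
  refine (Finset.card_le_card (Finset.subset_univ _)).trans ?_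
  rw [Finset.card_univ, Fintype.card_prod]

theorem per_key (hB : BX) {C₁ : ℝ} (hb1 : Bil C₁)
    {X z H k V : ℕ} {κ : ℝ} (hH : 1 ≤ H) (hz : 1 ≤ z) (hκ : 0 ≤ κ)
    (h1 : C₁ ≤ κ ^ 24 * z) {S₀ : Finset RR} {J : Finset ℕ}
    (hkey : (S₀, J) ∈ (RS X z H k V).image (ky z H)) :
    |(((RS X z H k V).filter fun S => ky z H S = (S₀, J) ∧
        (Nd (sm z S) (la z S) ∧ Gd S)).card : ℝ) -
      eta * (((RS X z H k V).filter fun S => ky z H S = (S₀, J) ∧
        Nd (sm z S) (la z S)).card : ℝ)| ≤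
    8 * (1 / 2 : ℝ) ^ V * (((RS X z H k V).filter fun S => ky z H S = (S₀, J) ∧ True).card : ℝ) +
      (3 ^ (9 * k ^ 2) * κ) * (X * (1 / ((∏ p ∈ S₀, nrm p : ℕ) : ℝ))) := by
  obtain ⟨h₀O, h₀, hJi, hCd, hJf⟩ := key_facts hH hkey
  obtain ⟨c1, c4, c5, c6⟩ := hCd
  have hcJ : Fintype.card J = J.card := Fintype.card_coe J
  have hCmem : ∀ i : J, ∀ p ∈ CC z H i, PO p ∧ z < nrm p ∧ nrm p ≤ XX H (i.1 / 2) := by
    intro i p hp
    obtain ⟨k1, k2, k3⟩ := (mem_CC hH).1 hp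
    refine ⟨k1, k2, ?_⟩
    unfold CC at hp
    rw [Finset.mem_filter, mem_QB] at hp
    exact hp.1.1
  have hdis : ∀ i l : J, i ≠ l → Disjoint (CC z H (i : ℕ)) (CC z H (l : ℕ)) := by
    intro i l hil
    rw [Finset.disjoint_left]
    intro p hp hp'
    have h5 := ((mem_CC hH).1 hp).2.2
    have h6 := ((mem_CC hH).1 hp').2.2
    exact hil (Subtype.ext (h5.symm.trans h6))
  have hzX : ∀ i : J, z ≤ XX H (i.1 / 2) := fun i => (hJf i i.2).1
  have hHB : HB (fun i : J => CC z H i) (fun i : J => 16 * XX H (i.1 / 2)) κ :=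
    hb_box hb1 _ _ hz hκ h1 (fun i => by have := hzX i; omega)
      (fun i p hp => by
        obtain ⟨k1, k2, k3⟩ := hCmem i p hp
        exact ⟨k1, by omega⟩) hdis
  have hcard : ∀ i : J, (CC z H (i : ℕ)).card ≤ 16 * XX H (i.1 / 2) := by
    intro i
    refine (Finset.card_filter_le _ _).trans (card_QB_le ?_)
    have := hzX i
    omega
  have hsum : ∑ u ∈ S₀, te u + ∑ i : J, ((i.1 : ℕ) : ZMod 2) = 0 := by
    rw [Finset.sum_coe_sort J (fun i : ℕ => (i : ZMod 2))]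
    exact c1
  have hfil : (univ.filter fun i : J => ((i.1 : ℕ) : ZMod 2) = 1).card =
      (J.filter fun i => ((i : ℕ) : ZMod 2) = 1).card := by
    rw [Finset.card_filter, Finset.card_filter,
      Finset.sum_coe_sort J (fun i : ℕ => if (i : ZMod 2) = 1 then 1 else 0)]
  have hbox := box_dec hB J inferInstance (fun i : J => ((i.1 : ℕ) : ZMod 2))
    (fun i : J => CC z H i)
    (fun i : J => 16 * XX H (i.1 / 2)) κ S₀ V hκ hcard hHB h₀O (fun i p hp => by
      obtain ⟨k1, k2, k3⟩ := hCmem i p hp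
      refine ⟨k1, fun h => ?_, ?_⟩
      · have := h₀ p h
        omega
      · rw [← ph_cast H p, ((mem_CC hH).1 hp).2.2]) hdis hsum
      (by rw [hfil]; exact c6)
  have e1 : (((Fintype.piFinset fun i : J => CC z H i).filter
      fun p => Nd S₀ (univ.image p) ∧ Gd (S₀ ∪ univ.image p)).card) =
      ((RS X z H k V).filter fun S => ky z H S = (S₀, J) ∧
        (Nd (sm z S) (la z S) ∧ Gd S)).card := by
    refine Eq.trans (fcc ?_) ((key_bij hH hkey (fun S => Nd (sm z S) (la z S) ∧ Gd S)).trans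
      (fcc fun _ _ => Iff.rfl))
    intro p hp
    rw [Fintype.mem_piFinset] at hp
    rw [sm_fill hH h₀ hp, la_fill hH h₀ hp]
  have e2 : (((Fintype.piFinset fun i : J => CC z H i).filter
      fun p => Nd S₀ (univ.image p)).card) =
      ((RS X z H k V).filter fun S => ky z H S = (S₀, J) ∧ Nd (sm z S) (la z S)).card := by
    refine Eq.trans (fcc ?_) ((key_bij hH hkey (fun S => Nd (sm z S) (la z S))).trans
      (fcc fun _ _ => Iff.rfl))
    intro p hp
    rw [Fintype.mem_piFinset] at hp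
    rw [sm_fill hH h₀ hp, la_fill hH h₀ hp]
  rw [← e1, ← e2]
  have e3 : (((Fintype.piFinset fun i : J => CC z H i).filter
      fun p => Nd S₀ (univ.image p)).card : ℝ) ≤
      (((RS X z H k V).filter fun S => ky z H S = (S₀, J) ∧ True).card : ℝ) := by
    rw [e2]
    have : (RS X z H k V).filter (fun S => ky z H S = (S₀, J) ∧ Nd (sm z S) (la z S)) ⊆
        (RS X z H k V).filter fun S => ky z H S = (S₀, J) ∧ True := by
      intro S hS
      rw [Finset.mem_filter] at hS ⊢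
      exact ⟨hS.1, hS.2.1, trivial⟩
    exact_mod_cast Finset.card_le_card this
  refine hbox.trans ?_
  have hJK : J.card ≤ k := by omega
  have hSK : S₀.card ≤ k := by omega
  obtain ⟨m, hm⟩ : ∃ m : ℕ, m = (prs J).card := ⟨_, rfl⟩
  have hpr : m ≤ k * k := by
    rw [hm]
    refine (prs_card J).trans ?_
    rw [hcJ]
    exact Nat.mul_le_mul hJK hJK
  rw [← hm]
  have hN0 : (0 : ℝ) < ((∏ p ∈ S₀, nrm p : ℕ) : ℝ) := by
    exact_mod_cast Finset.prod_pos fun p hp => nrm_one_le (h₀O p hp)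
  have hprod : ∏ j : J, ((16 * XX H (j.1 / 2) : ℕ) : ℝ) ≤
      2 ^ (4 * k) * (X * (1 / ((∏ p ∈ S₀, nrm p : ℕ) : ℝ))) := by
    have h5 : ∏ j : J, ((16 * XX H (j.1 / 2) : ℕ) : ℝ) =
        16 ^ J.card * ((∏ i ∈ J, XX H (i / 2) : ℕ) : ℝ) := by
      rw [← Finset.prod_coe_sort J (fun i => XX H (i / 2))]
      push_cast
      rw [Finset.prod_mul_distrib, Finset.prod_const, Finset.card_univ, hcJ]
    have h6 : ((∏ i ∈ J, XX H (i / 2) : ℕ) : ℝ) ≤ X * (1 / ((∏ p ∈ S₀, nrm p : ℕ) : ℝ)) := by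
      rw [mul_one_div, le_div_iff₀ hN0, mul_comm]
      exact_mod_cast c5
    have h7 : (16 : ℝ) ^ J.card ≤ 2 ^ (4 * k) := by
      calc (16 : ℝ) ^ J.card = 2 ^ (4 * J.card) := by rw [pow_mul]; norm_num
        _ ≤ 2 ^ (4 * k) := pow_le_pow_right₀ (by norm_num) (by omega)
    rw [h5]
    gcongr
  have hpw : (2 : ℝ) ^ ((S₀.card + 1) * Fintype.card J + m) * 2 ^ (4 * k) ≤ 3 ^ (9 * k ^ 2) := by
    rw [← pow_add]
    refine le_trans (pow_le_pow_right₀ (by norm_num) (?_ : _ ≤ 9 * k ^ 2))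
      (pow_le_pow_left₀ (by norm_num) (by norm_num) _)
    rw [hcJ]
    have h5 : (S₀.card + 1) * J.card ≤ (k + 1) * k := Nat.mul_le_mul (by omega) hJK
    have h6 : k ≤ k * k := by
      rcases Nat.eq_zero_or_pos k with h | h
      · rw [h]
      · exact Nat.le_mul_of_pos_left k h
    nlinarith
  refine add_le_add ?_ ?_
  · gcongr
  · have hX1 : (0 : ℝ) ≤ X * (1 / ((∏ p ∈ S₀, nrm p : ℕ) : ℝ)) := by positivity
    calc (2 : ℝ) ^ ((S₀.card + 1) * Fintype.card J + m) *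
        (κ * ∏ j : J, ((16 * XX H (j.1 / 2) : ℕ) : ℝ)) ≤
        2 ^ ((S₀.card + 1) * Fintype.card J + m) *
          (κ * (2 ^ (4 * k) * (X * (1 / ((∏ p ∈ S₀, nrm p : ℕ) : ℝ))))) := by gcongr
      _ = (2 ^ ((S₀.card + 1) * Fintype.card J + m) * 2 ^ (4 * k)) *
          (κ * (X * (1 / ((∏ p ∈ S₀, nrm p : ℕ) : ℝ)))) := by ring
      _ ≤ 3 ^ (9 * k ^ 2) * (κ * (X * (1 / ((∏ p ∈ S₀, nrm p : ℕ) : ℝ)))) := by gcongr
      _ = _ := by ring

theorem lg_le {X : ℕ} (hX : 1 ≤ X) : L2 X ≤ 2 * (1 + Real.log X) := by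
  unfold L2 Pool.Agent.Y699.E.lg
  have h1 : ((2 ^ Nat.log 2 X : ℕ) : ℝ) ≤ X := by
    exact_mod_cast Nat.pow_log_le_self 2 (by omega)
  have h2 : (Nat.log 2 X : ℝ) * Real.log 2 ≤ Real.log X := by
    rw [← Real.log_pow]
    push_cast at h1
    exact Real.log_le_log (by positivity) h1
  have h3 : (1 / 2 : ℝ) ≤ Real.log 2 := by have := Real.log_two_gt_d9; linarith
  have h4 : (0 : ℝ) ≤ Nat.log 2 X := Nat.cast_nonneg _
  nlinarith

theorem sum_inv (hHS : S_HS) {X : ℕ} (hX : 1 ≤ X) {A : Finset (Finset RR)}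
    (hA : ∀ S ∈ A, (∀ p ∈ S, PO p) ∧
    ∏ p ∈ S, nrm p ≤ X) : ∑ S ∈ A, (1 : ℝ) / ((∏ p ∈ S, nrm p : ℕ) : ℝ) ≤
      64 * (1 + Real.log X) := by
  have hinj : Set.InjOn (fun S : Finset RR => ∏ p ∈ S, p) (A : Set (Finset RR)) := by
    intro S hS T hT h
    have h1 := (PS_prod (hA S hS).1).2
    have h2 := (PS_prod (hA T hT).1).2
    simp only at h
    rw [← h1, ← h2, h]
  have hnp : ∀ S : Finset RR, nrm (∏ p ∈ S, p) = ∏ p ∈ S, nrm p := by
    intro S
    induction S using Finset.induction_on with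
    | empty => rw [Finset.prod_empty, Finset.prod_empty, nrm_one]
    | insert a s ha ih => rw [Finset.prod_insert ha, Finset.prod_insert ha, nrm_mul, ih]
  have h1 : ∑ S ∈ A, (1 : ℝ) / ((∏ p ∈ S, nrm p : ℕ) : ℝ) =
      ∑ n ∈ A.image (fun S => ∏ p ∈ S, p), (1 : ℝ) / (nrm n : ℝ) := by
    rw [Finset.sum_image (f := fun n : RR => (1 : ℝ) / (nrm n : ℝ)) hinj]
    refine Finset.sum_congr rfl fun S _ => ?_
    rw [hnp]
  rw [h1]
  have h2 : A.image (fun S => ∏ p ∈ S, p) ⊆ PB X := by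
    intro n hn
    rw [Finset.mem_image] at hn
    obtain ⟨S, hS, rfl⟩ := hn
    rw [mem_PB, hnp]
    exact ⟨(hA S hS).2, (PS_prod (hA S hS).1).1.prm⟩
  refine (Finset.sum_le_sum_of_subset_of_nonneg h2 fun n _ _ => by positivity).trans ?_
  have h3 := hHS.1 X
  have h4 := lg_le hX
  linarith

theorem keg_err (hHS : S_HS) {X z H k V N : ℕ} {κ : ℝ} (hX : 1 ≤ X) (hH : 1 ≤ H) (hz : 1 ≤ z)
    (hκ : 0 ≤ κ)
    (hN : (H : ℝ) * Real.log X < N) {T : Finset (Finset RR × Finset ℕ)}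
    (hT : ∀ k' ∈ T, k' ∈ (RS X z H k V).image (ky z H)) :
    ∑ k' ∈ T, (3 ^ (9 * k ^ 2) * κ) * (X * (1 / ((∏ p ∈ k'.1, nrm p : ℕ) : ℝ))) ≤
      (9 * N + 9 : ℝ) ^ k * (3 ^ (9 * k ^ 2 + 9) * κ) * (X * (1 + Real.log X)) := by
  -- the errors
  set U : Finset ℕ := range (2 * N) with hU
  set A := T.image Prod.fst with hA
  have hAp : ∀ S ∈ A, (∀ p ∈ S, PO p) ∧ ∏ p ∈ S, nrm p ≤ X := by
    intro S hS
    rw [hA, Finset.mem_image] at hS
    obtain ⟨⟨S₀, J⟩, hk, rfl⟩ := hS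
    obtain ⟨h₀O, h₀, hJi, hCd, hJf⟩ := key_facts hH (hT _ hk)
    refine ⟨fun p hp => h₀O p hp, ?_⟩
    have h4 : 1 ≤ ∏ i ∈ J, XX H (i / 2) := by
      apply Nat.one_le_iff_ne_zero.2
      rw [Finset.prod_ne_zero_iff]
      intro i hi
      exact Nat.one_le_iff_ne_zero.1 (hz.trans (hJf i hi).1)
    calc ∏ p ∈ S₀, nrm p = (∏ p ∈ S₀, nrm p) * 1 := (mul_one _).symm
      _ ≤ (∏ p ∈ S₀, nrm p) * ∏ i ∈ J, XX H (i / 2) := Nat.mul_le_mul_left _ h4
      _ ≤ X := hCd.2.2.1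
  have hsub : T ⊆ A ×ˢ (U.powerset.filter fun J => J.card ≤ k) := by
    intro k' hk
    obtain ⟨S₀, J⟩ := k'
    rw [Finset.mem_product, Finset.mem_filter, Finset.mem_powerset]
    obtain ⟨h₀O, h₀, hJi, hCd, hJf⟩ := key_facts hH (hT _ hk)
    have hc := hCd.2.1
    refine ⟨Finset.mem_image_of_mem _ hk, ?_, (Nat.le_add_left _ _).trans hc⟩
    intro i hi
    obtain ⟨k2, q, hq, hzq, hqX, hqi⟩ := hJf i hi
    rw [hU, Finset.mem_range]
    have hH0 : (0 : ℝ) < H := by exact_mod_cast hH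
    have hq0 : (0 : ℝ) < nrm q := by exact_mod_cast nrm_one_le hq
    have h4 : (H : ℝ) * Real.log (nrm q) ≤ H * Real.log X := by
      apply mul_le_mul_of_nonneg_left _ hH0.le
      exact Real.log_le_log hq0 (by exact_mod_cast hqX)
    have h5 : ((⌊(H : ℝ) * Real.log (nrm q)⌋₊ : ℕ) : ℝ) < N :=
      (Nat.floor_le (mul_nonneg hH0.le (Real.log_natCast_nonneg _))).trans_lt (h4.trans_lt hN)
    have h6 : bl H q < N := by
      unfold bl jj
      exact_mod_cast h5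
    have h7 := ph_div H q
    rw [hqi] at h7
    omega
  have hX0 : (0 : ℝ) ≤ X := Nat.cast_nonneg X
  have hcU : ((U.powerset.filter fun J => J.card ≤ k).card : ℝ) ≤ (9 * N + 9 : ℝ) ^ k := by
    have h4 := card_sub U k
    have h5 : U.card = 2 * N := by
      rw [hU, Finset.card_range]
    rw [h5] at h4
    have h6 : ((U.powerset.filter fun J => J.card ≤ k).card : ℝ) ≤ ((2 * N + 1 : ℕ) : ℝ) ^ k := by
      exact_mod_cast h4
    refine h6.trans ?_
    apply pow_le_pow_left₀ (by positivity)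
    push_cast
    have : (0 : ℝ) ≤ N := Nat.cast_nonneg N
    linarith
  have hlogX : 0 ≤ 1 + Real.log X := by
    have := Real.log_natCast_nonneg X
    linarith
  calc ∑ k' ∈ T, (3 ^ (9 * k ^ 2) * κ) * (X * (1 / ((∏ p ∈ k'.1, nrm p : ℕ) : ℝ)))
      ≤ ∑ k' ∈ A ×ˢ (U.powerset.filter fun J => J.card ≤ k),
        (3 ^ (9 * k ^ 2) * κ) * (X * (1 / ((∏ p ∈ k'.1, nrm p : ℕ) : ℝ))) :=
        Finset.sum_le_sum_of_subset_of_nonneg hsub fun _ _ _ => by positivity
    _ = ((U.powerset.filter fun J => J.card ≤ k).card : ℝ) * ((3 ^ (9 * k ^ 2) * κ) *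
        (X * ∑ S ∈ A, 1 / ((∏ p ∈ S, nrm p : ℕ) : ℝ))) := by
        rw [Finset.sum_product]
        simp only [Finset.sum_const, nsmul_eq_mul]
        rw [← Finset.mul_sum, ← Finset.mul_sum, ← Finset.mul_sum]
    _ ≤ (9 * N + 9 : ℝ) ^ k * ((3 ^ (9 * k ^ 2) * κ) * (X * (64 * (1 + Real.log X)))) := by
        have h4 := sum_inv hHS hX hAp
        have h5 : (0 : ℝ) ≤ ∑ S ∈ A, 1 / ((∏ p ∈ S, nrm p : ℕ) : ℝ) :=
          Finset.sum_nonneg fun _ _ => by positivity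
        gcongr
    _ = (9 * N + 9 : ℝ) ^ k * ((3 ^ (9 * k ^ 2) * 64) * κ) * (X * (1 + Real.log X)) := by ring
    _ ≤ (9 * N + 9 : ℝ) ^ k * (3 ^ (9 * k ^ 2 + 9) * κ) * (X * (1 + Real.log X)) := by
        have h6 : (3 : ℝ) ^ (9 * k ^ 2) * 64 ≤ 3 ^ (9 * k ^ 2 + 9) := by
          rw [pow_add]
          refine mul_le_mul_of_nonneg_left ?_ (by positivity)
          norm_num
        gcongr

theorem key (hB : BX) (hB1 : S_BIL) (hHS : S_HS) : ∃ C : ℝ, 1 ≤ C ∧
  ∀ (X z H k V N : ℕ) (κ : ℝ), 1 ≤ X → 1 ≤ H → 1 ≤ z → 0 ≤ κ → C ≤ κ ^ 24 * z →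
  (H : ℝ) * Real.log X < N →
  |(((RS X z H k V).filter fun S => Nd (sm z S) (la z S) ∧ Gd S).card : ℝ) -
      eta * (((RS X z H k V).filter fun S => Nd (sm z S) (la z S)).card : ℝ)| ≤
    8 * (1 / 2 : ℝ) ^ V * ((RS X z H k V).card : ℝ) +
    (9 * N + 9 : ℝ) ^ k * (3 ^ (9 * k ^ 2 + 9) * κ) * (X * (1 + Real.log X)) := by
  obtain ⟨C₁, hC₁, hb1⟩ := hB1
  refine ⟨C₁, hC₁, ?_⟩
  intro X z H k V N κ hX hH hz hκ h1 hN
  set T := (RS X z H k V).image (ky z H) with hT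
  have hfib : ∀ P : Finset RR → Prop, (((RS X z H k V).filter fun S => P S).card : ℝ) =
      ∑ k' ∈ T, (((RS X z H k V).filter fun S => ky z H S = k' ∧ P S).card : ℝ) := by
    intro P
    rw [Finset.card_eq_sum_card_fiberwise (f := ky z H) (t := T) (by
      intro S hS
      rw [Finset.mem_coe, Finset.mem_filter] at hS
      exact Finset.mem_coe.2 (Finset.mem_image_of_mem _ hS.1))]
    push_cast
    refine Finset.sum_congr rfl fun k' _ => ?_
    congr 2
    ext S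
    simp only [Finset.mem_filter]
    tauto
  have hall : ((RS X z H k V).card : ℝ) =
      ∑ k' ∈ T, (((RS X z H k V).filter fun S => ky z H S = k' ∧ True).card : ℝ) := by
    rw [Finset.card_eq_sum_card_fiberwise (f := ky z H) (t := T) (by
      intro S hS
      exact Finset.mem_coe.2 (Finset.mem_image_of_mem _ hS))]
    push_cast
    exact Finset.sum_congr rfl fun k' _ => congrArg _ (fcc fun _ _ => by tauto)
  have q1 : (((RS X z H k V).filter fun S => Nd (sm z S) (la z S) ∧ Gd S).card : ℝ) =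
      ∑ k' ∈ T, (((RS X z H k V).filter fun S => ky z H S = k' ∧
        (Nd (sm z S) (la z S) ∧ Gd S)).card : ℝ) :=
    (congrArg _ (fcc fun _ _ => Iff.rfl)).trans ((hfib fun S => Nd (sm z S) (la z S) ∧ Gd S).trans
      (Finset.sum_congr rfl fun k' _ => congrArg _ (fcc fun _ _ => Iff.rfl)))
  rw [q1, hfib, Finset.mul_sum, ← Finset.sum_sub_distrib, hall, Finset.mul_sum]
  refine (Finset.abs_sum_le_sum_abs _ _).trans ?_
  have h3 : ∑ k' ∈ T, |(((RS X z H k V).filter fun S => ky z H S = k' ∧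
      (Nd (sm z S) (la z S) ∧ Gd S)).card : ℝ) - eta * (((RS X z H k V).filter fun S =>
      ky z H S = k' ∧ Nd (sm z S) (la z S)).card : ℝ)| ≤
      ∑ k' ∈ T, (8 * (1 / 2 : ℝ) ^ V * (((RS X z H k V).filter fun S =>
      ky z H S = k' ∧ True).card : ℝ) +
      (3 ^ (9 * k ^ 2) * κ) * (X * (1 / ((∏ p ∈ k'.1, nrm p : ℕ) : ℝ)))) := by
    refine Finset.sum_le_sum fun k' hk => ?_
    obtain ⟨S₀, J⟩ := k'
    exact per_key hB hb1 hH hz hκ h1 hk
  refine h3.trans ?_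
  rw [Finset.sum_add_distrib]
  refine add_le_add (le_refl _) ?_
  exact keg_err hHS hX hH hz hκ hN fun k' hk => hk

end Pool.Agent.T2h16.KD.KY

namespace Pool.Agent.T2h16.KD

/-- **KD-KEY.** -/
theorem t_KEY : S_KEY := by
  intro hR hBil hEQ hLA hBox hHS
  exact KY.key (fun ι _ _ t C X κ S₀ V h1 h2 h3 h4 h5 h6 h7 h8 =>
    hBox hR hEQ hLA ι t C X κ S₀ V h1 h2 h3 h4 h5 h6 h7 h8) hBil hHS

end Pool.Agent.T2h16.KD
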