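import Mathlib
import Pool.Agent.T2h16.KD.StmA

/-!
# Task LA: the probability that a random completion is good
-/

set_option autoImplicit false
set_option linter.all false

open scoped Classical

namespace Pool.Agent.T2h16.KD.La

open Finset Filter

theorem gk_pos (k : ℕ) : 0 < gk k := prod_pos fun i _ => by
  have : (1 : ℝ) < 2 ^ (i + 1) := one_lt_pow₀ (by norm_num) (by omega)
  linarith

theorem num (V : ℕ) (δ : ℝ) (hδ : δ * 2 ^ (V ^ 2 + 5) ≤ 1) :
    (V + 2) * δ + 8 * (1 / 2 : ℝ) ^ ((V + 1) * (V + 2) / 2) ≤ 8 * (1 / 2 : ℝ) ^ V := by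
  have h1 : (1 / 2 : ℝ) ^ ((V + 1) * (V + 2) / 2) ≤ (1 / 2 : ℝ) ^ (V + 1) := by
    refine pow_le_pow_of_le_one (by norm_num) (by norm_num) ?_
    rw [Nat.le_div_iff_mul_le (by norm_num)]
    exact Nat.mul_le_mul_left _ (by omega)
  have h2 : (1 / 2 : ℝ) ^ (V + 1) = (1 / 2 : ℝ) ^ V / 2 := by rw [pow_succ]; ring
  have h3 : (V + 2) * δ ≤ (1 / 2 : ℝ) ^ V := by
    have h4 : (V : ℝ) + 2 ≤ 2 ^ (V + 1) := by
      have : V + 1 < 2 ^ (V + 1) := Nat.lt_two_pow_self
      have : ((V + 2 : ℕ) : ℝ) ≤ ((2 ^ (V + 1) : ℕ) : ℝ) := Nat.cast_le.2 (by omega)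
      push_cast at this
      exact this
    have h5 : δ ≤ (1 / 2 : ℝ) ^ (V ^ 2 + 5) := by
      have : (1 / 2 : ℝ) ^ (V ^ 2 + 5) = 1 / 2 ^ (V ^ 2 + 5) := by rw [div_pow, one_pow]
      rw [this, le_div_iff₀ (by positivity)]
      exact hδ
    calc (V + 2) * δ ≤ (V + 2) * (1 / 2 : ℝ) ^ (V ^ 2 + 5) :=
          mul_le_mul_of_nonneg_left h5 (by positivity)
      _ ≤ 2 ^ (V + 1) * (1 / 2 : ℝ) ^ (V ^ 2 + 5) :=
          mul_le_mul_of_nonneg_right h4 (by positivity)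
      _ ≤ 2 ^ (V + 1) * (1 / 2 : ℝ) ^ (2 * V + 1) := by
          refine mul_le_mul_of_nonneg_left ?_ (by positivity)
          refine pow_le_pow_of_le_one (by norm_num) (by norm_num) ?_
          nlinarith [sq_nonneg ((V : ℤ) - 1), Int.natCast_nonneg V]
      _ = (1 / 2 : ℝ) ^ V := by
          rw [show 2 * V + 1 = (V + 1) + V by ring, pow_add (1 / 2 : ℝ), ← mul_assoc, ← mul_pow]
          norm_num
  have h6 : (0 : ℝ) < (1 / 2 : ℝ) ^ V := by positivity
  linarith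

end Pool.Agent.T2h16.KD.La

namespace Pool.Agent.T2h16.KD

open Finset Filter La

theorem t_LA : S_LAT := by
  intro hM hB hE U J _ _ _ e c N V hS hN hs
  obtain ⟨hE1, -, hE3, -, -⟩ := hE
  set s := (univ.filter fun j : J => e (Sum.inr j) = 1).card with hsd
  set A : ℝ := 2 ^ (prs J).card with hA
  have hA0 : 0 < A := by positivity
  set u := Fintype.card U with hu
  set δ : ℝ := 4 * 2 ^ (2 * u + 3) / 2 ^ s with hδ
  have hδ0 : 0 ≤ δ := by positivity
  set E : ℕ → ℝ := fun k => (Wk c N k : ℝ) / A with hEd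
  have hE' : ∀ k, |E k - 1| / gk k ≤ δ := by
    intro k
    have h1 := hM U J e c N k hS hN
    have h2 := hE3 k
    have h3 := La.gk_pos k
    rw [div_le_iff₀ h3, hδ, div_mul_eq_mul_div, le_div_iff₀ (by positivity)]
    refine h1.trans ?_
    rw [show k * (k + 1) / 2 + 2 * Fintype.card U + 3 = k * (k + 1) / 2 + (2 * u + 3) by
      rw [hu]; ring, pow_add]
    have : (0 : ℝ) < 2 ^ (2 * u + 3) := by positivity
    nlinarith
  have hδV : δ * 2 ^ (V ^ 2 + 5) ≤ 1 := by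
    rw [hδ, div_mul_eq_mul_div, div_le_one (by positivity)]
    have : (4 : ℝ) * 2 ^ (2 * u + 3) * 2 ^ (V ^ 2 + 5) = 2 ^ (2 * u + (V ^ 2 + 10)) := by
      rw [show (4 : ℝ) = 2 ^ 2 by norm_num, ← pow_add, ← pow_add]
      congr 1
      ring
    rw [this]
    exact pow_le_pow_right₀ (by norm_num) hs
  have hgV : 1 / gk (V + 1) ≤ 4 * (1 / 2 : ℝ) ^ ((V + 1) * (V + 2) / 2) := by
    have h2 := hE3 (V + 1)
    have h3 := La.gk_pos (V + 1)
    rw [div_le_iff₀ h3]
    have h4 : (1 / 2 : ℝ) ^ ((V + 1) * (V + 2) / 2) * 2 ^ ((V + 1) * (V + 1 + 1) / 2) = 1 := by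
      rw [← mul_pow]; norm_num
    have h5 : (0 : ℝ) < (1 / 2 : ℝ) ^ ((V + 1) * (V + 2) / 2) := by positivity
    nlinarith
  set g : ℝ := ((univ.filter fun α : prs J → ZMod 2 => GdA c (fun i k => N i k + lift α i k)).card :
    ℝ) with hg
  have b1 : |g / A - ∑ k ∈ range (V + 1), (-1 : ℝ) ^ k * E k / gk k| ≤ E (V + 1) / gk (V + 1) := by
    have h1 := hB U J c N V
    have h2 : g / A - ∑ k ∈ range (V + 1), (-1 : ℝ) ^ k * E k / gk k =
        (g - ∑ k ∈ range (V + 1), (-1 : ℝ) ^ k * Wk c N k / gk k) / A := by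
      rw [sub_div, sum_div]
      congr 1
      refine sum_congr rfl fun k _ => ?_
      simp only [hEd]
      ring
    rw [h2, abs_div, abs_of_pos hA0]
    have h3 : E (V + 1) / gk (V + 1) = (Wk c N (V + 1) / gk (V + 1)) / A := by
      simp only [hEd]
      ring
    rw [h3]
    exact div_le_div_of_nonneg_right h1 hA0.le
  have b2 : E (V + 1) / gk (V + 1) ≤ 1 / gk (V + 1) + δ := by
    have h1 := hE' (V + 1)
    have h3 := La.gk_pos (V + 1)
    have h2 : E (V + 1) / gk (V + 1) ≤ 1 / gk (V + 1) + |E (V + 1) - 1| / gk (V + 1) := by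
      rw [← add_div]
      refine div_le_div_of_nonneg_right ?_ h3.le
      linarith [le_abs_self (E (V + 1) - 1)]
    linarith
  have b3 : |∑ k ∈ range (V + 1), (-1 : ℝ) ^ k * E k / gk k -
      ∑ k ∈ range (V + 1), (-1 : ℝ) ^ k / gk k| ≤ (V + 1) * δ := by
    rw [← sum_sub_distrib]
    refine (abs_sum_le_sum_abs _ _).trans ?_
    have : ∀ k ∈ range (V + 1), |(-1 : ℝ) ^ k * E k / gk k - (-1 : ℝ) ^ k / gk k| ≤ δ := by
      intro k _
      have h3 := La.gk_pos k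
      rw [show (-1 : ℝ) ^ k * E k / gk k - (-1 : ℝ) ^ k / gk k = (-1 : ℝ) ^ k * ((E k - 1) / gk k) by
        ring, abs_mul, abs_pow, abs_neg, abs_one, one_pow, one_mul, abs_div, abs_of_pos h3]
      exact hE' k
    refine (sum_le_sum this).trans ?_
    rw [sum_const, card_range, nsmul_eq_mul]
    push_cast
    exact le_rfl
  have b4 := hE1 V
  have b5 := num V δ hδV
  have b6 : |g / A - eta| ≤ (V + 2) * δ + 8 * (1 / 2 : ℝ) ^ ((V + 1) * (V + 2) / 2) := by
    rw [abs_le] at b1 b3 b4 ⊢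
    constructor <;> linarith [b1.1, b1.2, b3.1, b3.2, b4.1, b4.2]
  exact b6.trans b5

end Pool.Agent.T2h16.KD
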