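import Pool.Agent.T2h16.KD.LAG

set_option autoImplicit false
set_option linter.unusedVariables false

open scoped Classical

namespace Pool.Agent.T2h16.KD

open Finset Filter

namespace LABp

open LAGp

theorem gk_pos (k : ℕ) : 0 < gk k := by
  unfold gk
  apply Finset.prod_pos
  intro i _
  have : (2 : ℝ) ^ (i + 1) ≥ 2 := by
    calc (2 : ℝ) ^ (i + 1) ≥ 2 ^ 1 := pow_le_pow_right₀ (by norm_num) (by omega)
      _ = 2 := by norm_num
  linarith

theorem gk_succ (k : ℕ) : gk (k + 1) = gk k * (2 ^ (k + 1) - 1) := by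
  unfold gk; rw [Finset.prod_range_succ]

/-- the number of the independent tuples -/
noncomputable def tw (r k : ℕ) : ℝ := ∏ i ∈ range k, ((2 : ℝ) ^ r - 2 ^ i)

/-- its partial sums -/
noncomputable def tp (r k : ℕ) : ℝ := ∏ i ∈ range k, ((2 : ℝ) ^ r - 2 ^ (i + 1))

theorem step (r K : ℕ) : tw r (K + 1) / gk (K + 1) = tp r K / gk K + tp r (K + 1) / gk (K + 1) := by
  have h1 : tw r (K + 1) = (2 ^ r - 1) * tp r K := by
    unfold tw tp
    rw [Finset.prod_range_succ', pow_zero, mul_comm]
  have h2 : tp r (K + 1) = tp r K * (2 ^ r - 2 ^ (K + 1)) := by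
    unfold tp; rw [Finset.prod_range_succ]
  have h3 : (2 : ℝ) ^ (K + 1) - 1 ≠ 0 := by
    have := gk_pos (K + 1)
    rw [gk_succ] at this
    intro h
    rw [h, mul_zero] at this
    exact lt_irrefl _ this
  have h4 := (gk_pos K).ne'
  rw [h1, h2, gk_succ]
  field_simp
  ring

theorem alt (r K : ℕ) : ∑ k ∈ range (K + 1), (-1 : ℝ) ^ k * (tw r k / gk k) =
    (-1) ^ K * (tp r K / gk K) := by
  induction K with
  | zero => simp [tw, tp]
  | succ K ih =>
    rw [Finset.sum_range_succ, ih, step]
    ring

theorem tp_nonneg {r : ℕ} (hr : 1 ≤ r) (K : ℕ) : 0 ≤ tp r K := by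
  unfold tp
  by_cases h : K < r
  · apply Finset.prod_nonneg
    intro i hi
    have hi' := Finset.mem_range.1 hi
    have : (2 : ℝ) ^ (i + 1) ≤ 2 ^ r := pow_le_pow_right₀ (by norm_num) (by omega)
    linarith
  · rw [Finset.prod_eq_zero (i := r - 1)]
    · rw [Finset.mem_range]; omega
    · rw [show r - 1 + 1 = r by omega, sub_self]

theorem one_pt (r K : ℕ) :
    |(if r = 0 then (1 : ℝ) else 0) - ∑ k ∈ range (K + 1), (-1 : ℝ) ^ k * (tw r k / gk k)| ≤
      tw r (K + 1) / gk (K + 1) := by
  split_ifs with h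
  · subst h
    have h1 : ∀ k, tw 0 (k + 1) = 0 := by
      intro k
      unfold tw
      apply Finset.prod_eq_zero (i := 0) (by simp)
      simp
    rw [Finset.sum_range_succ', h1]
    simp only [h1]
    simp [tw, gk]
  · have hr : 1 ≤ r := Nat.one_le_iff_ne_zero.2 h
    rw [alt, zero_sub, abs_neg, abs_mul, abs_pow, abs_neg, abs_one, one_pow, one_mul, step]
    have h1 : 0 ≤ tp r K / gk K := div_nonneg (tp_nonneg hr K) (gk_pos K).le
    have h2 : 0 ≤ tp r (K + 1) / gk (K + 1) := div_nonneg (tp_nonneg hr _) (gk_pos _).le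
    rw [abs_of_nonneg h1]
    linarith

/-- the matrix as a linear map -/
noncomputable def Ml {T : Type} [Fintype T] (c : T → ZMod 2) (N : T → T → ZMod 2) :
    (T → ZMod 2) →ₗ[ZMod 2] (T → ZMod 2) where
  toFun v := fun i => MV c N v i
  map_add' v w := by ext i; exact MV_add c N v w i
  map_smul' a v := by ext i; exact MV_smul c N a v i

theorem mem_ker {T : Type} [Fintype T] (c : T → ZMod 2) (N : T → T → ZMod 2) (v : T → ZMod 2) :
    v ∈ LinearMap.ker (Ml c N) ↔ ∀ i, MV c N v i = 0 := by
  rw [LinearMap.mem_ker]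
  exact funext_iff

theorem gd_iff {T : Type} [Fintype T] (c : T → ZMod 2) (N : T → T → ZMod 2) :
    GdA c N ↔ Module.finrank (ZMod 2) (LinearMap.ker (Ml c N)) = 0 := by
  rw [Submodule.finrank_eq_zero, LinearMap.ker_eq_bot']
  unfold GdA
  constructor
  · intro h v hv
    ext i
    exact h v ((mem_ker c N v).1 hv) i
  · intro h v hv i
    have := h v ((mem_ker c N v).2 hv)
    rw [this]; rfl

theorem count {T : Type} [Fintype T] [DecidableEq T] (c : T → ZMod 2) (N : T → T → ZMod 2) (k : ℕ) :
    ((univ.filter fun v : Fin k → T → ZMod 2 =>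
      LinearIndependent (ZMod 2) v ∧ ∀ j i, MV c N (v j) i = 0).card : ℝ) =
      tw (Module.finrank (ZMod 2) (LinearMap.ker (Ml c N))) k := by
  set K := LinearMap.ker (Ml c N) with hK
  set r := Module.finrank (ZMod 2) K with hr
  have h1 : (univ.filter fun v : Fin k → T → ZMod 2 =>
      LinearIndependent (ZMod 2) v ∧ ∀ j i, MV c N (v j) i = 0).card =
      Nat.card {s : Fin k → K // LinearIndependent (ZMod 2) s} := by
    rw [← Fintype.card_subtype, Nat.card_eq_fintype_card]
    apply Fintype.card_congr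
    refine
      { toFun := fun v => ⟨fun j => ⟨v.1 j, (mem_ker c N _).2 (v.2.2 j)⟩, ?_⟩
        invFun := fun s => ⟨fun j => (s.1 j : T → ZMod 2), ?_, ?_⟩
        left_inv := fun v => rfl
        right_inv := fun s => rfl }
    · have := v.2.1
      apply LinearIndependent.of_comp K.subtype
      exact this
    · exact s.2.map' K.subtype (Submodule.ker_subtype K)
    · intro j
      exact (mem_ker c N _).1 (s.1 j).2
  rw [h1]
  by_cases hk : k ≤ r
  · rw [card_linearIndependent (K := ZMod 2) (V := K) hk, ← hr, ZMod.card]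
    unfold tw
    rw [Nat.cast_prod, Finset.prod_range]
    apply Finset.prod_congr rfl
    intro i _
    rw [Nat.cast_sub (Nat.pow_le_pow_right (by norm_num) (by omega))]
    push_cast
    rfl
  · have h2 : tw r k = 0 := by
      unfold tw
      apply Finset.prod_eq_zero (i := r) (Finset.mem_range.2 (by omega))
      rw [sub_self]
    rw [h2]
    have h3 : IsEmpty {s : Fin k → K // LinearIndependent (ZMod 2) s} := by
      constructor
      rintro ⟨s, hs⟩
      have := hs.fintype_card_le_finrank
      rw [Fintype.card_fin] at this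
      omega
    simp

end LABp

open LABp

theorem t_LAB : S_LAB := by
  intro U J _ _ _ c N K
  set r : (prs J → ZMod 2) → ℕ := fun α =>
    Module.finrank (ZMod 2) (LinearMap.ker (Ml c (fun i k => N i k + lift (U := U) α i k))) with hr
  have hG : ((univ.filter fun α : prs J → ZMod 2 =>
      GdA c (fun i k => N i k + lift (U := U) α i k)).card : ℝ) =
      ∑ α, if r α = 0 then (1 : ℝ) else 0 := by
    rw [Finset.card_filter]
    push_cast
    apply Finset.sum_congr rfl
    intro α _
    simp only [gd_iff, hr]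
  have hW : ∀ k, (Wk c N k : ℝ) = ∑ α, tw (r α) k := by
    intro k
    unfold Wk
    rw [Finset.card_filter, Fintype.sum_prod_type]
    push_cast
    apply Finset.sum_congr rfl
    intro α _
    rw [hr]
    simp only
    rw [← count, Finset.card_filter]
    push_cast
    apply Finset.sum_congr rfl
    intro v _
    exact if_congr Iff.rfl rfl rfl
  have hsum : ∑ k ∈ range (K + 1), (-1 : ℝ) ^ k * Wk c N k / gk k =
      ∑ α, ∑ k ∈ range (K + 1), (-1 : ℝ) ^ k * (tw (r α) k / gk k) := by
    rw [Finset.sum_comm]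
    apply Finset.sum_congr rfl
    intro k _
    rw [hW, Finset.mul_sum, Finset.sum_div]
    apply Finset.sum_congr rfl
    intro α _
    ring
  rw [hG, hsum, ← Finset.sum_sub_distrib, hW, Finset.sum_div]
  refine (Finset.abs_sum_le_sum_abs _ _).trans (Finset.sum_le_sum (fun α _ => ?_))
  exact one_pt (r α) K

end Pool.Agent.T2h16.KD
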