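import Pool.Agent.T2h16.KD.StmA

/-!
# Task LAC of project KD: the number of the completions which annihilate a given tuple
-/

set_option autoImplicit false
set_option linter.all false

open scoped Classical

namespace Pool.Agent.T2h16.KD

open Finset

namespace LACx

/-- the sign -/
def sgn (a : ZMod 2) : ℤ := if a = 0 then 1 else -1

lemma sgn_add (a b : ZMod 2) : sgn (a + b) = sgn a * sgn b := by
  revert a b
  decide

lemma sgn_zero : sgn 0 = 1 := rfl

lemma z2 (a : ZMod 2) : a + a = 0 := CharTwo.add_self_eq_zero a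

lemma char_sum {A : Type*} [AddCommGroup A] [Fintype A] (f : A → ZMod 2)
    (hf : ∀ a b, f (a + b) = f a + f b) :
    ∑ a, sgn (f a) = if (∀ a, f a = 0) then (Fintype.card A : ℤ) else 0 := by
  split_ifs with h
  · simp [h, sgn_zero]
  · push Not at h
    obtain ⟨a0, h0⟩ := h
    have h1 : ∑ a, sgn (f a) = ∑ a, sgn (f (a0 + a)) :=
      (Equiv.sum_comp (Equiv.addLeft a0) (fun a => sgn (f a))).symm
    have h2 : ∑ a, sgn (f (a0 + a)) = - ∑ a, sgn (f a) := by
      rw [← sum_neg_distrib]
      refine sum_congr rfl fun a _ => ?_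
      rw [hf, sgn_add]
      have : sgn (f a0) = -1 := by unfold sgn; rw [if_neg h0]
      rw [this]
      ring
    omega

variable {U J : Type} [Fintype U] [Fintype J] [LinearOrder J]

/-- the symmetric function with zero diagonal -/
noncomputable def sy (α : prs J → ZMod 2) (i k : J) : ZMod 2 :=
  if h : (i, k) ∈ prs J then α ⟨(i, k), h⟩ else if h : (k, i) ∈ prs J then α ⟨(k, i), h⟩ else 0

lemma mem_prs {i k : J} : (i, k) ∈ prs J ↔ i < k := by
  unfold prs
  rw [mem_filter]
  simp

lemma sy_lt {α : prs J → ZMod 2} (e : prs J) : sy α e.1.1 e.1.2 = α e := by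
  unfold sy
  rw [dif_pos e.2]

lemma sy_symm (α : prs J → ZMod 2) (i k : J) : sy α i k = sy α k i := by
  unfold sy
  by_cases h1 : (i, k) ∈ prs J
  · rw [dif_pos h1]
    have h2 : (k, i) ∉ prs J := by
      rw [mem_prs] at *
      exact not_lt.2 h1.le
    rw [dif_neg h2, dif_pos h1]
  · rw [dif_neg h1]
    by_cases h2 : (k, i) ∈ prs J
    · rw [dif_pos h2, dif_pos h2]
    · rw [dif_neg h2, dif_neg h2, dif_neg h1]

lemma sy_diag (α : prs J → ZMod 2) (i : J) : sy α i i = 0 := by
  unfold sy
  have : (i, i) ∉ prs J := by rw [mem_prs]; exact lt_irrefl i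
  rw [dif_neg this, dif_neg this]

lemma sy_add (α β : prs J → ZMod 2) (i k : J) : sy (α + β) i k = sy α i k + sy β i k := by
  unfold sy
  split_ifs <;> simp

lemma sy_of {S : J → J → ZMod 2} (h1 : ∀ i k, S i k = S k i) (h0 : ∀ i, S i i = 0) (i k : J) :
    sy (fun e : prs J => S e.1.1 e.1.2) i k = S i k := by
  unfold sy
  by_cases h : (i, k) ∈ prs J
  · rw [dif_pos h]
  · rw [dif_neg h]
    by_cases h' : (k, i) ∈ prs J
    · rw [dif_pos h', h1]
    · rw [dif_neg h']
      rw [mem_prs] at h h'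
      have : i = k := le_antisymm (not_lt.1 h') (not_lt.1 h)
      rw [this, h0]

lemma sum_prs (G : J → J → ZMod 2) (h0 : ∀ i, G i i = 0) :
    ∑ i, ∑ k, G i k = ∑ e ∈ prs J, (G e.1 e.2 + G e.2 e.1) := by
  unfold prs
  rw [sum_filter, ← Finset.sum_product', Finset.univ_product_univ]
  have h1 : ∀ p : J × J, G p.1 p.2 = (if p.1 < p.2 then G p.1 p.2 else 0) +
      (if p.2 < p.1 then G p.1 p.2 else 0) := by
    intro p
    rcases lt_trichotomy p.1 p.2 with h | h | h
    · rw [if_pos h, if_neg (not_lt.2 h.le), add_zero]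
    · rw [h, h0]; simp
    · rw [if_neg (not_lt.2 h.le), if_pos h, zero_add]
  rw [sum_congr rfl fun p _ => h1 p, sum_add_distrib]
  have h2 : ∑ p : J × J, (if p.2 < p.1 then G p.1 p.2 else 0) =
      ∑ p : J × J, (if p.1 < p.2 then G p.2 p.1 else 0) :=
    (Equiv.sum_comp (Equiv.prodComm J J) (fun p : J × J => if p.2 < p.1 then G p.1 p.2 else 0)).symm
  rw [h2, ← sum_add_distrib]
  refine sum_congr rfl fun p _ => ?_
  split_ifs <;> simp

lemma BF_lift (c : U ⊕ J → ZMod 2) (N : U ⊕ J → U ⊕ J → ZMod 2) (α : prs J → ZMod 2)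
    (x v : U ⊕ J → ZMod 2) :
    BF c (fun i k => N i k + lift α i k) x v = BF c N x v +
      ∑ e : prs J, α e * ((x (Sum.inr e.1.1) + x (Sum.inr e.1.2)) *
        (v (Sum.inr e.1.1) + v (Sum.inr e.1.2))) := by
  have h1 : BF c (fun i k => N i k + lift α i k) x v = BF c N x v +
      ∑ i, ∑ k, x i * lift α i k * (v k + v i) := by
    unfold BF MV
    rw [← sum_add_distrib]
    refine sum_congr rfl fun i _ => ?_
    have : ∑ k, (N i k + lift α i k) * (v k + v i) =
        ∑ k, N i k * (v k + v i) + ∑ k, lift α i k * (v k + v i) := by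
      rw [← sum_add_distrib]
      exact sum_congr rfl fun k _ => by ring
    simp only [this]
    rw [show ∑ k, x i * lift α i k * (v k + v i) = x i * ∑ k, lift α i k * (v k + v i) by
      rw [mul_sum]
      exact sum_congr rfl fun k _ => by ring]
    ring
  rw [h1]
  congr 1
  have h2 : ∑ i, ∑ k, x i * lift α i k * (v k + v i) =
      ∑ i : J, ∑ k : J, x (Sum.inr i) * sy α i k * (v (Sum.inr k) + v (Sum.inr i)) := by
    rw [Fintype.sum_sum_type]
    have e1 : ∀ i : U, ∑ k : U ⊕ J, x (Sum.inl i) * lift α (Sum.inl i) k *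
        (v k + v (Sum.inl i)) = 0 := by
      intro i
      refine sum_eq_zero fun k _ => ?_
      have : lift α (Sum.inl i) k = 0 := by cases k <;> rfl
      rw [this]
      ring
    rw [sum_congr rfl fun i _ => e1 i, sum_const_zero, zero_add]
    refine sum_congr rfl fun i _ => ?_
    rw [Fintype.sum_sum_type]
    have e2 : ∀ k : U, x (Sum.inr i) * lift α (Sum.inr i) (Sum.inl k : U ⊕ J) *
        (v (Sum.inl k) + v (Sum.inr i)) = 0 := by
      intro k
      have : lift α (Sum.inr i) (Sum.inl k : U ⊕ J) = 0 := rfl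
      rw [this]
      ring
    rw [sum_congr rfl fun k _ => e2 k, sum_const_zero, zero_add]
    rfl
  rw [h2, sum_prs _ (fun i => by rw [sy_diag]; ring),
    ← Finset.sum_coe_sort (prs J) (fun e => x (Sum.inr e.1) * sy α e.1 e.2 *
      (v (Sum.inr e.2) + v (Sum.inr e.1)) + x (Sum.inr e.2) * sy α e.2 e.1 *
      (v (Sum.inr e.1) + v (Sum.inr e.2)))]
  refine sum_congr rfl fun e _ => ?_
  rw [sy_symm α e.1.2 e.1.1, sy_lt e]
  ring

/-- the linear part -/
noncomputable def Lz {k : ℕ} (v z : Fin k → U ⊕ J → ZMod 2) (a b : J) : ZMod 2 :=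
  ∑ j, (z j (Sum.inr a) + z j (Sum.inr b)) * (v j (Sum.inr a) + v j (Sum.inr b))

/-- the constant part -/
noncomputable def Bz (c : U ⊕ J → ZMod 2) (N : U ⊕ J → U ⊕ J → ZMod 2) {k : ℕ}
    (v z : Fin k → U ⊕ J → ZMod 2) : ZMod 2 := ∑ j, BF c N (z j) (v j)

lemma BF_add (c : U ⊕ J → ZMod 2) (N : U ⊕ J → U ⊕ J → ZMod 2) (x y v : U ⊕ J → ZMod 2) :
    BF c N (x + y) v = BF c N x v + BF c N y v := by
  unfold BF
  rw [← sum_add_distrib]
  exact sum_congr rfl fun i _ => by rw [Pi.add_apply]; ring

lemma BF_zero (c : U ⊕ J → ZMod 2) (N : U ⊕ J → U ⊕ J → ZMod 2) (v : U ⊕ J → ZMod 2) :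
    BF c N 0 v = 0 := by
  unfold BF
  exact sum_eq_zero fun i _ => by rw [Pi.zero_apply]; ring

lemma BF_smul (c : U ⊕ J → ZMod 2) (N : U ⊕ J → U ⊕ J → ZMod 2) (a : ZMod 2)
    (x v : U ⊕ J → ZMod 2) : BF c N (fun i => a * x i) v = a * BF c N x v := by
  unfold BF
  rw [mul_sum]
  exact sum_congr rfl fun i _ => by ring

lemma BF_sum (c : U ⊕ J → ZMod 2) (N : U ⊕ J → U ⊕ J → ZMod 2) {ι : Type*} (s : Finset ι)
    (a : ι → ZMod 2) (x : ι → U ⊕ J → ZMod 2) (v : U ⊕ J → ZMod 2) :
    BF c N (fun i => ∑ l ∈ s, a l * x l i) v = ∑ l ∈ s, a l * BF c N (x l) v := by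
  unfold BF
  simp only [mul_sum, sum_mul]
  rw [sum_comm]
  exact sum_congr rfl fun i _ => sum_congr rfl fun i _ => by ring

/-- step one: both sums -/
lemma count1 (c : U ⊕ J → ZMod 2) (N : U ⊕ J → U ⊕ J → ZMod 2) {k : ℕ}
    (v : Fin k → U ⊕ J → ZMod 2) :
    ((univ.filter fun α : prs J → ZMod 2 =>
      ∀ j i, MV c (fun i k => N i k + lift α i k) (v j) i = 0).card : ℤ) *
      2 ^ (k * Fintype.card (U ⊕ J)) =
    2 ^ (prs J).card * ∑ z ∈ univ.filter (fun z : Fin k → U ⊕ J → ZMod 2 =>
      ∀ e : prs J, Lz v z e.1.1 e.1.2 = 0), sgn (Bz c N v z) := by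
  have hA : ∀ α : prs J → ZMod 2, ∑ z : Fin k → U ⊕ J → ZMod 2,
      sgn (∑ j, ∑ i, z j i * MV c (fun i k => N i k + lift α i k) (v j) i) =
      if (∀ j i, MV c (fun i k => N i k + lift α i k) (v j) i = 0) then
        2 ^ (k * Fintype.card (U ⊕ J)) else 0 := by
    intro α
    rw [char_sum (fun z : Fin k → U ⊕ J → ZMod 2 =>
      ∑ j, ∑ i, z j i * MV c (fun i k => N i k + lift α i k) (v j) i)]
    · have h1 : (Fintype.card (Fin k → U ⊕ J → ZMod 2) : ℤ) = 2 ^ (k * Fintype.card (U ⊕ J)) := by
        rw [Fintype.card_fun, Fintype.card_fun, ZMod.card, Fintype.card_fin, ← pow_mul, mul_comm]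
        push_cast
        rfl
      rw [h1]
      refine if_congr ?_ rfl rfl
      constructor
      · intro h j i
        have h2 := h (Pi.single j (Pi.single i 1))
        rw [sum_eq_single j, sum_eq_single i] at h2
        · rw [Pi.single_eq_same, Pi.single_eq_same, one_mul] at h2
          exact h2
        · intro b _ hb
          rw [Pi.single_eq_same, Pi.single_eq_of_ne hb, zero_mul]
        · intro h; exact absurd (mem_univ _) h
        · intro b _ hb
          refine sum_eq_zero fun i' _ => ?_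
          rw [Pi.single_eq_of_ne hb, Pi.zero_apply, zero_mul]
        · intro h; exact absurd (mem_univ _) h
      · intro h z
        exact sum_eq_zero fun j _ => sum_eq_zero fun i _ => by rw [h j i, mul_zero]
    · intro a b
      rw [← sum_add_distrib]
      refine sum_congr rfl fun j _ => ?_
      rw [← sum_add_distrib]
      refine sum_congr rfl fun i _ => ?_
      rw [Pi.add_apply, Pi.add_apply, add_mul]
  have hB : ∀ z : Fin k → U ⊕ J → ZMod 2, ∑ α : prs J → ZMod 2,
      sgn (∑ j, ∑ i, z j i * MV c (fun i k => N i k + lift α i k) (v j) i) =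
      if (∀ e : prs J, Lz v z e.1.1 e.1.2 = 0) then 2 ^ (prs J).card * sgn (Bz c N v z) else 0 := by
    intro z
    have h1 : ∀ α : prs J → ZMod 2,
        ∑ j, ∑ i, z j i * MV c (fun i k => N i k + lift α i k) (v j) i =
        Bz c N v z + ∑ e : prs J, α e * Lz v z e.1.1 e.1.2 := by
      intro α
      have h2 : ∑ j, ∑ i, z j i * MV c (fun i k => N i k + lift α i k) (v j) i =
          ∑ j, BF c (fun i k => N i k + lift α i k) (z j) (v j) := rfl
      rw [h2, sum_congr rfl fun j _ => BF_lift c N α (z j) (v j), sum_add_distrib, sum_comm]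
      congr 1
      refine sum_congr rfl fun e _ => ?_
      unfold Lz
      rw [mul_sum]
    simp only [h1, sgn_add]
    rw [← mul_sum, char_sum (fun α : prs J → ZMod 2 => ∑ e : prs J, α e * Lz v z e.1.1 e.1.2)]
    · have h3 : (Fintype.card (prs J → ZMod 2) : ℤ) = 2 ^ (prs J).card := by
        rw [Fintype.card_fun, ZMod.card, Fintype.card_coe]
        push_cast
        rfl
      rw [h3, mul_ite, mul_zero, mul_comm]
      refine if_congr ?_ rfl rfl
      constructor
      · intro h e
        have h2 := h (Pi.single e 1)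
        rw [sum_eq_single e] at h2
        · rw [Pi.single_eq_same, one_mul] at h2
          exact h2
        · intro b _ hb
          rw [Pi.single_eq_of_ne hb, zero_mul]
        · intro h; exact absurd (mem_univ _) h
      · intro h α
        exact sum_eq_zero fun e _ => by rw [h e, mul_zero]
    · intro a b
      rw [← sum_add_distrib]
      exact sum_congr rfl fun e _ => by rw [Pi.add_apply, add_mul]
  have hC : ∑ α : prs J → ZMod 2, ∑ z : Fin k → U ⊕ J → ZMod 2,
      sgn (∑ j, ∑ i, z j i * MV c (fun i k => N i k + lift α i k) (v j) i) =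
      ((univ.filter fun α : prs J → ZMod 2 =>
      ∀ j i, MV c (fun i k => N i k + lift α i k) (v j) i = 0).card : ℤ) *
      2 ^ (k * Fintype.card (U ⊕ J)) := by
    rw [sum_congr rfl fun α _ => hA α, ← sum_filter, sum_const, nsmul_eq_mul]
  rw [← hC, sum_comm, sum_congr rfl fun z _ => hB z, ← sum_filter, mul_sum]

/-- the vector which is `κ.1` on `U` and `κ.2` on `J` -/
def vc (κ : (U → ZMod 2) × ZMod 2) : U ⊕ J → ZMod 2 := Sum.elim κ.1 (fun _ => κ.2)

/-- the parametrization of the relations -/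
noncomputable def Ph {k : ℕ} (v : Fin k → U ⊕ J → ZMod 2)
    (q : (prs (Fin k) → ZMod 2) × (Fin k → (U → ZMod 2) × ZMod 2)) (j : Fin k) :
    U ⊕ J → ZMod 2 := (fun i => ∑ l, sy q.1 j l * v l i) + vc (q.2 j)

lemma vc_add (κ κ' : (U → ZMod 2) × ZMod 2) : (vc (κ + κ') : U ⊕ J → ZMod 2) = vc κ + vc κ' := by
  funext i
  cases i <;> rfl

lemma Ph_add {k : ℕ} (v : Fin k → U ⊕ J → ZMod 2)
    (q q' : (prs (Fin k) → ZMod 2) × (Fin k → (U → ZMod 2) × ZMod 2)) :
    Ph v (q + q') = Ph v q + Ph v q' := by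
  funext j i
  unfold Ph
  simp only [Prod.fst_add, Prod.snd_add, Pi.add_apply, vc_add, sy_add, add_mul, sum_add_distrib]
  ring

lemma K0_vc (κ : (U → ZMod 2) × ZMod 2) : K0 (vc κ : U ⊕ J → ZMod 2) := ⟨κ.2, fun _ => rfl⟩

lemma Ph_inj {k : ℕ} {v : Fin k → U ⊕ J → ZMod 2} (hv : IndK v) (o : J) :
    Function.Injective (Ph v) := by
  intro q q' h
  have h1 : Ph v (q + q') = 0 := by
    rw [Ph_add, h]
    funext j i
    exact z2 _
  have h2 : ∀ j i, ∑ l, sy (q + q').1 j l * v l i = vc ((q + q').2 j) i := by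
    intro j i
    have h3 := congrFun (congrFun h1 j) i
    unfold Ph at h3
    rw [Pi.add_apply] at h3
    exact CharTwo.add_eq_zero.1 h3
  have h4 : ∀ j l, sy (q + q').1 j l = 0 := by
    intro j
    refine hv (fun l => sy (q + q').1 j l) ?_
    have : (fun i => ∑ l, sy (q + q').1 j l * v l i) = vc ((q + q').2 j) := funext (h2 j)
    rw [this]
    exact K0_vc _
  have h5 : ∀ (j : Fin k) (i : U ⊕ J), vc ((q + q').2 j) i = (0 : ZMod 2) := by
    intro j i
    rw [← h2 j i]
    exact sum_eq_zero fun l _ => by rw [h4, zero_mul]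
  have h6 : (q + q').1 = 0 := by
    funext e
    rw [← sy_lt (α := (q + q').1) e, h4]
    rfl
  have h7 : (q + q').2 = 0 := by
    funext j
    refine Prod.ext (funext fun u => ?_) ?_
    · exact h5 j (Sum.inl u)
    · exact h5 j (Sum.inr o)
  have h8 : q + q' = 0 := Prod.ext h6 h7
  have h9 : q + q' = q' + q' := by
    rw [h8]
    refine Prod.ext (funext fun e => ?_) (funext fun j => Prod.ext (funext fun u => ?_) ?_)
    · exact (z2 _).symm
    · exact (z2 _).symm
    · exact (z2 _).symm
  exact add_right_cancel h9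

/-- the right inverse -/
lemma right_inv {k : ℕ} {J : Type} [Fintype J] [DecidableEq J] (V : Fin k → J → ZMod 2)
    (hV : ∀ l : Fin k → ZMod 2, (∀ i, ∑ j, l j * V j i = 0) → ∀ j, l j = 0) :
    ∃ R : J → Fin k → ZMod 2, ∀ j j', ∑ i, V j i * R i j' = if j = j' then 1 else 0 := by
  classical
  let f : (Fin k → ZMod 2) →ₗ[ZMod 2] (J → ZMod 2) :=
    { toFun := fun l i => ∑ j, l j * V j i
      map_add' := fun a b => by
        funext i
        simp only [Pi.add_apply, add_mul, sum_add_distrib]
      map_smul' := fun a b => by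
        funext i
        simp only [Pi.smul_apply, smul_eq_mul, RingHom.id_apply, mul_sum, mul_assoc] }
  have hf : LinearMap.ker f = ⊥ := by
    rw [LinearMap.ker_eq_bot']
    intro l hl
    funext j
    exact hV l (fun i => congrFun hl i) j
  obtain ⟨g, hg⟩ := f.exists_leftInverse_of_injective hf
  refine ⟨fun i j => g (Pi.single i 1) j, fun j j' => ?_⟩
  have h1 : g (V j) = Pi.single j 1 := by
    have h2 : f (Pi.single j 1) = V j := by
      funext i
      show ∑ j', (Pi.single j (1 : ZMod 2) : Fin k → ZMod 2) j' * V j' i = V j i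
      rw [sum_eq_single j]
      · rw [Pi.single_eq_same, one_mul]
      · intro b _ hb
        rw [Pi.single_eq_of_ne hb, zero_mul]
      · intro h; exact absurd (mem_univ _) h
    rw [← h2]
    exact LinearMap.congr_fun hg _
  have h3 : g (V j) = ∑ i, V j i • g (Pi.single i 1) := by
    rw [LinearMap.pi_apply_eq_sum_univ g (V j)]
    refine sum_congr rfl fun i _ => ?_
    congr 2
    funext j'
    rw [Pi.single_apply]
    simp only [eq_comm]
  have h4 : ∑ i, V j i * g (Pi.single i 1) j' = g (V j) j' := by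
    rw [h3, Finset.sum_apply]
    rfl
  rw [h4, h1, Pi.single_apply]
  simp only [eq_comm]

/-- the relations are parametrized -/
lemma rel_surj {k : ℕ} {v : Fin k → U ⊕ J → ZMod 2} (hv : IndK v) (o : J)
    {x : Fin k → U ⊕ J → ZMod 2} (hx : ∀ e : prs J, Lz v x e.1.1 e.1.2 = 0) :
    ∃ q, Ph v q = x := by
  have hx' : ∀ a b : J, Lz v x a b = 0 := by
    intro a b
    rcases lt_trichotomy a b with h | h | h
    · exact hx ⟨(a, b), mem_prs.2 h⟩
    · unfold Lz
      rw [h]
      exact sum_eq_zero fun j _ => by rw [z2, zero_mul]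
    · have h1 := hx ⟨(b, a), mem_prs.2 h⟩
      unfold Lz at h1 ⊢
      rw [← h1]
      exact sum_congr rfl fun j _ => by ring
  set X : Fin k → J → ZMod 2 := fun j l => x j (Sum.inr l) + x j (Sum.inr o) with hX
  set V : Fin k → J → ZMod 2 := fun j l => v j (Sum.inr l) + v j (Sum.inr o) with hVd
  have a1 : ∀ l, ∑ j, X j l * V j l = 0 := fun l => hx' l o
  have a2 : ∀ i l, ∑ j, X j i * V j l = ∑ j, X j l * V j i := by
    intro i l
    have h1 : ∑ j, (X j i + X j l) * (V j i + V j l) = 0 := by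
      rw [← hx' i l]
      unfold Lz
      refine sum_congr rfl fun j _ => ?_
      have e1 : X j i + X j l = x j (Sum.inr i) + x j (Sum.inr l) := by
        simp only [hX]
        linear_combination z2 (x j (Sum.inr o))
      have e2 : V j i + V j l = v j (Sum.inr i) + v j (Sum.inr l) := by
        simp only [hVd]
        linear_combination z2 (v j (Sum.inr o))
      rw [e1, e2]
    have h2 : ∑ j, (X j i + X j l) * (V j i + V j l) = ∑ j, X j i * V j i + ∑ j, X j l * V j l +
        (∑ j, X j i * V j l + ∑ j, X j l * V j i) := by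
      rw [← sum_add_distrib, ← sum_add_distrib, ← sum_add_distrib]
      exact sum_congr rfl fun j _ => by ring
    rw [h1, a1, a1, zero_add, zero_add] at h2
    exact CharTwo.add_eq_zero.1 h2.symm
  have hV : ∀ l : Fin k → ZMod 2, (∀ i, ∑ j, l j * V j i = 0) → ∀ j, l j = 0 := by
    intro l hl
    refine hv l ⟨∑ j, l j * v j (Sum.inr o), fun i => ?_⟩
    have h1 := hl i
    simp only [hVd, mul_add, sum_add_distrib] at h1
    exact CharTwo.add_eq_zero.1 h1
  obtain ⟨R, hR⟩ := right_inv V hV
  set P : Fin k → Fin k → ZMod 2 := fun a b => ∑ i, X a i * R i b with hP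
  have b1 : ∀ b l, X b l = ∑ j, P j b * V j l := by
    intro b l
    have h1 : ∑ i, (∑ j, X j l * V j i) * R i b = ∑ i, (∑ j, X j i * V j l) * R i b :=
      sum_congr rfl fun i _ => by rw [a2]
    have h2 : ∑ i, (∑ j, X j l * V j i) * R i b = X b l := by
      simp only [sum_mul]
      rw [sum_comm]
      have : ∀ j, ∑ i, X j l * V j i * R i b = X j l * (if j = b then 1 else 0) := by
        intro j
        rw [← hR j b, mul_sum]
        exact sum_congr rfl fun i _ => by ring
      rw [sum_congr rfl fun j _ => this j]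
      simp
    rw [← h2, h1]
    simp only [sum_mul, hP]
    rw [sum_comm]
    refine sum_congr rfl fun j _ => sum_congr rfl fun i _ => by ring
  have b2 : ∀ a b, P a b = P b a := by
    intro a b
    have h1 : P a b = ∑ i, (∑ j, P j a * V j i) * R i b :=
      sum_congr rfl fun i _ => by rw [← b1]
    rw [h1]
    simp only [sum_mul]
    rw [sum_comm]
    have : ∀ j, ∑ i, P j a * V j i * R i b = P j a * (if j = b then 1 else 0) := by
      intro j
      rw [← hR j b, mul_sum]
      exact sum_congr rfl fun i _ => by ring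
    rw [sum_congr rfl fun j _ => this j]
    simp
  have b3 : ∀ a, P a a = 0 := by
    intro a
    have h1 : P a a = ∑ j, P j a * (∑ l, V j l * R l a) := by
      rw [sum_congr rfl fun j _ => by rw [hR j a]]
      simp
    have h2 : ∑ j, P j a * (∑ l, V j l * R l a) =
        ∑ i, ∑ l, R i a * R l a * ∑ j, X j i * V j l := by
      simp only [hP, sum_mul, mul_sum]
      rw [sum_comm]
      conv_rhs => rw [sum_comm]
      refine sum_congr rfl fun i _ => ?_
      rw [sum_comm]
      refine sum_congr rfl fun l _ => ?_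
      exact sum_congr rfl fun j _ => by ring
    rw [h1, h2, sum_prs _ (fun i => by rw [a1, mul_zero])]
    refine sum_eq_zero fun e _ => ?_
    rw [a2 e.2 e.1]
    linear_combination z2 (R e.1 a * R e.2 a * ∑ j, X j e.1 * V j e.2)
  refine ⟨(fun e => P e.1.1 e.1.2, fun j => (fun u => x j (Sum.inl u) + ∑ l, P j l * v l (Sum.inl u),
    x j (Sum.inr o) + ∑ l, P j l * v l (Sum.inr o))), ?_⟩
  funext j i
  unfold Ph
  rw [Pi.add_apply]
  simp only [sy_of b2 b3]
  cases i with
  | inl u =>
    show ∑ l, P j l * v l (Sum.inl u) + (x j (Sum.inl u) + ∑ l, P j l * v l (Sum.inl u)) = _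
    linear_combination z2 (∑ l, P j l * v l (Sum.inl u))
  | inr i =>
    show ∑ l, P j l * v l (Sum.inr i) + (x j (Sum.inr o) + ∑ l, P j l * v l (Sum.inr o)) = _
    have h1 := b1 j i
    have h2 : ∑ l, P l j * V l i = ∑ l, P j l * v l (Sum.inr i) + ∑ l, P j l * v l (Sum.inr o) := by
      rw [← sum_add_distrib]
      refine sum_congr rfl fun l _ => ?_
      rw [b2 l j]
      simp only [hVd]
      ring
    rw [h2] at h1
    simp only [hX] at h1
    linear_combination (-1 : ZMod 2) * h1 + z2 (x j (Sum.inr o))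

/-- the parametrized elements are relations -/
lemma rel_Ph {k : ℕ} {v : Fin k → U ⊕ J → ZMod 2}
    (q : (prs (Fin k) → ZMod 2) × (Fin k → (U → ZMod 2) × ZMod 2)) (a b : J) :
    Lz v (Ph v q) a b = 0 := by
  unfold Lz
  have h1 : ∀ j, (Ph v q j (Sum.inr a) + Ph v q j (Sum.inr b)) =
      ∑ l, sy q.1 j l * (v l (Sum.inr a) + v l (Sum.inr b)) := by
    intro j
    unfold Ph
    rw [Pi.add_apply, Pi.add_apply]
    have e1 : (vc (q.2 j) : U ⊕ J → ZMod 2) (Sum.inr a) = (q.2 j).2 := rfl
    have e2 : (vc (q.2 j) : U ⊕ J → ZMod 2) (Sum.inr b) = (q.2 j).2 := rfl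
    rw [e1, e2]
    simp only [mul_add, sum_add_distrib]
    linear_combination z2 ((q.2 j).2)
  rw [sum_congr rfl fun j _ => by rw [h1 j]]
  simp only [sum_mul]
  rw [sum_prs (fun j l => sy q.1 j l * (v l (Sum.inr a) + v l (Sum.inr b)) *
    (v j (Sum.inr a) + v j (Sum.inr b))) (fun i => by rw [sy_diag]; ring)]
  refine sum_eq_zero fun e _ => ?_
  rw [sy_symm q.1 e.2 e.1]
  linear_combination z2 (sy q.1 e.1 e.2 * (v e.2 (Sum.inr a) + v e.2 (Sum.inr b)) *
    (v e.1 (Sum.inr a) + v e.1 (Sum.inr b)))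

lemma Bz_add (c : U ⊕ J → ZMod 2) (N : U ⊕ J → U ⊕ J → ZMod 2) {k : ℕ}
    (v z z' : Fin k → U ⊕ J → ZMod 2) : Bz c N v (z + z') = Bz c N v z + Bz c N v z' := by
  unfold Bz
  rw [← sum_add_distrib]
  exact sum_congr rfl fun j _ => by rw [Pi.add_apply, BF_add]

/-- the condition -/
lemma cond_iff (c : U ⊕ J → ZMod 2) (N : U ⊕ J → U ⊕ J → ZMod 2) {k : ℕ}
    (v : Fin k → U ⊕ J → ZMod 2) :
    (∀ q, Bz c N v (Ph v q) = 0) ↔ ((∀ j, InG c N (v j)) ∧
      ∀ j l, j < l → BF c N (v j) (v l) + BF c N (v l) (v j) = 0) := by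
  have key : ∀ q, Bz c N v (Ph v q) = ∑ e ∈ prs (Fin k), sy q.1 e.1 e.2 *
      (BF c N (v e.1) (v e.2) + BF c N (v e.2) (v e.1)) + ∑ j, BF c N (vc (q.2 j)) (v j) := by
    intro q
    unfold Bz Ph
    rw [sum_congr rfl fun j _ => BF_add c N (fun i => ∑ l, sy q.1 j l * v l i) (vc (q.2 j)) (v j),
      sum_add_distrib, sum_congr rfl fun j _ => BF_sum c N univ (fun l => sy q.1 j l) v (v j),
      sum_prs _ (fun i => by rw [sy_diag, zero_mul])]
    congr 1
    refine sum_congr rfl fun e _ => ?_
    rw [sy_symm q.1 e.2 e.1]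
    ring
  constructor
  · intro h
    constructor
    · intro j x hx
      obtain ⟨a, ha⟩ := hx
      have h1 := h (0, Pi.single j (fun u => x (Sum.inl u), a))
      rw [key] at h1
      have h2 : ∀ i l, sy (0 : prs (Fin k) → ZMod 2) i l = 0 := by
        intro i l
        unfold sy
        split_ifs <;> rfl
      simp only [h2, zero_mul, sum_const_zero, zero_add] at h1
      rw [sum_eq_single j] at h1
      · rw [Pi.single_eq_same] at h1
        have h3 : (vc ((fun u => x (Sum.inl u)), a) : U ⊕ J → ZMod 2) = x := by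
          funext i
          cases i with
          | inl u => rfl
          | inr i => exact (ha i).symm
        rw [h3] at h1
        exact h1
      · intro b _ hb
        rw [Pi.single_eq_of_ne hb]
        have h3 : (vc 0 : U ⊕ J → ZMod 2) = 0 := by
          funext i
          cases i <;> rfl
        rw [h3, BF_zero]
      · intro h; exact absurd (mem_univ _) h
    · intro j l hjl
      have h1 := h (Pi.single ⟨(j, l), mem_prs.2 hjl⟩ 1, 0)
      rw [key] at h1
      have h3 : (vc 0 : U ⊕ J → ZMod 2) = 0 := by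
        funext i
        cases i <;> rfl
      simp only [Pi.zero_apply, h3, BF_zero, sum_const_zero, add_zero] at h1
      rw [sum_eq_single (j, l)] at h1
      · have h4 : sy (Pi.single (⟨(j, l), mem_prs.2 hjl⟩ : prs (Fin k)) (1 : ZMod 2)) j l = 1 := by
          have := sy_lt (α := Pi.single (⟨(j, l), mem_prs.2 hjl⟩ : prs (Fin k)) (1 : ZMod 2))
            ⟨(j, l), mem_prs.2 hjl⟩
          rw [Pi.single_eq_same] at this
          exact this
        rw [h4, one_mul] at h1
        exact h1
      · intro b hb hne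
        have h4 : sy (Pi.single (⟨(j, l), mem_prs.2 hjl⟩ : prs (Fin k)) (1 : ZMod 2)) b.1 b.2 = 0 := by
          have := sy_lt (α := Pi.single (⟨(j, l), mem_prs.2 hjl⟩ : prs (Fin k)) (1 : ZMod 2))
            ⟨b, hb⟩
          rw [Pi.single_eq_of_ne (fun h => hne (congrArg Subtype.val h))] at this
          exact this
        rw [h4, zero_mul]
      · intro h; exact absurd (mem_prs.2 hjl) h
  · rintro ⟨h1, h2⟩ q
    rw [key]
    rw [sum_eq_zero, sum_eq_zero, add_zero]
    · intro j _
      exact h1 j _ (K0_vc _)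
    · intro e he
      rw [h2 e.1 e.2 (mem_prs.1 he), mul_zero]

lemma card_prs (k : ℕ) : (prs (Fin k)).card = k * (k - 1) / 2 := by
  have h1 : (prs (Fin k)).card = ∑ i : Fin k, (univ.filter fun j : Fin k => i < j).card := by
    unfold prs
    rw [card_filter, ← Finset.univ_product_univ, sum_product]
    exact sum_congr rfl fun i _ => (card_filter _ _).symm
  rw [h1]
  have h2 : ∀ i : Fin k, (univ.filter fun j : Fin k => i < j).card = k - 1 - i := by
    intro i
    have : (univ.filter fun j : Fin k => i < j) = Finset.Ioi i := by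
      ext j
      simp
    rw [this, Fin.card_Ioi]
  rw [sum_congr rfl fun i _ => h2 i]
  rw [Finset.sum_fin_eq_sum_range]
  have h3 : ∑ i ∈ range k, (if h : i < k then k - 1 - ((⟨i, h⟩ : Fin k) : ℕ) else 0) =
      ∑ i ∈ range k, (k - 1 - i) := by
    refine sum_congr rfl fun i hi => ?_
    rw [dif_pos (mem_range.1 hi)]
  rw [h3, Finset.sum_range_reflect (fun i => i) k, Finset.sum_range_id]

end LACx

open LACx in
theorem t_LAC : S_LAC := by
  intro U J _ _ _ c N k v hv
  rcases Nat.eq_zero_or_pos k with hk | hk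
  · subst hk
    have h1 : (univ.filter fun α : prs J → ZMod 2 =>
        ∀ (j : Fin 0) i, MV c (fun i k => N i k + lift α i k) (v j) i = 0) = univ :=
      filter_true_of_mem fun _ _ j => j.elim0
    rw [h1, card_univ, Fintype.card_fun, ZMod.card, Fintype.card_coe,
      if_pos ⟨fun j => j.elim0, fun j => j.elim0⟩]
    simp
  · have hJ : Nonempty J := by
      by_contra hJ
      rw [not_nonempty_iff] at hJ
      have := hv (fun _ => 1) ⟨0, fun k => (hJ.false k).elim⟩ ⟨0, hk⟩
      exact one_ne_zero this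
    obtain ⟨o⟩ := hJ
    have h1 := count1 c N v
    have h2 : ∑ z ∈ univ.filter (fun z : Fin k → U ⊕ J → ZMod 2 =>
        ∀ e : prs J, Lz v z e.1.1 e.1.2 = 0), sgn (Bz c N v z) =
        ∑ q : (prs (Fin k) → ZMod 2) × (Fin k → (U → ZMod 2) × ZMod 2),
          sgn (Bz c N v (Ph v q)) := by
      symm
      refine sum_bij (fun q _ => Ph v q) ?_ ?_ ?_ ?_
      · intro q _
        rw [mem_filter]
        exact ⟨mem_univ _, fun e => rel_Ph q _ _⟩
      · intro q _ q' _ h
        exact Ph_inj hv o h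
      · intro x hx
        rw [mem_filter] at hx
        obtain ⟨q, hq⟩ := rel_surj hv o hx.2
        exact ⟨q, mem_univ _, hq⟩
      · intro q _
        rfl
    rw [h2, char_sum (fun q => Bz c N v (Ph v q)) (fun a b => by rw [Ph_add, Bz_add])] at h1
    have h3 : (Fintype.card ((prs (Fin k) → ZMod 2) × (Fin k → (U → ZMod 2) × ZMod 2)) : ℤ) =
        2 ^ (k * (k - 1) / 2) * 2 ^ (k * (Fintype.card U + 1)) := by
      rw [Fintype.card_prod, Fintype.card_fun, Fintype.card_fun, Fintype.card_prod,
        Fintype.card_fun, ZMod.card, Fintype.card_coe, Fintype.card_fin, card_prs, ← pow_succ,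
        ← pow_mul, mul_comm (Fintype.card U + 1) k]
      push_cast
      rfl
    have h4 : 2 ^ (k * Fintype.card (U ⊕ J)) =
        (2 : ℤ) ^ (k * (Fintype.card J - 1)) * 2 ^ (k * (Fintype.card U + 1)) := by
      rw [← pow_add, Fintype.card_sum]
      congr 1
      have : 1 ≤ Fintype.card J := Fintype.card_pos_iff.2 ⟨o⟩
      rw [← mul_add]
      congr 1
      omega
    rw [h3, h4, if_congr (cond_iff c N v) rfl rfl, ← mul_assoc] at h1
    have h5 : (0 : ℤ) < 2 ^ (k * (Fintype.card U + 1)) := by positivity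
    split_ifs at h1 ⊢ with h6
    · rw [← mul_assoc, ← pow_add] at h1
      exact_mod_cast mul_right_cancel₀ h5.ne' h1
    · rw [mul_zero] at h1
      have := (mul_eq_zero.1 h1).resolve_right h5.ne'
      exact_mod_cast this

end Pool.Agent.T2h16.KD
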