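import Pool.Agent.T2h16.KD.StmA

set_option autoImplicit false
set_option linter.unusedVariables false

open scoped Classical

namespace Pool.Agent.T2h16.KD

open Finset Filter

namespace LAGp

instance : Fact (Nat.Prime 2) := ⟨Nat.prime_two⟩

theorem z2 (a : ZMod 2) : a = 0 ∨ a = 1 := by revert a; decide

theorem zadd (a : ZMod 2) : a + a = 0 := by revert a; decide

theorem zsq (a : ZMod 2) : a * a = a := by revert a; decide

theorem zeq {a b : ZMod 2} (h : a + b = 0) : a = b := by revert a b; decide

variable {T : Type} [Fintype T]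

theorem MV_add (c : T → ZMod 2) (N : T → T → ZMod 2) (v w : T → ZMod 2) (i : T) :
    MV c N (v + w) i = MV c N v i + MV c N w i := by
  unfold MV
  have : ∑ k, N i k * ((v + w) k + (v + w) i) =
      ∑ k, N i k * (v k + v i) + ∑ k, N i k * (w k + w i) := by
    rw [← Finset.sum_add_distrib]
    apply Finset.sum_congr rfl
    intro k _
    simp only [Pi.add_apply]; ring
  rw [this, Pi.add_apply]; ring

theorem MV_smul (c : T → ZMod 2) (N : T → T → ZMod 2) (a : ZMod 2) (v : T → ZMod 2) (i : T) :
    MV c N (a • v) i = a * MV c N v i := by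
  unfold MV
  rw [mul_add, Finset.mul_sum]
  congr 1
  · simp only [Pi.smul_apply, smul_eq_mul]; ring
  · apply Finset.sum_congr rfl
    intro k _
    simp only [Pi.smul_apply, smul_eq_mul]; ring

/-- the bilinear form as a linear map to the dual -/
noncomputable def Bl (c : T → ZMod 2) (N : T → T → ZMod 2) :
    (T → ZMod 2) →ₗ[ZMod 2] Module.Dual (ZMod 2) (T → ZMod 2) :=
  LinearMap.mk₂ (ZMod 2) (BF c N)
    (by
      intro x y v
      unfold BF
      rw [← Finset.sum_add_distrib]
      apply Finset.sum_congr rfl
      intro i _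
      rw [Pi.add_apply]; ring)
    (by
      intro a x v
      unfold BF
      rw [smul_eq_mul, Finset.mul_sum]
      apply Finset.sum_congr rfl
      intro i _
      rw [Pi.smul_apply, smul_eq_mul]; ring)
    (by
      intro x v w
      unfold BF
      rw [← Finset.sum_add_distrib]
      apply Finset.sum_congr rfl
      intro i _
      rw [MV_add]; ring)
    (by
      intro a x v
      unfold BF
      rw [smul_eq_mul, Finset.mul_sum]
      apply Finset.sum_congr rfl
      intro i _
      rw [MV_smul]; ring)

theorem Bl_apply (c : T → ZMod 2) (N : T → T → ZMod 2) (x v : T → ZMod 2) :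
    Bl c N x v = BF c N x v := rfl

/-- the alternating form -/
theorem D_eq {e c : T → ZMod 2} {N : T → T → ZMod 2} (hS : Sy e N) (x v : T → ZMod 2) :
    BF c N x v + BF c N v x = (∑ i, e i * x i) * (∑ i, e i * v i) + ∑ i, e i * (x i * v i) := by
  have hN : ∀ i k, N i k + N k i = e i * e k + if i = k then e i else 0 := by
    intro i k
    by_cases h : i = k
    · subst h; rw [if_pos rfl, hS.zero, zsq, zadd, zadd]
    · rw [if_neg h, add_zero, hS.rec_ i k h]
  have h1 : BF c N x v + BF c N v x = ∑ i, ∑ k, (N i k + N k i) * (x i * v k) := by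
    have a1 : BF c N x v = ∑ i, c i * (x i * v i) + ∑ i, ∑ k, N i k * (x i * v k)
        + ∑ i, ∑ k, N i k * (x i * v i) := by
      unfold BF MV
      rw [← Finset.sum_add_distrib, ← Finset.sum_add_distrib]
      apply Finset.sum_congr rfl
      intro i _
      rw [mul_add, Finset.mul_sum, add_assoc, ← Finset.sum_add_distrib]
      congr 1
      · ring
      · apply Finset.sum_congr rfl
        intro k _; ring
    have a2 : BF c N v x = ∑ i, c i * (x i * v i) + ∑ i, ∑ k, N k i * (x i * v k)
        + ∑ i, ∑ k, N i k * (x i * v i) := by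
      unfold BF MV
      have : ∑ i, ∑ k, N k i * (x i * v k) = ∑ i, ∑ k, N i k * (v i * x k) := by
        rw [Finset.sum_comm]
        apply Finset.sum_congr rfl
        intro i _
        apply Finset.sum_congr rfl
        intro k _; ring
      rw [this, ← Finset.sum_add_distrib, ← Finset.sum_add_distrib]
      apply Finset.sum_congr rfl
      intro i _
      rw [mul_add, Finset.mul_sum, add_assoc, ← Finset.sum_add_distrib]
      congr 1
      · ring
      · apply Finset.sum_congr rfl
        intro k _; ring
    have a3 : ∑ i, ∑ k, (N i k + N k i) * (x i * v k) =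
        ∑ i, ∑ k, N i k * (x i * v k) + ∑ i, ∑ k, N k i * (x i * v k) := by
      rw [← Finset.sum_add_distrib]
      apply Finset.sum_congr rfl
      intro i _
      rw [← Finset.sum_add_distrib]
      apply Finset.sum_congr rfl
      intro k _; ring
    rw [a1, a2, a3]
    have b1 := zadd (∑ i, c i * (x i * v i))
    have b2 := zadd (∑ i, ∑ k, N i k * (x i * v i))
    linear_combination b1 + b2
  rw [h1]
  have h2 : ∀ i, ∑ k, (N i k + N k i) * (x i * v k) =
      (e i * x i) * (∑ k, e k * v k) + e i * (x i * v i) := by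
    intro i
    rw [Finset.mul_sum]
    have : ∀ k, (N i k + N k i) * (x i * v k) =
        e i * x i * (e k * v k) + if i = k then e i * (x i * v k) else 0 := by
      intro k
      rw [hN]
      split_ifs <;> ring
    simp only [this]
    rw [Finset.sum_add_distrib]
    simp
  simp only [h2]
  rw [Finset.sum_add_distrib, Finset.sum_mul]

theorem BF_single [DecidableEq T] {c : T → ZMod 2} {N : T → T → ZMod 2} (x : T → ZMod 2) (k : T) :
    BF c N x (Pi.single k 1) = x k * c k + ∑ i, x i * N i k + x k * ∑ l, N k l := by
  unfold BF MV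
  have h : ∀ i, x i * (c i * (Pi.single k 1 : T → ZMod 2) i +
      ∑ l, N i l * ((Pi.single k 1 : T → ZMod 2) l + (Pi.single k 1 : T → ZMod 2) i)) =
      (if i = k then x k * c k else 0) + x i * N i k +
        (if i = k then x k * ∑ l, N k l else 0) := by
    intro i
    have h1 : ∑ l, N i l * ((Pi.single k 1 : T → ZMod 2) l + (Pi.single k 1 : T → ZMod 2) i) =
        N i k + (if i = k then ∑ l, N k l else 0) := by
      have : ∀ l, N i l * ((Pi.single k 1 : T → ZMod 2) l + (Pi.single k 1 : T → ZMod 2) i) =
          (if l = k then N i k else 0) + (if i = k then N k l else 0) := by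
        intro l
        rw [mul_add]
        congr 1
        · by_cases h : l = k
          · subst h; simp
          · simp [h]
        · by_cases h : i = k
          · subst h; simp
          · simp [h]
      simp only [this]
      rw [Finset.sum_add_distrib]
      congr 1
      · simp
      · split_ifs <;> simp
    rw [h1]
    by_cases h : i = k
    · subst h; simp; ring
    · simp [h]
  simp only [h]
  rw [Finset.sum_add_distrib, Finset.sum_add_distrib]
  simp

variable {U J : Type} [Fintype U] [Fintype J]

/-- the parametrisation of the vectors which are constant on `J` -/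
def Lp : ((U → ZMod 2) × ZMod 2) →ₗ[ZMod 2] (U ⊕ J → ZMod 2) where
  toFun p := Sum.elim p.1 (fun _ => p.2)
  map_add' p q := by
    ext i; rcases i with u | j <;> simp
  map_smul' a p := by
    ext i; rcases i with u | j <;> simp

omit [Fintype U] [Fintype J] in
theorem K0_iff (x : U ⊕ J → ZMod 2) : K0 x ↔ ∃ p, Lp p = x := by
  constructor
  · rintro ⟨a, ha⟩
    refine ⟨(fun u => x (Sum.inl u), a), ?_⟩
    ext i
    rcases i with u | j
    · rfl
    · exact (ha j).symm
  · rintro ⟨p, rfl⟩
    exact ⟨p.2, fun k => rfl⟩

theorem inj {e c : U ⊕ J → ZMod 2} {N : U ⊕ J → U ⊕ J → ZMod 2} (hS : Sy e N)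
    (hN : NdA e c N) : Function.Injective ((Bl c N).comp (Lp (U := U) (J := J))) := by
  rw [injective_iff_map_eq_zero]
  rintro ⟨w, a⟩ h
  have hk : ∀ k : J, ∑ u, (w u + a) * N (Sum.inr k) (Sum.inl u) +
      (∑ u, e (Sum.inl u) * w u + a * ∑ u, e (Sum.inl u) + a) * e (Sum.inr k) +
      a * c (Sum.inr k) = 0 := by
    intro k
    have h1 : BF c N (Lp (w, a)) (Pi.single (Sum.inr k) 1) = 0 := by
      have := congrArg (fun f => f (Pi.single (Sum.inr k) 1)) h
      exact this
    rw [BF_single] at h1
    have e1 : (Lp (w, a) : U ⊕ J → ZMod 2) (Sum.inr k) = a := rfl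
    have e2 : ∀ u, (Lp (w, a) : U ⊕ J → ZMod 2) (Sum.inl u) = w u := fun u => rfl
    have e3 : ∀ j, (Lp (w, a) : U ⊕ J → ZMod 2) (Sum.inr j) = a := fun u => rfl
    rw [Fintype.sum_sum_type, Fintype.sum_sum_type] at h1
    simp only [e1, e2, e3] at h1
    have hu : ∀ u, N (Sum.inl u) (Sum.inr k) = N (Sum.inr k) (Sum.inl u) +
        e (Sum.inl u) * e (Sum.inr k) := by
      intro u
      have := hS.rec_ (Sum.inl u) (Sum.inr k) (by simp)
      have h2 := zadd (N (Sum.inr k) (Sum.inl u))
      linear_combination this - h2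
    have hj : ∀ j, N (Sum.inr j) (Sum.inr k) = N (Sum.inr k) (Sum.inr j) +
        e (Sum.inr j) * e (Sum.inr k) + if j = k then e (Sum.inr k) else 0 := by
      intro j
      by_cases hjk : j = k
      · subst hjk
        rw [if_pos rfl, hS.zero, zsq, zero_add, zadd]
      · have := hS.rec_ (Sum.inr j) (Sum.inr k) (by simpa using hjk)
        have h2 := zadd (N (Sum.inr k) (Sum.inr j))
        rw [if_neg hjk, add_zero]
        linear_combination this - h2
    have h3 : ∑ u, w u * N (Sum.inl u) (Sum.inr k) = ∑ u, w u * N (Sum.inr k) (Sum.inl u) +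
        (∑ u, e (Sum.inl u) * w u) * e (Sum.inr k) := by
      rw [Finset.sum_mul, ← Finset.sum_add_distrib]
      apply Finset.sum_congr rfl
      intro u _
      rw [hu]; ring
    have h4 : ∑ j, a * N (Sum.inr j) (Sum.inr k) = a * ∑ j, N (Sum.inr k) (Sum.inr j) +
        a * (∑ j, e (Sum.inr j)) * e (Sum.inr k) + a * e (Sum.inr k) := by
      rw [← Finset.mul_sum]
      simp only [hj]
      rw [Finset.sum_add_distrib, Finset.sum_add_distrib, ← Finset.sum_mul]
      simp
      ring
    have h5 : ∑ u, (w u + a) * N (Sum.inr k) (Sum.inl u) =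
        ∑ u, w u * N (Sum.inr k) (Sum.inl u) + a * ∑ u, N (Sum.inr k) (Sum.inl u) := by
      rw [Finset.mul_sum, ← Finset.sum_add_distrib]
      apply Finset.sum_congr rfl
      intro u _; ring
    have h6 := hS.sum
    rw [Fintype.sum_sum_type] at h6
    have h7 := zadd (a * ∑ j, N (Sum.inr k) (Sum.inr j))
    have h8 := zadd (∑ u, e (Sum.inl u))
    rw [h3, h4] at h1
    rw [h5]
    linear_combination h1 - h7 - (a * e (Sum.inr k)) * h6 + (a * e (Sum.inr k)) * h8
  by_contra hne
  have : (∃ u, (w u + a) ≠ 0) ∨
      (∑ u, e (Sum.inl u) * w u + a * ∑ u, e (Sum.inl u) + a) ≠ 0 ∨ a ≠ 0 := by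
    by_contra hc
    push Not at hc
    apply hne
    obtain ⟨c1, c2, c3⟩ := hc
    ext u
    · have := c1 u
      rw [c3, add_zero] at this
      exact this
    · exact c3
  obtain ⟨k, hk'⟩ := hN (fun u => w u + a) _ _ this
  exact hk' (hk k)

theorem inG_iff {c : U ⊕ J → ZMod 2} {N : U ⊕ J → U ⊕ J → ZMod 2} (v : U ⊕ J → ZMod 2) :
    InG c N v ↔ v ∈ (LinearMap.range ((Bl c N).comp (Lp (U := U) (J := J)))).dualCoannihilator := by
  rw [Submodule.mem_dualCoannihilator]
  constructor
  · rintro h φ ⟨p, rfl⟩
    exact h _ ((K0_iff _).2 ⟨p, rfl⟩)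
  · intro h x hx
    obtain ⟨p, rfl⟩ := (K0_iff x).1 hx
    exact h _ ⟨p, rfl⟩

end LAGp

open LAGp

theorem t_LAG : S_LAG := by
  intro U J _ _ e c N hS hN
  have hJ : Nonempty J := by
    obtain ⟨k, _⟩ := hN (fun _ => 0) 0 1 (Or.inr (Or.inr one_ne_zero))
    exact ⟨k⟩
  have hJ1 : 1 ≤ Fintype.card J := Fintype.card_pos
  set Φ := LinearMap.range ((Bl c N).comp (Lp (U := U) (J := J))) with hΦ
  have hrank : Module.finrank (ZMod 2) Φ = Fintype.card U + 1 := by
    rw [hΦ, LinearMap.finrank_range_of_inj (inj hS hN)]
    simp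
  constructor
  · have h1 := Subspace.finrank_add_finrank_dualCoannihilator_eq Φ
    rw [hrank] at h1
    have h2 : Module.finrank (ZMod 2) (U ⊕ J → ZMod 2) = Fintype.card U + Fintype.card J := by
      simp
    rw [h2] at h1
    have h3 : Module.finrank (ZMod 2) Φ.dualCoannihilator = Fintype.card J - 1 := by omega
    have h4 : (univ.filter fun v : U ⊕ J → ZMod 2 => InG c N v).card =
        Nat.card Φ.dualCoannihilator := by
      rw [← Fintype.card_subtype, Nat.card_eq_fintype_card]
      apply Fintype.card_congr
      exact Equiv.subtypeEquivRight (fun v => inG_iff v)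
    rw [h4, Module.natCard_eq_pow_finrank (K := ZMod 2), h3, Nat.card_zmod, ← pow_succ]
    congr 1
    omega
  · -- the radical
    set R := univ.filter fun v : U ⊕ J → ZMod 2 => InG c N v ∧
      ∀ w, InG c N w → BF c N v w + BF c N w v = 0 with hR
    have hex : ∀ v ∈ R, ∃ p : (U → ZMod 2) × ZMod 2, ∀ w,
        BF c N v w + BF c N w v = BF c N (Lp p) w := by
      intro v hv
      rw [hR, Finset.mem_filter] at hv
      obtain ⟨_, hv1, hv2⟩ := hv
      set φ : Module.Dual (ZMod 2) (U ⊕ J → ZMod 2) := Bl c N v + (Bl c N).flip v with hφ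
      have hφa : ∀ w, φ w = BF c N v w + BF c N w v := fun w => rfl
      have h1 : φ ∈ Φ.dualCoannihilator.dualAnnihilator := by
        rw [Submodule.mem_dualAnnihilator]
        intro w hw
        rw [hφa]
        exact hv2 w ((inG_iff w).2 hw)
      rw [Subspace.dualCoannihilator_dualAnnihilator_eq] at h1
      obtain ⟨p, hp⟩ := h1
      refine ⟨p, fun w => ?_⟩
      rw [← hφa, ← hp]
      rfl
    choose! g hg using hex
    set Z := univ.filter fun v : U ⊕ J → ZMod 2 => ∀ w, BF c N v w + BF c N w v = 0 with hZ
    have hfib : ∀ p ∈ R.image g, (R.filter fun v => g v = p).card ≤ Z.card := by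
      intro p hp
      obtain ⟨v0, hv0, hv0p⟩ := Finset.mem_image.1 hp
      apply Finset.card_le_card_of_injOn (fun v => v - v0)
      · intro v hv
        rw [Finset.mem_coe, Finset.mem_filter] at hv
        rw [Finset.mem_coe, hZ, Finset.mem_filter]
        refine ⟨Finset.mem_univ _, fun w => ?_⟩
        have a1 := hg v hv.1 w
        have a2 := hg v0 hv0 w
        rw [hv.2] at a1
        rw [hv0p] at a2
        have a3 : BF c N (v - v0) w = BF c N v w - BF c N v0 w := by
          rw [← Bl_apply, map_sub]; rfl
        have a4 : BF c N w (v - v0) = BF c N w v - BF c N w v0 := by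
          rw [← Bl_apply, map_sub]; rfl
        change BF c N (v - v0) w + BF c N w (v - v0) = 0
        rw [a3, a4]
        linear_combination a1 - a2
      · intro v _ v' _ h
        exact sub_left_injective h
    have hRc : R.card ≤ Z.card * (R.image g).card :=
      Finset.card_le_mul_card_image R Z.card hfib
    have himg : (R.image g).card ≤ 2 ^ (Fintype.card U + 1) := by
      refine (Finset.card_le_univ _).trans (le_of_eq ?_)
      rw [Fintype.card_prod, Fintype.card_fun, ZMod.card, pow_succ]
    have hZv : ∀ v ∈ Z, ∀ i, e i = 1 → v i = 0 := by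
      intro v hv
      have hv' : ∀ w, BF c N v w + BF c N w v = 0 := (Finset.mem_filter.1 hv).2
      have h1 : ∀ i, e i * v i = e i * (∑ k, e k * v k) := by
        intro i
        have h2 := hv' (Pi.single i 1)
        rw [D_eq hS] at h2
        have h3 : ∑ k, e k * (Pi.single i 1 : U ⊕ J → ZMod 2) k = e i := by
          simp [Pi.single_apply]
        have h4 : ∑ k, e k * (v k * (Pi.single i 1 : U ⊕ J → ZMod 2) k) = e i * v i := by
          simp [Pi.single_apply]
        rw [h3, h4] at h2
        have := zeq h2
        rw [← this]; ring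
      have h5 : ∑ k, e k * v k = 0 := by
        rw [Finset.sum_congr rfl (fun i _ => h1 i), ← Finset.sum_mul, hS.sum, zero_mul]
      intro i hi
      have := h1 i
      rw [h5, mul_zero, hi, one_mul] at this
      exact this
    set s := (univ.filter fun j : J => e (Sum.inr j) = 1).card with hs
    have hsum : s + (univ.filter fun j : J => ¬ e (Sum.inr j) = 1).card = Fintype.card J := by
      rw [hs, Finset.card_filter_add_card_filter_not]
      rfl
    have hZc : Z.card ≤ 2 ^ Fintype.card U *
        2 ^ (univ.filter fun j : J => ¬ e (Sum.inr j) = 1).card := by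
      have h1 : Z.card ≤ Fintype.card ((U → ZMod 2) × ({j : J // ¬ e (Sum.inr j) = 1} → ZMod 2)) := by
        rw [← Finset.card_univ]
        apply Finset.card_le_card_of_injOn
          (fun v => ((fun u => v (Sum.inl u)), fun j => v (Sum.inr j.1)))
        · intro v _; simp
        · intro v hv v' hv' h
          simp only [Prod.mk.injEq] at h
          ext i
          rcases i with u | j
          · exact congrFun h.1 u
          · by_cases hj : e (Sum.inr j) = 1
            · rw [hZv v hv _ hj, hZv v' hv' _ hj]
            · exact congrFun h.2 ⟨j, hj⟩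
      refine h1.trans (le_of_eq ?_)
      rw [Fintype.card_prod, Fintype.card_fun, Fintype.card_fun, ZMod.card, Fintype.card_subtype]
    calc R.card * 2 ^ s ≤ (Z.card * (R.image g).card) * 2 ^ s := Nat.mul_le_mul_right _ hRc
      _ ≤ ((2 ^ Fintype.card U * 2 ^ (univ.filter fun j : J => ¬ e (Sum.inr j) = 1).card) *
          2 ^ (Fintype.card U + 1)) * 2 ^ s :=
          Nat.mul_le_mul_right _ (Nat.mul_le_mul hZc himg)
      _ = 2 ^ (Fintype.card J + 2 * Fintype.card U + 1) := by
          rw [← pow_add, ← pow_add, ← pow_add]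
          congr 1
          omega

end Pool.Agent.T2h16.KD
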