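import Pool.Agent.T2h16.KD.StmA

set_option autoImplicit false
set_option linter.unusedVariables false

open scoped Classical

namespace Pool.Agent.T2h16.KD

open Finset Filter

namespace LAIp

variable {G : Type} [AddCommGroup G] [Fintype G]

/-- the real sign -/
noncomputable def rs (a : ZMod 2) : ℝ := if a = 0 then 1 else -1

theorem rs_zero : rs 0 = 1 := by simp [rs]

theorem rs_add (a b : ZMod 2) : rs (a + b) = rs a * rs b := by
  have h1 : ∀ a : ZMod 2, a = 0 ∨ a = 1 := by decide
  have h10 : (1 : ZMod 2) ≠ 0 := by decide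
  have h11 : (1 + 1 : ZMod 2) = 0 := by decide
  rcases h1 a with rfl | rfl <;> rcases h1 b with rfl | rfl <;> simp [rs, h11]

theorem rs_abs (a : ZMod 2) : |rs a| = 1 := by
  unfold rs; split_ifs <;> simp

theorem rs_sum {α : Type} (s : Finset α) (f : α → ZMod 2) :
    rs (∑ i ∈ s, f i) = ∏ i ∈ s, rs (f i) := by
  induction s using Finset.induction_on with
  | empty => simp [rs_zero]
  | insert a s ha ih => rw [Finset.sum_insert ha, Finset.prod_insert ha, rs_add, ih]

/-- the character sum -/
theorem charsum (φ : G → ZMod 2) (hφ : ∀ x y, φ (x + y) = φ x + φ y) :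
    ∑ g, rs (φ g) = if ∀ g, φ g = 0 then (Fintype.card G : ℝ) else 0 := by
  split_ifs with h
  · simp [h, rs_zero]
  · push Not at h
    obtain ⟨g0, hg0⟩ := h
    have h1 : ∀ a : ZMod 2, a = 0 ∨ a = 1 := by decide
    have hg1 : φ g0 = 1 := (h1 _).resolve_left hg0
    have hr : rs (φ g0) = -1 := by rw [hg1]; simp [rs]
    have e : ∑ g, rs (φ g) = ∑ g, rs (φ (g + g0)) :=
      (Fintype.sum_equiv (Equiv.addRight g0) _ _ (fun g => rfl)).symm
    have e2 : ∑ g, rs (φ (g + g0)) = -∑ g, rs (φ g) := by
      rw [← Finset.sum_neg_distrib]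
      apply Finset.sum_congr rfl
      intro g _
      rw [hφ, rs_add, hr]; ring
    linarith [e, e2]

end LAIp

open LAIp

theorem LAIp.cardP (k : ℕ) :
    ((univ : Finset (Fin k × Fin k)).filter fun p => p.1 < p.2).card = k * (k - 1) / 2 := by
  set P := (univ : Finset (Fin k × Fin k)).filter fun p => p.1 < p.2 with hP
  set P' := (univ : Finset (Fin k × Fin k)).filter fun p => p.2 < p.1 with hP'
  set P0 := (univ : Finset (Fin k × Fin k)).filter fun p => p.1 = p.2 with hP0
  have h1 : P'.card = P.card := by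
    refine Finset.card_bij' (fun p _ => (p.2, p.1)) (fun p _ => (p.2, p.1)) (fun p hp => ?_)
      (fun p hp => ?_) (fun p hp => rfl) (fun p hp => rfl)
    · simp only [hP, hP', mem_filter, mem_univ, true_and] at hp ⊢; exact hp
    · simp only [hP, hP', mem_filter, mem_univ, true_and] at hp ⊢; exact hp
  have h0 : P0.card = k := by
    have : P0 = (univ : Finset (Fin k)).image (fun i => (i, i)) := by
      ext ⟨a, b⟩
      simp only [hP0, mem_filter, mem_univ, true_and, mem_image, Prod.mk.injEq]
      constructor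
      · rintro rfl; exact ⟨a, rfl, rfl⟩
      · rintro ⟨i, rfl, rfl⟩; rfl
    rw [this, Finset.card_image_of_injective _ (fun a b h => (Prod.mk.inj h).1)]
    simp
  have h2 : P.card + P'.card + P0.card = k * k := by
    have : (univ : Finset (Fin k × Fin k)).card = k * k := by simp
    rw [← this]
    have hd1 : Disjoint P P' := by
      rw [Finset.disjoint_left]
      intro p hp hp'
      simp only [hP, hP', mem_filter, mem_univ, true_and] at hp hp'
      exact absurd hp (not_lt.2 hp'.le)
    have hd2 : Disjoint (P ∪ P') P0 := by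
      rw [Finset.disjoint_left]
      intro p hp hp'
      simp only [hP, hP', hP0, mem_union, mem_filter, mem_univ, true_and] at hp hp'
      rcases hp with hp | hp
      · exact absurd hp' hp.ne
      · exact absurd hp' hp.ne'
    rw [← Finset.card_union_of_disjoint hd1, ← Finset.card_union_of_disjoint hd2]
    congr 1
    ext p
    simp only [hP, hP', hP0, mem_union, mem_filter, mem_univ, true_and, iff_true]
    rcases lt_trichotomy p.1 p.2 with h | h | h
    · exact Or.inl (Or.inl h)
    · exact Or.inr h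
    · exact Or.inl (Or.inr h)
  have h3 : 2 * P.card = k * (k - 1) := by
    rw [h1, h0] at h2
    rcases k with _ | k
    · simp at h2 ⊢; omega
    · simp only [Nat.add_sub_cancel]
      nlinarith [h2]
  omega

theorem LAIp.term {G : Type} [AddCommGroup G] [Fintype G] (D : G → G → ZMod 2) (k : ℕ)
    (hadd : ∀ x y z, D (x + y) z = D x z + D y z) (hsym : ∀ x y, D x y = D y x)
    (A : Finset (Fin k × Fin k)) (hA : ∀ p ∈ A, p.1 < p.2) (hne : A.Nonempty) :
    |∑ v : Fin k → G, ∏ p ∈ A, rs (D (v p.1) (v p.2))| * (Fintype.card G : ℝ) ≤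
      (Fintype.card G : ℝ) ^ k * ((univ.filter fun x : G => ∀ y, D x y = 0).card : ℝ) := by
  obtain ⟨⟨j0, l0⟩, hjl⟩ := hne
  have hlt : j0 < l0 := hA _ hjl
  have hadd' : ∀ x y z, D z (x + y) = D z x + D z y := fun x y z => by
    rw [hsym z, hadd, hsym x, hsym y]
  have hz : ∀ x, D x 0 = 0 := fun x => by
    have := hadd' 0 0 x
    rw [add_zero] at this
    simpa using this
  have hz' : ∀ x, D 0 x = 0 := fun x => by rw [hsym]; exact hz x
  have hsum' : ∀ (s : Finset (Fin k × Fin k)) (f : Fin k × Fin k → G) (z : G),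
      D z (∑ i ∈ s, f i) = ∑ i ∈ s, D z (f i) := by
    intro s f z
    induction s using Finset.induction_on with
    | empty => simp [hz]
    | insert a s ha ih => rw [Finset.sum_insert ha, Finset.sum_insert ha, hadd', ih]
  have hcpos : (0 : ℝ) < Fintype.card G := by
    exact_mod_cast Fintype.card_pos
  -- y
  set y : (Fin k → G) → G := fun v =>
    ∑ p ∈ A, ((if p.1 = j0 then v p.2 else 0) + (if p.2 = j0 then v p.1 else 0)) with hy
  set F : (Fin k → G) → ℝ := fun v => ∏ p ∈ A, rs (D (v p.1) (v p.2)) with hF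
  have hFabs : ∀ v, |F v| = 1 := by
    intro v
    rw [hF]; simp only
    rw [Finset.abs_prod]
    exact Finset.prod_eq_one (fun p _ => rs_abs _)
  have hshift : ∀ (v : Fin k → G) (g : G),
      F (v + Pi.single j0 g) = F v * rs (D g (y v)) := by
    intro v g
    rw [hF, hy]; simp only
    rw [hsum', rs_sum, ← Finset.prod_mul_distrib]
    apply Finset.prod_congr rfl
    intro p hp
    have hp' := hA p hp
    rw [← rs_add]
    congr 1
    by_cases h1 : p.1 = j0
    · have h2 : p.2 ≠ j0 := by rw [← h1]; exact hp'.ne'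
      rw [Pi.add_apply, Pi.add_apply, Pi.single_eq_of_ne h2, h1, Pi.single_eq_same]
      simp only [h2, if_true, if_false, add_zero]
      rw [hadd]
    · by_cases h2 : p.2 = j0
      · rw [Pi.add_apply, Pi.add_apply, Pi.single_eq_of_ne h1, h2, Pi.single_eq_same]
        simp only [h1, if_true, if_false, add_zero, zero_add]
        rw [hadd', hsym (v p.1) g]
      · rw [Pi.add_apply, Pi.add_apply, Pi.single_eq_of_ne h1, Pi.single_eq_of_ne h2]
        simp only [h1, h2, if_false, add_zero, hz]
  have hshiftsum : ∀ (f : (Fin k → G) → ℝ) (j : Fin k),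
      (Fintype.card G : ℝ) * ∑ v, f v = ∑ v : Fin k → G, ∑ g : G, f (v + Pi.single j g) := by
    intro f j
    rw [Finset.sum_comm]
    have : ∀ g : G, ∑ v : Fin k → G, f (v + Pi.single j g) = ∑ v, f v := fun g =>
      Fintype.sum_equiv (Equiv.addRight (Pi.single j g)) _ _ (fun v => rfl)
    simp only [this]
    simp
  have hS : (Fintype.card G : ℝ) * ∑ v, F v =
      ∑ v, F v * (if ∀ g, D g (y v) = 0 then (Fintype.card G : ℝ) else 0) := by
    rw [hshiftsum F j0]
    apply Finset.sum_congr rfl
    intro v _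
    simp only [hshift]
    rw [← Finset.mul_sum, charsum (fun g => D g (y v)) (fun a b => hadd a b _)]
  have hS' : |∑ v, F v| ≤ ∑ v : Fin k → G, if ∀ g, D g (y v) = 0 then (1 : ℝ) else 0 := by
    have h1 : (Fintype.card G : ℝ) * |∑ v, F v| ≤
        (Fintype.card G : ℝ) * ∑ v : Fin k → G, if ∀ g, D g (y v) = 0 then (1 : ℝ) else 0 := by
      have h2 : (Fintype.card G : ℝ) * |∑ v, F v| = |(Fintype.card G : ℝ) * ∑ v, F v| := by
        rw [abs_mul, abs_of_pos hcpos]
      rw [h2, hS, Finset.mul_sum]
      refine (Finset.abs_sum_le_sum_abs _ _).trans (Finset.sum_le_sum (fun v _ => ?_))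
      rw [abs_mul, hFabs, one_mul]
      split_ifs
      · simp
      · simp
    exact le_of_mul_le_mul_left h1 hcpos
  have hyshift : ∀ (v : Fin k → G) (g : G), y (v + Pi.single l0 g) = y v + g := by
    intro v g
    have h1 : y (v + Pi.single l0 g) = y v + ∑ p ∈ A, (if p = (j0, l0) then g else 0) := by
      rw [hy]; simp only
      rw [← Finset.sum_add_distrib]
      apply Finset.sum_congr rfl
      intro p hp
      have hp' := hA p hp
      rw [Pi.add_apply, Pi.add_apply]
      by_cases h1 : p.1 = j0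
      · have h2 : p.2 ≠ j0 := by rw [← h1]; exact hp'.ne'
        simp only [h1, h2, if_true, if_false, add_zero]
        congr 1
        by_cases h3 : p.2 = l0
        · have : p = (j0, l0) := Prod.ext h1 h3
          rw [if_pos this, h3, Pi.single_eq_same]
        · have : p ≠ (j0, l0) := fun h => h3 (by rw [h])
          rw [if_neg this, Pi.single_eq_of_ne h3]
      · have h4 : p ≠ (j0, l0) := fun h => h1 (by rw [h])
        by_cases h2 : p.2 = j0
        · have h5 : p.1 ≠ l0 := by
            intro h; rw [h, h2] at hp'; exact absurd hlt (not_lt.2 hp'.le)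
          simp only [h1, h2, h4, if_true, if_false, add_zero, zero_add]
          rw [Pi.single_eq_of_ne h5, add_zero]
        · simp only [h1, h2, h4, if_false, add_zero]
    rw [h1, Finset.sum_ite_eq' A (j0, l0) (fun _ => g), if_pos hjl]
  have hR : (Fintype.card G : ℝ) * ∑ v : Fin k → G, (if ∀ g, D g (y v) = 0 then (1 : ℝ) else 0) =
      (Fintype.card G : ℝ) ^ k * ((univ.filter fun x : G => ∀ y, D x y = 0).card : ℝ) := by
    rw [hshiftsum (fun v => if ∀ g, D g (y v) = 0 then (1 : ℝ) else 0) l0]
    have : ∀ v : Fin k → G, ∑ g : G, (if ∀ g', D g' (y (v + Pi.single l0 g)) = 0 then (1 : ℝ)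
        else 0) = ((univ.filter fun x : G => ∀ y, D x y = 0).card : ℝ) := by
      intro v
      simp only [hyshift]
      rw [Finset.card_filter]
      push_cast
      refine Fintype.sum_equiv (Equiv.addLeft (y v)) _ _ (fun g => ?_)
      have : (∀ g', D g' (y v + g) = 0) ↔ ∀ z, D ((Equiv.addLeft (y v)) g) z = 0 := by
        constructor
        · intro h z; rw [hsym]; exact h z
        · intro h z; rw [hsym]; exact h z
      simp only [this]
    simp only [this]
    rw [Finset.sum_const, nsmul_eq_mul]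
    congr 1
    simp
  calc |∑ v, F v| * (Fintype.card G : ℝ) = (Fintype.card G : ℝ) * |∑ v, F v| := mul_comm _ _
    _ ≤ (Fintype.card G : ℝ) * ∑ v : Fin k → G, (if ∀ g, D g (y v) = 0 then (1 : ℝ) else 0) :=
        mul_le_mul_of_nonneg_left hS' hcpos.le
    _ = _ := hR

theorem t_LAI : S_LAI := by
  intro G _ _ D k hadd hsym
  set P := (univ : Finset (Fin k × Fin k)).filter fun p => p.1 < p.2 with hP
  have hPc : P.card = k * (k - 1) / 2 := LAIp.cardP k
  have hind : ∀ v : Fin k → G, (if ∀ j l, j < l → D (v j) (v l) = 0 then (1 : ℝ) else 0) *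
      2 ^ P.card = ∑ A ∈ P.powerset, ∏ p ∈ A, rs (D (v p.1) (v p.2)) := by
    intro v
    have h1 : ∑ A ∈ P.powerset, ∏ p ∈ A, rs (D (v p.1) (v p.2)) =
        ∏ p ∈ P, (1 + rs (D (v p.1) (v p.2))) := by
      rw [Finset.prod_one_add]
    rw [h1]
    split_ifs with h
    · rw [one_mul, Finset.prod_congr rfl (g := fun _ => (2 : ℝ)), Finset.prod_const]
      intro p hp
      have hp' : p.1 < p.2 := (Finset.mem_filter.1 hp).2
      rw [h _ _ hp', rs_zero]; norm_num
    · push Not at h
      obtain ⟨j, l, hjl, hD⟩ := h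
      rw [zero_mul, eq_comm]
      apply Finset.prod_eq_zero (i := (j, l)) (Finset.mem_filter.2 ⟨Finset.mem_univ _, hjl⟩)
      simp only [rs, if_neg hD]
      norm_num
  have hcount : ((univ.filter fun v : Fin k → G => ∀ j l, j < l → D (v j) (v l) = 0).card : ℝ) *
      2 ^ P.card = ∑ A ∈ P.powerset, ∑ v : Fin k → G, ∏ p ∈ A, rs (D (v p.1) (v p.2)) := by
    rw [Finset.sum_comm, ← Finset.sum_congr rfl (fun v _ => hind v), ← Finset.sum_mul]
    congr 1
    rw [Finset.card_filter]
    push_cast
    rfl
  rw [← hPc, hcount]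
  have hsplit : ∑ A ∈ P.powerset, ∑ v : Fin k → G, ∏ p ∈ A, rs (D (v p.1) (v p.2)) =
      (Fintype.card G : ℝ) ^ k +
        ∑ A ∈ P.powerset.erase ∅, ∑ v : Fin k → G, ∏ p ∈ A, rs (D (v p.1) (v p.2)) := by
    rw [← Finset.add_sum_erase _ _ (Finset.empty_mem_powerset P)]
    congr 1
    simp
  rw [hsplit, add_sub_cancel_left]
  have hRn : (0 : ℝ) ≤ ((univ.filter fun x : G => ∀ y, D x y = 0).card : ℝ) := Nat.cast_nonneg _
  have hGn : (0 : ℝ) ≤ (Fintype.card G : ℝ) := Nat.cast_nonneg _
  calc |∑ A ∈ P.powerset.erase ∅, ∑ v : Fin k → G, ∏ p ∈ A, rs (D (v p.1) (v p.2))| *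
        (Fintype.card G : ℝ)
      ≤ (∑ A ∈ P.powerset.erase ∅, |∑ v : Fin k → G, ∏ p ∈ A, rs (D (v p.1) (v p.2))|) *
        (Fintype.card G : ℝ) :=
        mul_le_mul_of_nonneg_right (Finset.abs_sum_le_sum_abs _ _) hGn
    _ = ∑ A ∈ P.powerset.erase ∅, |∑ v : Fin k → G, ∏ p ∈ A, rs (D (v p.1) (v p.2))| *
        (Fintype.card G : ℝ) := by rw [Finset.sum_mul]
    _ ≤ ∑ A ∈ P.powerset.erase ∅, (Fintype.card G : ℝ) ^ k *
        ((univ.filter fun x : G => ∀ y, D x y = 0).card : ℝ) := by
        apply Finset.sum_le_sum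
        intro A hA
        rw [Finset.mem_erase, Finset.mem_powerset] at hA
        exact LAIp.term D k hadd hsym A (fun p hp => (Finset.mem_filter.1 (hA.2 hp)).2)
          (Finset.nonempty_iff_ne_empty.2 hA.1)
    _ = ((P.powerset.erase ∅).card : ℝ) * ((Fintype.card G : ℝ) ^ k *
        ((univ.filter fun x : G => ∀ y, D x y = 0).card : ℝ)) := by
        rw [Finset.sum_const, nsmul_eq_mul]
    _ ≤ (2 : ℝ) ^ P.card * ((Fintype.card G : ℝ) ^ k *
        ((univ.filter fun x : G => ∀ y, D x y = 0).card : ℝ)) := by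
        apply mul_le_mul_of_nonneg_right _ (by positivity)
        have : (P.powerset.erase ∅).card ≤ 2 ^ P.card := by
          rw [← Finset.card_powerset]
          exact Finset.card_le_card (Finset.erase_subset _ _)
        exact_mod_cast this
    _ = _ := by ring

end Pool.Agent.T2h16.KD
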