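import Mathlib
import Pool.Agent.T2h16.KD.StmA

/-!
# Task LAM: all moments are nearly one
-/

set_option autoImplicit false
set_option linter.all false

open scoped Classical

namespace Pool.Agent.T2h16.KD.Lam

open Finset Filter

section gen

variable {T : Type} [Fintype T] (c : T → ZMod 2) (N : T → T → ZMod 2)

/-- the matrix as a linear map -/
noncomputable def ML : (T → ZMod 2) →ₗ[ZMod 2] (T → ZMod 2) where
  toFun v i := MV c N v i
  map_add' x y := by
    funext i
    simp only [MV, Pi.add_apply]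
    have : ∀ k, N i k * (x k + y k + (x i + y i)) = N i k * (x k + x i) + N i k * (y k + y i) :=
      fun k => by ring
    simp only [this, sum_add_distrib]
    ring
  map_smul' a x := by
    funext i
    simp only [MV, Pi.smul_apply, smul_eq_mul, RingHom.id_apply]
    have : ∀ k, N i k * (a * x k + a * x i) = a * (N i k * (x k + x i)) := fun k => by ring
    simp only [this, ← mul_sum]
    ring

theorem ML_apply (v : T → ZMod 2) (i : T) : ML c N v i = MV c N v i := rfl

theorem BF_add_right (x v w : T → ZMod 2) : BF c N x (v + w) = BF c N x v + BF c N x w := by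
  unfold BF
  rw [← sum_add_distrib]
  refine sum_congr rfl fun i _ => ?_
  rw [← ML_apply, map_add, Pi.add_apply, ML_apply, ML_apply]
  ring

theorem BF_zero_right (x : T → ZMod 2) : BF c N x 0 = 0 := by
  unfold BF
  refine sum_eq_zero fun i _ => ?_
  rw [← ML_apply, map_zero, Pi.zero_apply, mul_zero]

theorem BF_neg_right (x v : T → ZMod 2) : BF c N x (-v) = -BF c N x v := by
  unfold BF
  rw [← sum_neg_distrib]
  refine sum_congr rfl fun i _ => ?_
  rw [← ML_apply, map_neg, Pi.neg_apply, ML_apply]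
  ring

theorem BF_add_left (x y v : T → ZMod 2) : BF c N (x + y) v = BF c N x v + BF c N y v := by
  unfold BF
  rw [← sum_add_distrib]
  refine sum_congr rfl fun i _ => ?_
  rw [Pi.add_apply]
  ring

end gen

variable {U J : Type} [Fintype U] [Fintype J]

/-- the space `G` -/
noncomputable def GS (c : U ⊕ J → ZMod 2) (N : U ⊕ J → U ⊕ J → ZMod 2) :
    AddSubgroup (U ⊕ J → ZMod 2) where
  carrier := {v | InG c N v}
  add_mem' {v w} hv hw := fun x hx => by rw [BF_add_right, hv x hx, hw x hx, add_zero]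
  zero_mem' := fun x _ => BF_zero_right c N x
  neg_mem' {v} hv := fun x hx => by rw [BF_neg_right, hv x hx, neg_zero]

theorem mem_GS (c : U ⊕ J → ZMod 2) (N : U ⊕ J → U ⊕ J → ZMod 2) (v : U ⊕ J → ZMod 2) :
    v ∈ GS c N ↔ InG c N v := Iff.rfl

/-- the set of the vectors of `G` -/
noncomputable def GF (c : U ⊕ J → ZMod 2) (N : U ⊕ J → U ⊕ J → ZMod 2) :
    Finset (U ⊕ J → ZMod 2) := univ.filter fun v => InG c N v

theorem GF_pos (c : U ⊕ J → ZMod 2) (N : U ⊕ J → U ⊕ J → ZMod 2) : 0 < (GF c N).card := by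
  refine card_pos.2 ⟨0, ?_⟩
  rw [GF, mem_filter]
  exact ⟨mem_univ _, fun x _ => BF_zero_right c N x⟩

/-- the set of the vectors which are constant on `J` -/
noncomputable def KF (U J : Type) [Fintype U] [Fintype J] : Finset (U ⊕ J → ZMod 2) :=
  univ.filter fun v => K0 v

theorem card_KF : (KF U J).card ≤ 2 ^ (Fintype.card U + 1) := by
  have h : KF U J ⊆ (univ : Finset ((U → ZMod 2) × ZMod 2)).image
      (fun p => (Sum.elim p.1 (fun _ => p.2) : U ⊕ J → ZMod 2)) := by
    intro v hv
    rw [KF, mem_filter] at hv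
    obtain ⟨a, ha⟩ := hv.2
    rw [mem_image]
    refine ⟨(fun u => v (Sum.inl u), a), mem_univ _, ?_⟩
    funext i
    rcases i with u | j
    · rfl
    · exact (ha j).symm
  refine (card_le_card h).trans (card_image_le.trans ?_)
  rw [card_univ, Fintype.card_prod, Fintype.card_fun, ZMod.card, pow_succ]

/-- an independent tuple which is annihilated is independent modulo `K0` -/
theorem ind_of_killed [LinearOrder J] {e c : U ⊕ J → ZMod 2} {N : U ⊕ J → U ⊕ J → ZMod 2} {k : ℕ}
    (hN : NdA e c N) (α : prs J → ZMod 2) (v : Fin k → U ⊕ J → ZMod 2)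
    (hl : LinearIndependent (ZMod 2) v)
    (h : ∀ j i, MV c (fun i k => N i k + lift α i k) (v j) i = 0) : IndK v := by
  intro l hl0
  rw [Fintype.linearIndependent_iff] at hl
  refine hl l ?_
  have hx : (fun i => ∑ j, l j * v j i) = ∑ j, l j • v j := by
    funext i
    rw [Finset.sum_apply]
    rfl
  rw [hx] at hl0
  set x := ∑ j, l j • v j with hxd
  obtain ⟨a, ha⟩ := hl0
  have hM : ∀ i, MV c (fun i k => N i k + lift α i k) x i = 0 := by
    intro i
    rw [← ML_apply, hxd, map_sum, Finset.sum_apply]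
    refine sum_eq_zero fun j _ => ?_
    rw [map_smul, Pi.smul_apply, ML_apply, h, smul_zero]
  have h2 : ∀ i : J, ∑ u, (x (Sum.inl u) + a) * N (Sum.inr i) (Sum.inl u) + 0 * e (Sum.inr i) +
      a * c (Sum.inr i) = 0 := by
    intro i
    have h3 := hM (Sum.inr i)
    unfold MV at h3
    rw [Fintype.sum_sum_type] at h3
    have h4 : ∑ j : J, (N (Sum.inr i) (Sum.inr j) + lift α (Sum.inr i : U ⊕ J) (Sum.inr j)) *
        (x (Sum.inr j) + x (Sum.inr i)) = 0 := by
      refine sum_eq_zero fun j _ => ?_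
      rw [ha, ha, CharTwo.add_self_eq_zero, mul_zero]
    rw [h4, add_zero, ha] at h3
    have h5 : ∑ u : U, (N (Sum.inr i) (Sum.inl u) + lift α (Sum.inr i) (Sum.inl u)) *
        (x (Sum.inl u) + a) = ∑ u, (x (Sum.inl u) + a) * N (Sum.inr i) (Sum.inl u) := by
      refine sum_congr rfl fun u _ => ?_
      have : lift α (Sum.inr i) (Sum.inl u : U ⊕ J) = 0 := rfl
      rw [this, add_zero, mul_comm]
    rw [h5] at h3
    rw [zero_mul, add_zero, mul_comm a]
    rw [add_comm]
    exact h3
  have h6 : ¬ ((∃ u, x (Sum.inl u) + a ≠ 0) ∨ (0 : ZMod 2) ≠ 0 ∨ a ≠ 0) := by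
    intro h7
    obtain ⟨i, hi⟩ := hN (fun u => x (Sum.inl u) + a) 0 a h7
    exact hi (h2 i)
  push Not at h6
  obtain ⟨h7, -, h8⟩ := h6
  funext i
  rcases i with u | j
  · have := h7 u
    rw [h8, add_zero] at this
    exact this
  · rw [ha, h8]
    rfl

theorem li_of_ind {k : ℕ} {v : Fin k → U ⊕ J → ZMod 2} (h : IndK v) :
    LinearIndependent (ZMod 2) v := by
  rw [Fintype.linearIndependent_iff]
  intro l hl
  refine h l ⟨0, fun j => ?_⟩
  have := congrFun hl (Sum.inr j)
  rw [Finset.sum_apply] at this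
  exact this

/-- the radical -/
noncomputable def RF (c : U ⊕ J → ZMod 2) (N : U ⊕ J → U ⊕ J → ZMod 2) :
    Finset (U ⊕ J → ZMod 2) := univ.filter fun v : U ⊕ J → ZMod 2 => InG c N v ∧
        ∀ w, InG c N w → BF c N v w + BF c N w v = 0

/-- the isotropic tuples of `G` -/
noncomputable def IT (c : U ⊕ J → ZMod 2) (N : U ⊕ J → U ⊕ J → ZMod 2) (k : ℕ) :
    Finset (Fin k → U ⊕ J → ZMod 2) :=
  univ.filter fun v => (∀ j, InG c N (v j)) ∧
    ∀ j l, j < l → BF c N (v j) (v l) + BF c N (v l) (v j) = 0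

/-- the moment -/
theorem Wk_eq (hC : S_LAC) [LinearOrder J] {e c : U ⊕ J → ZMod 2} {N : U ⊕ J → U ⊕ J → ZMod 2}
    {k : ℕ} (hN : NdA e c N) :
    Wk c N k * 2 ^ (k * (Fintype.card J - 1)) =
      2 ^ ((prs J).card + k * (k - 1) / 2) * ((IT c N k).filter fun v => IndK v).card := by
  have h1 : Wk c N k = ∑ v ∈ univ.filter (fun v : Fin k → U ⊕ J → ZMod 2 => IndK v),
      (univ.filter fun α : prs J → ZMod 2 =>
        ∀ j i, MV c (fun i k => N i k + lift α i k) (v j) i = 0).card := by
    unfold Wk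
    rw [← card_sigma]
    refine card_bij' (fun q _ => ⟨q.2, q.1⟩) (fun q _ => (q.2, q.1)) ?_ ?_ ?_ ?_
    · intro q hq
      rw [mem_filter] at hq
      rw [mem_sigma, mem_filter, mem_filter]
      exact ⟨⟨mem_univ _, ind_of_killed hN q.1 q.2 hq.2.1 hq.2.2⟩, mem_univ _, hq.2.2⟩
    · intro q hq
      rw [mem_sigma, mem_filter, mem_filter] at hq
      rw [mem_filter]
      exact ⟨mem_univ _, li_of_ind hq.1.2, hq.2.2⟩
    · intro q _
      rfl
    · intro q _
      rfl
  rw [h1, sum_mul]
  rw [sum_congr rfl fun v hv => hC U J c N k v (mem_filter.1 hv).2]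
  rw [← sum_filter, sum_const, smul_eq_mul, mul_comm]
  congr 2
  ext v
  simp only [IT, mem_filter, mem_univ, true_and]
  tauto

/-- the tuples of `G` with a given nontrivial combination in `K0` are few -/
theorem count_l (c : U ⊕ J → ZMod 2) (N : U ⊕ J → U ⊕ J → ZMod 2) (k : ℕ) (l : Fin k → ZMod 2)
    (hl : l ≠ 0) :
    ((Fintype.piFinset fun _ : Fin k => GF c N).filter fun v =>
      K0 (fun i => ∑ j, l j * v j i)).card * (GF c N).card ≤
    (KF U J).card * (GF c N).card ^ k := by
  obtain ⟨j0, hj0⟩ : ∃ j, l j ≠ 0 := by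
    by_contra h
    push Not at h
    exact hl (funext h)
  have e1 : (GF c N).card ^ k = (Fintype.piFinset fun _ : Fin k => GF c N).card := by
    rw [Fintype.card_piFinset, prod_const, card_univ, Fintype.card_fin]
  rw [e1, ← card_product, ← card_product]
  refine card_le_card_of_injOn (fun p => ((fun i => ∑ j, l j * p.1 j i),
    Function.update p.1 j0 p.2)) ?_ ?_
  · intro p hp
    rw [mem_coe, mem_product, mem_filter, Fintype.mem_piFinset] at hp
    rw [mem_coe, mem_product, Fintype.mem_piFinset]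
    refine ⟨?_, fun j => ?_⟩
    · rw [KF, mem_filter]
      exact ⟨mem_univ _, hp.1.2⟩
    · dsimp only
      by_cases hj : j = j0
      · subst hj
        rw [Function.update_self]
        exact hp.2
      · rw [Function.update_of_ne hj]
        exact hp.1.1 j
  · intro p _ q _ hpq
    obtain ⟨p1, p2⟩ := p
    obtain ⟨q1, q2⟩ := q
    simp only [Prod.mk.injEq] at hpq
    obtain ⟨h1, h2⟩ := hpq
    have h3 : p2 = q2 := by
      have := congrFun h2 j0
      rwa [Function.update_self, Function.update_self] at this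
    have h4 : ∀ j, j ≠ j0 → p1 j = q1 j := by
      intro j hj
      have := congrFun h2 j
      rwa [Function.update_of_ne hj, Function.update_of_ne hj] at this
    have h5 : p1 = q1 := by
      funext j
      by_cases hj : j = j0
      · subst hj
        funext i
        have h6 := congrFun h1 i
        rw [← add_sum_erase _ _ (mem_univ j), ← add_sum_erase _ _ (mem_univ j)] at h6
        have h7 : ∑ x ∈ univ.erase j, l x * p1 x i = ∑ x ∈ univ.erase j, l x * q1 x i := by
          refine sum_congr rfl fun x hx => ?_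
          rw [h4 x (ne_of_mem_erase hx)]
        rw [h7] at h6
        exact mul_left_cancel₀ hj0 (add_right_cancel h6)
      · exact h4 j hj
    rw [h3, h5]

theorem count_dep (c : U ⊕ J → ZMod 2) (N : U ⊕ J → U ⊕ J → ZMod 2) (k : ℕ) :
    ((IT c N k).filter fun v => ¬ IndK v).card * (GF c N).card ≤
    2 ^ k * ((KF U J).card * (GF c N).card ^ k) := by
  have h1 : (IT c N k).filter (fun v => ¬ IndK v) ⊆
      (univ.filter fun l : Fin k → ZMod 2 => l ≠ 0).biUnion fun l =>
        (Fintype.piFinset fun _ : Fin k => GF c N).filter fun v =>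
          K0 (fun i => ∑ j, l j * v j i) := by
    intro v hv
    rw [mem_filter, IT, mem_filter] at hv
    obtain ⟨⟨-, h2, -⟩, h3⟩ := hv
    unfold IndK at h3
    push Not at h3
    obtain ⟨l, hl, j, hj⟩ := h3
    rw [mem_biUnion]
    refine ⟨l, ?_, ?_⟩
    · rw [mem_filter]
      exact ⟨mem_univ _, fun h => hj (by rw [h]; rfl)⟩
    · rw [mem_filter, Fintype.mem_piFinset]
      exact ⟨fun j => by rw [GF, mem_filter]; exact ⟨mem_univ _, h2 j⟩, hl⟩
  have h2 : ((IT c N k).filter fun v => ¬ IndK v).card ≤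
      ∑ l ∈ univ.filter (fun l : Fin k → ZMod 2 => l ≠ 0),
        ((Fintype.piFinset fun _ : Fin k => GF c N).filter fun v =>
          K0 (fun i => ∑ j, l j * v j i)).card := (card_le_card h1).trans card_biUnion_le
  refine (Nat.mul_le_mul_right _ h2).trans ?_
  rw [sum_mul]
  refine (sum_le_sum fun l hl => count_l c N k l (mem_filter.1 hl).2).trans ?_
  rw [sum_const, smul_eq_mul]
  refine Nat.mul_le_mul_right _ ?_
  refine (card_le_univ _).trans ?_
  rw [Fintype.card_fun, ZMod.card, Fintype.card_fin]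

/-- the number of the isotropic tuples -/
theorem iso_count (hI : S_LAI) (c : U ⊕ J → ZMod 2) (N : U ⊕ J → U ⊕ J → ZMod 2) (k : ℕ) :
    |((IT c N k).card : ℝ) * 2 ^ (k * (k - 1) / 2) - ((GF c N).card : ℝ) ^ k| *
        ((GF c N).card : ℝ) ≤
    2 ^ (k * (k - 1) / 2) * ((GF c N).card : ℝ) ^ k *
      ((RF c N).card : ℝ) := by
  have h := hI (GS c N) (fun x y => BF c N x.1 y.1 + BF c N y.1 x.1) k
    (fun x y z => by
      show BF c N (x.1 + y.1) z.1 + BF c N z.1 (x.1 + y.1) = _
      rw [BF_add_left, BF_add_right]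
      ring)
    (fun x y => add_comm _ _)
  have e1 : Fintype.card (GS c N) = (GF c N).card :=
    Fintype.card_of_subtype _ fun x => by simp only [GF, mem_filter, mem_univ, true_and]; rfl
  have e2 : (univ.filter fun v : Fin k → GS c N => ∀ j l, j < l →
      BF c N (v j).1 (v l).1 + BF c N (v l).1 (v j).1 = 0).card = (IT c N k).card := by
    refine card_bij' (fun v _ j => (v j).1)
      (fun v hv j => ⟨v j, (mem_GS c N _).2 ((mem_filter.1 hv).2.1 j)⟩) ?_ ?_ ?_ ?_
    · intro v hv
      rw [IT, mem_filter]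
      exact ⟨mem_univ _, fun j => (v j).2, (mem_filter.1 hv).2⟩
    · intro v hv
      rw [mem_filter]
      exact ⟨mem_univ _, (mem_filter.1 hv).2.2⟩
    · intro v _
      rfl
    · intro v _
      rfl
  have e3 : (univ.filter fun x : GS c N => ∀ y : GS c N,
      BF c N x.1 y.1 + BF c N y.1 x.1 = 0).card ≤ (RF c N).card := by
    refine card_le_card_of_injOn Subtype.val ?_ Subtype.val_injective.injOn
    intro x hx
    rw [mem_coe, mem_filter] at hx
    rw [mem_coe, RF, mem_filter]
    exact ⟨mem_univ _, x.2, fun w hw => hx.2 ⟨w, (mem_GS c N w).2 hw⟩⟩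
  rw [e1, e2] at h
  refine h.trans ?_
  refine mul_le_mul_of_nonneg_left (Nat.cast_le.2 e3) (by positivity)

end Pool.Agent.T2h16.KD.Lam

namespace Pool.Agent.T2h16.KD

open Finset Filter Lam

theorem t_LAM : S_LAMT := by
  intro hC hI hG U J _ _ _ e c N k hS hN
  obtain ⟨g1, g2⟩ := hG U J e c N hS hN
  set s := (univ.filter fun j : J => e (Sum.inr j) = 1).card with hs
  set u := Fintype.card U with hu
  set n := Fintype.card J with hn
  have hg0 : 0 < (GF c N).card := GF_pos c N
  have g1' : (GF c N).card * 2 = 2 ^ n := g1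
  have hn1 : 1 ≤ n := by
    rcases Nat.eq_zero_or_pos n with h | h
    · rw [h, pow_zero] at g1'
      omega
    · exact h
  have hsn : s ≤ n := by
    rw [hs, hn, ← card_univ]
    exact card_le_card (filter_subset _ _)
  have hgn : (GF c N).card = 2 ^ (n - 1) := by
    have : 2 ^ n = 2 ^ (n - 1) * 2 := by rw [← pow_succ, Nat.sub_add_cancel hn1]
    rw [this] at g1'
    exact Nat.eq_of_mul_eq_mul_right (by norm_num) g1'
  set g : ℝ := ((GF c N).card : ℝ) with hgd
  have hgpos : 0 < g := Nat.cast_pos.2 hg0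
  set q : ℝ := 2 ^ (k * (k - 1) / 2) with hq
  have hq0 : 0 < q := by positivity
  set A : ℝ := 2 ^ (prs J).card with hA
  have hA0 : 0 < A := by positivity
  set T : ℝ := (((IT c N k).filter fun v => IndK v).card : ℝ) with hT
  set D : ℝ := (((IT c N k).filter fun v => ¬ IndK v).card : ℝ) with hD
  have hTD : ((IT c N k).card : ℝ) = T + D := by
    rw [hT, hD, ← Nat.cast_add, card_filter_add_card_filter_not]
  have hW : (Wk c N k : ℝ) / A * g ^ k = q * T := by
    have h1 := Wk_eq (k := k) hC hN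
    have h2 : (Wk c N k : ℝ) * g ^ k = A * q * T := by
      have h3 : g ^ k = 2 ^ (k * (n - 1)) := by
        rw [hgd, hgn]
        push_cast
        rw [← pow_mul, mul_comm]
      rw [h3, hA, hq, ← pow_add, hT]
      exact_mod_cast h1
    rw [div_mul_eq_mul_div, h2, mul_assoc, mul_div_assoc, mul_comm A, div_mul_cancel₀ _ hA0.ne'] <;>
      ring
  have hI' := iso_count hI c N k
  rw [← hgd, ← hq, hTD] at hI'
  have hD' : D * g ≤ 2 ^ k * (2 ^ (u + 1) * g ^ k) := by
    have h1 := count_dep c N k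
    have h2 : ((KF U J).card : ℝ) ≤ 2 ^ (u + 1) := by exact_mod_cast card_KF (U := U) (J := J)
    have h3 : D * g ≤ 2 ^ k * (((KF U J).card : ℝ) * g ^ k) := by
      rw [hD, hgd]
      exact_mod_cast h1
    refine h3.trans ?_
    gcongr
  have g2' : (RF c N).card * 2 ^ s ≤ 2 ^ (n + 2 * u + 1) := g2
  set R : ℝ := ((RF c N).card : ℝ) with hR
  have hR' : R * 2 ^ s ≤ 2 ^ (2 * u + 2) * g := by
    have h1 : R * 2 ^ s ≤ 2 ^ (n + 2 * u + 1) := by
      rw [hR]
      exact_mod_cast g2'
    refine h1.trans (le_of_eq ?_)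
    rw [hgd, hgn]
    push_cast
    rw [← pow_add]
    congr 1
    omega
  have hs2 : (2 : ℝ) ^ s ≤ 2 * g := by
    have h1 : (2 : ℝ) * g = 2 ^ n := by
      rw [hgd, mul_comm]
      exact_mod_cast g1'
    rw [h1]
    exact pow_le_pow_right₀ (by norm_num) hsn
  set E : ℝ := (Wk c N k : ℝ) / A with hE
  have h1 : |E - 1| * g ≤ q * (R + 2 ^ k * 2 ^ (u + 1)) := by
    have hgk : 0 < g ^ k := by positivity
    have h2 : |E - 1| * g ^ k = |q * T - g ^ k| := by
      rw [← hW, ← abs_of_pos hgk, ← abs_mul, abs_of_pos hgk]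
      congr 1
      ring
    have h3 : |q * T - g ^ k| ≤ |(T + D) * q - g ^ k| + q * D := by
      have hD0 : 0 ≤ D := Nat.cast_nonneg _
      have e4 : q * T - g ^ k = ((T + D) * q - g ^ k) - q * D := by ring
      rw [e4]
      refine (abs_sub _ _).trans ?_
      rw [abs_of_nonneg (mul_nonneg hq0.le hD0)]
    have h4 : |q * T - g ^ k| * g ≤ q * (R + 2 ^ k * 2 ^ (u + 1)) * g ^ k := by
      calc |q * T - g ^ k| * g ≤ (|(T + D) * q - g ^ k| + q * D) * g :=
            mul_le_mul_of_nonneg_right h3 hgpos.le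
        _ = |(T + D) * q - g ^ k| * g + q * (D * g) := by ring
        _ ≤ q * g ^ k * R + q * (2 ^ k * (2 ^ (u + 1) * g ^ k)) :=
            add_le_add hI' (mul_le_mul_of_nonneg_left hD' hq0.le)
        _ = q * (R + 2 ^ k * 2 ^ (u + 1)) * g ^ k := by ring
    rw [← h2] at h4
    have h5 : |E - 1| * g * g ^ k ≤ q * (R + 2 ^ k * 2 ^ (u + 1)) * g ^ k := by
      calc |E - 1| * g * g ^ k = |E - 1| * g ^ k * g := by ring
        _ ≤ _ := h4
    exact le_of_mul_le_mul_right h5 hgk
  have h6 : |E - 1| * 2 ^ s ≤ q * (2 ^ (2 * u + 2) + 2 ^ k * 2 ^ (u + 2)) := by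
    have h7 : |E - 1| * 2 ^ s * g ≤ q * (2 ^ (2 * u + 2) + 2 ^ k * 2 ^ (u + 2)) * g := by
      calc |E - 1| * 2 ^ s * g = |E - 1| * g * 2 ^ s := by ring
        _ ≤ q * (R + 2 ^ k * 2 ^ (u + 1)) * 2 ^ s :=
            mul_le_mul_of_nonneg_right h1 (by positivity)
        _ = q * (R * 2 ^ s + 2 ^ k * 2 ^ (u + 1) * 2 ^ s) := by ring
        _ ≤ q * (2 ^ (2 * u + 2) * g + 2 ^ k * 2 ^ (u + 1) * (2 * g)) := by
            refine mul_le_mul_of_nonneg_left (add_le_add hR' ?_) hq0.le
            exact mul_le_mul_of_nonneg_left hs2 (by positivity)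
        _ = q * (2 ^ (2 * u + 2) + 2 ^ k * 2 ^ (u + 2)) * g := by
            rw [pow_succ (2 : ℝ) (u + 1)]
            ring
    exact le_of_mul_le_mul_right h7 hgpos
  refine h6.trans ?_
  have e5 : k * (k + 1) / 2 = k * (k - 1) / 2 + k := by
    have : k * (k + 1) = k * (k - 1) + k * 2 := by
      rcases k with _ | k
      · rfl
      · rw [Nat.add_sub_cancel]; ring
    rw [this, Nat.add_mul_div_right _ _ (by norm_num)]
  rw [e5, show k * (k - 1) / 2 + k + 2 * u + 3 = k * (k - 1) / 2 + (k + (2 * u + 3)) by ring,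
    pow_add (2 : ℝ) (k * (k - 1) / 2), ← hq]
  refine mul_le_mul_of_nonneg_left ?_ hq0.le
  have h8 : (1 : ℝ) ≤ 2 ^ k := one_le_pow₀ (by norm_num)
  have h9 : (2 : ℝ) ^ (u + 2) ≤ 2 ^ (2 * u + 2) := pow_le_pow_right₀ (by norm_num) (by omega)
  have h10 : (0 : ℝ) < 2 ^ (2 * u + 2) := by positivity
  rw [pow_add (2 : ℝ) k, show 2 * u + 3 = (2 * u + 2) + 1 by ring, pow_succ (2 : ℝ) (2 * u + 2)]
  nlinarith [mul_le_mul_of_nonneg_left h9 (by positivity : (0 : ℝ) ≤ 2 ^ k)]

end Pool.Agent.T2h16.KD
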