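import Pool.Agent.T2h16.KD.NS
import Pool.Agent.T2h16.KD.DIV

/-!
# Task LOW: the class has positive density
-/

set_option autoImplicit false

open scoped Classical

namespace Pool.Agent.T2h16.KD

open Finset Filter
open Pool.Agent.Y698 hiding zz
open Pool.Agent.Y698.SG
open Pool.Agent.T2h78.TW (PO te sl)

namespace LOWH

/-- primary elements with `te = 0` -/
noncomputable def AA (X : ℕ) : Finset RR := (ZB X).filter fun D => prm D ∧ te D = 0

/-- the class -/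
noncomputable def BC (X : ℕ) : Finset RR := (ZB X).filter fun D => DC D

lemma mem_AA {X : ℕ} {D : RR} : D ∈ AA X ↔ nrm D ≤ X ∧ prm D ∧ te D = 0 := by
  unfold AA; rw [mem_filter, mem_ZB]

lemma mem_BC {X : ℕ} {D : RR} : D ∈ BC X ↔ nrm D ≤ X ∧ DC D := by
  unfold BC; rw [mem_filter, mem_ZB]

lemma card_BC (X : ℕ) : (BC X).card = (SS X).card := by
  rw [← Nsl.card_cls, ← Set.ncard_coe_finset]
  congr 1
  ext D
  rw [Finset.mem_coe, mem_BC]
  rfl

lemma BC_mono {X Y : ℕ} (h : X ≤ Y) : BC X ⊆ BC Y := by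
  intro D hD
  rw [mem_BC] at hD ⊢
  exact ⟨hD.1.trans h, hD.2⟩

lemma BC_le (X : ℕ) : ((BC X).card : ℝ) ≤ 16 * X := by
  rcases Nat.eq_zero_or_pos X with h | h
  · subst h
    have : BC 0 = ∅ := by
      rw [eq_empty_iff_forall_notMem]
      intro D hD
      rw [mem_BC] at hD
      have h1 := (Nsl.dc_iff.1 hD.2).1.ne
      exact nrm_ne h1 (by omega)
    rw [this]; simp
  · refine le_trans ?_ (card_ZB_le h)
    exact_mod_cast card_le_card (filter_subset _ _)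

/-- the lower bound for all primary elements -/
lemma AA_low {X : ℕ} (hX : 3300 ≤ X) : (X : ℝ) / 3300 ≤ ((AA X).card : ℝ) := by
  obtain ⟨M, hM⟩ : ∃ M : ℕ, M = Nat.sqrt (X / 3300) := ⟨_, rfl⟩
  have h1 : M * M ≤ X / 3300 := by rw [hM]; exact Nat.sqrt_le _
  have h2 : X / 3300 < (M + 1) * (M + 1) := by rw [hM]; exact Nat.lt_succ_sqrt _
  have hM1 : 1 ≤ M := by
    rw [hM]
    have : 1 ≤ X / 3300 := (Nat.one_le_div_iff (by norm_num)).2 hX
    exact Nat.le_sqrt.2 (by omega)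
  have h3 : ((range (M + 1)) ×ˢ (range (M + 1))).card ≤ (AA X).card := by
    refine card_le_card_of_injOn (fun p => el (1 + 28 * (p.1 : ℤ)) (28 * (p.2 : ℤ))) ?_ ?_
    · intro p hp
      rw [Finset.mem_coe, mem_product, mem_range, mem_range] at hp
      rw [Finset.mem_coe, mem_AA]
      obtain ⟨e1, e2⟩ := cXY_el (1 + 28 * (p.1 : ℤ)) (28 * (p.2 : ℤ))
      have hp1 : (p.1 : ℤ) ≤ M := by exact_mod_cast (by omega : p.1 ≤ M)
      have hp2 : (p.2 : ℤ) ≤ M := by exact_mod_cast (by omega : p.2 ≤ M)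
      have hp3 : (0 : ℤ) ≤ p.1 := by positivity
      have hp4 : (0 : ℤ) ≤ p.2 := by positivity
      have hMc : (1 : ℤ) ≤ M := by exact_mod_cast hM1
      refine ⟨?_, ⟨?_, ?_, ?_⟩, ?_⟩
      · have h4 := nrm_eq' (el (1 + 28 * (p.1 : ℤ)) (28 * (p.2 : ℤ)))
        rw [e1, e2] at h4
        have h5 : (1 + 28 * (p.1 : ℤ)) ≤ 29 * M := by linarith
        have h6 : (28 * (p.2 : ℤ)) ≤ 28 * M := by linarith
        have h7 : (1 + 28 * (p.1 : ℤ)) ^ 2 ≤ (29 * M) ^ 2 := by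
          apply pow_le_pow_left₀ (by positivity) h5
        have h8 : (28 * (p.2 : ℤ)) ^ 2 ≤ (28 * M) ^ 2 := by
          apply pow_le_pow_left₀ (by positivity) h6
        have h9 : (1 + 28 * (p.1 : ℤ)) * (28 * (p.2 : ℤ)) ≤ (29 * M) * (28 * M) :=
          mul_le_mul h5 h6 (by positivity) (by positivity)
        have h10 : (nrm (el (1 + 28 * (p.1 : ℤ)) (28 * (p.2 : ℤ))) : ℤ) ≤ 3300 * (M * M) := by
          rw [h4]; nlinarith
        have h11 : nrm (el (1 + 28 * (p.1 : ℤ)) (28 * (p.2 : ℤ))) ≤ 3300 * (M * M) := by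
          exact_mod_cast h10
        have h12 : 3300 * (X / 3300) ≤ X := Nat.mul_div_le _ _
        exact h11.trans ((Nat.mul_le_mul_left 3300 h1).trans h12)
      · rw [e1]; omega
      · rw [e2]; omega
      · refine ⟨4 * fR * ((p.1 : RR) + (p.2 : RR) * aR), 1, ?_⟩
        unfold el
        push_cast
        linear_combination 4 * ((p.1 : RR) + (p.2 : RR) * aR) * fR_sq
      · rw [Nsl.te_zero_iff, e2]; omega
    · intro p _ p' _ h
      obtain ⟨e1, e2⟩ := cXY_el (1 + 28 * (p.1 : ℤ)) (28 * (p.2 : ℤ))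
      obtain ⟨e3, e4⟩ := cXY_el (1 + 28 * (p'.1 : ℤ)) (28 * (p'.2 : ℤ))
      have h' : el (1 + 28 * (p.1 : ℤ)) (28 * (p.2 : ℤ)) =
        el (1 + 28 * (p'.1 : ℤ)) (28 * (p'.2 : ℤ)) := h
      rw [h'] at e1 e2
      exact Prod.ext (by omega) (by omega)
  rw [card_product, card_range] at h3
  have h4 : X / 3300 + 1 ≤ (AA X).card := by omega
  have h5 : X ≤ 3300 * (AA X).card := by omega
  have h6 : (X : ℝ) ≤ 3300 * ((AA X).card : ℝ) := by exact_mod_cast h5
  linarith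

/-- every primary element is a square times a squarefree element -/
lemma sq_mul : ∀ n : RR, prm n → ∃ m s : RR, prm m ∧ PS s ∧ n = m ^ 2 * s := by
  apply pp_induction
  · exact ⟨1, 1, prm_one, PS_one, by ring⟩
  · intro π n k hπ hn hd hk ih
    obtain ⟨m, s, hm, hs, e⟩ := ih
    have hds : ¬ π ∣ s := fun h => hd (by rw [e]; exact h.mul_left _)
    rcases Nat.even_or_odd' k with ⟨j, hj | hj⟩
    · refine ⟨π ^ j * m, s, prm_mul (prm_pow (pq_prm hπ) j) hm, hs, ?_⟩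
      rw [hj, e]; ring
    · refine ⟨π ^ j * m, π * s, prm_mul (prm_pow (pq_prm hπ) j) hm, ?_, ?_⟩
      · refine (PS.mul_iff (pq_prm hπ) hs.prm).2 ⟨⟨pq_prm hπ, hπ.pr.irreducible.squarefree⟩, hs, ?_⟩
        exact (hπ.pr.irreducible.coprime_iff_not_dvd).2 hds
      · rw [hj, e]; ring

lemma AA_le (X : ℕ) : (AA X).card ≤ ∑ m ∈ PB X, (BC (X / nrm m ^ 2)).card := by
  have h0 : ∀ D : RR, ∃ m s : RR, prm D → prm m ∧ PS s ∧ D = m ^ 2 * s := by
    intro D
    by_cases hD : prm D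
    · obtain ⟨m, s, h1⟩ := sq_mul D hD
      exact ⟨m, s, fun _ => h1⟩
    · exact ⟨1, 1, fun h => absurd h hD⟩
  choose m s hms using h0
  rw [← card_sigma]
  refine card_le_card_of_injOn (fun D => ⟨m D, s D⟩) ?_ ?_
  · intro D hD
    rw [Finset.mem_coe, mem_AA] at hD
    obtain ⟨h1, h2, h3⟩ := hD
    obtain ⟨h4, h5, h6⟩ := hms D h2
    have h7 : nrm D = nrm (m D) ^ 2 * nrm (s D) := by
      conv_lhs => rw [h6]
      rw [nrm_mul, pow_two, nrm_mul, pow_two]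
    have h8 := nrm_pos' (prm_ne_zero h4)
    have h9 := nrm_pos' h5.ne
    rw [Finset.mem_coe, mem_sigma, mem_PB, mem_BC]
    refine ⟨⟨?_, h4⟩, ?_, ?_⟩
    · show nrm (m D) ≤ X
      calc nrm (m D) ≤ nrm (m D) ^ 2 := Nat.le_self_pow two_ne_zero _
        _ ≤ nrm (m D) ^ 2 * nrm (s D) := Nat.le_mul_of_pos_right _ h9
        _ ≤ X := by rw [← h7]; exact h1
    · show nrm (s D) ≤ X / nrm (m D) ^ 2
      rw [Nat.le_div_iff_mul_le (by positivity), mul_comm, ← h7]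
      exact h1
    · show DC (s D)
      rw [Nsl.dc_iff]
      refine ⟨h5, ?_⟩
      have h10 : te D = te (m D) + te (m D) + te (s D) := by
        conv_lhs => rw [h6]
        rw [Nsl.te_mul (by rw [pow_two]; exact prm_mul h4 h4) h5.prm, pow_two, Nsl.te_mul h4 h4]
      rw [h3, CharTwo.add_self_eq_zero, zero_add] at h10
      exact h10.symm
  · intro D hD D' hD' h
    rw [Finset.mem_coe, mem_AA] at hD hD'
    have h1 : m D = m D' := by injection h
    have h2 : s D = s D' := by injection h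
    rw [(hms D hD.2.1).2.2, (hms D' hD'.2.1).2.2, h1, h2]

/-- the tail -/
lemma tail (X J n : ℕ) : ∑ m ∈ (PB X).filter (fun m => 2 ^ J ≤ nrm m ∧ nrm m < 2 ^ (J + n)),
    (1 : ℝ) / (nrm m : ℝ) ^ 2 ≤ 64 / 2 ^ J * (1 - 1 / 2 ^ n) := by
  induction n with
  | zero =>
    rw [filter_false_of_mem]
    · simp
    · intro m _ h
      rw [add_zero] at h
      omega
  | succ n ih =>
    have h1 : (PB X).filter (fun m => 2 ^ J ≤ nrm m ∧ nrm m < 2 ^ (J + (n + 1))) ⊆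
        (PB X).filter (fun m => 2 ^ J ≤ nrm m ∧ nrm m < 2 ^ (J + n)) ∪
        (PB (2 ^ (J + n + 1))).filter (fun m => 2 ^ (J + n) ≤ nrm m) := by
      intro m hm
      rw [mem_filter, mem_PB] at hm
      obtain ⟨⟨h2, h3⟩, h4, h5⟩ := hm
      rw [← add_assoc] at h5
      rw [mem_union, mem_filter, mem_filter, mem_PB, mem_PB]
      rcases lt_or_ge (nrm m) (2 ^ (J + n)) with h6 | h6
      · exact Or.inl ⟨⟨h2, h3⟩, h4, h6⟩
      · exact Or.inr ⟨⟨h5.le, h3⟩, h6⟩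
    have h2 : ∑ m ∈ (PB (2 ^ (J + n + 1))).filter (fun m => 2 ^ (J + n) ≤ nrm m),
        (1 : ℝ) / (nrm m : ℝ) ^ 2 ≤ 32 / 2 ^ (J + n) := by
      have h3 : ∀ m ∈ (PB (2 ^ (J + n + 1))).filter (fun m => 2 ^ (J + n) ≤ nrm m),
          (1 : ℝ) / (nrm m : ℝ) ^ 2 ≤ 1 / ((2 : ℝ) ^ (J + n)) ^ 2 := by
        intro m hm
        have h4 : (2 : ℝ) ^ (J + n) ≤ nrm m := by exact_mod_cast (mem_filter.1 hm).2
        apply one_div_le_one_div_of_le (by positivity)
        exact pow_le_pow_left₀ (by positivity) h4 2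
      refine (sum_le_card_nsmul _ _ _ h3).trans ?_
      rw [nsmul_eq_mul]
      have h5 : (((PB (2 ^ (J + n + 1))).filter (fun m => 2 ^ (J + n) ≤ nrm m)).card : ℝ) ≤
          16 * (2 : ℝ) ^ (J + n + 1) := by
        have h6 := card_PB_le (M := 2 ^ (J + n + 1)) Nat.one_le_two_pow
        push_cast at h6
        refine le_trans ?_ h6
        exact_mod_cast card_le_card (filter_subset _ _)
      refine (mul_le_mul_of_nonneg_right h5 (by positivity)).trans ?_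
      apply le_of_eq
      rw [pow_succ]
      field_simp
      ring
    refine (sum_le_sum_of_subset_of_nonneg h1 fun m _ _ => by positivity).trans ?_
    have h7 := sum_union_inter (s₁ := (PB X).filter (fun m => 2 ^ J ≤ nrm m ∧ nrm m < 2 ^ (J + n)))
      (s₂ := (PB (2 ^ (J + n + 1))).filter (fun m => 2 ^ (J + n) ≤ nrm m))
      (f := fun m => (1 : ℝ) / (nrm m : ℝ) ^ 2)
    have h8 : (0 : ℝ) ≤ ∑ m ∈ (PB X).filter (fun m => 2 ^ J ≤ nrm m ∧ nrm m < 2 ^ (J + n)) ∩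
      (PB (2 ^ (J + n + 1))).filter (fun m => 2 ^ (J + n) ≤ nrm m), (1 : ℝ) / (nrm m : ℝ) ^ 2 :=
      sum_nonneg fun m _ => by positivity
    have h9 : (64 : ℝ) / 2 ^ J * (1 - 1 / 2 ^ n) + 32 / 2 ^ (J + n) =
        64 / 2 ^ J * (1 - 1 / 2 ^ (n + 1)) := by
      rw [pow_add, pow_succ]
      field_simp
      ring
    linarith

lemma tail' (X J : ℕ) : ∑ m ∈ (PB X).filter (fun m => 2 ^ J ≤ nrm m),
    (1 : ℝ) / (nrm m : ℝ) ^ 2 ≤ 64 / 2 ^ J := by
  have h1 := tail X J (X + 1)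
  have h2 : (PB X).filter (fun m => 2 ^ J ≤ nrm m) ⊆
      (PB X).filter (fun m => 2 ^ J ≤ nrm m ∧ nrm m < 2 ^ (J + (X + 1))) := by
    intro m hm
    rw [mem_filter] at hm ⊢
    refine ⟨hm.1, hm.2, ?_⟩
    have h3 := (mem_PB.1 hm.1).1
    calc nrm m < X + 1 := by omega
      _ < 2 ^ (X + 1) := Nat.lt_two_pow_self
      _ ≤ 2 ^ (J + (X + 1)) := Nat.pow_le_pow_right (by norm_num) (by omega)
  refine (sum_le_sum_of_subset_of_nonneg h2 fun m _ _ => by positivity).trans (h1.trans ?_)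
  have h3 : (0 : ℝ) ≤ 1 / 2 ^ (X + 1) := by positivity
  have h4 : (0 : ℝ) < 64 / 2 ^ J := by positivity
  nlinarith

end LOWH

open LOWH in
theorem t_LOW : S_LOW := by
  refine ⟨1 / (6600 * (16 * 2 ^ 23)), 3300, by norm_num, fun X hX => ?_⟩
  rw [← card_BC]
  have h1 := AA_low hX
  have h2 : ((AA X).card : ℝ) ≤ ∑ m ∈ PB X, ((BC (X / nrm m ^ 2)).card : ℝ) := by
    exact_mod_cast AA_le X
  rw [← sum_filter_add_sum_filter_not (PB X) (fun m => 2 ^ 23 ≤ nrm m)] at h2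
  have h3 : ∑ m ∈ (PB X).filter (fun m => 2 ^ 23 ≤ nrm m), ((BC (X / nrm m ^ 2)).card : ℝ) ≤
      16 * X * (64 / 2 ^ 23) := by
    refine le_trans ?_ (mul_le_mul_of_nonneg_left (tail' X 23) (by positivity))
    rw [mul_sum]
    refine sum_le_sum fun m hm => ?_
    refine (BC_le _).trans ?_
    rw [mul_assoc]
    refine mul_le_mul_of_nonneg_left ?_ (by norm_num)
    have := @Nat.cast_div_le ℝ _ _ _ X (nrm m ^ 2)
    push_cast at this
    rw [mul_one_div]
    exact this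
  have h4 : ∑ m ∈ (PB X).filter (fun m => ¬ 2 ^ 23 ≤ nrm m), ((BC (X / nrm m ^ 2)).card : ℝ) ≤
      (16 * 2 ^ 23) * ((BC X).card : ℝ) := by
    have h5 : ∀ m ∈ (PB X).filter (fun m => ¬ 2 ^ 23 ≤ nrm m),
        ((BC (X / nrm m ^ 2)).card : ℝ) ≤ ((BC X).card : ℝ) := fun m _ => by
      exact_mod_cast card_le_card (BC_mono (Nat.div_le_self _ _))
    refine (sum_le_card_nsmul _ _ _ h5).trans ?_
    rw [nsmul_eq_mul]
    refine mul_le_mul_of_nonneg_right ?_ (by positivity)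
    have h6 := card_PB_le (M := 2 ^ 23) Nat.one_le_two_pow
    rw [Nat.cast_pow, Nat.cast_ofNat] at h6
    refine le_trans ?_ h6
    have h7 : (PB X).filter (fun m => ¬ 2 ^ 23 ≤ nrm m) ⊆ PB (2 ^ 23) := by
      intro m hm
      rw [mem_filter, mem_PB] at hm
      rw [mem_PB]
      exact ⟨by omega, hm.1.2⟩
    exact_mod_cast card_le_card h7
  have hX0 : (0 : ℝ) ≤ X := Nat.cast_nonneg X
  have h5 : (16 : ℝ) * X * (64 / 2 ^ 23) ≤ X / 6600 := by
    have : (16 : ℝ) * X * (64 / 2 ^ 23) = X * (1 / 8192) := by ring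
    rw [this]
    have h6 : (1 : ℝ) / 8192 ≤ 1 / 6600 := by norm_num
    calc (X : ℝ) * (1 / 8192) ≤ X * (1 / 6600) := mul_le_mul_of_nonneg_left h6 hX0
      _ = X / 6600 := by ring
  have h6 : (X : ℝ) / 6600 ≤ (16 * 2 ^ 23) * ((BC X).card : ℝ) := by linarith
  calc 1 / (6600 * (16 * 2 ^ 23)) * (X : ℝ) = (X : ℝ) / 6600 / (16 * 2 ^ 23) := by ring
    _ ≤ (16 * 2 ^ 23) * ((BC X).card : ℝ) / (16 * 2 ^ 23) :=
        div_le_div_of_nonneg_right h6 (by positivity)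
    _ = ((BC X).card : ℝ) := by field_simp

end Pool.Agent.T2h16.KD
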