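import Pool.Agent.T2h16.KD.Stm

/-!
# Task MK: Mertens' theorem for the primary primes
-/

set_option autoImplicit false

open scoped Classical

namespace Pool.Agent.T2h16.KD

open Finset Filter
open Pool.Agent.Y698 hiding zz
open Pool.Agent.Y698.SG
open Pool.Agent.T2h78.TW (PO te sl)
open Pool.Agent.Y703.CQ (sg S_MER)

namespace MKH

/-- the classes modulo `56` which are odd squares modulo `7` -/
def R12 : Finset ℕ := (range 56).filter fun a => a % 2 = 1 ∧ (a % 7 = 1 ∨ a % 7 = 2 ∨ a % 7 = 4)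

/-- the classes which are moreover `3` modulo `4` -/
def R6 : Finset ℕ := R12.filter fun a => a % 4 = 3

lemma card_R12 : R12.card = 12 := by decide

lemma card_R6 : R6.card = 6 := by decide

lemma cop_R12 : ∀ a ∈ R12, Nat.Coprime a 56 := by decide

lemma mem_R12 {p : ℕ} : p % 56 ∈ R12 ↔ p % 2 = 1 ∧ (p % 7 = 1 ∨ p % 7 = 2 ∨ p % 7 = 4) := by
  unfold R12
  rw [mem_filter, mem_range]
  omega

lemma mem_R6 {p : ℕ} : p % 56 ∈ R6 ↔ p % 4 = 3 ∧ (p % 7 = 1 ∨ p % 7 = 2 ∨ p % 7 = 4) := by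
  unfold R6
  rw [mem_filter, mem_R12]
  omega

/-- primary primes with prime norm in the classes `R` -/
noncomputable def AR (R : Finset ℕ) (N : ℕ) : Finset RR :=
  (QB N).filter fun π => (nrm π).Prime ∧ nrm π % 56 ∈ R

lemma mem_AR {R : Finset ℕ} {N : ℕ} {π : RR} :
    π ∈ AR R N ↔ (nrm π ≤ N ∧ PO π) ∧ (nrm π).Prime ∧ nrm π % 56 ∈ R := by
  unfold AR; rw [mem_filter, mem_QB]

lemma sum_AR (hP : S_PCL) {R : Finset ℕ} (hR : R ⊆ R12) (N : ℕ) :
    ∑ π ∈ AR R N, (1 : ℝ) / nrm π = 2 * ∑ a ∈ R, ∑ p ∈ (range (N + 1)).filter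
      (fun p => p.Prime ∧ p % 56 = a % 56), (1 : ℝ) / p := by
  have h1 : ∑ π ∈ AR R N, (1 : ℝ) / nrm π =
      ∑ p ∈ (range (N + 1)).filter (fun p => p.Prime ∧ p % 56 ∈ R), 2 * ((1 : ℝ) / p) := by
    rw [← sum_fiberwise_of_maps_to (s := AR R N)
      (t := (range (N + 1)).filter (fun p => p.Prime ∧ p % 56 ∈ R)) (g := fun π => nrm π)]
    · refine sum_congr rfl fun p hp => ?_
      rw [mem_filter, mem_range] at hp
      obtain ⟨hp0, hp1, hp2⟩ := hp
      have h2 : (AR R N).filter (fun π => nrm π = p) = (QB p).filter fun π => nrm π = p := by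
        ext π
        rw [mem_filter, mem_filter, mem_AR, mem_QB]
        constructor
        · rintro ⟨⟨⟨h3, h4⟩, h5, h6⟩, h7⟩
          exact ⟨⟨h7.le, h4⟩, h7⟩
        · rintro ⟨⟨h3, h4⟩, h5⟩
          exact ⟨⟨⟨by omega, h4⟩, by rw [h5]; exact hp1, by rw [h5]; exact hp2⟩, h5⟩
      have h3 := mem_R12.1 (hR hp2)
      have h4 := hP.two p hp1 (by omega) h3.2
      calc ∑ π ∈ (AR R N).filter (fun π => nrm π = p), (1 : ℝ) / nrm π
          = ∑ π ∈ (AR R N).filter (fun π => nrm π = p), (1 : ℝ) / p :=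
            sum_congr rfl fun π hπ => by rw [(mem_filter.1 hπ).2]
        _ = 2 * ((1 : ℝ) / p) := by
            rw [sum_const, h2, h4, nsmul_eq_mul]; norm_num
    · intro π hπ
      rw [mem_AR] at hπ
      rw [mem_filter, mem_range]
      exact ⟨by omega, hπ.2⟩
  rw [h1, ← mul_sum]
  congr 1
  rw [← sum_fiberwise_of_maps_to (s := (range (N + 1)).filter (fun p => p.Prime ∧ p % 56 ∈ R))
    (t := R) (g := fun p => p % 56)]
  · refine sum_congr rfl fun a ha => sum_congr ?_ fun p _ => rfl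
    have ha' : a < 56 := by
      have := hR ha
      unfold R12 at this
      rw [mem_filter, mem_range] at this
      exact this.1
    ext p
    rw [mem_filter, mem_filter, mem_filter, Nat.mod_eq_of_lt ha']
    constructor
    · rintro ⟨⟨h2, h3, h4⟩, h5⟩
      exact ⟨h2, h3, h5⟩
    · rintro ⟨h2, h3, h4⟩
      exact ⟨⟨h2, h3, by rw [h4]; exact ha⟩, h4⟩
  · intro p hp
    exact (mem_filter.1 hp).2.2

lemma mer_AR (hM : S_MER) (hP : S_PCL) {R : Finset ℕ} (hR : R ⊆ R12) : ∃ C : ℝ, 0 ≤ C ∧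
    ∀ N : ℕ, 3 ≤ N → |∑ π ∈ AR R N, (1 : ℝ) / nrm π -
      (R.card : ℝ) / 12 * Real.log (Real.log N)| ≤ C := by
  have h1 : ∀ a : ℕ, ∃ C : ℝ, a ∈ R → ∀ y : ℕ, 3 ≤ y →
      |∑ p ∈ (range (y + 1)).filter (fun p => p.Prime ∧ p % 56 = a % 56), (1 : ℝ) / p -
        1 / 24 * Real.log (Real.log y)| ≤ C := by
    intro a
    by_cases ha : a ∈ R
    · obtain ⟨C, hC⟩ := hM a (cop_R12 a (hR ha))
      exact ⟨C, fun _ => hC⟩
    · exact ⟨0, fun h => absurd h ha⟩
  choose C hC using h1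
  have hb : ∀ N : ℕ, 3 ≤ N → |∑ π ∈ AR R N, (1 : ℝ) / nrm π -
      (R.card : ℝ) / 12 * Real.log (Real.log N)| ≤ 2 * ∑ a ∈ R, C a := by
    intro N hN
    rw [sum_AR hP hR]
    have h2 : 2 * ∑ a ∈ R, ∑ p ∈ (range (N + 1)).filter
        (fun p => p.Prime ∧ p % 56 = a % 56), (1 : ℝ) / p -
          (R.card : ℝ) / 12 * Real.log (Real.log N) =
        2 * ∑ a ∈ R, (∑ p ∈ (range (N + 1)).filter
        (fun p => p.Prime ∧ p % 56 = a % 56), (1 : ℝ) / p - 1 / 24 * Real.log (Real.log N)) := by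
      rw [sum_sub_distrib, sum_const, nsmul_eq_mul]
      ring
    rw [h2, abs_mul, abs_two]
    refine mul_le_mul_of_nonneg_left ?_ zero_le_two
    exact (abs_sum_le_sum_abs _ _).trans (sum_le_sum fun a ha => hC a ha N hN)
  exact ⟨2 * ∑ a ∈ R, C a, (abs_nonneg _).trans (hb 3 le_rfl), hb⟩

/-- the other primes -/
lemma sum_inert (hP : S_PCL) (N : ℕ) :
    ∑ π ∈ (QB N).filter (fun π => ¬ (nrm π).Prime), (1 : ℝ) / nrm π ≤ 2 := by
  have hmap : ∀ π ∈ (QB N).filter (fun π => ¬ (nrm π).Prime),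
      Nat.sqrt (nrm π) ∈ (Icc 1 N).filter Nat.Prime ∧ nrm π = Nat.sqrt (nrm π) ^ 2 := by
    intro π hπ
    rw [mem_filter, mem_QB] at hπ
    obtain ⟨⟨h1, h2⟩, h3⟩ := hπ
    rcases hP.nrm_ π h2 with h4 | ⟨p, hp, -, -, h5⟩
    · exact absurd h4.1 h3
    · have h6 : Nat.sqrt (nrm π) = p := by rw [h5, pow_two]; exact Nat.sqrt_eq p
      rw [h6]
      refine ⟨?_, h5⟩
      rw [mem_filter, mem_Icc]
      exact ⟨⟨hp.pos, (Nat.le_self_pow two_ne_zero p).trans (by rw [← h5]; exact h1)⟩, hp⟩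
  rw [← sum_fiberwise_of_maps_to (s := (QB N).filter (fun π => ¬ (nrm π).Prime))
    (t := (Icc 1 N).filter Nat.Prime) (g := fun π => Nat.sqrt (nrm π)) (fun π hπ => (hmap π hπ).1)]
  have h1 : ∀ p ∈ (Icc 1 N).filter Nat.Prime, ∑ π ∈ ((QB N).filter (fun π => ¬ (nrm π).Prime)).filter
      (fun π => Nat.sqrt (nrm π) = p), (1 : ℝ) / nrm π ≤ 1 / (p : ℝ) ^ 2 := by
    intro p hp
    rw [mem_filter, mem_Icc] at hp
    have h2 : (((QB N).filter (fun π => ¬ (nrm π).Prime)).filter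
        (fun π => Nat.sqrt (nrm π) = p)) ⊆ (QB (p ^ 2)).filter fun π => nrm π = p ^ 2 := by
      intro π hπ
      obtain ⟨h3, h4⟩ := mem_filter.1 hπ
      have h5 := (hmap π h3).2
      rw [h4] at h5
      rw [mem_filter, mem_QB]
      rw [mem_filter, mem_QB] at h3
      exact ⟨⟨h5.le, h3.1.2⟩, h5⟩
    have h6 : ((((QB N).filter (fun π => ¬ (nrm π).Prime)).filter
        (fun π => Nat.sqrt (nrm π) = p)).card : ℝ) ≤ 1 := by
      exact_mod_cast (card_le_card h2).trans (hP.one p hp.2)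
    have h7 : ∑ π ∈ ((QB N).filter (fun π => ¬ (nrm π).Prime)).filter
        (fun π => Nat.sqrt (nrm π) = p), (1 : ℝ) / nrm π =
        ∑ π ∈ ((QB N).filter (fun π => ¬ (nrm π).Prime)).filter
        (fun π => Nat.sqrt (nrm π) = p), (1 : ℝ) / (p : ℝ) ^ 2 := by
      refine sum_congr rfl fun π hπ => ?_
      have h3 := (mem_filter.1 (h2 hπ)).2
      rw [h3]; push_cast; rfl
    rw [h7, sum_const, nsmul_eq_mul]
    have h8 : (0 : ℝ) ≤ 1 / (p : ℝ) ^ 2 := by positivity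
    nlinarith
  refine (sum_le_sum h1).trans ?_
  have h2 : ∀ n : ℕ, 1 ≤ n → ∑ p ∈ Icc 1 n, (1 : ℝ) / (p : ℝ) ^ 2 ≤ 2 - 1 / (n : ℝ) := by
    intro n hn
    induction n, hn using Nat.le_induction with
    | base => simp; norm_num
    | succ n hn ih =>
      rw [sum_Icc_succ_top (by omega)]
      push_cast
      have h3 : (1 : ℝ) ≤ n := by exact_mod_cast hn
      have h4 : (1 : ℝ) / ((n : ℝ) + 1) ^ 2 ≤ 1 / (n : ℝ) - 1 / ((n : ℝ) + 1) := by
        have h5 : 1 / (n : ℝ) - 1 / ((n : ℝ) + 1) = 1 / ((n : ℝ) * (n + 1)) := by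
          field_simp
          ring
        rw [h5]
        exact one_div_le_one_div_of_le (by positivity) (by nlinarith)
      linarith
  refine (sum_le_sum_of_subset_of_nonneg (filter_subset _ _) fun p _ _ => by positivity).trans ?_
  rcases Nat.eq_zero_or_pos N with h3 | h3
  · subst h3
    simp
  · have h4 := h2 N h3
    have h5 : (0 : ℝ) < 1 / (N : ℝ) := by
      have : (0 : ℝ) < N := by exact_mod_cast h3
      positivity
    linarith

end MKH

open MKH in
theorem t_MK : S_MKT := by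
  intro hM hP
  obtain ⟨C1, hC1, h1⟩ := mer_AR hM hP (Subset.refl R12)
  obtain ⟨C2, hC2, h2⟩ := mer_AR hM hP (show R6 ⊆ R12 from filter_subset _ _)
  refine ⟨C1 + C2 + 2, by linarith, fun N hN => ⟨?_, ?_⟩⟩
  · have h3 := h1 N hN
    rw [card_R12] at h3
    have h4 : ∑ π ∈ QB N, (1 : ℝ) / nrm π = ∑ π ∈ AR R12 N, (1 : ℝ) / nrm π +
        ∑ π ∈ (QB N).filter (fun π => ¬ (nrm π).Prime), (1 : ℝ) / nrm π := by
      rw [← sum_filter_add_sum_filter_not (QB N) (fun π => (nrm π).Prime)]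
      congr 1
      refine sum_congr ?_ fun _ _ => rfl
      ext π
      rw [mem_AR, mem_filter, mem_QB]
      constructor
      · rintro ⟨h5, h6⟩
        refine ⟨h5, h6, ?_⟩
        rcases hP.nrm_ π h5.2 with h7 | ⟨p, hp, -, -, h8⟩
        · rw [mem_R12]
          have := h6.eq_two_or_odd
          exact ⟨by omega, h7.2.2⟩
        · exfalso
          rw [h8] at h6
          exact Nat.Prime.not_prime_pow le_rfl h6
      · rintro ⟨h5, h6, -⟩
        exact ⟨h5, h6⟩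
    have h5 := sum_inert hP N
    have h6 : (0 : ℝ) ≤ ∑ π ∈ (QB N).filter (fun π => ¬ (nrm π).Prime), (1 : ℝ) / nrm π :=
      sum_nonneg fun π _ => by positivity
    rw [h4]
    rw [abs_le] at h3 ⊢
    push_cast at h3
    constructor
    · linarith [h3.1]
    · linarith [h3.2]
  · have h3 := h2 N hN
    rw [card_R6] at h3
    have h4 : (QB N).filter (fun π => te π = 1) = AR R6 N := by
      ext π
      rw [mem_AR, mem_filter, mem_QB]
      constructor
      · rintro ⟨h5, h6⟩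
        have h7 := (hP.te_ π h5.2).1 h6
        rcases hP.nrm_ π h5.2 with h8 | ⟨p, hp, -, -, h8⟩
        · exact ⟨h5, h8.1, mem_R6.2 ⟨h7, h8.2.2⟩⟩
        · exfalso
          rw [h8, pow_two, Nat.mul_mod] at h7
          have h9 : p % 4 < 4 := Nat.mod_lt _ (by norm_num)
          interval_cases h10 : p % 4 <;> omega
      · rintro ⟨h5, h6, h7⟩
        exact ⟨h5, (hP.te_ π h5.2).2 (mem_R6.1 h7).1⟩
    rw [h4]
    rw [abs_le] at h3 ⊢
    push_cast at h3
    constructor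
    · linarith [h3.1]
    · linarith [h3.2]

end Pool.Agent.T2h16.KD
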