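import Pool.Agent.T2h16.KD.Stm

/-!
Project KD, task NS (helper93): translation between elements of `ℤ[ω]` and sets of primary primes.
-/

set_option autoImplicit false
set_option linter.unusedVariables false

open scoped Classical

namespace Pool.Agent.T2h16.KD.Nsl

open Finset Filter
open Pool.Agent.Y698 hiding zz
open Pool.Agent.Y698.SG
open Pool.Agent.T2h78.TW (PO te sl)

theorem nrm_prod (S : Finset RR) : nrm (∏ π ∈ S, π) = ∏ π ∈ S, nrm π := by
  induction S using Finset.induction_on with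
  | empty => rw [Finset.prod_empty, Finset.prod_empty, nrm_one]
  | insert a S ha ih => rw [Finset.prod_insert ha, Finset.prod_insert ha, nrm_mul, ih]

theorem te_zero_iff {a : RR} : te a = 0 ↔ cY a % 4 = 0 := by
  unfold te
  split_ifs with h
  · exact ⟨fun _ => h, fun _ => rfl⟩
  · exact ⟨fun h1 => absurd h1 (by decide), fun h1 => absurd h1 h⟩

theorem te_mul {a b : RR} (ha : prm a) (hb : prm b) : te (a * b) = te a + te b := by
  obtain ⟨k, hk⟩ : ∃ k, cX a = 1 + 4 * k := ⟨(cX a - 1) / 4, by have := ha.x4; omega⟩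
  obtain ⟨m, hm⟩ : ∃ m, cY a = 2 * m := ⟨cY a / 2, by have := ha.y2; omega⟩
  obtain ⟨l, hl⟩ : ∃ k, cX b = 1 + 4 * k := ⟨(cX b - 1) / 4, by have := hb.x4; omega⟩
  obtain ⟨n, hn⟩ : ∃ m, cY b = 2 * m := ⟨cY b / 2, by have := hb.y2; omega⟩
  have h : cY (a * b) = 2 * (m + n) + 4 * (2 * k * n + 2 * m * l + m * n) := by
    rw [(cXY_mul a b).2, hk, hm, hl, hn]; ring
  unfold te
  rw [h, hm, hn]
  generalize 2 * k * n + 2 * m * l + m * n = t
  rcases Int.even_or_odd' m with ⟨u, hu | hu⟩ <;> rcases Int.even_or_odd' n with ⟨v, hv | hv⟩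
  · rw [if_pos (by omega), if_pos (by omega), if_pos (by omega)]; rfl
  · rw [if_neg (by omega), if_pos (by omega), if_neg (by omega)]; rfl
  · rw [if_neg (by omega), if_neg (by omega), if_pos (by omega)]; rfl
  · rw [if_pos (by omega), if_neg (by omega), if_neg (by omega)]; rfl

theorem te_one : te 1 = 0 := by
  rw [te_zero_iff, cXY_one.2]; rfl

theorem te_prod {S : Finset RR} (hS : ∀ π ∈ S, prm π) : te (∏ π ∈ S, π) = ∑ π ∈ S, te π := by
  induction S using Finset.induction_on with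
  | empty => rw [Finset.prod_empty, Finset.sum_empty, te_one]
  | insert a S ha ih =>
    rw [Finset.prod_insert ha, Finset.sum_insert ha, te_mul (hS a (mem_insert_self _ _))
      (prm_prod fun π hπ => hS π (mem_insert_of_mem hπ)), ih fun π hπ => hS π (mem_insert_of_mem hπ)]

theorem dc_iff {D : RR} : DC D ↔ PS D ∧ te D = 0 := by
  rw [te_zero_iff]
  constructor
  · rintro ⟨h1, h2, h3, h4⟩
    exact ⟨⟨⟨h2, by omega, h4⟩, h1⟩, h3⟩
  · rintro ⟨h1, h2⟩
    exact ⟨h1.sqf, h1.prm.x4, h2, h1.prm.cop⟩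

theorem cls_iff {D : RR} (hD : PS D) : te D = 0 ↔ Cl (PD D) := by
  have h1 : ∀ π ∈ PD D, PO π := fun π hπ => ((mem_PD hD.ne).1 hπ).1
  have h2 := te_prod (S := PD D) fun π hπ => pq_prm (h1 π hπ)
  rw [hD.prod] at h2
  unfold Cl
  rw [h2]
  exact ⟨fun h => ⟨h1, h⟩, fun h => h.2⟩

theorem card_eq (X : ℕ) (Q : Finset RR → Prop) :
    {D : RR | nrm D ≤ X ∧ DC D ∧ Q (PD D)}.ncard = ((SS X).filter Q).card := by
  have h1 : {D : RR | nrm D ≤ X ∧ DC D ∧ Q (PD D)} =
      (fun S : Finset RR => ∏ π ∈ S, π) '' (((SS X).filter Q : Finset (Finset RR)) :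
        Set (Finset RR)) := by
    ext D
    constructor
    · rintro ⟨h4, h2, h3⟩
      obtain ⟨hD, h2⟩ := dc_iff.1 h2
      refine ⟨PD D, ?_, hD.prod⟩
      rw [Finset.mem_coe, Finset.mem_filter]
      refine ⟨?_, h3⟩
      unfold SS
      rw [Finset.mem_filter, Finset.mem_powerset]
      refine ⟨fun π hπ => ?_, (cls_iff hD).1 h2, ?_⟩
      · obtain ⟨h5, h6⟩ := (mem_PD hD.ne).1 hπ
        exact mem_QB.2 ⟨(norm_le_of_dvd hD.ne h6).trans h4, h5⟩
      · rw [← nrm_prod, hD.prod]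
        exact h4
    · rintro ⟨S, hS, rfl⟩
      rw [Finset.mem_coe, Finset.mem_filter] at hS
      obtain ⟨h1, h2⟩ := hS
      unfold SS at h1
      rw [Finset.mem_filter] at h1
      obtain ⟨-, h3, h4⟩ := h1
      obtain ⟨h5, h6⟩ := PS_prod h3.1
      refine ⟨?_, dc_iff.2 ⟨h5, (cls_iff h5).2 (by rw [h6]; exact h3)⟩, by rw [h6]; exact h2⟩
      rw [nrm_prod]
      exact h4
  rw [h1, Set.ncard_image_of_injOn, Set.ncard_coe_finset]
  intro S hS S' hS' h
  rw [Finset.mem_coe, Finset.mem_filter] at hS hS'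
  have e1 : ∀ π ∈ S, PO π := by
    have := hS.1
    unfold SS at this
    exact (Finset.mem_filter.1 this).2.1.1
  have e2 : ∀ π ∈ S', PO π := by
    have := hS'.1
    unfold SS at this
    exact (Finset.mem_filter.1 this).2.1.1
  rw [← (PS_prod e1).2, ← (PS_prod e2).2]
  exact congrArg PD h

theorem card_cls (X : ℕ) : {D : RR | nrm D ≤ X ∧ DC D}.ncard = (SS X).card := by
  have h := card_eq X (fun _ => True)
  rw [Finset.filter_true] at h
  rw [← h]
  congr 1
  ext D
  simp only [Set.mem_ofPred_eq, and_true]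

end Pool.Agent.T2h16.KD.Nsl

namespace Pool.Agent.T2h16.KD

theorem t_NS : S_NS := by
  intro h
  unfold S_DQ at h
  unfold S_DEN
  refine h.congr fun X => ?_
  rw [Nsl.card_cls, Nsl.card_eq]

end Pool.Agent.T2h16.KD
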