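import Pool.Agent.T2h16.KD.Stm
import Pool.Agent.T2h78.TW.Std
import Pool.Agent.Q283.TW.Arith

/-!
# The primes of `ℤ[ω]` and the reciprocity law
-/

set_option autoImplicit false
set_option linter.all false

open Finset

namespace Pool.Agent.T2h16.KD

open Pool.Agent.Y698 Pool.Agent.Y698.SG Pool.Agent.Y279.SG
open Pool.Agent.W192.HK (sp)
open Pool.Agent.T2h78.TW (PO Gq Sp1 Iq qs te sl)
open Pool.Agent.Y703.CQ (sg)

/-- the primes -/
lemma PO.cases {π : RR} (h : PO π) : (∃ p, Sp1 p π) ∨ ∃ q, Iq q ∧ π = ((qs q : ℤ) : RR) := by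
  have h0 := pq_ne h
  have h1 : nrm π ≠ 1 := fun h1 => h.pr.not_unit (nrm_one_iff.1 h1)
  -- a rational prime divisible by `π`
  have key : ∀ n : ℕ, n ≠ 0 → π ∣ (n : RR) → ∃ p : ℕ, p.Prime ∧ π ∣ (p : RR) := by
    intro n
    induction n using Nat.strong_induction_on with
    | _ n ih =>
      intro hn hd
      by_cases hn1 : n = 1
      · rw [hn1, Nat.cast_one] at hd
        exact absurd (isUnit_of_dvd_one hd) h.pr.not_unit
      · obtain ⟨p, hp, m, hm⟩ := Nat.exists_prime_and_dvd hn1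
        have hm0 : m ≠ 0 := by rintro rfl; exact hn (by rw [hm, mul_zero])
        rw [hm, Nat.cast_mul] at hd
        rcases h.pr.dvd_or_dvd hd with h2 | h2
        · exact ⟨p, hp, h2⟩
        · refine ih m ?_ hm0 h2
          rw [hm]
          have := hp.two_le
          have := Nat.pos_of_ne_zero hm0
          nlinarith
  obtain ⟨p, hp, hpd⟩ := key (nrm π) (nrm_ne h0) (dvd_nrm π)
  have h2 : p ≠ 2 := by
    rintro rfl
    have h3 := h.odd
    have h4 : π ∣ (2 : RR) := by exact_mod_cast hpd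
    exact h.pr.not_unit (h3.symm.isUnit_of_dvd' dvd_rfl h4)
  have h7 : p ≠ 7 := by
    rintro rfl
    have h3 := h.cop
    have h4 : π ∣ (7 : RR) := by exact_mod_cast hpd
    have h5 : (7 : RR) = -(fR * fR) := by
      have := fR_sq
      rw [← sq, this]
      ring
    rw [h5, dvd_neg] at h4
    rcases h.pr.dvd_or_dvd h4 with h6 | h6
    · exact h.pr.not_unit (h3.symm.isUnit_of_dvd' dvd_rfl h6)
    · exact h.pr.not_unit (h3.symm.isUnit_of_dvd' dvd_rfl h6)
  have hG : Gq p := ⟨hp, h2, h7⟩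
  by_cases hsq : IsSquare (-7 : ZMod p)
  · left
    obtain ⟨ϖ, hϖ⟩ := Pool.Agent.T2h78.TW.exists_Sp1 hG hsq
    refine ⟨p, ?_⟩
    have h8 : π ∣ ϖ * cj ϖ := by
      have h9 := mul_cj ϖ
      rw [h9, hϖ.nr]
      exact_mod_cast hpd
    rcases h.pr.dvd_or_dvd h8 with h9 | h9
    · rw [eq_of_dvd h hϖ.po h9]
      exact hϖ
    · have h10 : π ∣ Pool.Agent.T2h78.TW.nrm (cj ϖ) := by
        rcases Pool.Agent.T2h78.TW.nrm_cases (cj ϖ) with h11 | h11
        · rw [h11]; exact h9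
        · rw [h11]; exact h9.neg_right
      rw [eq_of_dvd h hϖ.cj.po h10]
      exact hϖ.cj
  · right
    have hI : Iq p := ⟨hG, hsq⟩
    refine ⟨p, hI, ?_⟩
    refine eq_of_dvd h hI.po ?_
    rw [← mem_sp, ]
    have h3 := Pool.Agent.T2h78.TW.sp_qs p
    have h4 : ((qs p : ℤ) : RR) ∈ sp (p : RR) := by
      rw [← h3]
      exact Ideal.mem_span_singleton_self _
    rw [mem_sp] at h4
    exact mem_sp.2 (hpd.trans h4)

/-- the reciprocity law -/
theorem rcp {π ρ : RR} (h : PO π) (h' : PO ρ) (hne : π ≠ ρ) :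
    sl π ρ + sl ρ π = te π * te ρ := by
  have n1 : ρ ∉ sp π := fun h1 => hne (eq_of_dvd h h' (mem_sp.1 h1))
  have n2 : π ∉ sp ρ := fun h1 => hne (eq_of_dvd h' h (mem_sp.1 h1)).symm
  rcases PO.cases h with ⟨p, a⟩ | ⟨p, a, rfl⟩ <;> rcases PO.cases h' with ⟨q, b⟩ | ⟨q, b, rfl⟩
  · rw [add_comm]
    exact a.rcp b n2 n1
  · rw [a.rcp2 b, Iq.te, mul_zero]
    exact CharTwo.add_self_eq_zero _
  · rw [b.rcp2 a, Iq.te, zero_mul]
    exact CharTwo.add_self_eq_zero _
  · have hpq : p ≠ q := fun h1 => hne (by rw [h1])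
    rw [a.rcp b hpq, b.rcp a hpq.symm, Iq.te, zero_mul, add_zero]

/-- the symbol of `√-7` -/
theorem sl_fR {π : RR} (h : PO π) : sl π fR = lg (e7 π) := by
  rcases PO.cases h with ⟨p, a⟩ | ⟨p, a, rfl⟩
  · exact a.fR
  · exact a.fR

lemma chi_rec {π ρ : RR} (h : PO π) (h' : PO ρ) : chi π ρ = sg (te π * te ρ) * chi ρ π := by
  by_cases he : π = ρ
  · subst he
    rw [chi_zero_iff.2 (dvd_refl π), mul_zero]
  · have h1 : ¬ π ∣ ρ := fun hd => he (eq_of_dvd h h' hd)
    have h2 : ¬ ρ ∣ π := fun hd => he (eq_of_dvd h' h hd).symm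
    rw [chi_of h1, chi_of h2, ← rcp h h' he, sg_add, mul_assoc, sg_mul_self, mul_one]

/-- reciprocity -/
theorem jac_rec {m n : RR} (hm : PS m) (hn : PS n) : jac m n = sg (tes m * tes n) * jac n m := by
  have h1 : jac m n = ∏ π ∈ PD m, ∏ ρ ∈ PD n, chi π ρ := by
    unfold jac
    refine Finset.prod_congr rfl fun π hπ => ?_
    have hπ' := ((mem_PD hm.ne).1 hπ).1
    have h2 := jac_prod (pq_ne hπ') (PD n) (fun ρ => ρ)
    rw [hn.prod, jac_prime hπ'] at h2
    rw [h2]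
    exact Finset.prod_congr rfl fun ρ _ => jac_prime hπ' ρ
  have h2 : jac n m = ∏ ρ ∈ PD n, ∏ π ∈ PD m, chi ρ π := by
    unfold jac
    refine Finset.prod_congr rfl fun π hπ => ?_
    have hπ' := ((mem_PD hn.ne).1 hπ).1
    have h2 := jac_prod (pq_ne hπ') (PD m) (fun ρ => ρ)
    rw [hm.prod, jac_prime hπ'] at h2
    rw [h2]
    exact Finset.prod_congr rfl fun ρ _ => jac_prime hπ' ρ
  have h3 : sg (tes m * tes n) = ∏ π ∈ PD m, ∏ ρ ∈ PD n, sg (te π * te ρ) := by
    unfold tes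
    rw [Finset.sum_mul_sum, sg_sum]
    exact Finset.prod_congr rfl fun π _ => sg_sum _ _
  rw [h1, h2, h3, Finset.prod_comm (s := PD n), ← Finset.prod_mul_distrib]
  refine Finset.prod_congr rfl fun π hπ => ?_
  rw [← Finset.prod_mul_distrib]
  refine Finset.prod_congr rfl fun ρ hρ => ?_
  exact chi_rec ((mem_PD hm.ne).1 hπ).1 ((mem_PD hn.ne).1 hρ).1

theorem t_RCP : S_RCP := fun _ _ h h' hne => rcp h h' hne

/-! ### the primes -/

lemma nrm_sp1 {p : ℕ} {π : RR} (h : Sp1 p π) : nrm π = p := by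
  have h1 := nrm_cast π
  rw [h.nr] at h1
  exact_mod_cast h1

lemma nrm_qs (q : ℕ) : nrm ((qs q : ℤ) : RR) = q ^ 2 := by
  have h1 := nrm_cast ((qs q : ℤ) : RR)
  have h2 : nR ((qs q : ℤ) : RR) = (qs q) ^ 2 := nR_int _
  rw [h2, Pool.Agent.T2h78.TW.qs_sq] at h1
  exact_mod_cast h1

lemma mod7 {p : ℕ} (hp : p.Prime) (h7 : p ≠ 7) : p % 7 ≠ 0 := by
  intro h
  have := (Nat.prime_dvd_prime_iff_eq (by norm_num) hp).1 (Nat.dvd_of_mod_eq_zero h)
  exact h7 this.symm

lemma sp1_sqr {p : ℕ} {π : RR} (h : Sp1 p π) : IsSquare (-7 : ZMod p) := by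
  have _ : Fact p.Prime := ⟨h.gp.pr⟩
  have h1 := h.nr
  unfold nR at h1
  have h2 : (((2 * cX π + cY π) ^ 2 + 7 * cY π ^ 2 : ℤ) : ZMod p) = 0 := by
    rw [ZMod.intCast_zmod_eq_zero_iff_dvd]
    exact ⟨4, by linear_combination 4 * h1⟩
  have h3 : ((cY π : ℤ) : ZMod p) ≠ 0 := by
    intro h0
    rw [ZMod.intCast_zmod_eq_zero_iff_dvd] at h0
    have hp := Nat.prime_iff_prime_int.1 h.gp.pr
    exact hp.not_isUnit (h.ycop.isUnit_of_dvd' h0 (dvd_refl _))
  push_cast at h2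
  refine ⟨(2 * (cX π : ZMod p) + (cY π : ZMod p)) / (cY π : ZMod p), ?_⟩
  field_simp
  linear_combination -h2

theorem t_PCL : S_PCL := by
  classical
  refine ⟨?_, ?_, ?_, ?_⟩
  · intro π h
    rcases PO.cases h with ⟨p, a⟩ | ⟨p, a, rfl⟩
    · left
      have _ : Fact p.Prime := ⟨a.gp.pr⟩
      rw [nrm_sp1 a]
      exact ⟨a.gp.pr, a.gp.n2, (Q283.TW.neg7_iff p a.gp.n2 a.gp.n7).1 (sp1_sqr a)⟩
    · right
      have _ : Fact p.Prime := ⟨a.pr⟩
      refine ⟨p, a.pr, a.n2, ?_, nrm_qs p⟩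
      have h1 := mt (Q283.TW.neg7_iff p a.n2 a.n7).2 a.ns
      have h2 := mod7 a.pr a.n7
      omega
  · intro π h
    have h1 := h.nR4
    have h2 := nrm_cast π
    have h3 := h.y2
    unfold Pool.Agent.T2h78.TW.te
    split_ifs with h4
    · constructor
      · intro h5
        exact absurd h5 (by decide)
      · intro h5
        omega
    · constructor
      · intro _
        omega
      · intro _
        rfl
  · intro p hp h2 h7
    have _ : Fact p.Prime := ⟨hp⟩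
    have hn7 : p ≠ 7 := by rintro rfl; omega
    have hG : Gq p := ⟨hp, h2, hn7⟩
    obtain ⟨ϖ, a⟩ := Pool.Agent.T2h78.TW.exists_Sp1 hG ((Q283.TW.neg7_iff p h2 hn7).2 h7)
    have hne : ϖ ≠ Pool.Agent.T2h78.TW.nrm (cj ϖ) := by
      intro h3
      have h4 := a.ne_cj
      rw [← h3] at h4
      exact h4 (Ideal.mem_span_singleton_self _)
    have h5 : ((QB p).filter fun π => nrm π = p) = {ϖ, Pool.Agent.T2h78.TW.nrm (cj ϖ)} := by
      ext π
      rw [mem_filter, mem_QB, mem_insert, mem_singleton]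
      constructor
      · rintro ⟨⟨_, h6⟩, h7'⟩
        have h8 : π ∣ ϖ * cj ϖ := by
          rw [mul_cj ϖ, a.nr]
          have h9 := dvd_nrm π
          rw [h7'] at h9
          exact_mod_cast h9
        rcases h6.pr.dvd_or_dvd h8 with h9 | h9
        · exact Or.inl (eq_of_dvd h6 a.po h9)
        · right
          have h10 : π ∣ Pool.Agent.T2h78.TW.nrm (cj ϖ) := by
            rcases Pool.Agent.T2h78.TW.nrm_cases (cj ϖ) with h11 | h11
            · rw [h11]; exact h9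
            · rw [h11]; exact h9.neg_right
          exact eq_of_dvd h6 a.cj.po h10
      · rintro (rfl | rfl)
        · exact ⟨⟨(nrm_sp1 a).le, a.po⟩, nrm_sp1 a⟩
        · exact ⟨⟨(nrm_sp1 a.cj).le, a.cj.po⟩, nrm_sp1 a.cj⟩
    rw [h5, Finset.card_pair hne]
  · intro p hp
    rw [Finset.card_le_one]
    have key : ∀ π ∈ (QB (p ^ 2)).filter (fun π => nrm π = p ^ 2), π = ((qs p : ℤ) : RR) := by
      intro π hπ
      rw [mem_filter, mem_QB] at hπ
      obtain ⟨⟨_, h1⟩, h2⟩ := hπ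
      rcases PO.cases h1 with ⟨q, a⟩ | ⟨q, a, rfl⟩
      · exfalso
        rw [nrm_sp1 a] at h2
        have h3 := a.gp.pr
        rw [h2] at h3
        exact Nat.Prime.not_prime_pow (le_refl 2) h3
      · rw [nrm_qs] at h2
        have h3 : q = p := Nat.pow_left_injective (n := 2) (by norm_num) h2
        rw [h3]
    intro a ha b hb
    rw [key a ha, key b hb]

end Pool.Agent.T2h16.KD
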