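import Pool.Agent.T2h16.KD.ASY
import Pool.Agent.T2h16.KD.BAD
import Pool.Agent.T2h16.KD.BIL
import Pool.Agent.T2h16.KD.BOX
import Pool.Agent.T2h16.KD.CHEB
import Pool.Agent.T2h16.KD.CHS
import Pool.Agent.T2h16.KD.CNT
import Pool.Agent.T2h16.KD.DIV
import Pool.Agent.T2h16.KD.EQ
import Pool.Agent.T2h16.KD.ETA
import Pool.Agent.T2h16.KD.FEW
import Pool.Agent.T2h16.KD.GEN
import Pool.Agent.T2h16.KD.HALG
import Pool.Agent.T2h16.KD.HALL
import Pool.Agent.T2h16.KD.HS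
import Pool.Agent.T2h16.KD.JSUM
import Pool.Agent.T2h16.KD.KEY
import Pool.Agent.T2h16.KD.LA
import Pool.Agent.T2h16.KD.LAB
import Pool.Agent.T2h16.KD.LAC
import Pool.Agent.T2h16.KD.LAG
import Pool.Agent.T2h16.KD.LAI
import Pool.Agent.T2h16.KD.LAM
import Pool.Agent.T2h16.KD.LOW
import Pool.Agent.T2h16.KD.MK
import Pool.Agent.T2h16.KD.NS
import Pool.Agent.T2h16.KD.Rcp
import Pool.Agent.Y405.CQ.MER

/-!
# Project KD: the natural density

Joint work: t_DIV, t_BOX, t_ASY, t_LAC (helper1), t_BAD, t_FEW, t_LAB, t_LAG, t_LAI (helper64),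
t_BIL, t_JSUM (helper30), t_CHEB, t_CNT (helper26), t_CHS, t_LOW, t_MK (helper62), t_EQ, t_HALG
(helper31), t_ETA, t_LA, t_LAM (helper75), t_GEN, t_HALL, t_HS, t_NS (helper93), t_KEY (helper11),
the rest and the plan (helper16).
-/

namespace Pool.Agent.T2h16.KD

/-- the natural density of the nonsingular matrices -/
theorem den : S_DEN := by
  have eq := t_EQ_of t_EQ
  have bil := t_BIL t_RCP t_JSUM t_DIV
  have la := t_LA (t_LAM t_LAC t_LAI t_LAG) t_LAB t_ETA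
  have hall := t_HALL t_CHEB
  have mk := t_MK Pool.Agent.Y405.CQ.t_MER t_PCL
  have halg := t_HALG t_CHS t_HS hall
  have gen := t_GEN mk
  exact t_NS (t_ASY t_RCP bil eq la t_BOX t_KEY t_HS (t_CNT t_HS t_CHEB) (t_BAD halg gen)
    (t_FEW hall mk gen) t_LOW t_ETA)

end Pool.Agent.T2h16.KD
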