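import Mathlib

/-!
Sums of periodic functions over the ellipses `x² - x y + y² ≤ V`.
-/

set_option autoImplicit false

open Finset

namespace Pool.Agent.T2h16.KD.Lat

lemma period_const {g : ℤ → ℂ} {N : ℕ} (hg : ∀ y, g (y + N) = g y) (a : ℤ) :
    ∑ i ∈ range N, g (a + i) = ∑ i ∈ range N, g i := by
  have step : ∀ a : ℤ, ∑ i ∈ range N, g (a + 1 + i) = ∑ i ∈ range N, g (a + i) := by
    intro a
    have h1 := sum_range_succ (fun i : ℕ => g (a + i)) N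
    have h2 := sum_range_succ' (fun i : ℕ => g (a + i)) N
    rw [h1] at h2
    simp only [Nat.cast_add, Nat.cast_one, Nat.cast_zero, add_zero] at h2
    have h3 : ∑ i ∈ range N, g (a + 1 + i) = ∑ i ∈ range N, g (a + (i + 1)) := by
      refine sum_congr rfl fun i _ => ?_
      congr 1
      ring
    rw [h3]
    have h4 := hg a
    rw [h4] at h2
    exact (add_right_cancel h2).symm
  induction a using Int.induction_on with
  | zero => simp
  | succ i ih => rw [step, ih]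
  | pred i ih =>
    rw [← ih, ← step (-(i : ℤ) - 1)]
    refine sum_congr rfl fun j _ => ?_
    congr 1
    ring

lemma ico_succ_top {g : ℤ → ℂ} (a : ℤ) (n : ℕ) :
    ∑ y ∈ Ico a (a + n), g y = ∑ i ∈ range n, g (a + i) := by
  induction n with
  | zero => simp
  | succ n ih =>
    rw [sum_range_succ, ← ih]
    have : Ico a (a + ((n + 1 : ℕ) : ℤ)) = insert (a + n) (Ico a (a + n)) := by
      ext y
      simp only [mem_Ico, mem_insert]
      push_cast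
      omega
    rw [this, sum_insert (by simp), add_comm]

/-- sums of a periodic function with mean zero over intervals -/
lemma range_bound {g : ℤ → ℂ} {N : ℕ} (hN : 0 < N) (hg : ∀ y, g (y + N) = g y)
    (h0 : ∑ i ∈ range N, g i = 0) {B : ℝ} (hB : ∀ y, ‖g y‖ ≤ B) :
    ∀ (n : ℕ) (a : ℤ), ‖∑ i ∈ range n, g (a + i)‖ ≤ B * N := by
  intro n
  induction n using Nat.strong_induction_on with
  | _ n ih =>
    intro a
    have hB0 : 0 ≤ B := (norm_nonneg _).trans (hB 0)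
    by_cases hn : n < N
    · refine (norm_sum_le _ _).trans ?_
      refine (sum_le_sum fun i _ => hB _).trans ?_
      rw [sum_const, card_range, nsmul_eq_mul, mul_comm]
      exact mul_le_mul_of_nonneg_left (by exact_mod_cast hn.le) hB0
    · push Not at hn
      obtain ⟨m, rfl⟩ := Nat.exists_eq_add_of_le hn
      rw [sum_range_add, period_const hg, h0, zero_add]
      have h1 := ih m (by omega) (a + N)
      refine le_trans (le_of_eq ?_) h1
      congr 1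
      refine sum_congr rfl fun i _ => ?_
      congr 1
      push_cast
      ring

/-- sums over convex sets -/
lemma conv_bound {g : ℤ → ℂ} {N : ℕ} (hN : 0 < N) (hg : ∀ y, g (y + N) = g y)
    (h0 : ∑ i ∈ range N, g i = 0) {B : ℝ} (hB : ∀ y, ‖g y‖ ≤ B) {S : Finset ℤ}
    (hS : ∀ a ∈ S, ∀ b ∈ S, ∀ x, a ≤ x → x ≤ b → x ∈ S) :
    ‖∑ y ∈ S, g y‖ ≤ B * N := by
  have hB0 : 0 ≤ B := (norm_nonneg _).trans (hB 0)
  by_cases hne : S.Nonempty
  · have h1 : S = Ico (S.min' hne) (S.min' hne + ((S.max' hne + 1 - S.min' hne).toNat : ℤ)) := by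
      have h2 := S.min'_le _ (S.max'_mem hne)
      ext y
      rw [mem_Ico]
      constructor
      · intro hy
        have h3 := S.min'_le y hy
        have h4 := S.le_max' y hy
        omega
      · rintro ⟨h3, h4⟩
        exact hS _ (S.min'_mem hne) _ (S.max'_mem hne) y h3 (by omega)
    rw [h1, ico_succ_top]
    exact range_bound hN hg h0 hB _ _
  · rw [not_nonempty_iff_eq_empty] at hne
    rw [hne, sum_empty, norm_zero]
    positivity

/-- chords -/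
noncomputable def chd (V : ℕ) (y : ℤ) : Finset ℤ :=
  (Icc (-(2 * V : ℤ)) (2 * V)).filter (fun x => x ^ 2 + x * y + 2 * y ^ 2 ≤ (V : ℤ))

/-- chords -/
noncomputable def chd' (V : ℕ) (x : ℤ) : Finset ℤ :=
  (Icc (-(2 * V : ℤ)) (2 * V)).filter (fun y => x ^ 2 + x * y + 2 * y ^ 2 ≤ (V : ℤ))

lemma abs_bound {V : ℕ} {x : ℤ} (h : x ^ 2 ≤ 2 * V) : -(2 * V : ℤ) ≤ x ∧ x ≤ 2 * V := by
  constructor
  · nlinarith [sq_nonneg (x + 1), sq_nonneg x]
  · nlinarith [sq_nonneg (x - 1)]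

lemma bx {V : ℕ} {x y : ℤ} (h : x ^ 2 + x * y + 2 * y ^ 2 ≤ (V : ℤ)) : x ^ 2 ≤ 2 * V := by
  nlinarith [sq_nonneg (4 * y + x), sq_nonneg x]

lemma by' {V : ℕ} {x y : ℤ} (h : x ^ 2 + x * y + 2 * y ^ 2 ≤ (V : ℤ)) : y ^ 2 ≤ 2 * V := by
  nlinarith [sq_nonneg (2 * x + y), sq_nonneg y]

lemma mem_chd {V : ℕ} {x y : ℤ} : x ∈ chd V y ↔ x ^ 2 + x * y + 2 * y ^ 2 ≤ (V : ℤ) := by
  unfold chd
  rw [mem_filter, mem_Icc]
  constructor
  · exact fun h => h.2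
  · intro h
    exact ⟨abs_bound (bx h), h⟩

lemma mem_chd' {V : ℕ} {x y : ℤ} : y ∈ chd' V x ↔ x ^ 2 + x * y + 2 * y ^ 2 ≤ (V : ℤ) := by
  unfold chd'
  rw [mem_filter, mem_Icc]
  constructor
  · exact fun h => h.2
  · intro h
    exact ⟨abs_bound (by' h), h⟩

lemma chd_conv (V : ℕ) (y : ℤ) : ∀ a ∈ chd V y, ∀ b ∈ chd V y, ∀ x, a ≤ x → x ≤ b → x ∈ chd V y := by
  intro a ha b hb x hax hxb
  rw [mem_chd] at *
  by_cases h : 2 * x + y ≤ 0
  · nlinarith [mul_nonneg (sub_nonneg.2 hax) (show 0 ≤ -(a + x + y) by omega)]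
  · push Not at h
    nlinarith [mul_nonneg (sub_nonneg.2 hxb) (show 0 ≤ b + x + y by omega)]

lemma chd_conv' (V : ℕ) (x : ℤ) : ∀ a ∈ chd' V x, ∀ b ∈ chd' V x, ∀ y, a ≤ y → y ≤ b → y ∈ chd' V x := by
  intro a ha b hb y hax hxb
  rw [mem_chd'] at *
  by_cases h : 4 * y + x ≤ 0
  · nlinarith [mul_nonneg (sub_nonneg.2 hax) (show 0 ≤ -(2 * a + 2 * y + x) by omega)]
  · push Not at h
    nlinarith [mul_nonneg (sub_nonneg.2 hxb) (show 0 ≤ 2 * b + 2 * y + x by omega)]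

lemma mem_sq {V : ℕ} {y : ℤ} : y ∈ Icc (-(Nat.sqrt (2 * V) : ℤ)) (Nat.sqrt (2 * V)) ↔ y ^ 2 ≤ 2 * V := by
  have e : y ∈ Icc (-(Nat.sqrt (2 * V) : ℤ)) (Nat.sqrt (2 * V)) ↔ y.natAbs ≤ Nat.sqrt (2 * V) := by
    rw [mem_Icc]
    omega
  rw [e, Nat.le_sqrt']
  zify
  rw [sq_abs]

/-- the ellipse -/
noncomputable def ell (V : ℕ) : Finset (ℤ × ℤ) :=
  ((Icc (-(Nat.sqrt (2 * V) : ℤ)) (Nat.sqrt (2 * V))).sigma (fun y => chd V y)).map
    ⟨fun p => (p.2, p.1), fun a b h => by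
      rw [Prod.mk.injEq] at h
      exact Sigma.ext h.2 (heq_of_eq h.1)⟩

lemma mem_ell {V : ℕ} {p : ℤ × ℤ} : p ∈ ell V ↔ p.1 ^ 2 + p.1 * p.2 + 2 * p.2 ^ 2 ≤ (V : ℤ) := by
  unfold ell
  rw [mem_map]
  constructor
  · rintro ⟨⟨y, x⟩, h, rfl⟩
    rw [mem_sigma] at h
    exact mem_chd.1 h.2
  · intro h
    refine ⟨⟨p.2, p.1⟩, ?_, rfl⟩
    rw [mem_sigma]
    exact ⟨mem_sq.2 (by' h), mem_chd.2 h⟩

lemma sum_ell {V : ℕ} (F : ℤ → ℤ → ℂ) : ∑ p ∈ ell V, F p.1 p.2 =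
    ∑ y ∈ Icc (-(Nat.sqrt (2 * V) : ℤ)) (Nat.sqrt (2 * V)), ∑ x ∈ chd V y, F x y := by
  unfold ell
  rw [sum_map, sum_sigma]
  rfl

lemma sum_ell' {V : ℕ} (F : ℤ → ℤ → ℂ) : ∑ p ∈ ell V, F p.1 p.2 =
    ∑ x ∈ Icc (-(Nat.sqrt (2 * V) : ℤ)) (Nat.sqrt (2 * V)), ∑ y ∈ chd' V x, F x y := by
  rw [sum_sigma']
  refine sum_bij' (fun p _ => (⟨p.1, p.2⟩ : (_ : ℤ) × ℤ)) (fun p _ => (p.1, p.2)) ?_ ?_ ?_ ?_ ?_
  · intro p hp
    rw [mem_ell] at hp
    rw [mem_sigma]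
    exact ⟨mem_sq.2 (bx hp), mem_chd'.2 hp⟩
  · intro p hp
    rw [mem_sigma] at hp
    exact mem_ell.2 (mem_chd'.1 hp.2)
  · intro p _; rfl
  · intro p _; rfl
  · intro p _; rfl

lemma sqrt_two (V : ℕ) : 2 * (Nat.sqrt (2 * V) : ℝ) + 1 ≤ 3 * Real.sqrt V + 1 := by
  have h1 : (Nat.sqrt (2 * V) : ℝ) ≤ Real.sqrt ((2 * V : ℕ) : ℝ) := Real.nat_sqrt_le_real_sqrt
  have h2 : Real.sqrt ((2 * V : ℕ) : ℝ) = Real.sqrt 2 * Real.sqrt V := by
    push_cast
    exact Real.sqrt_mul (by norm_num) _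
  have h3 : Real.sqrt 2 ≤ 3 / 2 := Real.sqrt_le_iff.2 ⟨by norm_num, by norm_num⟩
  have h4 := Real.sqrt_nonneg (V : ℝ)
  rw [h2] at h1
  nlinarith

/-- **sums over ellipses** -/
theorem ell_bound {f : ℤ → ℤ → ℂ} {N : ℕ} (hN : 0 < N) (h1 : ∀ x y, f (x + N) y = f x y)
    (h2 : ∀ x y, f x (y + N) = f x y) (h0 : ∑ i ∈ range N, ∑ j ∈ range N, f i j = 0)
    (hB : ∀ x y, ‖f x y‖ ≤ 1) (V : ℕ) :
    ‖∑ p ∈ ell V, f p.1 p.2‖ ≤ 3 * N * (3 * Real.sqrt V + 1) := by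
  have hNr : (0 : ℝ) < N := by exact_mod_cast hN
  have hNc : (N : ℂ) ≠ 0 := by exact_mod_cast hN.ne'
  set F : ℤ → ℂ := fun y => ∑ i ∈ range N, f i y with hF
  have hFp : ∀ y, F (y + N) = F y := fun y => sum_congr rfl fun j _ => h2 _ _
  have hF0 : ∑ i ∈ range N, F i = 0 := by
    rw [hF, sum_comm]
    exact h0
  have hFB : ∀ x, ‖F x‖ ≤ N := by
    intro x
    refine (norm_sum_le _ _).trans ((sum_le_sum fun j _ => hB _ _).trans ?_)
    simp
  set s := Nat.sqrt (2 * V) with hs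
  have hcard : ((Icc (-(s : ℤ)) s).card : ℝ) = 2 * s + 1 := by
    rw [Int.card_Icc]
    have : ((s : ℤ) + 1 - -(s : ℤ)).toNat = 2 * s + 1 := by omega
    rw [this]
    push_cast
    ring
  have hA : ‖∑ p ∈ ell V, (f p.1 p.2 - F p.2 / N)‖ ≤ 2 * N * (2 * s + 1) := by
    rw [sum_ell (fun x y => f x y - F y / N)]
    refine (norm_sum_le _ _).trans ?_
    have : ∀ y ∈ Icc (-(s : ℤ)) s, ‖∑ x ∈ chd V y, (f x y - F y / N)‖ ≤ 2 * N := by
      intro y _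
      refine conv_bound (g := fun x => f x y - F y / N) hN (fun x => by simp only [h1]) ?_ ?_
        (chd_conv V y)
      · rw [sum_sub_distrib, sum_const, card_range, nsmul_eq_mul]
        have : (N : ℂ) * (F y / N) = F y := by field_simp
        rw [this]
        show F y - F y = 0
        ring
      · intro x
        have e1 := hB x y
        have e2 : ‖F y / N‖ ≤ 1 := by
          rw [norm_div, Complex.norm_natCast, div_le_one hNr]
          exact hFB y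
        have := norm_sub_le (f x y) (F y / N)
        linarith
    refine (sum_le_sum this).trans ?_
    rw [sum_const, nsmul_eq_mul, hcard]
    linarith
  have hBd : ‖∑ p ∈ ell V, F p.2‖ ≤ (N * N) * (2 * s + 1) := by
    rw [sum_ell' (fun _ y => F y)]
    refine (norm_sum_le _ _).trans ?_
    have : ∀ x ∈ Icc (-(s : ℤ)) s, ‖∑ y ∈ chd' V x, F y‖ ≤ N * N := by
      intro x _
      exact conv_bound hN hFp hF0 hFB (chd_conv' V x)
    refine (sum_le_sum this).trans ?_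
    rw [sum_const, nsmul_eq_mul, hcard]
    linarith
  have e : ∑ p ∈ ell V, f p.1 p.2 = ∑ p ∈ ell V, (f p.1 p.2 - F p.2 / N) +
      (∑ p ∈ ell V, F p.2) / N := by
    rw [sum_sub_distrib, sum_div]
    ring
  rw [e]
  refine (norm_add_le _ _).trans ?_
  have hC : ‖(∑ p ∈ ell V, F p.2) / N‖ ≤ N * (2 * s + 1) := by
    rw [norm_div, Complex.norm_natCast, div_le_iff₀ hNr]
    nlinarith [hBd]
  have h3 : (N : ℝ) * (2 * s + 1) ≤ N * (3 * Real.sqrt V + 1) :=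
    mul_le_mul_of_nonneg_left (sqrt_two V) hNr.le
  have h4 := add_le_add hA hC
  refine h4.trans ?_
  nlinarith

/-- number of points of the ellipse -/
lemma card_ell_le (V : ℕ) : ((ell V).card : ℝ) ≤ (3 * Real.sqrt V + 1) ^ 2 := by
  have h : ell V ⊆ (Icc (-(Nat.sqrt (2 * V) : ℤ)) (Nat.sqrt (2 * V))) ×ˢ
      (Icc (-(Nat.sqrt (2 * V) : ℤ)) (Nat.sqrt (2 * V))) := by
    intro p hp
    rw [mem_ell] at hp
    rw [mem_product]
    exact ⟨mem_sq.2 (bx hp), mem_sq.2 (by' hp)⟩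
  have h1 := card_le_card h
  rw [card_product, Int.card_Icc] at h1
  have h2 : ((Nat.sqrt (2 * V) : ℤ) + 1 - -(Nat.sqrt (2 * V) : ℤ)).toNat = 2 * Nat.sqrt (2 * V) + 1 := by
    omega
  rw [h2] at h1
  have h3 : ((ell V).card : ℝ) ≤ (2 * (Nat.sqrt (2 * V) : ℝ) + 1) * (2 * (Nat.sqrt (2 * V) : ℝ) + 1) := by
    exact_mod_cast h1
  have h0 : (0 : ℝ) ≤ Nat.sqrt (2 * V) := Nat.cast_nonneg _
  have h4 := sqrt_two V
  nlinarith

end Pool.Agent.T2h16.KD.Lat
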