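import Pool.Agent.T2h16.KD.Sym
import Pool.Agent.T2h16.KD.StmA
import Pool.Agent.Y703.CX.Stm

/-!
# Project KD (helper16): the natural density over `ℤ[ω]`, `ω² = ω - 2`, i.e. over `K = ℚ(√-7)`

`D` runs over ALL squarefree elements of `ℤ[ω]` with `D ≡ 1 mod 4`, prime to `√-7`. The matrix over
`𝔽₂` of the twist of `X_0(49)` over `K` by `D` is nonsingular for exactly the proportion
`∏_{i ≥ 1} (1 - 2^{-i}) = 0.2887...`. Statements of the parts. Models: project XK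
(`Pool/Agent/Y703/XK/Stm.lean`, the Eisenstein integers) and project ND
(`Pool/Agent/T2h16/ND/Stm.lean`). The ring `ℤ[ω]` is `Pool.Agent.Y698.RR`; `cX a`, `cY a` are the
coordinates of `a = cX a + cY a * ω`; `nrm` is the norm; `PO π`: `π` is a prime element with
`cX π % 4 = 1`, `cY π % 2 = 0`, prime to `fR = √-7`; `prm`: primary elements; `PS`: squarefree
primary elements; `PD n`: the primary primes dividing `n` (`Pd.lean`, `Csum.lean`, `Sym.lean` in this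
folder correspond to `Pool/Agent/Y699/E/{Pd,Csum,Sym}.lean`, with the same names of the lemmas).
-/

set_option autoImplicit false
set_option linter.unusedVariables false

open scoped Classical

namespace Pool.Agent.T2h16.KD

open Finset Filter
open Pool.Agent.Y698 hiding zz
open Pool.Agent.Y698.SG
open Pool.Agent.T2h78.TW (PO te sl)
open Pool.Agent.Y703.CX (jj XX eL zz kk)
open Pool.Agent.Y703.CQ (sg S_MER)

/-! ### sets of elements -/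

/-- squarefree primary elements of norm at most `M` -/
noncomputable def SB (M : ℕ) : Finset RR := (ZB M).filter PS

/-- primary elements of norm at most `M` -/
noncomputable def PB (M : ℕ) : Finset RR := (ZB M).filter prm

/-- primary primes of norm at most `V` -/
noncomputable def QB (V : ℕ) : Finset RR := (ZB V).filter PO

lemma mem_SB {M : ℕ} {x : RR} : x ∈ SB M ↔ nrm x ≤ M ∧ PS x := by
  unfold SB; rw [mem_filter, mem_ZB]

lemma mem_PB {M : ℕ} {x : RR} : x ∈ PB M ↔ nrm x ≤ M ∧ prm x := by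
  unfold PB; rw [mem_filter, mem_ZB]

lemma mem_QB {V : ℕ} {x : RR} : x ∈ QB V ↔ nrm x ≤ V ∧ PO x := by
  unfold QB; rw [mem_filter, mem_ZB]

lemma card_SB_le {M : ℕ} (hM : 1 ≤ M) : ((SB M).card : ℝ) ≤ 16 * M := by
  refine le_trans ?_ (card_ZB_le hM)
  exact_mod_cast card_le_card (filter_subset _ _)

lemma card_PB_le {M : ℕ} (hM : 1 ≤ M) : ((PB M).card : ℝ) ≤ 16 * M := by
  refine le_trans ?_ (card_ZB_le hM)
  exact_mod_cast card_le_card (filter_subset _ _)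

/-- primary divisors -/
noncomputable def DP (n : RR) : Finset RR := (PB (nrm n)).filter (fun d => d ∣ n)

/-- `1 + log₂ T`, rounded -/
noncomputable abbrev L2 (T : ℕ) : ℝ := Pool.Agent.Y699.E.lg T

/-- the symbol of `π` modulo `ρ` (zero for `π = ρ`) -/
noncomputable def cs (π ρ : RR) : ZMod 2 := if π = ρ then 0 else sl ρ π

/-- the symbol modulo `√-7` -/
noncomputable def cc (π : RR) : ZMod 2 := lg (e7 π)

/-! ### the linear system, the class and the final statements -/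

/-- the kernel of the matrix -/
def Sol (S : Finset RR) (v : RR → ZMod 2) : Prop :=
  ∀ π ∈ S, cc π * v π + ∑ ρ ∈ S, cs π ρ * (v ρ + v π) = 0

/-- the good sets: the matrix is nonsingular -/
def Gd (S : Finset RR) : Prop := ∀ v, Sol S v → ∀ π ∈ S, v π = 0

/-- the class of the sets of primary primes: the product is `1` modulo `4` -/
def Cl (S : Finset RR) : Prop := (∀ π ∈ S, PO π) ∧ ∑ π ∈ S, te π = 0

/-- the sets of the class with norm at most `X` -/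
noncomputable def SS (X : ℕ) : Finset (Finset RR) :=
  (QB X).powerset.filter fun S => Cl S ∧ ∏ π ∈ S, nrm π ≤ X

/-- FINAL 1: the proportion of the good sets -/
def S_DQ : Prop := Tendsto
  (fun X : ℕ => (((SS X).filter Gd).card : ℝ) / ((SS X).card : ℝ)) atTop (nhds eta)

/-- the class of the elements -/
def DC (D : RR) : Prop := Squarefree D ∧ cX D % 4 = 1 ∧ cY D % 4 = 0 ∧ IsCoprime fR D

/-- FINAL 2: in terms of the elements `D` -/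
def S_DEN : Prop := Tendsto
  (fun X : ℕ => ({D : RR | nrm D ≤ X ∧ DC D ∧ Gd (PD D)}.ncard : ℝ) /
    ({D : RR | nrm D ≤ X ∧ DC D}.ncard : ℝ)) atTop (nhds eta)

/-- TASK NS: the translation (`Pool/Agent/Y550/XK/NS.lean`) -/
def S_NS : Prop := S_DQ → S_DEN

/-- TASK LOW: the class has positive density -/
def S_LOW : Prop := ∃ (c : ℝ) (X₀ : ℕ), 0 < c ∧ ∀ X : ℕ, X₀ ≤ X → c * X ≤ ((SS X).card : ℝ)

/-- the reciprocity law (proved in `Rcp.lean`) -/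
def S_RCP : Prop := ∀ π ρ : RR, PO π → PO ρ → π ≠ ρ → sl π ρ + sl ρ π = te π * te ρ

/-- the primes (proved in `Rcp.lean`): the primary primes which are not rational come in pairs of
norm `p`, `p` a rational prime which is a square modulo `7`; the others are `±p`, of norm `p ^ 2` -/
structure S_PCL : Prop where
  nrm_ : ∀ π : RR, PO π → ((nrm π).Prime ∧ nrm π ≠ 2 ∧ (nrm π % 7 = 1 ∨ nrm π % 7 = 2 ∨ nrm π % 7 = 4)) ∨
    ∃ p : ℕ, p.Prime ∧ p ≠ 2 ∧ (p % 7 = 3 ∨ p % 7 = 5 ∨ p % 7 = 6) ∧ nrm π = p ^ 2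
  te_ : ∀ π : RR, PO π → (te π = 1 ↔ nrm π % 4 = 3)
  two : ∀ p : ℕ, p.Prime → p ≠ 2 → (p % 7 = 1 ∨ p % 7 = 2 ∨ p % 7 = 4) →
    ((QB p).filter fun π => nrm π = p).card = 2
  one : ∀ p : ℕ, p.Prime → ((QB (p ^ 2)).filter fun π => nrm π = p ^ 2).card ≤ 1

/-! ### analysis -/

/-- TASK JSUM: the mean square (`Pool/Agent/Y699/E/Jsum.lean`) -/
def S_JSUM : Prop := ∃ C : ℝ, 1 ≤ C ∧ ∀ γ : RR → ℂ, (∀ x, ‖γ x‖ ≤ 1) → ∀ M N : ℕ, 1 ≤ M →
  M ^ 6 ≤ N → ∑ h ∈ PB N, ‖∑ x ∈ SB M, γ x * jac x h‖ ^ 2 ≤ C * (M * N)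

/-- TASK DIV: the divisor bound (`Pool/Agent/Y699/E/Div.lean`) -/
def S_DIV : Prop := ∀ ε : ℝ, 0 < ε → ∃ C : ℝ, 1 ≤ C ∧ ∀ n : RR, prm n →
  ((DP n).card : ℝ) ≤ C * (nrm n : ℝ) ^ ε

/-- bilinear sums of quadratic symbols -/
def S_BIL : Prop := ∃ C : ℝ, 1 ≤ C ∧ ∀ (P Q : Finset RR) (A B z : ℕ) (c d : RR → ℂ),
  (∀ π ∈ P, PO π ∧ nrm π ≤ A) → (∀ ρ ∈ Q, PO ρ ∧ nrm ρ ≤ B) → Disjoint P Q →
  1 ≤ z → z ≤ A → z ≤ B → (∀ π, ‖c π‖ ≤ 1) → (∀ ρ, ‖d ρ‖ ≤ 1) →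
  ‖∑ π ∈ P, ∑ ρ ∈ Q, c π * d ρ * sg (cs π ρ)‖ ^ 24 * z ≤ C * ((A : ℝ) * B) ^ 24

/-- TASK BIL (`Pool/Agent/Y699/E/Box.lean` and `Pool/Agent/Y363/XK/Bil.lean`) -/
def S_BILT : Prop := S_RCP → S_JSUM → S_DIV → S_BIL

/-- TASK HS: harmonic sums and annuli (`Pool/Agent/Y699/E/Lg.lean`) -/
def S_HS : Prop := (∀ T : ℕ, ∑ x ∈ PB T, (1 : ℝ) / nrm x ≤ 32 * L2 T) ∧
  ∀ V1 V2 : ℕ, ((ZB V2).filter (fun a => V1 < nrm a)).card ≤
    (2 * Nat.sqrt (2 * V2) + 1) * (2 * (Nat.sqrt (4 * (V2 - V1)) + 1))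

/-- TASK CHEB: Chebyshev's bound (`Pool/Agent/Y699/E/Cheb.lean`) -/
def S_CHEB : Prop := ∀ V : ℕ, ∑ π ∈ QB V, Real.log (nrm π) ≤ 6 * V

/-- Mertens' theorem for all primes and for the primes of norm `3` modulo `4` -/
def S_MK : Prop := ∃ C : ℝ, 0 ≤ C ∧ ∀ N : ℕ, 3 ≤ N →
  |∑ π ∈ QB N, (1 : ℝ) / nrm π - Real.log (Real.log N)| ≤ C ∧
  |∑ π ∈ (QB N).filter (fun π => te π = 1), (1 : ℝ) / nrm π - 1 / 2 * Real.log (Real.log N)| ≤ C

/-- TASK MK -/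
def S_MKT : Prop := S_MER → S_PCL → S_MK

/-- a multiplicative function of the squarefree elements -/
noncomputable def mf (g : RR → ℝ) (n : RR) : ℝ := ∏ π ∈ PD n, g π

/-- the logarithm on average -/
def S_HALL : Prop := ∃ C : ℝ, 1 ≤ C ∧ ∀ g : RR → ℝ, (∀ π, 0 ≤ g π) → (∀ π, g π ≤ 1) →
  ∀ T : ℕ, 1 ≤ T → (∑ n ∈ SB T, mf g n) * L2 T ≤ C * T * ∑ n ∈ SB T, mf g n / nrm n

/-- TASK HALL (`hall1` in `Pool/Agent/Y699/E/Hall.lean`) -/
def S_HALLT : Prop := S_CHEB → S_HALL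

/-- the characters which occur: `W` a set of primary primes -/
noncomputable def xw (W : Finset RR) (a b : ZMod 2) (n : RR) : ℂ :=
  (∏ u ∈ W, chi u n) * sg (a * te n) * sg (b * cc n)

/-- TASK CHS: the sums of the nontrivial characters -/
def S_CHS : Prop := ∃ C : ℝ, 1 ≤ C ∧ ∀ (W : Finset RR) (a b : ZMod 2), (∀ u ∈ W, PO u) →
  (W.Nonempty ∨ a ≠ 0 ∨ b ≠ 0) → ∀ V : ℕ, 1 ≤ V →
  ‖∑ n ∈ PB V, xw W a b n‖ ≤ C * ((∏ u ∈ W, nrm u : ℕ) : ℝ) * Real.sqrt V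

/-- the mean value for a character -/
def S_HALG : Prop := ∃ C : ℝ, 1 ≤ C ∧ ∀ (W : Finset RR) (a b : ZMod 2), (∀ u ∈ W, PO u) →
  (W.Nonempty ∨ a ≠ 0 ∨ b ≠ 0) → ∀ T : ℕ,
  ∑ n ∈ SB T, mf (fun π => (1 + (xw W a b π).re) / 2) n ≤
    C * (L2 (∏ u ∈ W, nrm u)) ^ (1 / 2 : ℝ) * (T * (L2 T) ^ (-(1 / 2) : ℝ))

/-- TASK HALG (`hallG` in `Pool/Agent/Y699/E/Hal2.lean`) -/
def S_HALGT : Prop := S_CHS → S_HS → S_HALL → S_HALG

/-! ### equidistribution -/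

/-- the bilinear hypothesis for a box -/
def HB {ι : Type} (C : ι → Finset RR) (X : ι → ℕ) (κ : ℝ) : Prop := HBg cs C X κ

/-- equidistribution of the symbols of a tuple (a special case of `S_EQg`) -/
def S_EQ : Prop := ∀ (ι : Type) [Fintype ι] [LinearOrder ι] (C : ι → Finset RR)
  (X : ι → ℕ) (κ : ℝ), 0 ≤ κ → (∀ i, (C i).card ≤ X i) → HB C X κ →
  ∀ Q : (prs ι → ZMod 2) → Prop,
    |(((Fintype.piFinset C).filter fun p => Q fun e => cs (p e.1.1) (p e.1.2)).card : ℝ) -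
      ((univ.filter Q).card : ℝ) / 2 ^ (prs ι).card * ∏ j, ((C j).card : ℝ)| ≤
    2 ^ (prs ι).card * (κ * ∏ j, (X j : ℝ))

theorem t_EQ_of (h : S_EQg) : S_EQ := fun ι _ _ C X κ h0 h1 h2 => h RR cs ι C X κ h0 h1 h2

lemma sg2_eq (a : ZMod 2) : sg2 a = sg a := rfl

/-! ### the boxes -/

/-- the labels of the large primes with respect to the small ones are not degenerate -/
def Nd (S₀ S₁ : Finset RR) : Prop :=
  ∀ (w : RR → ZMod 2) (a b : ZMod 2), ((∃ u ∈ S₀, w u ≠ 0) ∨ a ≠ 0 ∨ b ≠ 0) →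
    ∃ π ∈ S₁, ∑ u ∈ S₀, w u * cs π u + a * te π + b * cc π ≠ 0

/-- TASK BOX: the count in a box (`Pool/Agent/Y688/XK/BOX.lean`) -/
def S_BOX : Prop := S_RCP → S_EQ → S_LA → ∀ (ι : Type) [Fintype ι] [LinearOrder ι] (t : ι → ZMod 2)
  (C : ι → Finset RR) (X : ι → ℕ) (κ : ℝ) (S₀ : Finset RR) (V : ℕ), 0 ≤ κ →
  (∀ i, (C i).card ≤ X i) → HB C X κ → (∀ u ∈ S₀, PO u) →
  (∀ i, ∀ π ∈ C i, PO π ∧ π ∉ S₀ ∧ te π = t i) →
  (∀ i l, i ≠ l → Disjoint (C i) (C l)) → ∑ u ∈ S₀, te u + ∑ i, t i = 0 →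
  2 * S₀.card + (V ^ 2 + 10) ≤ (univ.filter fun i => t i = 1).card →
  |(((Fintype.piFinset C).filter fun p => Nd S₀ (univ.image p) ∧ Gd (S₀ ∪ univ.image p)).card : ℝ) -
      eta * (((Fintype.piFinset C).filter fun p => Nd S₀ (univ.image p)).card : ℝ)| ≤
    8 * (1 / 2 : ℝ) ^ V * (((Fintype.piFinset C).filter fun p => Nd S₀ (univ.image p)).card : ℝ) +
    2 ^ ((S₀.card + 1) * Fintype.card ι + (prs ι).card) * (κ * ∏ j, (X j : ℝ))

/-- the small primes of a set -/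
noncomputable def sm (z : ℕ) (S : Finset RR) : Finset RR := S.filter fun π => nrm π ≤ z

/-- the large primes of a set -/
noncomputable def la (z : ℕ) (S : Finset RR) : Finset RR := S.filter fun π => ¬ nrm π ≤ z

/-- the number of the large primes of norm `3` modulo `4` -/
noncomputable def nt (z : ℕ) (S : Finset RR) : ℕ := ((la z S).filter fun π => te π = 1).card

/-- the number of the block of a prime -/
noncomputable def bl (H : ℕ) (π : RR) : ℕ := jj H (nrm π)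

/-- the regular sets -/
noncomputable def RS (X z H k V : ℕ) : Finset (Finset RR) :=
  (SS X).filter fun S => Set.InjOn (bl H) (la z S : Set RR) ∧ S.card ≤ k ∧
    (∏ π ∈ sm z S, nrm π) * ∏ π ∈ la z S, XX H (bl H π) ≤ X ∧
    2 * (sm z S).card + (V ^ 2 + 10) ≤ nt z S

/-- TASK KEY: the sum over the boxes (`Pool/Agent/Y696/XL/{Key,Key2,Key3}.lean`) -/
def S_KEY : Prop := S_RCP → S_BIL → S_EQ → S_LA → S_BOX → S_HS → ∃ C : ℝ, 1 ≤ C ∧
  ∀ (X z H k V N : ℕ) (κ : ℝ), 1 ≤ X → 1 ≤ H → 1 ≤ z → 0 ≤ κ → C ≤ κ ^ 24 * z →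
  (H : ℝ) * Real.log X < N →
  |(((RS X z H k V).filter fun S => Nd (sm z S) (la z S) ∧ Gd S).card : ℝ) -
      eta * (((RS X z H k V).filter fun S => Nd (sm z S) (la z S)).card : ℝ)| ≤
    8 * (1 / 2 : ℝ) ^ V * ((RS X z H k V).card : ℝ) +
    (9 * N + 9 : ℝ) ^ k * (3 ^ (9 * k ^ 2 + 9) * κ) * (X * (1 + Real.log X))

/-! ### exceptional sets -/

/-- sets with many primes, sets near the boundary, sets with two primes in a block -/
structure CntP (C : ℝ) : Prop where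
  one : 1 ≤ C
  all : ∀ X : ℕ, 1 ≤ X → ((SS X).card : ℝ) ≤ C * X
  many : ∀ X k : ℕ, 1 ≤ X → (((SS X).filter fun S => k < S.card).card : ℝ) * 2 ^ k ≤
    C * (X * (1 + Real.log X))
  cut : ∀ X z H k : ℕ, 1 ≤ X → 1 ≤ H → 1 ≤ k → (((SS X).filter fun S => S.card ≤ k ∧
    X < (∏ π ∈ sm z S, nrm π) * ∏ π ∈ la z S, XX H (bl H π)).card : ℝ) ≤
      C * (X * (1 + Real.log X)) * (k / H) + C * X * Real.exp (-(Real.log X) / k)
  coll : ∀ X z H : ℕ, 1 ≤ X → 1 ≤ z → 1 ≤ H → (((SS X).filter fun S =>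
    ¬ Set.InjOn (bl H) (la z S : Set RR)).card : ℝ) ≤ C * (X * (1 + Real.log X)) / H + C * X / z

/-- TASK CNT (`Pool/Agent/Y474/XK/CNT.lean`) -/
def S_CNT : Prop := S_HS → S_CHEB → ∃ C : ℝ, CntP C

/-- the product of the norms -/
noncomputable def pN (S : Finset RR) : ℕ := ∏ π ∈ S, nrm π

/-- a general estimate of exceptional sets -/
def S_GEN : Prop := ∀ (a b : ℝ), 0 ≤ a → 0 ≤ b → ∀ Q : ℕ → Finset RR → Prop,
  (∀ (X : ℕ) (S₀ : Finset RR), (∀ u ∈ S₀, PO u ∧ nrm u ≤ zz X) → S₀.card ≤ kk X →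
    ∀ F : Finset (Finset RR),
    (∀ S ∈ F, S ∈ SS X ∧ (S.card ≤ kk X ∧ Q X S) ∧ sm (zz X) S = S₀) → (F.card : ℝ) ≤
      b * a ^ S₀.card * L2 (pN S₀) * (((X / pN S₀ : ℕ) : ℝ) *
        (L2 (X / pN S₀)) ^ (-(1 / 4) : ℝ))) →
  ∀ ε : ℝ, 0 < ε → ∃ X₀ : ℕ, ∀ X : ℕ, X₀ ≤ X → ∀ F : Finset (Finset RR),
    (∀ S ∈ F, S ∈ SS X ∧ S.card ≤ kk X ∧ Q X S) → (F.card : ℝ) ≤ ε * X

/-- TASK GEN (`gen` in `Pool/Agent/Y433/XK/Gen.lean`) -/
def S_GENT : Prop := S_MK → S_GEN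

/-- few sets have degenerate labels -/
def S_BAD : Prop := ∀ ε : ℝ, 0 < ε → ∃ X₀ : ℕ, ∀ X : ℕ, X₀ ≤ X →
  (((SS X).filter fun S => S.card ≤ kk X ∧ ¬ Nd (sm (zz X) S) (la (zz X) S)).card : ℝ) ≤ ε * X

/-- TASK BAD (`t_BAD` in `Pool/Agent/Y433/XK/Few.lean`) -/
def S_BADT : Prop := S_HALG → S_GEN → S_BAD

/-- few sets have few large primes of norm `3` modulo `4` -/
def S_FEW : Prop := ∀ (V : ℕ) (ε : ℝ), 0 < ε → ∃ X₀ : ℕ, ∀ X : ℕ, X₀ ≤ X →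
  (((SS X).filter fun S => S.card ≤ kk X ∧ nt (zz X) S ≤ 2 * (sm (zz X) S).card + V).card : ℝ) ≤
    ε * X

/-- TASK FEW (`t_FEW` in `Pool/Agent/Y433/XK/Few.lean`) -/
def S_FEWT : Prop := S_HALL → S_MK → S_GEN → S_FEW

/-- TASK ASY: the limit (`Pool/Agent/Y703/XK/Asy.lean`) -/
def S_ASY : Prop := S_RCP → S_BIL → S_EQ → S_LA → S_BOX → S_KEY → S_HS → (∃ C : ℝ, CntP C) → S_BAD →
  S_FEW → S_LOW → S_ETA → S_DQ

end Pool.Agent.T2h16.KD
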