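import Pool.Agent.T2h16.KD.Csum
import Pool.Agent.Y703.CQ.Stm

/-!
# Quadratic residue symbols of `ℤ[ω]`, `ω² = ω - 2` (after `Pool/Agent/Y699/E/Sym.lean`)
-/

set_option autoImplicit false
set_option linter.all false

open Finset

namespace Pool.Agent.T2h16.KD

open Pool.Agent.Y698 Pool.Agent.Y698.SG Pool.Agent.Y279.SG
open Pool.Agent.W192.HK (sp)
open Pool.Agent.T2h78.TW (PO te sl)
open Pool.Agent.Y703.CQ (sg)

lemma zmod2_cases (a : ZMod 2) : a = 0 ∨ a = 1 := by
  revert a
  decide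

lemma sg_zero : sg 0 = 1 := by unfold sg; rw [if_pos rfl]

lemma sg_one : sg 1 = -1 := by unfold sg; rw [if_neg (by decide)]

lemma sg_add (a b : ZMod 2) : sg (a + b) = sg a * sg b := by
  rcases zmod2_cases a with rfl | rfl <;> rcases zmod2_cases b with rfl | rfl
  · rw [add_zero, sg_zero, one_mul]
  · rw [zero_add, sg_zero, one_mul]
  · rw [add_zero, sg_zero, mul_one]
  · have : (1 + 1 : ZMod 2) = 0 := by decide
    rw [this, sg_one, sg_zero]
    norm_num

lemma sg_sum {ι : Type*} (s : Finset ι) (f : ι → ZMod 2) : sg (∑ i ∈ s, f i) = ∏ i ∈ s, sg (f i) := by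
  classical
  induction s using Finset.induction_on with
  | empty => rw [sum_empty, prod_empty, sg_zero]
  | insert a s ha ih => rw [sum_insert ha, prod_insert ha, sg_add, ih]

lemma sg_ne {a : ZMod 2} (h : a ≠ 0) : sg a ≠ 1 := by
  rcases zmod2_cases a with rfl | rfl
  · exact absurd rfl h
  · rw [sg_one]; norm_num

lemma sg_ne_zero (a : ZMod 2) : sg a ≠ 0 := by
  rcases zmod2_cases a with rfl | rfl
  · rw [sg_zero]; norm_num
  · rw [sg_one]; norm_num

lemma norm_sg (a : ZMod 2) : ‖sg a‖ = 1 := by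
  rcases zmod2_cases a with rfl | rfl
  · rw [sg_zero, norm_one]
  · rw [sg_one, norm_neg, norm_one]

lemma sg_mul_self (a : ZMod 2) : sg a * sg a = 1 := by
  rw [← sg_add, CharTwo.add_self_eq_zero, sg_zero]

lemma sg_inj {a b : ZMod 2} (h : sg a = sg b) : a = b := by
  rcases zmod2_cases a with rfl | rfl <;> rcases zmod2_cases b with rfl | rfl
  · rfl
  · rw [sg_zero, sg_one] at h; norm_num at h
  · rw [sg_zero, sg_one] at h; norm_num at h
  · rfl

/-- the sign of a product in terms of additive characters -/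
lemma sg_mul (a b : ZMod 2) : sg (a * b) = (1 + sg a + sg b - sg a * sg b) / 2 := by
  rcases zmod2_cases a with rfl | rfl <;> rcases zmod2_cases b with rfl | rfl
  · rw [mul_zero, sg_zero]; norm_num
  · rw [zero_mul, sg_zero, sg_one]; norm_num
  · rw [mul_zero, sg_zero, sg_one]; norm_num
  · rw [mul_one, sg_one]; norm_num

lemma mem_sp {π x : RR} : x ∈ sp π ↔ π ∣ x := Ideal.mem_span_singleton

/-- the quadratic residue symbol -/
noncomputable def chi (π x : RR) : ℂ := sy π x

lemma chi_zero_iff {π x : RR} : chi π x = 0 ↔ π ∣ x := by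
  unfold chi
  rcases sy_val π x with h | h
  · exact ⟨fun _ => mem_sp.1 h.1, fun _ => h.2⟩
  · constructor
    · intro h1
      rcases h.2 with h2 | h2
      · rw [h1] at h2; norm_num at h2
      · rw [h1] at h2; norm_num at h2
    · intro h1
      exact absurd (mem_sp.2 h1) h.1

lemma sg_lg {z : ℂ} (h : z = 1 ∨ z = -1) : sg (lg z) = z := by
  rcases h with rfl | rfl
  · rw [lg_one, sg_zero]
  · rw [lg_neg_one, sg_one]

lemma chi_of {π x : RR} (h : ¬ π ∣ x) : chi π x = sg (sl π x) := by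
  unfold chi
  unfold Pool.Agent.T2h78.TW.sl
  rw [sg_lg (sy_sgn fun h1 => h (mem_sp.1 h1))]

lemma chi_mul {π : RR} (h : PO π) (x y : RR) : chi π (x * y) = chi π x * chi π y :=
  Pool.Agent.T2h78.TW.sy_mul h.pr x y

lemma chi_one {π : RR} (h : PO π) : chi π 1 = 1 := Pool.Agent.T2h78.TW.sy_one' h.pr

lemma chi_per {π a b : RR} (h : PO π) (hab : π ∣ a - b) : chi π a = chi π b :=
  sy_per π a b (mem_sp.2 hab)

lemma chi_norm (π a : RR) : ‖chi π a‖ ≤ 1 := by
  unfold chi
  rcases sy_val π a with h | h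
  · rw [h.2, norm_zero]; exact zero_le_one
  · rcases h.2 with h2 | h2
    · rw [h2, norm_one]
    · rw [h2, norm_neg, norm_one]

lemma chi_neg_one {π : RR} (h : PO π) : chi π (-1) = sg (te π) := by
  rw [chi_of, h.sl_neg]
  intro hd
  exact h.pr.not_unit (isUnit_of_dvd_one ((dvd_neg.1 hd)))

/-- the composite symbol -/
noncomputable def jac (n a : RR) : ℂ := ∏ π ∈ PD n, chi π a

/-- the sum of the signs -/
noncomputable def tes (n : RR) : ZMod 2 := ∑ π ∈ PD n, te π

lemma jac_one_left (a : RR) : jac 1 a = 1 := by unfold jac; rw [PD_one]; simp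

lemma jac_prime {π : RR} (h : PO π) (a : RR) : jac π a = chi π a := by
  unfold jac; rw [PD_prime h]; simp

lemma jac_mul_right {n : RR} (hn : n ≠ 0) (a b : RR) : jac n (a * b) = jac n a * jac n b := by
  unfold jac
  rw [← Finset.prod_mul_distrib]
  exact Finset.prod_congr rfl fun π hπ => chi_mul ((mem_PD hn).1 hπ).1 _ _

lemma jac_one_right {n : RR} (hn : n ≠ 0) : jac n 1 = 1 := by
  unfold jac
  exact Finset.prod_eq_one fun π hπ => chi_one ((mem_PD hn).1 hπ).1

lemma jac_mul_left {m n : RR} (hm : m ≠ 0) (hn : n ≠ 0) (h : IsCoprime m n) (a : RR) :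
    jac (m * n) a = jac m a * jac n a := by
  classical
  unfold jac
  rw [PD_mul hm hn, Finset.prod_union (PD_disj hm hn h)]

lemma jac_prod {n : RR} (hn : n ≠ 0) {κ : Type*} (s : Finset κ) (f : κ → RR) :
    jac n (∏ i ∈ s, f i) = ∏ i ∈ s, jac n (f i) := by
  classical
  induction s using Finset.induction_on with
  | empty => rw [Finset.prod_empty, Finset.prod_empty, jac_one_right hn]
  | insert a s ha ih => rw [Finset.prod_insert ha, Finset.prod_insert ha, jac_mul_right hn, ih]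

lemma jac_per {n a b : RR} (hn : n ≠ 0) (h : n ∣ a - b) : jac n a = jac n b :=
  Finset.prod_congr rfl fun _ hπ => chi_per ((mem_PD hn).1 hπ).1 (((mem_PD hn).1 hπ).2.trans h)

lemma jac_norm (n a : RR) : ‖jac n a‖ ≤ 1 := by
  unfold jac
  rw [norm_prod]
  exact prod_le_one (fun _ _ => norm_nonneg _) fun _ _ => chi_norm _ _

lemma jac_ne_zero {n a : RR} (hn : PS n) (h : IsCoprime n a) : jac n a ≠ 0 := by
  unfold jac
  rw [Finset.prod_ne_zero_iff]
  intro π hπ h0
  have h1 := (mem_PD hn.ne).1 hπ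
  exact h1.1.pr.not_unit (h.isUnit_of_dvd' h1.2 (chi_zero_iff.1 h0))

lemma jac_cop {n a : RR} (hn : PS n) (h : jac n a ≠ 0) : IsCoprime n a := by
  have h3 : ∏ π ∈ PD n, π = n := hn.prod
  rw [← h3, IsCoprime.prod_left_iff]
  intro π hπ
  have hπP := ((mem_PD hn.ne).1 hπ).1
  rw [hπP.pr.irreducible.coprime_iff_not_dvd]
  intro hd
  exact h (prod_eq_zero hπ (chi_zero_iff.2 hd))

/-- a quadratic nonresidue -/
lemma exists_nonres {π : RR} (h : PO π) : ∃ b : RR, ¬ π ∣ b ∧ chi π b ≠ 1 := by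
  obtain ⟨x, hx, hx'⟩ := h.sex
  refine ⟨x, fun hd => hx (mem_sp.2 hd), ?_⟩
  show sy π x ≠ 1
  rw [hx']
  norm_num

end Pool.Agent.T2h16.KD
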